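import Mathlib

/-!
# Martingale Hardy spaces, atomic blocks and the Lipschitz class for `0 < p < 1`

The filtration is indexed by `n : ℕ`, the index `n` standing for `k = n + 1`.
-/

set_option autoImplicit false

namespace Pool.Agent.R285.AtomicBlocks

open MeasureTheory ENNReal Filter Topology

variable {Ω : Type} {mΩ : MeasurableSpace Ω}

/-- The martingale differences `df_1 = E_1 f`, `df_k = E_k f - E_{k-1} f`. -/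
noncomputable def mdiff (μ : Measure Ω) (ℱ : Filtration ℕ mΩ) (f : Ω → ℂ) : ℕ → Ω → ℂ
  | 0 => μ[f | ℱ 0]
  | n + 1 => μ[f | ℱ (n + 1)] - μ[f | ℱ n]

/-- The martingale Hardy quasi-norm `‖(∑_k |df_k|²)^{1/2}‖_p`. -/
noncomputable def hardyNorm (μ : Measure Ω) (ℱ : Filtration ℕ mΩ) (p : ℝ) (f : Ω → ℂ) : ℝ≥0∞ :=
  (∫⁻ x, (∑' n, ‖mdiff μ ℱ f n x‖ₑ ^ 2) ^ (p / 2) ∂μ) ^ (1 / p)

/-- `b = ∑_j λ_j a_j` (convergence in `L_p`), `E_k b = 0`, where each `a_j` is supported (up to a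
null set) in some `A_j ∈ Σ_{k_j}`, `k_j ≥ k`, and
`‖a_j‖_q ≤ μ(A_j)^{1 - 1/p - 1/q'} / (k_j - k + 1)`, `q' = q / (q - 1)`. -/
structure IsBlockRep (μ : Measure Ω) (ℱ : Filtration ℕ mΩ) (p q : ℝ) (b : Ω → ℂ) (k : ℕ)
    (lam : ℕ → ℂ) (a : ℕ → Ω → ℂ) : Prop where
  /-- `E_k b = 0` -/
  mean_zero : μ[b | ℱ k] =ᵐ[μ] 0
  /-- the subatoms are measurable functions -/
  meas : ∀ j, AEStronglyMeasurable (a j) μ
  /-- size and support of the subatoms -/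
  atoms : ∀ j, ∃ kj : ℕ, k ≤ kj ∧ ∃ A : Set Ω, MeasurableSet[ℱ kj] A ∧
    (∀ᵐ x ∂μ, x ∉ A → a j x = 0) ∧
    eLpNorm (a j) (ENNReal.ofReal q) μ ≤
      μ A ^ (1 - 1 / p - 1 / (q / (q - 1))) * ((kj - k + 1 : ℕ) : ℝ≥0∞)⁻¹
  /-- `b = ∑_j λ_j a_j` in `L_p` -/
  sum : Tendsto (fun n => eLpNorm (b - ∑ j ∈ Finset.range n, lam j • a j)
    (ENNReal.ofReal p) μ) atTop (𝓝 0)

/-- `b` is a `(p,q)`-atomic block. -/
def IsBlock (μ : Measure Ω) (ℱ : Filtration ℕ mΩ) (p q : ℝ) (b : Ω → ℂ) : Prop :=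
  Integrable b μ ∧ (AEStronglyMeasurable[ℱ 0] b μ ∨ ∃ k lam a, IsBlockRep μ ℱ p q b k lam a)

open scoped Classical in
/-- The size `|b|` of a block: `‖b‖_p` if `b` is `Σ_1`-measurable, otherwise the infimum of
`∑_j |λ_j|` over all representations. -/
noncomputable def blockSize (μ : Measure Ω) (ℱ : Filtration ℕ mΩ) (p q : ℝ) (b : Ω → ℂ) : ℝ≥0∞ :=
  if AEStronglyMeasurable[ℱ 0] b μ then eLpNorm b (ENNReal.ofReal p) μ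
  else ⨅ (k : ℕ) (lam : ℕ → ℂ) (a : ℕ → Ω → ℂ) (_ : IsBlockRep μ ℱ p q b k lam a),
    ∑' j, ‖lam j‖ₑ

/-- The atomic quasi-norm `‖f‖_atb = inf (∑_i |b_i|^p)^{1/p}` over all representations
`f = ∑_i b_i` by atomic blocks, the sum converging in `L_p`. -/
noncomputable def atbNorm (μ : Measure Ω) (ℱ : Filtration ℕ mΩ) (p q : ℝ) (f : Ω → ℂ) : ℝ≥0∞ :=
  ⨅ (b : ℕ → Ω → ℂ) (_ : (∀ i, IsBlock μ ℱ p q (b i)) ∧
    Tendsto (fun n => eLpNorm (f - ∑ i ∈ Finset.range n, b i) (ENNReal.ofReal p) μ)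
      atTop (𝓝 0)), (∑' i, blockSize μ ℱ p q (b i) ^ p) ^ (1 / p)

/-- The norm of the Lipschitz class: the supremum over `k ≥ 1` and non-null `A ∈ Σ_k` of
`μ(A)^{1-1/p} [ (μ(A)⁻¹ ∫_A |g - E_k g|^q)^{1/q} + ‖dg_k‖_∞ ]`. -/
noncomputable def lipNorm (μ : Measure Ω) (ℱ : Filtration ℕ mΩ) (p q : ℝ) (g : Ω → ℂ) : ℝ≥0∞ :=
  ⨆ (k : ℕ) (A : Set Ω) (_ : MeasurableSet[ℱ k] A ∧ μ A ≠ 0),
    μ A ^ (1 - 1 / p) * (((μ A)⁻¹ * ∫⁻ x in A, ‖g x - (μ[g | ℱ k]) x‖ₑ ^ q ∂μ) ^ (1 / q) +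
      eLpNorm (mdiff μ ℱ g k) ⊤ μ)

/-- The smaller norm in which `‖dg_k‖_∞` is replaced by the essential supremum of `|dg_k|` over
`A`. -/
noncomputable def lipNormLocal (μ : Measure Ω) (ℱ : Filtration ℕ mΩ) (p q : ℝ) (g : Ω → ℂ) :
    ℝ≥0∞ :=
  ⨆ (k : ℕ) (A : Set Ω) (_ : MeasurableSet[ℱ k] A ∧ μ A ≠ 0),
    μ A ^ (1 - 1 / p) * (((μ A)⁻¹ * ∫⁻ x in A, ‖g x - (μ[g | ℱ k]) x‖ₑ ^ q ∂μ) ^ (1 / q) +
      eLpNorm (mdiff μ ℱ g k) ⊤ (μ.restrict A))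

lemma lipNormLocal_le (μ : Measure Ω) (ℱ : Filtration ℕ mΩ) (p q : ℝ) (g : Ω → ℂ) :
    lipNormLocal μ ℱ p q g ≤ lipNorm μ ℱ p q g := by
  refine iSup_mono fun k => iSup_mono fun A => iSup_mono fun _ => ?_
  gcongr
  exact Measure.restrict_le_self

end Pool.Agent.R285.AtomicBlocks
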