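import Mathlib

/-!
# Semiconcave solutions of a discounted Bellman equation on the circle
-/

set_option autoImplicit false

open Real Set Filter Topology BoundedContinuousFunction

namespace Pool.Agent.R285.Bary

/-- Semiconcavity with constant `C`. -/
def SC (C : ℝ) (U : ℝ → ℝ) : Prop :=
  ∀ x y t : ℝ, 0 ≤ t → t ≤ 1 →
    (1 - t) * U x + t * U y - C / 2 * (t * (1 - t)) * (y - x) ^ 2 ≤ U ((1 - t) * x + t * y)

theorem SC.mono {C C' : ℝ} {U : ℝ → ℝ} (h : SC C U) (hC : C ≤ C') : SC C' U := by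
  intro x y t h0 h1
  have := h x y t h0 h1
  have h2 : 0 ≤ (t * (1 - t)) * (y - x) ^ 2 :=
    mul_nonneg (mul_nonneg h0 (by linarith)) (sq_nonneg _)
  nlinarith

/-- A pointwise minimum of semiconcave functions is semiconcave. -/
theorem SC.of_min {C : ℝ} {U : ℝ → ℝ} {ι : Type} (f : ι → ℝ → ℝ) (hf : ∀ i, SC C (f i))
    (hle : ∀ i y, U y ≤ f i y) (hex : ∀ y, ∃ i, U y = f i y) : SC C U := by
  intro x y t h0 h1
  obtain ⟨i, hi⟩ := hex ((1 - t) * x + t * y)
  rw [hi]
  have h2 := hf i x y t h0 h1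
  have h3 := mul_le_mul_of_nonneg_left (hle i x) (show 0 ≤ 1 - t by linarith)
  have h4 := mul_le_mul_of_nonneg_left (hle i y) h0
  linarith

theorem SC.four {C : ℝ} {U : ℝ → ℝ} (h : SC C U) (y k l : ℝ) (hk : 0 ≤ k) (hl : 0 ≤ l) :
    U (y + k + l) + U y ≤ U (y + k) + U (y + l) + C * k * l := by
  rcases eq_or_lt_of_le (add_nonneg hk hl) with h0 | h0
  · have hk0 : k = 0 := by linarith
    have hl0 : l = 0 := by linarith
    subst hk0; subst hl0
    simp
  · have hne : k + l ≠ 0 := h0.ne'
    have e1 := h y (y + k + l) (k / (k + l)) (by positivity) (by rw [div_le_one h0]; linarith)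
    have e2 := h y (y + k + l) (l / (k + l)) (by positivity) (by rw [div_le_one h0]; linarith)
    have a1 : (1 - k / (k + l)) * y + k / (k + l) * (y + k + l) = y + k := by
      field_simp; ring
    have a2 : (1 - l / (k + l)) * y + l / (k + l) * (y + k + l) = y + l := by
      field_simp; ring
    rw [a1] at e1
    rw [a2] at e2
    have b1 : C / 2 * (k / (k + l) * (1 - k / (k + l))) * (y + k + l - y) ^ 2 = C / 2 * k * l := by
      field_simp; ring
    have b2 : C / 2 * (l / (k + l) * (1 - l / (k + l))) * (y + k + l - y) ^ 2 = C / 2 * k * l := by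
      field_simp; ring
    rw [b1] at e1
    rw [b2] at e2
    have c1 : 1 - k / (k + l) = l / (k + l) := by field_simp; ring
    have c2 : 1 - l / (k + l) = k / (k + l) := by field_simp; ring
    have c3 : k / (k + l) + l / (k + l) = 1 := by field_simp
    rw [c1] at e1
    rw [c2] at e2
    have d1 : l / (k + l) * U y + k / (k + l) * U y = U y := by
      rw [← add_mul, add_comm, c3, one_mul]
    have d2 : l / (k + l) * U (y + k + l) + k / (k + l) * U (y + k + l) = U (y + k + l) := by
      rw [← add_mul, add_comm, c3, one_mul]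
    have d3 : C / 2 * k * l + C / 2 * k * l = C * k * l := by ring
    linarith

/-- Periodic semiconcave functions. -/
theorem SC.periodic {C w : ℝ} {U : ℝ → ℝ} (h : SC C U) (hp : ∀ y, U (y + w) = U y) (y t : ℝ)
    (h0 : 0 ≤ t) (h1 : t ≤ 1) : U y - C / 2 * (t * (1 - t)) * w ^ 2 ≤ U (y + t * w) := by
  have := h y (y + w) t h0 h1
  rw [hp, show (1 - t) * y + t * (y + w) = y + t * w by ring, show y + w - y = w by ring] at this
  linarith

theorem SC.osc {C w : ℝ} {U : ℝ → ℝ} (h : SC C U) (hC : 0 ≤ C) (hw : 0 < w)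
    (hp : ∀ y, U (y + w) = U y) (y y' : ℝ) : U y - C * w ^ 2 ≤ U y' := by
  have hp' : ∀ (n : ℤ) y, U (y + n * w) = U y := by
    intro n y
    have hper : Function.Periodic U w := hp
    have := hper.int_mul n y
    exact this
  have e := h.periodic hp y (Int.fract ((y' - y) / w)) (Int.fract_nonneg _) (Int.fract_lt_one _).le
  have e1 : y' = y + Int.fract ((y' - y) / w) * w + ⌊(y' - y) / w⌋ * w := by
    rw [add_assoc, ← add_mul, Int.fract_add_floor]
    field_simp
    ring
  rw [e1, hp']
  have h3 : Int.fract ((y' - y) / w) * (1 - Int.fract ((y' - y) / w)) ≤ 1 := by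
    have := Int.fract_nonneg ((y' - y) / w)
    have := (Int.fract_lt_one ((y' - y) / w)).le
    nlinarith
  have h4 : 0 ≤ Int.fract ((y' - y) / w) * (1 - Int.fract ((y' - y) / w)) :=
    mul_nonneg (Int.fract_nonneg _) (by linarith [(Int.fract_lt_one ((y' - y) / w)).le])
  have h5 : C / 2 * (Int.fract ((y' - y) / w) * (1 - Int.fract ((y' - y) / w))) * w ^ 2 ≤
      C * w ^ 2 := by
    apply mul_le_mul_of_nonneg_right _ (sq_nonneg w)
    nlinarith
  linarith

theorem SC.scale {C b : ℝ} {U : ℝ → ℝ} (h : SC C U) : SC (b ^ 2 * C) (fun y => U (b * y)) := by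
  intro x y t h0 h1
  have := h (b * x) (b * y) t h0 h1
  show (1 - t) * U (b * x) + t * U (b * y) - b ^ 2 * C / 2 * (t * (1 - t)) * (y - x) ^ 2 ≤
    U (b * ((1 - t) * x + t * y))
  rw [show b * ((1 - t) * x + t * y) = (1 - t) * (b * x) + t * (b * y) by ring]
  nlinarith [this]

theorem SC.add {C C' : ℝ} {U U' : ℝ → ℝ} (h : SC C U) (h' : SC C' U') :
    SC (C + C') (fun y => U y + U' y) := by
  intro x y t h0 h1
  have e1 := h x y t h0 h1
  have e2 := h' x y t h0 h1
  show (1 - t) * (U x + U' x) + t * (U y + U' y) - (C + C') / 2 * (t * (1 - t)) * (y - x) ^ 2 ≤ _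
  nlinarith [e1, e2]

theorem SC.smul {C g : ℝ} {U : ℝ → ℝ} (h : SC C U) (hg : 0 ≤ g) :
    SC (g * C) (fun y => g * U y) := by
  intro x y t h0 h1
  have e1 := mul_le_mul_of_nonneg_left (h x y t h0 h1) hg
  show (1 - t) * (g * U x) + t * (g * U y) - g * C / 2 * (t * (1 - t)) * (y - x) ^ 2 ≤ _
  nlinarith [e1]

theorem SC.shift {C b : ℝ} {U : ℝ → ℝ} (h : SC C U) : SC C (fun y => U (y + b)) := by
  intro x y t h0 h1
  have e1 := h (x + b) (y + b) t h0 h1
  show (1 - t) * U (x + b) + t * U (y + b) - C / 2 * (t * (1 - t)) * (y - x) ^ 2 ≤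
    U ((1 - t) * x + t * y + b)
  rw [show (1 - t) * x + t * y + b = (1 - t) * (x + b) + t * (y + b) by ring]
  rw [show y + b - (x + b) = y - x by ring] at e1
  exact e1

/-- The cost function `h_T(y) = -cos(y - T)`. -/
noncomputable def hh (T y : ℝ) : ℝ := -Real.cos (y - T)

theorem convex_aux : ConvexOn ℝ univ (fun z : ℝ => z ^ 2 / 2 + Real.cos z) := by
  have hd : ∀ z : ℝ, HasDerivAt (fun z : ℝ => z ^ 2 / 2 + Real.cos z) (z - Real.sin z) z := by
    intro z
    have h1 := ((hasDerivAt_pow 2 z).div_const 2).add (Real.hasDerivAt_cos z)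
    exact h1.congr_deriv (by norm_num; ring)
  have hd2 : ∀ z : ℝ, HasDerivAt (fun z : ℝ => z - Real.sin z) (1 - Real.cos z) z := fun z =>
    (hasDerivAt_id z).sub (Real.hasDerivAt_sin z)
  apply MonotoneOn.convexOn_of_deriv convex_univ
  · exact fun z _ => (hd z).continuousAt.continuousWithinAt
  · exact fun z _ => (hd z).differentiableAt.differentiableWithinAt
  · have he : deriv (fun z : ℝ => z ^ 2 / 2 + Real.cos z) = fun z => z - Real.sin z :=
      funext fun z => (hd z).deriv
    rw [he]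
    apply Monotone.monotoneOn
    apply monotone_of_deriv_nonneg
    · exact fun z => (hd2 z).differentiableAt
    · intro z
      rw [(hd2 z).deriv]
      linarith [Real.cos_le_one z]

theorem hh_SC (T : ℝ) : SC 1 (hh T) := by
  intro x y t h0 h1
  have h := convex_aux.2 (mem_univ (x - T)) (mem_univ (y - T)) (show 0 ≤ 1 - t by linarith) h0
    (by ring)
  simp only [smul_eq_mul] at h
  unfold hh
  rw [show (1 - t) * x + t * y - T = (1 - t) * (x - T) + t * (y - T) by ring]
  nlinarith [h]

theorem hh_abs (T y : ℝ) : |hh T y| ≤ 1 := by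
  unfold hh
  rw [abs_neg]
  exact Real.abs_cos_le_one _

theorem hh_cont : Continuous fun x : ℝ × ℝ => hh x.1 x.2 := by
  unfold hh
  fun_prop

section bellman

variable (p q : ℕ)

/-- `2π/q` -/
noncomputable def om : ℝ := 2 * π / q

/-- `p/q` -/
noncomputable def be : ℝ := p / q

theorem om_pos (hq : 0 < q) : 0 < om q := by
  unfold om
  have : (0 : ℝ) < q := by exact_mod_cast hq
  positivity

theorem q_om (hq : 0 < q) : q * om q = 2 * π := by
  unfold om
  have : (q : ℝ) ≠ 0 := by exact_mod_cast hq.ne'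
  field_simp

theorem be_two_pi (hq : 0 < q) : be p q * (2 * π) = p * om q := by
  unfold om be
  have : (q : ℝ) ≠ 0 := by exact_mod_cast hq.ne'
  field_simp

/-- The family of competitors in the Bellman equation. -/
noncomputable def cand (g : ℝ) (U : ℝ → ℝ → ℝ) (T y : ℝ) : ℝ := hh T y + g * U T (be p q * y)

theorem cand_periodic (hq : 0 < q) (g : ℝ) (U : ℝ → ℝ → ℝ) (T : ℝ)
    (hU : ∀ y, U T (y + om q) = U T y) (y : ℝ) : cand p q g U T (y + 2 * π) = cand p q g U T y := by
  unfold cand hh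
  have h1 : y + 2 * π - T = y - T + 2 * π := by ring
  rw [h1, Real.cos_add_two_pi, mul_add, be_two_pi p q hq]
  congr 2
  have hper : Function.Periodic (U T) (om q) := hU
  exact hper.nat_mul p _

/-- The Bellman operator. -/
noncomputable def Lop (hq : 0 < q) (g : ℝ) (U : (ℝ × ℝ) →ᵇ ℝ) : (ℝ × ℝ) →ᵇ ℝ :=
  BoundedContinuousFunction.ofNormedAddCommGroup
    (fun x => (Finset.range q).inf' (Finset.nonempty_range_iff.mpr hq.ne')
      fun j => hh x.1 (x.2 + j * om q) + g * U (x.1, be p q * (x.2 + j * om q)))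
    (by
      apply Continuous.finset_inf'_apply
      intro j _
      apply Continuous.add
      · exact hh_cont.comp (show Continuous fun x : ℝ × ℝ => (x.1, x.2 + j * om q) by fun_prop)
      · exact continuous_const.mul (U.continuous.comp
          (show Continuous fun x : ℝ × ℝ => (x.1, be p q * (x.2 + j * om q)) by fun_prop)))
    (1 + |g| * ‖U‖)
    (by
      intro x
      obtain ⟨j, hj, he⟩ := Finset.exists_mem_eq_inf' (Finset.nonempty_range_iff.mpr hq.ne')
        (fun j : ℕ => hh x.1 (x.2 + j * om q) + g * U (x.1, be p q * (x.2 + j * om q)))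
      rw [he, Real.norm_eq_abs]
      calc |hh x.1 (x.2 + j * om q) + g * U (x.1, be p q * (x.2 + j * om q))|
          ≤ |hh x.1 (x.2 + j * om q)| + |g * U (x.1, be p q * (x.2 + j * om q))| := abs_add_le _ _
        _ ≤ 1 + |g| * ‖U‖ := by
            apply add_le_add (hh_abs _ _)
            rw [abs_mul]
            exact mul_le_mul_of_nonneg_left (U.norm_coe_le_norm _) (abs_nonneg _))

theorem Lop_apply (hq : 0 < q) (g : ℝ) (U : (ℝ × ℝ) →ᵇ ℝ) (x : ℝ × ℝ) :
    Lop p q hq g U x = (Finset.range q).inf' (Finset.nonempty_range_iff.mpr hq.ne')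
      fun j => hh x.1 (x.2 + j * om q) + g * U (x.1, be p q * (x.2 + j * om q)) := rfl

theorem Lop_le (hq : 0 < q) (g : ℝ) (U : (ℝ × ℝ) →ᵇ ℝ) (x : ℝ × ℝ) (j : ℕ) (hj : j < q) :
    Lop p q hq g U x ≤ hh x.1 (x.2 + j * om q) + g * U (x.1, be p q * (x.2 + j * om q)) := by
  rw [Lop_apply]
  exact Finset.inf'_le _ (Finset.mem_range.mpr hj)

theorem Lop_ex (hq : 0 < q) (g : ℝ) (U : (ℝ × ℝ) →ᵇ ℝ) (x : ℝ × ℝ) :
    ∃ j : ℕ, j < q ∧
      Lop p q hq g U x = hh x.1 (x.2 + j * om q) + g * U (x.1, be p q * (x.2 + j * om q)) := by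
  obtain ⟨j, hj, he⟩ := Finset.exists_mem_eq_inf' (Finset.nonempty_range_iff.mpr hq.ne')
    (fun j : ℕ => hh x.1 (x.2 + j * om q) + g * U (x.1, be p q * (x.2 + j * om q)))
  exact ⟨j, Finset.mem_range.mp hj, he⟩

theorem Lop_contract (hq : 0 < q) (g : NNReal) (hg : g < 1) :
    ContractingWith g (Lop p q hq g) := by
  refine ⟨hg, LipschitzWith.of_dist_le_mul fun U U' => ?_⟩
  rw [BoundedContinuousFunction.dist_le (by positivity)]
  intro x
  have key : ∀ U U' : (ℝ × ℝ) →ᵇ ℝ, Lop p q hq g U x - Lop p q hq g U' x ≤ g * dist U U' := by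
    intro U U'
    obtain ⟨j, hj, he⟩ := Lop_ex p q hq g U' x
    have h1 := Lop_le p q hq g U x j hj
    have h2 : U (x.1, be p q * (x.2 + j * om q)) - U' (x.1, be p q * (x.2 + j * om q)) ≤
        dist U U' := by
      have := U.dist_coe_le_dist (g := U') (x.1, be p q * (x.2 + j * om q))
      rw [Real.dist_eq] at this
      exact (le_abs_self _).trans this
    have h3 := mul_le_mul_of_nonneg_left h2 g.coe_nonneg
    rw [he]
    linarith
  rw [Real.dist_eq, abs_sub_le_iff]
  refine ⟨key U U', ?_⟩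
  rw [dist_comm]
  exact key U' U

/-- The invariant class. -/
def Good (C : ℝ) (U : (ℝ × ℝ) →ᵇ ℝ) : Prop :=
  (∀ T y, U (T, y + om q) = U (T, y)) ∧ ∀ T, SC C (fun y => U (T, y))

theorem Lop_le_int (hq : 0 < q) (g : ℝ) (U : (ℝ × ℝ) →ᵇ ℝ)
    (hU : ∀ T y, U (T, y + om q) = U (T, y)) (T y : ℝ) (j : ℤ) :
    Lop p q hq g U (T, y) ≤ hh T (y + j * om q) + g * U (T, be p q * (y + j * om q)) := by
  have hq' : (q : ℤ) ≠ 0 := by exact_mod_cast hq.ne'
  have h0 : 0 ≤ j % q := Int.emod_nonneg _ hq'
  have h1 : j % q < q := Int.emod_lt_of_pos _ (by exact_mod_cast hq)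
  have e := Lop_le p q hq g U (T, y) (j % q).toNat (by omega)
  refine e.trans (le_of_eq ?_)
  have hper : Function.Periodic (cand p q g (fun T y => U (T, y)) T) (2 * π) :=
    fun y => cand_periodic p q hq g (fun T y => U (T, y)) T (hU T) y
  have h2 := hper.int_mul (j / q) (y + ((j % q).toNat : ℕ) * om q)
  have h3 : y + ((j % q).toNat : ℕ) * om q + (j / q : ℤ) * (2 * π) = y + j * om q := by
    rw [← q_om q hq]
    have h4 : (((j % q).toNat : ℕ) : ℝ) = ((j % q : ℤ) : ℝ) := by
      have : (((j % q).toNat : ℕ) : ℤ) = j % q := Int.toNat_of_nonneg h0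
      exact_mod_cast this
    rw [h4]
    have h5 : (j : ℝ) = (j % q : ℤ) + q * (j / q : ℤ) := by
      exact_mod_cast (Int.emod_add_mul_ediv j q).symm
    rw [h5]
    push_cast
    ring
  rw [h3] at h2
  exact h2.symm

theorem Lop_good (hq : 0 < q) (g C : ℝ) (hg : 0 ≤ g) (hg1 : g ≤ 1) (hC : 0 ≤ C)
    (hCC : 1 + be p q ^ 2 * C ≤ C) (U : (ℝ × ℝ) →ᵇ ℝ) (hU : Good q C U) :
    Good q C (Lop p q hq g U) := by
  obtain ⟨h1, h2⟩ := hU
  constructor
  · intro T y
    apply le_antisymm
    · obtain ⟨j, hj, he⟩ := Lop_ex p q hq g U (T, y)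
      have := Lop_le_int p q hq g U h1 T (y + om q) ((j : ℤ) - 1)
      rw [he]
      refine this.trans (le_of_eq ?_)
      push_cast
      rw [show y + om q + ((j : ℝ) - 1) * om q = y + j * om q by ring]
    · obtain ⟨j, hj, he⟩ := Lop_ex p q hq g U (T, y + om q)
      have := Lop_le_int p q hq g U h1 T y ((j : ℤ) + 1)
      rw [he]
      refine this.trans (le_of_eq ?_)
      push_cast
      rw [show y + om q + (j : ℝ) * om q = y + (j + 1) * om q by ring]
  · intro T
    apply SC.of_min (ι := ℤ)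
      (fun j y => hh T (y + j * om q) + g * U (T, be p q * (y + j * om q)))
    · intro j
      have e1 : SC 1 (fun y => hh T (y + j * om q)) := (hh_SC T).shift
      have e2 : SC (be p q ^ 2 * C) (fun y => U (T, be p q * y)) := (h2 T).scale
      have e3 : SC (g * (be p q ^ 2 * C)) (fun y => g * U (T, be p q * (y + j * om q))) :=
        (e2.shift (b := j * om q)).smul hg
      refine (e1.add e3).mono ?_
      have : g * (be p q ^ 2 * C) ≤ be p q ^ 2 * C :=
        mul_le_of_le_one_left (by positivity) hg1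
      linarith
    · intro j y
      exact Lop_le_int p q hq g U h1 T y j
    · intro y
      obtain ⟨j, _, he⟩ := Lop_ex p q hq g U (T, y)
      exact ⟨j, by rw [he]; push_cast; rfl⟩

theorem good_closed (C : ℝ) (F : ℕ → ((ℝ × ℝ) →ᵇ ℝ)) (U : (ℝ × ℝ) →ᵇ ℝ)
    (hF : ∀ n, Good q C (F n)) (hlim : Tendsto F atTop (𝓝 U)) : Good q C U := by
  have hpt : ∀ x, Tendsto (fun n => F n x) atTop (𝓝 (U x)) := by
    intro x
    have := (BoundedContinuousFunction.tendsto_iff_tendstoUniformly.mp hlim)
    exact this.tendsto_at x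
  constructor
  · intro T y
    apply tendsto_nhds_unique (hpt (T, y + om q))
    have := hpt (T, y)
    refine this.congr fun n => ?_
    exact ((hF n).1 T y).symm
  · intro T x y t h0 h1
    refine le_of_tendsto_of_tendsto' (f := fun n => (1 - t) * F n (T, x) + t * F n (T, y) -
      C / 2 * (t * (1 - t)) * (y - x) ^ 2) ?_ (hpt (T, (1 - t) * x + t * y)) ?_
    · exact (((hpt (T, x)).const_mul _).add ((hpt (T, y)).const_mul _)).sub_const _
    · intro n
      exact (hF n).2 T x y t h0 h1

/-- Discounted Bellman function. -/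
theorem bellman (hq : 0 < q) (hpq : p < q) (g : ℝ) (hg : 0 ≤ g) (hg1 : g < 1) :
    ∃ U : ℝ → ℝ → ℝ, (Continuous fun x : ℝ × ℝ => U x.1 x.2) ∧
      (∀ T y, U T (y + om q) = U T y) ∧ (∀ T, SC (1 / (1 - be p q ^ 2)) (U T)) ∧
      (∀ T y (j : ℤ), U T y ≤ hh T (y + j * om q) + g * U T (be p q * (y + j * om q))) ∧
      (∀ T y, ∃ j : ℕ, j < q ∧
        U T y = hh T (y + j * om q) + g * U T (be p q * (y + j * om q))) := by
  have hb0 : 0 ≤ be p q := by unfold be; positivity
  have hb1 : be p q < 1 := by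
    unfold be
    rw [div_lt_one (by exact_mod_cast hq)]
    exact_mod_cast hpq
  have hb2 : 0 < 1 - be p q ^ 2 := by nlinarith
  set C := 1 / (1 - be p q ^ 2) with hC
  have hC0 : 0 ≤ C := by positivity
  have hCC : 1 + be p q ^ 2 * C ≤ C := by
    rw [hC]
    apply le_of_eq
    field_simp
    ring
  set gn : NNReal := ⟨g, hg⟩ with hgn
  have hgn1 : gn < 1 := by rw [← NNReal.coe_lt_coe]; exact hg1
  have hct := Lop_contract p q hq gn hgn1
  set U := ContractingWith.fixedPoint (Lop p q hq gn) hct with hU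
  have hfix : Lop p q hq gn U = U := hct.fixedPoint_isFixedPt
  have hgood : Good q C U := by
    apply good_closed q C (fun n => (Lop p q hq gn)^[n] 0) U
    · intro n
      induction n with
      | zero =>
        refine ⟨fun T y => by simp, fun T => ?_⟩
        intro x y t h0 h1
        simp only [Function.iterate_zero, id_eq, BoundedContinuousFunction.coe_zero, Pi.zero_apply,
          mul_zero, add_zero, zero_sub, Left.neg_nonpos_iff]
        have := mul_nonneg h0 (show 0 ≤ 1 - t by linarith)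
        positivity
      | succ n ih =>
        show Good q C ((Lop p q hq gn)^[n + 1] 0)
        rw [Function.iterate_succ_apply']
        exact Lop_good p q hq g C hg hg1.le hC0 hCC _ ih
    · exact hct.tendsto_iterate_fixedPoint 0
  refine ⟨fun T y => U (T, y), U.continuous, hgood.1, hgood.2, ?_, ?_⟩
  · intro T y j
    have := Lop_le_int p q hq g U hgood.1 T y j
    have e : Lop p q hq g U (T, y) = U (T, y) := by
      have := DFunLike.congr_fun hfix (T, y)
      exact this
    rw [e] at this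
    exact this
  · intro T y
    obtain ⟨j, hj, he⟩ := Lop_ex p q hq g U (T, y)
    refine ⟨j, hj, ?_⟩
    have e : Lop p q hq g U (T, y) = U (T, y) := by
      have := DFunLike.congr_fun hfix (T, y)
      exact this
    show U (T, y) = _
    rw [← e]
    exact he

end bellman

end Pool.Agent.R285.Bary
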