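import Mathlib
import Pool.Agent.R285.BaryA

/-!
# The contact set of the Bellman function is an arc of length `2π/q`
-/

set_option autoImplicit false

open Real Set Filter Topology

namespace Pool.Agent.R285.Bary

/-- `π/q` -/
noncomputable def al (q : ℕ) : ℝ := π / q

/-- `β/(1+β)` with `β = p/q`. -/
noncomputable def ka (p q : ℕ) : ℝ := be p q / (1 + be p q)

theorem om_eq (q : ℕ) : om q = 2 * al q := by unfold om al; ring

section facts

variable {p q : ℕ} (hq : 0 < q) (hpq : p < q)

include hq hpq

theorem be_nonneg : 0 ≤ be p q := by unfold be; positivity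

theorem be_lt_one : be p q < 1 := by
  unfold be
  rw [div_lt_one (by exact_mod_cast hq)]
  exact_mod_cast hpq

theorem C_eq : 1 / (1 - be p q ^ 2) * be p q * (1 - be p q) = ka p q := by
  have h0 := be_nonneg hq hpq
  have h1 := be_lt_one hq hpq
  unfold ka
  have h2 : 1 - be p q ^ 2 = (1 - be p q) * (1 + be p q) := by ring
  have h3 : 1 - be p q ≠ 0 := by linarith
  have h4 : 1 + be p q ≠ 0 := by linarith
  rw [h2]
  field_simp

end facts

section dfun

variable {p q : ℕ} {T g : ℝ} {U : ℝ → ℝ}

/-- `V(y) = h(y) + γ U(β y)` -/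
noncomputable def VV (p q : ℕ) (T g : ℝ) (U : ℝ → ℝ) (y : ℝ) : ℝ := hh T y + g * U (be p q * y)

/-- `D(z) = V(z) - V(z - ω)` -/
noncomputable def DD (p q : ℕ) (T g : ℝ) (U : ℝ → ℝ) (z : ℝ) : ℝ :=
  VV p q T g U z - VV p q T g U (z - om q)

theorem DD_eq (z : ℝ) : DD p q T g U z = 2 * Real.sin (al q) * Real.sin (z - al q - T) +
    g * (U (be p q * z) - U (be p q * z - be p q * om q)) := by
  unfold DD VV hh
  rw [show be p q * (z - om q) = be p q * z - be p q * om q by ring]
  have h1 : z - om q - T = (z - al q - T) - al q := by rw [om_eq]; ring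
  have h2 : z - T = (z - al q - T) + al q := by ring
  rw [h1, h2, Real.cos_sub, Real.cos_add]
  ring

theorem delta_abs (hq : 0 < q) (hpq : p < q) (hper : ∀ y, U (y + om q) = U y)
    (hsc : SC (1 / (1 - be p q ^ 2)) U) (y : ℝ) :
    |U y - U (y - be p q * om q)| ≤ 2 * al q ^ 2 * ka p q := by
  have h0 := be_nonneg hq hpq
  have h1 := be_lt_one hq hpq
  have e0 : 1 / (1 - be p q ^ 2) / 2 * (be p q * (1 - be p q)) * om q ^ 2 =
      2 * al q ^ 2 * ka p q := by
    rw [← C_eq hq hpq, om_eq]; ring
  have e1 := hsc.periodic hper (y - be p q * om q) (be p q) h0 h1.le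
  rw [sub_add_cancel, e0] at e1
  have e2 := hsc.periodic hper y (1 - be p q) (by linarith) (by linarith)
  rw [show (1 - be p q) * (1 - (1 - be p q)) = be p q * (1 - be p q) by ring, e0,
    show y + (1 - be p q) * om q = y - be p q * om q + om q by ring, hper] at e2
  rw [abs_le]
  constructor <;> linarith

theorem delta_growth (hq : 0 < q) (hpq : p < q) (hper : ∀ y, U (y + om q) = U y)
    (hsc : SC (1 / (1 - be p q ^ 2)) U) (z z' : ℝ) (hz : z ≤ z') :
    -(2 * al q * ka p q * (z' - z)) ≤
      (U (be p q * z') - U (be p q * z' - be p q * om q)) -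
        (U (be p q * z) - U (be p q * z - be p q * om q)) := by
  have h0 := be_nonneg hq hpq
  have h1 := be_lt_one hq hpq
  have hom := om_pos q hq
  have e := hsc.four (be p q * z) (be p q * (z' - z)) ((1 - be p q) * om q)
    (mul_nonneg h0 (by linarith)) (mul_nonneg (by linarith) hom.le)
  have a1 : U (be p q * z + be p q * (z' - z) + (1 - be p q) * om q) =
      U (be p q * z' - be p q * om q) := by
    rw [← hper (be p q * z' - be p q * om q)]; congr 1; ring
  have a2 : U (be p q * z + (1 - be p q) * om q) = U (be p q * z - be p q * om q) := by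
    rw [← hper (be p q * z - be p q * om q)]; congr 1; ring
  rw [a1, a2, show be p q * z + be p q * (z' - z) = be p q * z' by ring] at e
  have a3 : 1 / (1 - be p q ^ 2) * (be p q * (z' - z)) * ((1 - be p q) * om q) =
      2 * al q * ka p q * (z' - z) := by
    rw [← C_eq hq hpq, om_eq]; ring
  rw [a3] at e
  linarith

theorem al_pos (hq : 0 < q) : 0 < al q := by
  unfold al
  have : (0 : ℝ) < q := by exact_mod_cast hq
  positivity

theorem ka_nonneg (hq : 0 < q) (hpq : p < q) : 0 ≤ ka p q := by
  have := be_nonneg hq hpq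
  unfold ka
  positivity

theorem DD_near (hq : 0 < q) (hpq : p < q) (hg0 : 0 ≤ g) (hg1 : g ≤ 1)
    (hper : ∀ y, U (y + om q) = U y)
    (hsc : SC (1 / (1 - be p q ^ 2)) U) (z : ℝ) :
    |DD p q T g U z - 2 * Real.sin (al q) * Real.sin (z - al q - T)| ≤ 2 * al q ^ 2 * ka p q := by
  rw [DD_eq, add_sub_cancel_left, abs_mul, abs_of_nonneg hg0]
  have := delta_abs hq hpq hper hsc (be p q * z)
  exact (mul_le_of_le_one_left (abs_nonneg _) hg1).trans this

theorem DD_growth (hq : 0 < q) (hpq : p < q) (hg0 : 0 ≤ g) (hg1 : g ≤ 1)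
    (hper : ∀ y, U (y + om q) = U y)
    (hsc : SC (1 / (1 - be p q ^ 2)) U) (z z' : ℝ) (hz : z ≤ z') :
    2 * Real.sin (al q) * (Real.sin (z' - al q - T) - Real.sin (z - al q - T)) -
      2 * al q * ka p q * (z' - z) ≤ DD p q T g U z' - DD p q T g U z := by
  rw [DD_eq, DD_eq]
  have h1 := mul_le_mul_of_nonneg_left (delta_growth hq hpq hper hsc z z' hz) hg0
  have h2 : 0 ≤ 2 * al q * ka p q * (z' - z) :=
    mul_nonneg (mul_nonneg (mul_nonneg zero_le_two (al_pos hq).le) (ka_nonneg hq hpq))
      (by linarith)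
  have h3 : g * (2 * al q * ka p q * (z' - z)) ≤ 2 * al q * ka p q * (z' - z) :=
    mul_le_of_le_one_left h2 hg1
  nlinarith [h1, h3]

end dfun

/-- The angle `θ` satisfies the requirements of the sign analysis. -/
structure Ang (p q : ℕ) (θ : ℝ) : Prop where
  pos : 0 < θ
  le_al : θ ≤ al q
  lt : θ < π / 2
  rho : al q * ka p q < Real.sin (al q) * Real.cos θ
  eta : al q ^ 2 * ka p q < Real.sin (al q) * Real.sin θ

theorem exists_ang {p q : ℕ} (hp : 1 ≤ p) (hpq : p < q) : ∃ θ, Ang p q θ := by
  have hq : 0 < q := by omega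
  have hal := al_pos hq
  have hka0 := ka_nonneg hq hpq
  have hpi := Real.pi_lt_d4
  have hpi3 := Real.pi_gt_three
  have hka : ka p q = p / (p + q) := by
    unfold ka be
    have h1 : (q : ℝ) ≠ 0 := by exact_mod_cast hq.ne'
    have h2 : (p : ℝ) + q ≠ 0 := by positivity
    have h3 : (1 : ℝ) + p / q ≠ 0 := by positivity
    field_simp
    ring
  rcases Nat.lt_or_ge q 3 with h3 | h3
  · have hq2 : q = 2 := by omega
    have hp1 : p = 1 := by omega
    subst hq2; subst hp1
    have hk : ka 1 2 = 1 / 3 := by rw [hka]; norm_num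
    have ha : al 2 = π / 2 := by unfold al; norm_num
    have hc : Real.cos (Real.arccos 0.55) = 0.55 := Real.cos_arccos (by norm_num) (by norm_num)
    have hs : 0.83 < Real.sin (Real.arccos 0.55) := by
      rw [Real.sin_arccos]
      apply Real.lt_sqrt_of_sq_lt
      norm_num
    have hpos : 0 < Real.arccos 0.55 := Real.arccos_pos.mpr (by norm_num)
    have hlt : Real.arccos 0.55 < π / 2 := Real.arccos_lt_pi_div_two.mpr (by norm_num)
    refine ⟨Real.arccos 0.55, hpos, ?_, hlt, ?_, ?_⟩
    · rw [ha]; exact hlt.le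
    · rw [hk, ha, hc, Real.sin_pi_div_two]
      linarith
    · rw [hk, ha, Real.sin_pi_div_two]
      nlinarith
  · have hq3 : (3 : ℝ) ≤ q := by exact_mod_cast h3
    have hqp : (0 : ℝ) < q := by linarith
    have hpp : (1 : ℝ) ≤ p := by exact_mod_cast hp
    have hpq' : (p : ℝ) + 1 ≤ q := by exact_mod_cast hpq
    have hlt : al q < π / 2 := by
      unfold al
      apply div_lt_div_of_pos_left Real.pi_pos (by norm_num)
      linarith
    have hsin : 0 < Real.sin (al q) := Real.sin_pos_of_pos_of_lt_pi hal (by linarith)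
    have hcos : 0 < Real.cos (al q) := Real.cos_pos_of_mem_Ioo ⟨by linarith, hlt⟩
    have hrho : al q * ka p q < Real.sin (al q) * Real.cos (al q) := by
      rcases Nat.lt_or_ge q 4 with h4 | h4
      · have hq3' : q = 3 := by omega
        subst hq3'
        have ha : al 3 = π / 3 := by unfold al; norm_num
        have hk : ka p 3 ≤ 2 / 5 := by
          rw [hka, div_le_div_iff₀ (by positivity) (by norm_num)]
          push_cast at hpq' ⊢
          linarith
        rw [ha, Real.sin_pi_div_three, Real.cos_pi_div_three]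
        have h5 : (1.73 : ℝ) < √3 := Real.lt_sqrt_of_sq_lt (by norm_num)
        have h6 : π / 3 * ka p 3 ≤ π / 3 * (2 / 5) :=
          mul_le_mul_of_nonneg_left hk (by positivity)
        nlinarith
      · have hq4 : (4 : ℝ) ≤ q := by exact_mod_cast h4
        have h5 : 2 * al q ≤ π / 2 := by
          unfold al
          rw [mul_div_assoc', div_le_div_iff₀ hqp (by norm_num)]
          nlinarith [Real.pi_pos]
        have h6 := Real.mul_le_sin (by linarith : 0 ≤ 2 * al q) h5
        rw [Real.sin_two_mul] at h6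
        have hk : ka p q < 1 / 2 := by
          rw [hka, div_lt_div_iff₀ (by positivity) (by norm_num)]
          linarith
        have h7 : (1 : ℝ) / 2 < 2 / π := by
          rw [div_lt_div_iff₀ (by norm_num) Real.pi_pos]
          linarith
        have h8 : al q * ka p q < al q * (2 / π) := mul_lt_mul_of_pos_left (by linarith) hal
        nlinarith
    refine ⟨al q, hal, le_rfl, hlt, hrho, ?_⟩
    have htan : al q * Real.cos (al q) < Real.sin (al q) := by
      have := Real.lt_tan hal hlt
      rw [Real.tan_eq_sin_div_cos, lt_div_iff₀ hcos] at this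
      exact this
    have h9 : al q * (al q * ka p q) < al q * (Real.sin (al q) * Real.cos (al q)) :=
      mul_lt_mul_of_pos_left hrho hal
    have h10 : al q * Real.cos (al q) * Real.sin (al q) < Real.sin (al q) * Real.sin (al q) :=
      mul_lt_mul_of_pos_right htan hsin
    nlinarith

/-- The two gains. -/
noncomputable def rho (p q : ℕ) (θ : ℝ) : ℝ :=
  2 * (Real.sin (al q) * Real.cos θ - al q * ka p q)

noncomputable def eta (p q : ℕ) (θ : ℝ) : ℝ :=
  2 * (Real.sin (al q) * Real.sin θ - al q ^ 2 * ka p q)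

theorem rho_pos {p q : ℕ} {θ : ℝ} (h : Ang p q θ) : 0 < rho p q θ := by
  unfold rho; linarith [h.rho]

theorem eta_pos {p q : ℕ} {θ : ℝ} (h : Ang p q θ) : 0 < eta p q θ := by
  unfold eta; linarith [h.eta]

section signs

variable {p q : ℕ} {T g θ : ℝ} {U : ℝ → ℝ} (hpq : p < q) (hq2 : 2 ≤ q) (hg0 : 0 ≤ g)
  (hg1 : g ≤ 1) (hper : ∀ y, U (y + om q) = U y) (hsc : SC (1 / (1 - be p q ^ 2)) U)
  (hθ : Ang p q θ)

include hpq hq2 hg0 hg1 hper hsc hθ

theorem sin_al_pos' : 0 < Real.sin (al q) := by
  have hq : 0 < q := by omega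
  apply Real.sin_pos_of_pos_of_lt_pi (al_pos hq)
  unfold al
  have : (2 : ℝ) ≤ q := by exact_mod_cast hq2
  rw [div_lt_iff₀ (by linarith)]
  nlinarith [Real.pi_pos]

theorem D_mono (z z' : ℝ) (hz : z ≤ z') (h1 : -θ ≤ z - al q - T) (h2 : z' - al q - T ≤ θ) :
    rho p q θ * (z' - z) ≤ DD p q T g U z' - DD p q T g U z := by
  have hq : 0 < q := by omega
  have hs := sin_al_pos' hpq hq2 hg0 hg1 hper hsc hθ
  have e := DD_growth (T := T) hq hpq hg0 hg1 hper hsc z z' hz
  have hsin : Real.cos θ * ((z' - al q - T) - (z - al q - T)) ≤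
      Real.sin (z' - al q - T) - Real.sin (z - al q - T) := by
    apply Convex.mul_sub_le_image_sub_of_le_deriv (convex_Icc (-θ) θ) Real.continuousOn_sin
      Real.differentiable_sin.differentiableOn (fun x hx => ?_) _ ⟨h1, by linarith⟩ _
      ⟨by linarith, h2⟩ (by linarith)
    rw [interior_Icc] at hx
    rw [Real.deriv_sin]
    have h3 := hθ.lt
    rw [← Real.cos_abs x]
    apply Real.cos_le_cos_of_nonneg_of_le_pi (abs_nonneg x) (by linarith [Real.pi_pos])
    exact (abs_lt.mpr ⟨hx.1, hx.2⟩).le
  have h3 := mul_le_mul_of_nonneg_left hsin (show 0 ≤ 2 * Real.sin (al q) by linarith)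
  unfold rho
  nlinarith [h3, e]

theorem D_large (z : ℝ) (h1 : θ ≤ z - al q - T) (h2 : z - al q - T ≤ π - al q) :
    eta p q θ ≤ DD p q T g U z := by
  have hq : 0 < q := by omega
  have hs := sin_al_pos' hpq hq2 hg0 hg1 hper hsc hθ
  have e := (abs_le.mp (DD_near (T := T) hq hpq hg0 hg1 hper hsc z)).1
  have hsin : Real.sin θ ≤ Real.sin (z - al q - T) := by
    have hl := hθ.le_al
    have hlt := hθ.lt
    have hp := hθ.pos
    rcases le_or_gt (z - al q - T) (π / 2) with h3 | h3
    · exact Real.sin_le_sin_of_le_of_le_pi_div_two (by linarith) h3 h1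
    · rw [← Real.sin_pi_sub (z - al q - T)]
      apply Real.sin_le_sin_of_le_of_le_pi_div_two (by linarith) (by linarith) (by linarith)
  have h3 := mul_le_mul_of_nonneg_left hsin (show 0 ≤ 2 * Real.sin (al q) by linarith)
  unfold eta
  nlinarith [h3, e]

theorem D_small (z : ℝ) (h1 : z - al q - T ≤ -θ) (h2 : -(π - al q) ≤ z - al q - T) :
    DD p q T g U z ≤ -eta p q θ := by
  have hq : 0 < q := by omega
  have hs := sin_al_pos' hpq hq2 hg0 hg1 hper hsc hθ
  have e := (abs_le.mp (DD_near (T := T) hq hpq hg0 hg1 hper hsc z)).2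
  have hsin : Real.sin θ ≤ Real.sin (-(z - al q - T)) := by
    have hl := hθ.le_al
    have hlt := hθ.lt
    have hp := hθ.pos
    rcases le_or_gt (-(z - al q - T)) (π / 2) with h3 | h3
    · exact Real.sin_le_sin_of_le_of_le_pi_div_two (by linarith) h3 (by linarith)
    · rw [← Real.sin_pi_sub (-(z - al q - T))]
      apply Real.sin_le_sin_of_le_of_le_pi_div_two (by linarith) (by linarith) (by linarith)
  rw [Real.sin_neg] at hsin
  have h3 := mul_le_mul_of_nonneg_left hsin (show 0 ≤ 2 * Real.sin (al q) by linarith)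
  unfold eta
  nlinarith [h3, e]

variable (hle : ∀ y (j : ℤ), U y ≤ VV p q T g U (y + j * om q))
  {z0 : ℝ} (hz0 : DD p q T g U z0 = 0) (hs0 : |z0 - al q - T| ≤ θ)

include hle hz0 hs0

theorem excess_right (z : ℝ) (h1 : z0 ≤ z) (h2 : z - T ≤ π) :
    min (rho p q θ * (z - z0)) (eta p q θ) ≤ VV p q T g U z - U z := by
  have e1 := hle z (-1)
  have e2 : DD p q T g U z ≤ VV p q T g U z - U z := by
    unfold DD
    push_cast at e1
    rw [show z + -1 * om q = z - om q by ring] at e1
    linarith
  refine le_trans ?_ e2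
  rw [abs_le] at hs0
  rcases le_or_gt (z - al q - T) θ with h3 | h3
  · have := D_mono hpq hq2 hg0 hg1 hper hsc hθ z0 z h1 (by linarith [hs0.1]) h3
    rw [hz0, sub_zero] at this
    exact (min_le_left _ _).trans this
  · exact (min_le_right _ _).trans
      (D_large hpq hq2 hg0 hg1 hper hsc hθ z h3.le (by linarith))

theorem excess_left (z : ℝ) (h1 : z ≤ z0 - om q) (h2 : -π ≤ z - T) :
    min (rho p q θ * (z0 - om q - z)) (eta p q θ) ≤ VV p q T g U z - U z := by
  have e1 := hle z 1
  have e2 : -DD p q T g U (z + om q) ≤ VV p q T g U z - U z := by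
    unfold DD
    push_cast at e1
    rw [show z + 1 * om q = z + om q by ring] at e1
    rw [add_sub_cancel_right]
    linarith
  refine le_trans ?_ e2
  rw [abs_le] at hs0
  have hom := om_eq q
  rcases le_or_gt (-θ) (z + om q - al q - T) with h3 | h3
  · have := D_mono hpq hq2 hg0 hg1 hper hsc hθ (z + om q) z0 (by linarith) h3
      (by linarith [hs0.2])
    rw [hz0, zero_sub] at this
    refine (min_le_left _ _).trans ?_
    rw [show z0 - om q - z = z0 - (z + om q) by ring]
    exact this
  · have := D_small hpq hq2 hg0 hg1 hper hsc hθ (z + om q) h3.le (by linarith)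
    exact (min_le_right _ _).trans (by linarith)

theorem contact (hex : ∀ y, ∃ j : ℕ, j < q ∧ U y = VV p q T g U (y + j * om q))
    (z : ℝ) (h1 : z0 - om q ≤ z) (h2 : z ≤ z0) : VV p q T g U z = U z := by
  have hq : 0 < q := by omega
  have hom := om_pos q hq
  obtain ⟨j, _, hj⟩ := hex z
  have hVper : Function.Periodic (VV p q T g U) (2 * π) := fun y =>
    cand_periodic p q hq g (fun _ => U) T hper y
  have hUper : Function.Periodic U (om q) := hper
  -- move to the fundamental interval
  obtain ⟨m, hm1, hm2⟩ : ∃ m : ℤ, T - π ≤ z + j * om q + m * (2 * π) ∧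
      z + j * om q + m * (2 * π) ≤ T + π := by
    have hpi := Real.pi_pos
    refine ⟨-⌊(z + j * om q - (T - π)) / (2 * π)⌋, ?_, ?_⟩
    · have := Int.floor_le ((z + j * om q - (T - π)) / (2 * π))
      rw [le_div_iff₀ (by positivity)] at this
      push_cast
      linarith
    · have := Int.lt_floor_add_one ((z + j * om q - (T - π)) / (2 * π))
      rw [div_lt_iff₀ (by positivity)] at this
      push_cast
      linarith
  set z' := z + j * om q + m * (2 * π) with hz'
  have hV' : VV p q T g U z' = U z := by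
    rw [hz', hj]
    exact hVper.int_mul m _
  have hn : z' = z + ((j : ℤ) + m * q : ℤ) * om q := by
    rw [hz', ← q_om q hq]; push_cast; ring
  have hU' : U z' = U z := by
    rw [hn]
    exact hUper.int_mul _ _
  have hexc : VV p q T g U z' - U z' = 0 := by rw [hV', hU']; ring
  have hr := rho_pos hθ
  have he := eta_pos hθ
  have hle1 : z' ≤ z0 := by
    by_contra hc
    push Not at hc
    have := excess_right hpq hq2 hg0 hg1 hper hsc hθ hle hz0 hs0 z' hc.le (by linarith)
    rw [hexc] at this
    have h3 : 0 < min (rho p q θ * (z' - z0)) (eta p q θ) :=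
      lt_min (mul_pos hr (by linarith)) he
    linarith
  have hle2 : z0 - om q ≤ z' := by
    by_contra hc
    push Not at hc
    have := excess_left hpq hq2 hg0 hg1 hper hsc hθ hle hz0 hs0 z' hc.le (by linarith)
    rw [hexc] at this
    have h3 : 0 < min (rho p q θ * (z0 - om q - z')) (eta p q θ) :=
      lt_min (mul_pos hr (by linarith)) he
    linarith
  set n : ℤ := (j : ℤ) + m * q with hnn
  have hn1 : (n : ℝ) * om q ≤ 1 * om q := by linarith
  have hn2 : (-1 : ℝ) * om q ≤ n * om q := by linarith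
  have hn3 : (n : ℝ) ≤ 1 := le_of_mul_le_mul_right hn1 hom
  have hn4 : (-1 : ℝ) ≤ n := le_of_mul_le_mul_right hn2 hom
  have hn5 : n ≤ 1 := by exact_mod_cast hn3
  have hn6 : -1 ≤ n := by exact_mod_cast hn4
  have hD : VV p q T g U z0 = VV p q T g U (z0 - om q) := by
    unfold DD at hz0
    linarith
  obtain h | h | h : n = 0 ∨ n = 1 ∨ n = -1 := by omega
  · rw [h] at hn
    simp only [Int.cast_zero, zero_mul, add_zero] at hn
    rw [← hn, hV', hn]
  · rw [h] at hn
    simp only [Int.cast_one, one_mul] at hn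
    have e1 : z = z0 - om q := by linarith
    have e2 : z' = z0 := by linarith
    rw [← hV', e1, e2, hD]
  · rw [h] at hn
    simp only [Int.cast_neg, Int.cast_one, neg_mul, one_mul] at hn
    have e1 : z = z0 := by linarith
    have e2 : z' = z0 - om q := by linarith
    rw [← hV', e1, e2, hD]

end signs

end Pool.Agent.R285.Bary
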