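import Mathlib
import Pool.Agent.R285.BaryB

/-!
# Invariant measures of the correspondence `w^p = z^q` on the unit circle
-/

set_option autoImplicit false

open Real Set Filter Topology MeasureTheory

namespace Pool.Agent.R285.Bary

/-- The unit circle. -/
abbrev S1 : Type := Metric.sphere (0 : ℂ) 1

/-- `μ` is a Borel probability measure on the circle, invariant under the multi-valued map
`F_{p,q}(z) = {w : w^p = z^q}`: it is both marginals of a probability measure carried by the
graph. -/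
def IsInv (p q : ℕ) (μ : Measure S1) : Prop :=
  IsProbabilityMeasure μ ∧ ∃ m : Measure (S1 × S1), IsProbabilityMeasure m ∧
    (∀ᵐ x ∂m, (x.2 : ℂ) ^ p = (x.1 : ℂ) ^ q) ∧ m.map Prod.fst = μ ∧ m.map Prod.snd = μ

/-- The barycentre. -/
noncomputable def bary (μ : Measure S1) : ℂ := ∫ z, (z : ℂ) ∂μ

/-- The argument. -/
noncomputable def ar (z : S1) : ℝ := Complex.arg z

theorem ar_meas : Measurable ar := Complex.measurable_arg.comp measurable_subtype_coe

theorem exp_ar (z : S1) : Complex.exp (ar z * Complex.I) = z := by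
  have h := Complex.norm_mul_exp_arg_mul_I (z : ℂ)
  have hz : ‖(z : ℂ)‖ = 1 := by simpa using z.2
  rw [hz] at h
  simpa [ar] using h

/-- The point with a given angle. -/
noncomputable def e1 (t : ℝ) : S1 := ⟨Complex.exp (t * Complex.I), by simp [Complex.norm_exp_ofReal_mul_I]⟩

theorem ar_of_exp {z : S1} {t : ℝ} (h : (z : ℂ) = Complex.exp (t * Complex.I)) :
    ∃ n : ℤ, ar z = t + n * (2 * π) := by
  rw [← exp_ar z, Complex.exp_eq_exp_iff_exists_int] at h
  obtain ⟨n, hn⟩ := h
  refine ⟨n, ?_⟩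
  have h1 : ((ar z : ℝ) : ℂ) * Complex.I = ((t + n * (2 * π) : ℝ) : ℂ) * Complex.I := by
    rw [hn]; push_cast; ring
  exact_mod_cast mul_right_cancel₀ Complex.I_ne_zero h1

theorem periodic_ar {f : ℝ → ℝ} (hf : Function.Periodic f (2 * π)) {z : S1} {t : ℝ}
    (h : (z : ℂ) = Complex.exp (t * Complex.I)) : f (ar z) = f t := by
  obtain ⟨n, hn⟩ := ar_of_exp h
  rw [hn]
  exact hf.int_mul n t

theorem rel_ar {p q : ℕ} (hq : 0 < q) {z w : S1} (h : (w : ℂ) ^ p = (z : ℂ) ^ q) :
    ∃ k : ℤ, ar z = be p q * ar w + k * om q := by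
  rw [← exp_ar z, ← exp_ar w, ← Complex.exp_nat_mul, ← Complex.exp_nat_mul,
    Complex.exp_eq_exp_iff_exists_int] at h
  obtain ⟨n, hn⟩ := h
  refine ⟨-n, ?_⟩
  have h1 : ((p * ar w : ℝ) : ℂ) * Complex.I = ((q * ar z + n * (2 * π) : ℝ) : ℂ) * Complex.I := by
    push_cast
    rw [mul_assoc, hn]
    ring
  have h2 : p * ar w = q * ar z + n * (2 * π) := by
    exact_mod_cast mul_right_cancel₀ Complex.I_ne_zero h1
  have hq' : (q : ℝ) ≠ 0 := by exact_mod_cast hq.ne'
  unfold be om
  push_cast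
  field_simp
  linarith

theorem integrable_ar {f : ℝ → ℝ} (hf : Continuous f) {M : ℝ} (hM : ∀ y, |f y| ≤ M)
    (μ : Measure S1) [IsFiniteMeasure μ] : Integrable (fun z => f (ar z)) μ :=
  Integrable.of_bound (hf.measurable.comp ar_meas).aestronglyMeasurable M
    (Eventually.of_forall fun z => hM (ar z))

/-- A solution of the discounted Bellman equation. -/
structure BS (p q : ℕ) (T g : ℝ) (U : ℝ → ℝ) : Prop where
  g0 : 0 ≤ g
  g1 : g < 1
  cont : Continuous U
  per : ∀ y, U (y + om q) = U y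
  sc : SC (1 / (1 - be p q ^ 2)) U
  le : ∀ y (j : ℤ), U y ≤ VV p q T g U (y + j * om q)
  ex : ∀ y, ∃ j : ℕ, j < q ∧ U y = VV p q T g U (y + j * om q)

/-- The oscillation constant. -/
noncomputable def KK (p q : ℕ) : ℝ := 2 + 1 / (1 - be p q ^ 2) * om q ^ 2

section bs

variable {p q : ℕ} {T g : ℝ} {U : ℝ → ℝ}

theorem C_nonneg (hq : 0 < q) (hpq : p < q) : 0 ≤ 1 / (1 - be p q ^ 2) := by
  have h0 := be_nonneg hq hpq
  have h1 := be_lt_one hq hpq
  have : 0 < 1 - be p q ^ 2 := by nlinarith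
  positivity

theorem KK_pos (hq : 0 < q) (hpq : p < q) : 0 < KK p q := by
  unfold KK
  have := C_nonneg hq hpq
  positivity

theorem BS.U_osc (h : BS p q T g U) (hq : 0 < q) (hpq : p < q) (y y' : ℝ) :
    U y ≤ U y' + 1 / (1 - be p q ^ 2) * om q ^ 2 := by
  have := h.sc.osc (C_nonneg hq hpq) (om_pos q hq) h.per y y'
  linarith

theorem BS.U_bdd (h : BS p q T g U) (hq : 0 < q) (hpq : p < q) (y : ℝ) :
    |U y| ≤ |U 0| + 1 / (1 - be p q ^ 2) * om q ^ 2 := by
  have h1 := h.U_osc hq hpq y 0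
  have h2 := h.U_osc hq hpq 0 y
  rw [abs_le]
  have h3 := abs_le.mp (le_refl |U 0|)
  constructor <;> linarith [h3.1, h3.2]

theorem BS.V_cont (h : BS p q T g U) : Continuous (VV p q T g U) := by
  unfold VV hh
  have := h.cont
  fun_prop

theorem BS.V_bdd (h : BS p q T g U) (hq : 0 < q) (hpq : p < q) (y : ℝ) :
    |VV p q T g U y| ≤ 1 + (|U 0| + 1 / (1 - be p q ^ 2) * om q ^ 2) := by
  unfold VV
  refine (abs_add_le _ _).trans (add_le_add (hh_abs _ _) ?_)
  rw [abs_mul, abs_of_nonneg h.g0]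
  exact (mul_le_of_le_one_left (abs_nonneg _) h.g1.le).trans (h.U_bdd hq hpq _)

theorem BS.V_osc (h : BS p q T g U) (hq : 0 < q) (hpq : p < q) (y y' : ℝ) :
    VV p q T g U y ≤ VV p q T g U y' + KK p q := by
  unfold VV KK
  have h1 := (abs_le.mp (hh_abs T y)).2
  have h2 := (abs_le.mp (hh_abs T y')).1
  have h3 := mul_le_mul_of_nonneg_left (h.U_osc hq hpq (be p q * y) (be p q * y')) h.g0
  have h4 : 0 ≤ 1 / (1 - be p q ^ 2) * om q ^ 2 := mul_nonneg (C_nonneg hq hpq) (sq_nonneg _)
  have h5 : g * (1 / (1 - be p q ^ 2) * om q ^ 2) ≤ 1 / (1 - be p q ^ 2) * om q ^ 2 :=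
    mul_le_of_le_one_left h4 h.g1.le
  nlinarith

theorem BS.V_per (h : BS p q T g U) (hq : 0 < q) : Function.Periodic (VV p q T g U) (2 * π) :=
  fun y => cand_periodic p q hq g (fun _ => U) T h.per y

theorem BS.U_per (h : BS p q T g U) (hq : 0 < q) : Function.Periodic U (2 * π) := by
  intro y
  have hper : Function.Periodic U (om q) := h.per
  rw [← q_om q hq]
  exact hper.nat_mul q y

theorem BS.le' (h : BS p q T g U) (y : ℝ) : U y ≤ VV p q T g U y := by
  have := h.le y 0
  simpa using this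

theorem hh_cont' (T : ℝ) : Continuous (hh T) := by unfold hh; fun_prop

theorem BS.key (h : BS p q T g U) (hq : 0 < q) (hpq : p < q) {μ : Measure S1}
    (hμ : IsInv p q μ) :
    ∫ z, VV p q T g U (ar z) ∂μ = ∫ z, hh T (ar z) ∂μ + g * ∫ z, U (ar z) ∂μ := by
  obtain ⟨hpr, m, hm, hae, h1, h2⟩ := hμ
  have hsnd : ∀ f : ℝ → ℝ, Continuous f →
      ∫ z, f (ar z) ∂μ = ∫ x, f (ar x.2) ∂m := by
    intro f hf
    conv_lhs => rw [← h2]
    rw [integral_map measurable_snd.aemeasurable]
    exact (hf.measurable.comp ar_meas).aestronglyMeasurable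
  have hfst : ∀ f : ℝ → ℝ, Continuous f →
      ∫ z, f (ar z) ∂μ = ∫ x, f (ar x.1) ∂m := by
    intro f hf
    conv_lhs => rw [← h1]
    rw [integral_map measurable_fst.aemeasurable]
    exact (hf.measurable.comp ar_meas).aestronglyMeasurable
  rw [hsnd _ h.V_cont, hsnd _ (hh_cont' T), hfst _ h.cont, ← integral_const_mul, ← integral_add]
  · apply integral_congr_ae
    filter_upwards [hae] with x hx
    obtain ⟨k, hk⟩ := rel_ar hq hx
    unfold VV
    have hper : Function.Periodic U (om q) := h.per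
    rw [hk]
    congr 2
    exact (hper.int_mul k _).symm
  · exact Integrable.of_bound
      (((hh_cont' T).measurable.comp (ar_meas.comp measurable_snd)).aestronglyMeasurable) 1
      (Eventually.of_forall fun x => hh_abs T _)
  · exact (Integrable.of_bound
      ((h.cont.measurable.comp (ar_meas.comp measurable_fst)).aestronglyMeasurable) _
      (Eventually.of_forall fun x => h.U_bdd hq hpq (ar x.1))).const_mul g

/-- The basic identity. -/
theorem BS.ident (h : BS p q T g U) (hq : 0 < q) (hpq : p < q) {μ : Measure S1}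
    (hμ : IsInv p q μ) :
    g * ∫ z, (VV p q T g U (ar z) - U (ar z)) ∂μ =
      ∫ z, hh T (ar z) ∂μ - (1 - g) * ∫ z, VV p q T g U (ar z) ∂μ := by
  have hk := h.key hq hpq hμ
  have hpr := hμ.1
  rw [integral_sub (integrable_ar h.V_cont (h.V_bdd hq hpq) μ)
    (integrable_ar h.cont (h.U_bdd hq hpq) μ)]
  rw [mul_sub]
  linarith

theorem BS.lower (h : BS p q T g U) (hq : 0 < q) (hpq : p < q) {μ : Measure S1}
    (hμ : IsInv p q μ) :
    (1 - g) * ∫ z, VV p q T g U (ar z) ∂μ ≤ ∫ z, hh T (ar z) ∂μ := by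
  have h1 := h.ident hq hpq hμ
  have h2 : 0 ≤ ∫ z, (VV p q T g U (ar z) - U (ar z)) ∂μ :=
    integral_nonneg fun z => by simpa using h.le' (ar z)
  nlinarith [mul_nonneg h.g0 h2]

theorem BS.int_osc (h : BS p q T g U) (hq : 0 < q) (hpq : p < q) {μ : Measure S1}
    (hμ : IsInv p q μ) (y : ℝ) :
    VV p q T g U y ≤ ∫ z, VV p q T g U (ar z) ∂μ + KK p q := by
  have hpr := hμ.1
  have h1 : ∫ z : S1, (VV p q T g U y - KK p q) ∂μ ≤ ∫ z, VV p q T g U (ar z) ∂μ := by
    apply integral_mono (integrable_const _) (integrable_ar h.V_cont (h.V_bdd hq hpq) μ)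
    intro z
    have := h.V_osc hq hpq y (ar z)
    simp only
    linarith
  rw [integral_const, probReal_univ, one_smul] at h1
  linarith

theorem BS.osc_int (h : BS p q T g U) (hq : 0 < q) (hpq : p < q) {μ : Measure S1}
    (hμ : IsInv p q μ) (y : ℝ) :
    ∫ z, VV p q T g U (ar z) ∂μ ≤ VV p q T g U y + KK p q := by
  have hpr := hμ.1
  have h1 : ∫ z, VV p q T g U (ar z) ∂μ ≤ ∫ z : S1, (VV p q T g U y + KK p q) ∂μ := by
    apply integral_mono (integrable_ar h.V_cont (h.V_bdd hq hpq) μ) (integrable_const _)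
    intro z
    exact h.V_osc hq hpq (ar z) y
  rw [integral_const, probReal_univ, one_smul] at h1
  exact h1

end bs

/-! ### Periodic orbits -/

/-- The measure equidistributed on the points with angles `X 0, …, X (N-1)`. -/
noncomputable def orbMeas (N : ℕ) (X : ℕ → ℝ) : Measure S1 :=
  (N : ENNReal)⁻¹ • ∑ k ∈ Finset.range N, Measure.dirac (e1 (X k))

theorem orb_inv {p q : ℕ} (hq : 0 < q) (N : ℕ) (hN : 0 < N) (X : ℕ → ℝ)
    (hX : ∀ k, ∃ j : ℤ, X (k + 1) = be p q * X k + j * om q) (hper : X N = X 0) :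
    IsInv p q (orbMeas N X) := by
  have hN' : (N : ENNReal) ≠ 0 := by exact_mod_cast hN.ne'
  have hNt : (N : ENNReal) ≠ ⊤ := ENNReal.natCast_ne_top N
  refine ⟨⟨?_⟩, (N : ENNReal)⁻¹ • ∑ k ∈ Finset.range N, Measure.dirac (e1 (X (k + 1)), e1 (X k)),
    ⟨?_⟩, ?_, ?_, ?_⟩
  · simp only [orbMeas, Measure.smul_apply, Measure.finsetSum_apply, measure_univ,
      Finset.sum_const, Finset.card_range, smul_eq_mul, nsmul_eq_mul, mul_one]
    exact ENNReal.inv_mul_cancel hN' hNt
  · simp only [Measure.smul_apply, Measure.finsetSum_apply, measure_univ,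
      Finset.sum_const, Finset.card_range, smul_eq_mul, nsmul_eq_mul, mul_one]
    exact ENNReal.inv_mul_cancel hN' hNt
  · rw [ae_iff]
    simp only [Measure.smul_apply, Measure.finsetSum_apply, smul_eq_mul]
    rw [Finset.sum_eq_zero, mul_zero]
    intro k _
    rw [Measure.dirac_apply]
    apply Set.indicator_of_notMem
    simp only [mem_ofPred_eq, not_not]
    obtain ⟨j, hj⟩ := hX k
    show Complex.exp (X k * Complex.I) ^ p = Complex.exp (X (k + 1) * Complex.I) ^ q
    rw [← Complex.exp_nat_mul, ← Complex.exp_nat_mul, Complex.exp_eq_exp_iff_exists_int]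
    refine ⟨-j, ?_⟩
    rw [hj]
    unfold be om
    have hq' : (q : ℂ) ≠ 0 := by exact_mod_cast hq.ne'
    push_cast
    field_simp
    ring
  · rw [Measure.map_smul, Measure.map_finset_sum measurable_fst.aemeasurable]
    simp only [Measure.map_dirac]
    unfold orbMeas
    congr 1
    have h1 := Finset.sum_range_succ' (fun k => Measure.dirac (e1 (X k))) N
    rw [Finset.sum_range_succ, hper] at h1
    have h2 : (∑ k ∈ Finset.range N, Measure.dirac (e1 (X (k + 1)))) +
        Measure.dirac (e1 (X 0)) = (∑ k ∈ Finset.range N, Measure.dirac (e1 (X k))) +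
        Measure.dirac (e1 (X 0)) := h1.symm
    exact (Measure.add_left_inj _ _ _).mp h2
  · rw [Measure.map_smul, Measure.map_finset_sum measurable_snd.aemeasurable]
    simp only [Measure.map_dirac]
    rfl

theorem orb_integral (N : ℕ) (X : ℕ → ℝ) (f : ℝ → ℝ) (hf : Function.Periodic f (2 * π)) 
    (hfm : Continuous f) {M : ℝ} (hM : ∀ y, |f y| ≤ M) :
    ∫ z, f (ar z) ∂(orbMeas N X) = (N : ℝ)⁻¹ * ∑ k ∈ Finset.range N, f (X k) := by
  unfold orbMeas
  rw [integral_smul_measure, integral_finsetSum_measure]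
  · simp only [ENNReal.toReal_inv, ENNReal.toReal_natCast, smul_eq_mul]
    congr 1
    apply Finset.sum_congr rfl
    intro k _
    rw [integral_dirac]
    exact periodic_ar hf rfl
  · intro k _
    exact integrable_ar hfm hM _

end Pool.Agent.R285.Bary
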