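import Mathlib
import Pool.Agent.R285.BaryC

/-!
# Minimising measures are the Sturmian measures
-/

set_option autoImplicit false

open Real Set Filter Topology MeasureTheory

namespace Pool.Agent.R285.Bary

/-- The closed arc of angular length `l` starting at angle `a`. -/
def arc (a l : ℝ) : Set S1 := {z | ∃ t ∈ Icc a (a + l), (z : ℂ) = Complex.exp (t * Complex.I)}

/-- A Sturmian measure: the support lies in a closed arc of angular length `2π/q`. -/
def IsSturmian (q : ℕ) (μ : Measure S1) : Prop := ∃ a : ℝ, μ.support ⊆ arc a (2 * π / q)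

theorem hh_lip (T y y' : ℝ) : hh T y ≤ hh T y' + |y - y'| := by
  unfold hh
  have h := Real.lipschitzWith_cos.dist_le_mul (y' - T) (y - T)
  rw [Real.dist_eq, Real.dist_eq] at h
  simp only [NNReal.coe_one, one_mul] at h
  rw [show y' - T - (y - T) = -(y - y') by ring, abs_neg] at h
  have := (abs_le.mp h).2
  linarith

section opt

variable {p q : ℕ} {T g : ℝ} {U : ℝ → ℝ}

theorem BS.opt (h : BS p q T g U) (hq : 0 < q) (hpq : p < q) {μ : Measure S1}
    (hμ : IsInv p q μ)
    (hmin : ∀ μ' : Measure S1, IsInv p q μ' → ∫ z, hh T (ar z) ∂μ ≤ ∫ z, hh T (ar z) ∂μ') :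
    ∫ z, hh T (ar z) ∂μ ≤ (1 - g) * (∫ z, VV p q T g U (ar z) ∂μ + KK p q) := by
  have hb0 := be_nonneg hq hpq
  have hb1 := be_lt_one hq hpq
  have hK := KK_pos hq hpq
  have hom := om_pos q hq
  set b := be p q with hb
  set I := ∫ z, VV p q T g U (ar z) ∂μ with hI
  choose j hj1 hj2 using h.ex
  -- the optimal backward orbit
  let Y : ℕ → ℝ := fun n => Nat.rec 0 (fun _ y => b * y + j (b * y) * om q) n
  have hY0 : Y 0 = 0 := rfl
  have hYs : ∀ k, Y (k + 1) = b * Y k + j (b * Y k) * om q := fun k => rfl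
  have h1b : 0 < 1 - b := by linarith
  have hYb : ∀ k, 0 ≤ Y k ∧ Y k ≤ 2 * π / (1 - b) := by
    intro k
    induction k with
    | zero => rw [hY0]; exact ⟨le_rfl, by positivity⟩
    | succ k ih =>
      rw [hYs]
      have h1 : (j (b * Y k) : ℝ) * om q ≤ 2 * π := by
        rw [← q_om q hq]
        apply mul_le_mul_of_nonneg_right _ hom.le
        exact_mod_cast (hj1 _).le
      have h2 : 0 ≤ (j (b * Y k) : ℝ) * om q := by positivity
      refine ⟨add_nonneg (mul_nonneg hb0 ih.1) h2, ?_⟩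
      have h3 : b * Y k ≤ b * (2 * π / (1 - b)) := mul_le_mul_of_nonneg_left ih.2 hb0
      have h4 : b * (2 * π / (1 - b)) + 2 * π = 2 * π / (1 - b) := by
        field_simp
        ring
      linarith
  have hVY : ∀ k, hh T (Y k) = VV p q T g U (Y k) - g * VV p q T g U (Y (k + 1)) := by
    intro k
    rw [hYs, ← hj2]
    unfold VV
    ring
  -- the bound
  set K1 : ℝ := 2 * π / (1 - b) ^ 3 with hK1
  have hK1' : 0 < K1 := by positivity
  have main : ∀ N : ℕ, 0 < N →
      ∫ z, hh T (ar z) ∂μ ≤ (1 - g) * (I + KK p q) + (KK p q + K1) / N := by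
    intro N hN
    have hbN : b ^ N ≤ b := by
      calc b ^ N ≤ b ^ 1 := pow_le_pow_of_le_one hb0 hb1.le hN
        _ = b := pow_one b
    have hbN' : 0 < 1 - b ^ N := by linarith
    set X0 := Y N / (1 - b ^ N) with hX0
    have hX0n : 0 ≤ X0 := div_nonneg (hYb N).1 hbN'.le
    have hX0b : X0 ≤ 2 * π / (1 - b) ^ 2 := by
      rw [hX0, div_le_div_iff₀ hbN' (by positivity)]
      have h1 := (hYb N).2
      rw [le_div_iff₀ h1b] at h1
      have h2 : Y N * (1 - b) * (1 - b) ≤ 2 * π * (1 - b ^ N) :=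
        mul_le_mul h1 (by linarith) h1b.le (by positivity)
      calc Y N * (1 - b) ^ 2 = Y N * (1 - b) * (1 - b) := by ring
        _ ≤ _ := h2
    set X : ℕ → ℝ := fun k => b ^ k * X0 + Y k with hX
    have hinv : IsInv p q (orbMeas N X) := by
      apply orb_inv hq N hN X
      · intro k
        refine ⟨j (b * Y k), ?_⟩
        rw [hX]
        simp only
        rw [hYs]
        push_cast
        ring
      · rw [hX]
        simp only [pow_zero, one_mul, hY0, add_zero]
        rw [hX0]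
        field_simp
        ring
    have h1 := hmin _ hinv
    have hper : Function.Periodic (hh T) (2 * π) := by
      intro y
      unfold hh
      rw [show y + 2 * π - T = y - T + 2 * π by ring, Real.cos_add_two_pi]
    rw [orb_integral N X (hh T) hper (hh_cont' T) (hh_abs T)] at h1
    have hNr : (0 : ℝ) < N := by exact_mod_cast hN
    have h2 : ∑ k ∈ Finset.range N, hh T (X k) ≤
        ∑ k ∈ Finset.range N, (hh T (Y k) + b ^ k * X0) := by
      apply Finset.sum_le_sum
      intro k _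
      have := hh_lip T (X k) (Y k)
      rw [hX] at this ⊢
      simp only [add_sub_cancel_right] at this
      rw [abs_of_nonneg (mul_nonneg (pow_nonneg hb0 k) hX0n)] at this
      exact this
    rw [Finset.sum_add_distrib, ← Finset.sum_mul] at h2
    have h3 : ∑ k ∈ Finset.range N, b ^ k ≤ 1 / (1 - b) := by
      rw [geom_sum_eq hb1.ne, ← neg_div_neg_eq, neg_sub, neg_sub]
      apply div_le_div_of_nonneg_right _ h1b.le
      linarith [pow_nonneg hb0 N]
    have h4 : (∑ k ∈ Finset.range N, b ^ k) * X0 ≤ K1 := by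
      calc (∑ k ∈ Finset.range N, b ^ k) * X0 ≤ 1 / (1 - b) * (2 * π / (1 - b) ^ 2) :=
            mul_le_mul h3 hX0b hX0n (by positivity)
        _ = K1 := by rw [hK1]; field_simp
    set S := ∑ k ∈ Finset.range N, VV p q T g U (Y k) with hS
    have h5 : ∑ k ∈ Finset.range N, hh T (Y k) =
        (1 - g) * S + g * (VV p q T g U (Y 0) - VV p q T g U (Y N)) := by
      have e1 : ∑ k ∈ Finset.range N, hh T (Y k) = S -
          g * ∑ k ∈ Finset.range N, VV p q T g U (Y (k + 1)) := by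
        rw [Finset.mul_sum, hS, ← Finset.sum_sub_distrib]
        exact Finset.sum_congr rfl fun k _ => hVY k
      have e2 := Finset.sum_range_succ' (fun k => VV p q T g U (Y k)) N
      rw [Finset.sum_range_succ] at e2
      have e3 : ∑ k ∈ Finset.range N, VV p q T g U (Y (k + 1)) =
          S + VV p q T g U (Y N) - VV p q T g U (Y 0) := by
        rw [hS]; linarith
      rw [e1, e3]
      ring
    have h6 : g * (VV p q T g U (Y 0) - VV p q T g U (Y N)) ≤ KK p q := by
      have := h.V_osc hq hpq (Y 0) (Y N)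
      have h7 : g * (VV p q T g U (Y 0) - VV p q T g U (Y N)) ≤ g * KK p q :=
        mul_le_mul_of_nonneg_left (by linarith) h.g0
      exact h7.trans (mul_le_of_le_one_left hK.le h.g1.le)
    have h7 : S ≤ N * (I + KK p q) := by
      have : S ≤ ∑ k ∈ Finset.range N, (I + KK p q) := by
        apply Finset.sum_le_sum
        intro k _
        exact h.int_osc hq hpq hμ (Y k)
      rw [Finset.sum_const, Finset.card_range, nsmul_eq_mul] at this
      exact this
    have h8 : (1 - g) * S ≤ (1 - g) * (N * (I + KK p q)) :=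
      mul_le_mul_of_nonneg_left h7 (by linarith [h.g1])
    have h9 : ∑ k ∈ Finset.range N, hh T (X k) ≤
        N * ((1 - g) * (I + KK p q)) + (KK p q + K1) := by
      linarith
    have h10 : (N : ℝ)⁻¹ * ∑ k ∈ Finset.range N, hh T (X k) ≤
        (N : ℝ)⁻¹ * (N * ((1 - g) * (I + KK p q)) + (KK p q + K1)) :=
      mul_le_mul_of_nonneg_left h9 (by positivity)
    have h11 : (N : ℝ)⁻¹ * (N * ((1 - g) * (I + KK p q)) + (KK p q + K1)) =
        (1 - g) * (I + KK p q) + (KK p q + K1) / N := by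
      field_simp
    linarith
  apply le_of_forall_pos_le_add
  intro ε hε
  obtain ⟨N, hN⟩ := exists_nat_gt ((KK p q + K1) / ε)
  have hNp : (0 : ℝ) < N := lt_of_le_of_lt (by positivity) hN
  have := main N (by exact_mod_cast hNp)
  have h2 : (KK p q + K1) / N ≤ ε := by
    rw [div_le_iff₀ hNp]
    rw [div_lt_iff₀ hε] at hN
    linarith
  linarith

end opt

/-! ### Existence of zeros of `D` -/

section zeros

variable {p q : ℕ} {θ : ℝ}

theorem bellman_BS (hq : 0 < q) (hpq : p < q) (g : ℝ) (hg : 0 ≤ g) (hg1 : g < 1) :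
    ∃ U : ℝ → ℝ → ℝ, (Continuous fun x : ℝ × ℝ => U x.1 x.2) ∧ ∀ T, BS p q T g (U T) := by
  obtain ⟨U, hc, h1, h2, h3, h4⟩ := bellman p q hq hpq g hg hg1
  refine ⟨U, hc, fun T => ⟨hg, hg1, ?_, h1 T, h2 T, h3 T, h4 T⟩⟩
  exact hc.comp (show Continuous fun y : ℝ => (T, y) by fun_prop)

theorem DD_at_pos {T g : ℝ} {U : ℝ → ℝ} (h : BS p q T g U) (hq : 0 < q) (hpq : p < q)
    (hθ : Ang p q θ) (z : ℝ) (hz : z - al q - T = θ) : 0 ≤ DD p q T g U z := by
  have e := (abs_le.mp (DD_near (T := T) hq hpq h.g0 h.g1.le h.per h.sc z)).1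
  rw [hz] at e
  have := hθ.eta
  linarith

theorem DD_at_neg {T g : ℝ} {U : ℝ → ℝ} (h : BS p q T g U) (hq : 0 < q) (hpq : p < q)
    (hθ : Ang p q θ) (z : ℝ) (hz : z - al q - T = -θ) : DD p q T g U z ≤ 0 := by
  have e := (abs_le.mp (DD_near (T := T) hq hpq h.g0 h.g1.le h.per h.sc z)).2
  rw [hz, Real.sin_neg] at e
  have := hθ.eta
  linarith

theorem zero_T (hq : 0 < q) (hpq : p < q) (hθ : Ang p q θ) (T g : ℝ) (hg : 0 ≤ g) (hg1 : g < 1) :
    ∃ (U : ℝ → ℝ) (z0 : ℝ), BS p q T g U ∧ DD p q T g U z0 = 0 ∧ |z0 - al q - T| ≤ θ := by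
  obtain ⟨U, hc, h⟩ := bellman_BS hq hpq g hg hg1
  have hT := h T
  have hpos := hθ.pos
  have hcont : Continuous fun z => DD p q T g (U T) z := by
    unfold DD
    have := hT.V_cont
    fun_prop
  have h1 := DD_at_neg hT hq hpq hθ (al q + T - θ) (by ring)
  have h2 := DD_at_pos hT hq hpq hθ (al q + T + θ) (by ring)
  obtain ⟨z0, hz0, hz0'⟩ := intermediate_value_Icc
    (show al q + T - θ ≤ al q + T + θ by linarith) hcont.continuousOn ⟨h1, h2⟩
  refine ⟨U T, z0, hT, hz0', ?_⟩
  rw [abs_le]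
  constructor <;> linarith [hz0.1, hz0.2]

theorem zero_z (hq : 0 < q) (hpq : p < q) (hθ : Ang p q θ) (z0 g : ℝ) (hg : 0 ≤ g) (hg1 : g < 1) :
    ∃ (U : ℝ → ℝ) (T : ℝ), BS p q T g U ∧ DD p q T g U z0 = 0 ∧ |z0 - al q - T| ≤ θ := by
  obtain ⟨U, hc, h⟩ := bellman_BS hq hpq g hg hg1
  have hpos := hθ.pos
  have hcont : Continuous fun T => DD p q T g (U T) z0 := by
    unfold DD VV hh
    have h1 : Continuous fun T => U T (be p q * z0) :=
      hc.comp (show Continuous fun T : ℝ => (T, be p q * z0) by fun_prop)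
    have h2 : Continuous fun T => U T (be p q * (z0 - om q)) :=
      hc.comp (show Continuous fun T : ℝ => (T, be p q * (z0 - om q)) by fun_prop)
    fun_prop
  have h1 := DD_at_pos (h (z0 - al q - θ)) hq hpq hθ z0 (by ring)
  have h2 := DD_at_neg (h (z0 - al q + θ)) hq hpq hθ z0 (by ring)
  obtain ⟨T, hT, hT'⟩ := intermediate_value_Icc'
    (show z0 - al q - θ ≤ z0 - al q + θ by linarith) hcont.continuousOn ⟨h2, h1⟩
  refine ⟨U T, T, h T, hT', ?_⟩
  rw [abs_le]
  constructor <;> linarith [hT.1, hT.2]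

end zeros

/-! ### The two directions -/

theorem e1_cont : Continuous e1 := by
  unfold e1
  fun_prop

theorem arc_eq (a l : ℝ) : arc a l = e1 '' Icc a (a + l) := by
  ext z
  constructor
  · rintro ⟨t, ht, h⟩
    exact ⟨t, ht, Subtype.ext h.symm⟩
  · rintro ⟨t, ht, rfl⟩
    exact ⟨t, ht, rfl⟩

theorem arc_closed (a l : ℝ) : IsClosed (arc a l) := by
  rw [arc_eq]
  exact (isCompact_Icc.image e1_cont).isClosed

theorem exists_rep (z : S1) (T : ℝ) :
    ∃ t, T - π ≤ t ∧ t ≤ T + π ∧ (z : ℂ) = Complex.exp (t * Complex.I) := by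
  have hpi := Real.pi_pos
  refine ⟨ar z - ⌊(ar z - (T - π)) / (2 * π)⌋ * (2 * π), ?_, ?_, ?_⟩
  · have := Int.floor_le ((ar z - (T - π)) / (2 * π))
    rw [le_div_iff₀ (by positivity)] at this
    linarith
  · have := Int.lt_floor_add_one ((ar z - (T - π)) / (2 * π))
    rw [div_lt_iff₀ (by positivity)] at this
    linarith
  · rw [← exp_ar z, Complex.exp_eq_exp_iff_exists_int]
    refine ⟨⌊(ar z - (T - π)) / (2 * π)⌋, ?_⟩
    push_cast
    ring

theorem min_sturm {p q : ℕ} (hp : 1 ≤ p) (hpq : p < q) {μ : Measure S1} (hμ : IsInv p q μ) (T : ℝ)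
    (hmin : ∀ μ' : Measure S1, IsInv p q μ' → ∫ z, hh T (ar z) ∂μ ≤ ∫ z, hh T (ar z) ∂μ') :
    IsSturmian q μ := by
  have hq : 0 < q := by omega
  have hq2 : 2 ≤ q := by omega
  have hpr := hμ.1
  obtain ⟨θ, hθ⟩ := exists_ang hp hpq
  have hK := KK_pos hq hpq
  have hr := rho_pos hθ
  have he := eta_pos hθ
  have hg : ∀ n : ℕ, 0 ≤ 1 - 1 / ((n : ℝ) + 2) ∧ 1 - 1 / ((n : ℝ) + 2) < 1 ∧
      1 / 2 ≤ 1 - 1 / ((n : ℝ) + 2) := by
    intro n
    have h1 : (0 : ℝ) < 1 / ((n : ℝ) + 2) := by positivity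
    have h2 : 1 / ((n : ℝ) + 2) ≤ 1 / 2 := by
      apply one_div_le_one_div_of_le (by norm_num)
      linarith [(Nat.cast_nonneg n : (0 : ℝ) ≤ n)]
    refine ⟨by linarith, by linarith, by linarith⟩
  choose U z0 hU hD hs using fun n : ℕ =>
    zero_T hq hpq hθ T (1 - 1 / ((n : ℝ) + 2)) (hg n).1 (hg n).2.1
  -- the integrals of the excess tend to zero
  have hE : ∀ n : ℕ, ∫ z, (VV p q T (1 - 1 / ((n : ℝ) + 2)) (U n) (ar z) - U n (ar z)) ∂μ ≤
      2 * KK p q / (n + 2) := by
    intro n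
    have h1 := (hU n).ident hq hpq hμ
    have h2 := (hU n).opt hq hpq hμ hmin
    have h3 : 0 ≤ ∫ z, (VV p q T (1 - 1 / ((n : ℝ) + 2)) (U n) (ar z) - U n (ar z)) ∂μ :=
      integral_nonneg fun z => by simpa using (hU n).le' (ar z)
    have h4 := mul_le_mul_of_nonneg_right (hg n).2.2 h3
    have h5 : 1 - (1 - 1 / ((n : ℝ) + 2)) = 1 / ((n : ℝ) + 2) := by ring
    rw [h5] at h1 h2
    have h6 : 2 * KK p q / ((n : ℝ) + 2) = 2 * (1 / ((n : ℝ) + 2) * KK p q) := by ring
    rw [h6]
    nlinarith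
  -- a convergent subsequence
  have hz : ∀ n, z0 n ∈ Icc (T + al q - θ) (T + al q + θ) := by
    intro n
    have := abs_le.mp (hs n)
    exact ⟨by linarith [this.1], by linarith [this.2]⟩
  obtain ⟨zs, _, φ, hφ, hlim⟩ := isCompact_Icc.tendsto_subseq hz
  refine ⟨zs - om q, ?_⟩
  apply Measure.support_subset_of_isClosed (arc_closed _ _)
  rw [mem_ae_iff]
  set A : ℝ → Set S1 := fun δ => {z | ∃ t, T - π ≤ t ∧ t ≤ T + π ∧
    (z : ℂ) = Complex.exp (t * Complex.I) ∧ (zs + 2 * δ ≤ t ∨ t ≤ zs - om q - 2 * δ)} with hA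
  have hAz : ∀ δ, 0 < δ → μ (A δ) = 0 := by
    intro δ hδ
    set c := min (rho p q θ * δ) (eta p q θ) with hc
    have hc0 : 0 < c := lt_min (mul_pos hr hδ) he
    have hev : ∀ᶠ n : ℕ in atTop, c * μ.real (A δ) ≤ 2 * KK p q / ((n : ℝ) + 2) := by
      have h1 : ∀ᶠ n in atTop, dist (z0 (φ n)) zs < δ := (Metric.tendsto_nhds.mp hlim) δ hδ
      filter_upwards [h1] with n hn
      rw [Real.dist_eq, abs_lt] at hn
      set V := VV p q T (1 - 1 / (((φ n : ℕ) : ℝ) + 2)) (U (φ n)) with hV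
      have hB := hU (φ n)
      have hsub : A δ ⊆ {z | c ≤ V (ar z) - U (φ n) (ar z)} := by
        rintro z ⟨t, ht1, ht2, htz, ht⟩
        have e1 : V (ar z) = V t := periodic_ar (hB.V_per hq) htz
        have e2 : U (φ n) (ar z) = U (φ n) t := periodic_ar (hB.U_per hq) htz
        show c ≤ V (ar z) - U (φ n) (ar z)
        rw [e1, e2]
        rcases ht with ht | ht
        · have := excess_right hpq hq2 hB.g0 hB.g1.le hB.per hB.sc hθ hB.le (hD (φ n))
            (hs (φ n)) t (by linarith [hn.2]) (by linarith)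
          refine le_trans ?_ this
          apply min_le_min_right
          exact mul_le_mul_of_nonneg_left (by linarith [hn.2]) hr.le
        · have := excess_left hpq hq2 hB.g0 hB.g1.le hB.per hB.sc hθ hB.le (hD (φ n))
            (hs (φ n)) t (by linarith [hn.1]) (by linarith)
          refine le_trans ?_ this
          apply min_le_min_right
          exact mul_le_mul_of_nonneg_left (by linarith [hn.1]) hr.le
      have h2 := mul_meas_ge_le_integral_of_nonneg (μ := μ)
        (f := fun z => V (ar z) - U (φ n) (ar z))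
        (Eventually.of_forall fun z => sub_nonneg.mpr (hB.le' (ar z)))
        ((integrable_ar hB.V_cont (hB.V_bdd hq hpq) μ).sub
          (integrable_ar hB.cont (hB.U_bdd hq hpq) μ)) c
      have h3 : μ.real (A δ) ≤ μ.real {z | c ≤ V (ar z) - U (φ n) (ar z)} :=
        measureReal_mono hsub
      have h4 := hE (φ n)
      have h5 : 2 * KK p q / (((φ n : ℕ) : ℝ) + 2) ≤ 2 * KK p q / ((n : ℝ) + 2) := by
        apply div_le_div_of_nonneg_left (by positivity) (by positivity)
        have : (n : ℝ) ≤ φ n := by exact_mod_cast hφ.id_le n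
        linarith
      calc c * μ.real (A δ) ≤ c * μ.real {z | c ≤ V (ar z) - U (φ n) (ar z)} :=
            mul_le_mul_of_nonneg_left h3 hc0.le
        _ ≤ _ := h2
        _ ≤ _ := h4
        _ ≤ _ := h5
    have hlim2 : Tendsto (fun n : ℕ => 2 * KK p q / ((n : ℝ) + 2)) atTop (𝓝 0) := by
      apply Tendsto.div_atTop tendsto_const_nhds
      exact tendsto_atTop_add_const_right _ _ tendsto_natCast_atTop_atTop
    have h6 : c * μ.real (A δ) ≤ 0 := ge_of_tendsto hlim2 hev
    have h7 : μ.real (A δ) ≤ 0 := by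
      by_contra hcon
      push Not at hcon
      have := mul_pos hc0 hcon
      linarith
    have h8 : μ.real (A δ) = 0 := le_antisymm h7 measureReal_nonneg
    rwa [measureReal_eq_zero_iff] at h8
  have hcover : (arc (zs - om q) (2 * π / q))ᶜ ⊆ ⋃ k : ℕ, A (1 / ((k : ℝ) + 1)) := by
    intro z hz
    obtain ⟨t, ht1, ht2, htz⟩ := exists_rep z T
    have hnot : ¬ (zs - om q ≤ t ∧ t ≤ zs) := by
      rintro ⟨h1, h2⟩
      apply hz
      refine ⟨t, ⟨h1, ?_⟩, htz⟩
      show t ≤ zs - om q + 2 * π / q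
      have : om q = 2 * π / q := rfl
      linarith
    rw [not_and_or, not_le, not_le] at hnot
    rcases hnot with h1 | h1
    · obtain ⟨k, hk⟩ := exists_nat_one_div_lt (show 0 < (zs - om q - t) / 2 by linarith)
      rw [mem_iUnion]
      exact ⟨k, t, ht1, ht2, htz, Or.inr (by linarith)⟩
    · obtain ⟨k, hk⟩ := exists_nat_one_div_lt (show 0 < (t - zs) / 2 by linarith)
      rw [mem_iUnion]
      exact ⟨k, t, ht1, ht2, htz, Or.inl (by linarith)⟩
  apply measure_mono_null hcover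
  rw [measure_iUnion_null_iff]
  intro k
  exact hAz _ (by positivity)

theorem hh_eq (T : ℝ) (z : S1) :
    hh T (ar z) = -(Complex.exp (-(T * Complex.I)) * (z : ℂ)).re := by
  rw [← exp_ar z, ← Complex.exp_add, show -(T * Complex.I) + ar z * Complex.I =
    ((ar z - T : ℝ) : ℂ) * Complex.I by push_cast; ring, Complex.exp_ofReal_mul_I_re]
  rfl

theorem int_hh (T : ℝ) (μ : Measure S1) [IsFiniteMeasure μ] :
    ∫ z, hh T (ar z) ∂μ = -(Complex.exp (-(T * Complex.I)) * bary μ).re := by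
  have hint : Integrable (fun z : S1 => Complex.exp (-(T * Complex.I)) * (z : ℂ)) μ := by
    apply Integrable.of_bound (C := 1)
    · exact (measurable_const.mul measurable_subtype_coe).aestronglyMeasurable
    · refine Eventually.of_forall fun z => ?_
      have hz : ‖(z : ℂ)‖ = 1 := by simp
      rw [norm_mul, hz, mul_one, show -(T * Complex.I) = ((-T : ℝ) : ℂ) * Complex.I by
        push_cast; ring, Complex.norm_exp_ofReal_mul_I]
  simp only [hh_eq]
  rw [integral_neg]
  congr 1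
  have h1 := integral_re hint
  have h2 : ∫ z : S1, Complex.exp (-(T * Complex.I)) * (z : ℂ) ∂μ =
      Complex.exp (-(T * Complex.I)) * bary μ := by
    unfold bary
    rw [integral_const_mul]
  rw [h2] at h1
  exact h1

theorem sturm_min {p q : ℕ} (hp : 1 ≤ p) (hpq : p < q) {μ : Measure S1} (hμ : IsInv p q μ)
    (hst : IsSturmian q μ) :
    ∃ T : ℝ, ∀ μ' : Measure S1, IsInv p q μ' → ∫ z, hh T (ar z) ∂μ ≤ ∫ z, hh T (ar z) ∂μ' := by
  have hq : 0 < q := by omega
  have hq2 : 2 ≤ q := by omega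
  have hpr := hμ.1
  obtain ⟨θ, hθ⟩ := exists_ang hp hpq
  have hK := KK_pos hq hpq
  obtain ⟨a, ha⟩ := hst
  have hg : ∀ n : ℕ, 0 ≤ 1 - 1 / ((n : ℝ) + 2) ∧ 1 - 1 / ((n : ℝ) + 2) < 1 := by
    intro n
    have h1 : (0 : ℝ) < 1 / ((n : ℝ) + 2) := by positivity
    have h2 : 1 / ((n : ℝ) + 2) ≤ 1 / 2 := by
      apply one_div_le_one_div_of_le (by norm_num)
      linarith [(Nat.cast_nonneg n : (0 : ℝ) ≤ n)]
    refine ⟨by linarith, by linarith⟩
  choose U T hU hD hs using fun n : ℕ =>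
    zero_z hq hpq hθ (a + om q) (1 - 1 / ((n : ℝ) + 2)) (hg n).1 (hg n).2
  have hae : ∀ᵐ z ∂μ, z ∈ arc a (2 * π / q) := by
    have h1 : μ.support ∈ ae μ := Measure.support_mem_ae
    exact Filter.mem_of_superset h1 ha
  have hcmp : ∀ n : ℕ, ∀ μ' : Measure S1, IsInv p q μ' →
      ∫ z, hh (T n) (ar z) ∂μ ≤ ∫ z, hh (T n) (ar z) ∂μ' + 2 * KK p q / ((n : ℝ) + 2) := by
    intro n μ' hμ'
    have hB := hU n
    have h0 : ∫ z, (VV p q (T n) (1 - 1 / ((n : ℝ) + 2)) (U n) (ar z) - U n (ar z)) ∂μ = 0 := by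
      rw [integral_eq_zero_of_ae]
      filter_upwards [hae] with z hz
      obtain ⟨t, ht, htz⟩ := hz
      have e1 := periodic_ar (hB.V_per hq) htz
      have e2 := periodic_ar (hB.U_per hq) htz
      simp only [Pi.zero_apply]
      rw [e1, e2]
      have hom : om q = 2 * π / q := rfl
      have := contact hpq hq2 hB.g0 hB.g1.le hB.per hB.sc hθ hB.le (hD n) (hs n) hB.ex t
        (by linarith [ht.1]) (by linarith [ht.2])
      rw [this]
      ring
    have h1 := hB.ident hq hpq hμ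
    rw [h0, mul_zero] at h1
    have h2 := hB.lower hq hpq hμ'
    have h3 := hB.osc_int hq hpq hμ 0
    have h4 := hB.int_osc hq hpq hμ' 0
    have h5 : 1 - (1 - 1 / ((n : ℝ) + 2)) = 1 / ((n : ℝ) + 2) := by ring
    rw [h5] at h1 h2
    have h6 : 2 * KK p q / ((n : ℝ) + 2) = 1 / ((n : ℝ) + 2) * (2 * KK p q) := by ring
    have h7 : (0 : ℝ) ≤ 1 / ((n : ℝ) + 2) := by positivity
    have h8 := mul_le_mul_of_nonneg_left (show
      ∫ z, VV p q (T n) (1 - 1 / ((n : ℝ) + 2)) (U n) (ar z) ∂μ ≤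
      ∫ z, VV p q (T n) (1 - 1 / ((n : ℝ) + 2)) (U n) (ar z) ∂μ' + 2 * KK p q by linarith) h7
    rw [h6]
    linarith
  have hz : ∀ n, T n ∈ Icc (a + om q - al q - θ) (a + om q - al q + θ) := by
    intro n
    have := abs_le.mp (hs n)
    exact ⟨by linarith [this.2], by linarith [this.1]⟩
  obtain ⟨Ts, _, φ, hφ, hlim⟩ := isCompact_Icc.tendsto_subseq hz
  refine ⟨Ts, fun μ' hμ' => ?_⟩
  have hpr' := hμ'.1
  have hc : ∀ ν : Measure S1, IsFiniteMeasure ν →
      Tendsto (fun n => ∫ z, hh (T (φ n)) (ar z) ∂ν) atTop (𝓝 (∫ z, hh Ts (ar z) ∂ν)) := by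
    intro ν hν
    simp only [int_hh]
    have hcont : Continuous fun t : ℝ => -(Complex.exp (-(t * Complex.I)) * bary ν).re := by
      fun_prop
    exact (hcont.tendsto Ts).comp hlim
  have hlim2 : Tendsto (fun n : ℕ => 2 * KK p q / ((φ n : ℝ) + 2)) atTop (𝓝 0) := by
    apply Tendsto.div_atTop tendsto_const_nhds
    exact tendsto_atTop_add_const_right _ _
      (tendsto_natCast_atTop_atTop.comp hφ.tendsto_atTop)
  have h1 := hc μ inferInstance
  have h2 := (hc μ' inferInstance).add hlim2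
  rw [add_zero] at h2
  exact le_of_tendsto_of_tendsto' h1 h2 fun n => hcmp (φ n) μ' hμ'

end Pool.Agent.R285.Bary
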