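import Mathlib

/-!
# Algebraic identities for a pair of doubly commuting isometries
-/

set_option autoImplicit false
set_option linter.all false

namespace Pool.Agent.R285.BiShift

variable {A : Type*} [Ring A] [Algebra ℂ A]

/-- doubly commuting pair of isometries `X, Y` with adjoints `X', Y'` -/
structure Rel (X Y X' Y' : A) : Prop where
  XX : X' * X = 1
  YY : Y' * Y = 1
  YX : Y * X = X * Y
  YX' : Y * X' = X' * Y
  Y'X : Y' * X = X * Y'
  Y'X' : Y' * X' = X' * Y'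

variable {X Y X' Y' : A} (h : Rel X Y X' Y')
include h

lemma Rel.a1 (Z : A) : X' * (X * Z) = Z := by rw [← mul_assoc, h.XX, one_mul]
lemma Rel.a2 (Z : A) : Y' * (Y * Z) = Z := by rw [← mul_assoc, h.YY, one_mul]
lemma Rel.a3 (Z : A) : Y * (X * Z) = X * (Y * Z) := by rw [← mul_assoc, h.YX, mul_assoc]
lemma Rel.a4 (Z : A) : Y * (X' * Z) = X' * (Y * Z) := by rw [← mul_assoc, h.YX', mul_assoc]
lemma Rel.a5 (Z : A) : Y' * (X * Z) = X * (Y' * Z) := by rw [← mul_assoc, h.Y'X, mul_assoc]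
lemma Rel.a6 (Z : A) : Y' * (X' * Z) = X' * (Y' * Z) := by rw [← mul_assoc, h.Y'X', mul_assoc]

omit h

/-- `p` -/
noncomputable def pp (X Y : A) : A := 1 - (12 / 25 : ℂ) • (X * Y) + (12 / 25 : ℂ) • (X * (X * Y))
/-- `p̃` -/
noncomputable def pt (X Y : A) : A := X * (X * Y) - (12 / 25 : ℂ) • X + (12 / 25 : ℂ) • 1
/-- `v₁` -/
noncomputable def v1 (X Y : A) : A := (3 / 5 : ℂ) • 1 - (4 / 5 : ℂ) • (X * Y)
/-- `v₂` -/
noncomputable def v2 (X Y : A) : A := (16 / 25 : ℂ) • Y + (9 / 25 : ℂ) • (X * Y)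
/-- `E` -/
noncomputable def ee (X : A) : A := (16 / 25 : ℂ) • 1 + (9 / 25 : ℂ) • X

include h

lemma idA : pp X Y * pp X' Y' - pt X Y * pt X' Y' =
    v1 X Y * (1 - X * X') * v1 X' Y' + v2 X Y * (1 - X * X') * v2 X' Y' +
      ee X * (1 - Y * Y') * ee X' := by
  simp only [pp, pt, v1, v2, ee, mul_add, add_mul, mul_sub, sub_mul, smul_mul_assoc,
    mul_smul_comm, smul_smul, one_mul, mul_one, mul_assoc, smul_add, smul_sub, h.XX, h.YY, h.YX,
    h.YX', h.Y'X, h.Y'X', h.a1, h.a2, h.a3, h.a4, h.a5, h.a6]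
  module

lemma idB1 : v1 X' Y' * v1 X Y = pp X' Y' * pp X Y +
    pp X' Y' * ((-12 / 25 : ℂ) • (X * (X * Y))) + ((-12 / 25 : ℂ) • (X' * (X' * Y'))) * pp X Y := by
  simp only [pp, pt, v1, v2, ee, mul_add, add_mul, mul_sub, sub_mul, smul_mul_assoc,
    mul_smul_comm, smul_smul, one_mul, mul_one, mul_assoc, smul_add, smul_sub, h.XX, h.YY, h.YX,
    h.YX', h.Y'X, h.Y'X', h.a1, h.a2, h.a3, h.a4, h.a5, h.a6]
  module

lemma idB2 : v2 X' Y' * v2 X Y = pp X' Y' * pp X Y +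
    pp X' Y' * ((12 / 25 : ℂ) • (X * Y - X * (X * Y))) +
      ((12 / 25 : ℂ) • (X' * Y' - X' * (X' * Y'))) * pp X Y := by
  simp only [pp, pt, v1, v2, ee, mul_add, add_mul, mul_sub, sub_mul, smul_mul_assoc,
    mul_smul_comm, smul_smul, one_mul, mul_one, mul_assoc, smul_add, smul_sub, h.XX, h.YY, h.YX,
    h.YX', h.Y'X, h.Y'X', h.a1, h.a2, h.a3, h.a4, h.a5, h.a6]
  module

lemma idB4 : ee X' * ee X = pp X' Y' * pp X Y +
    pp X' Y' * ((12 / 25 : ℂ) • (X * Y - X * (X * Y))) +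
      ((12 / 25 : ℂ) • (X' * Y' - X' * (X' * Y'))) * pp X Y := by
  simp only [pp, pt, v1, v2, ee, mul_add, add_mul, mul_sub, sub_mul, smul_mul_assoc,
    mul_smul_comm, smul_smul, one_mul, mul_one, mul_assoc, smul_add, smul_sub, h.XX, h.YY, h.YX,
    h.YX', h.Y'X, h.Y'X', h.a1, h.a2, h.a3, h.a4, h.a5, h.a6]
  module

lemma idB3 : v1 X' Y' * v2 X Y = pp X' Y' * ((3 / 5 : ℂ) • (X * Y)) + ((-4 / 5 : ℂ) • X') * pp X Y := by
  simp only [pp, pt, v1, v2, ee, mul_add, add_mul, mul_sub, sub_mul, smul_mul_assoc,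
    mul_smul_comm, smul_smul, one_mul, mul_one, mul_assoc, smul_add, smul_sub, h.XX, h.YY, h.YX,
    h.YX', h.Y'X, h.Y'X', h.a1, h.a2, h.a3, h.a4, h.a5, h.a6]
  module

lemma idB3d : v2 X' Y' * v1 X Y = ((3 / 5 : ℂ) • (X' * Y')) * pp X Y + pp X' Y' * ((-4 / 5 : ℂ) • X) := by
  simp only [pp, pt, v1, v2, ee, mul_add, add_mul, mul_sub, sub_mul, smul_mul_assoc,
    mul_smul_comm, smul_smul, one_mul, mul_one, mul_assoc, smul_add, smul_sub, h.XX, h.YY, h.YX,
    h.YX', h.Y'X, h.Y'X', h.a1, h.a2, h.a3, h.a4, h.a5, h.a6]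
  module

lemma idB5 : pt X' Y' * pt X Y = pp X' Y' * pp X Y := by
  simp only [pp, pt, v1, v2, ee, mul_add, add_mul, mul_sub, sub_mul, smul_mul_assoc,
    mul_smul_comm, smul_smul, one_mul, mul_one, mul_assoc, smul_add, smul_sub, h.XX, h.YY, h.YX,
    h.YX', h.Y'X, h.Y'X', h.a1, h.a2, h.a3, h.a4, h.a5, h.a6]
  module

lemma idC1 : ee X' * v1 X Y = pp X' Y' * ((-4 / 5 : ℂ) • (X * Y)) + ((3 / 5 : ℂ) • X') * pp X Y := by
  simp only [pp, pt, v1, v2, ee, mul_add, add_mul, mul_sub, sub_mul, smul_mul_assoc,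
    mul_smul_comm, smul_smul, one_mul, mul_one, mul_assoc, smul_add, smul_sub, h.XX, h.YY, h.YX,
    h.YX', h.Y'X, h.Y'X', h.a1, h.a2, h.a3, h.a4, h.a5, h.a6]
  module

lemma idC1d : v1 X' Y' * ee X = ((-4 / 5 : ℂ) • (X' * Y')) * pp X Y + pp X' Y' * ((3 / 5 : ℂ) • X) := by
  simp only [pp, pt, v1, v2, ee, mul_add, add_mul, mul_sub, sub_mul, smul_mul_assoc,
    mul_smul_comm, smul_smul, one_mul, mul_one, mul_assoc, smul_add, smul_sub, h.XX, h.YY, h.YX,
    h.YX', h.Y'X, h.Y'X', h.a1, h.a2, h.a3, h.a4, h.a5, h.a6]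
  module

lemma idC2 : ee X' * v2 X Y = pp X' Y' * Y + ((12 / 25 : ℂ) • (X' - X' * X')) * pp X Y := by
  simp only [pp, pt, v1, v2, ee, mul_add, add_mul, mul_sub, sub_mul, smul_mul_assoc,
    mul_smul_comm, smul_smul, one_mul, mul_one, mul_assoc, smul_add, smul_sub, h.XX, h.YY, h.YX,
    h.YX', h.Y'X, h.Y'X', h.a1, h.a2, h.a3, h.a4, h.a5, h.a6]
  module

lemma idC2d : v2 X' Y' * ee X = Y' * pp X Y + pp X' Y' * ((12 / 25 : ℂ) • (X - X * X)) := by
  simp only [pp, pt, v1, v2, ee, mul_add, add_mul, mul_sub, sub_mul, smul_mul_assoc,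
    mul_smul_comm, smul_smul, one_mul, mul_one, mul_assoc, smul_add, smul_sub, h.XX, h.YY, h.YX,
    h.YX', h.Y'X, h.Y'X', h.a1, h.a2, h.a3, h.a4, h.a5, h.a6]
  module

lemma idC3 : pt X' Y' * v1 X Y = ((3 / 5 : ℂ) • (X' * (X' * Y')) - (4 / 5 : ℂ) • X') * pp X Y := by
  simp only [pp, pt, v1, v2, ee, mul_add, add_mul, mul_sub, sub_mul, smul_mul_assoc,
    mul_smul_comm, smul_smul, one_mul, mul_one, mul_assoc, smul_add, smul_sub, h.XX, h.YY, h.YX,
    h.YX', h.Y'X, h.Y'X', h.a1, h.a2, h.a3, h.a4, h.a5, h.a6]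
  module

lemma idC4 : pt X' Y' * v2 X Y = ((16 / 25 : ℂ) • (X' * X') + (9 / 25 : ℂ) • X') * pp X Y := by
  simp only [pp, pt, v1, v2, ee, mul_add, add_mul, mul_sub, sub_mul, smul_mul_assoc,
    mul_smul_comm, smul_smul, one_mul, mul_one, mul_assoc, smul_add, smul_sub, h.XX, h.YY, h.YX,
    h.YX', h.Y'X, h.Y'X', h.a1, h.a2, h.a3, h.a4, h.a5, h.a6]
  module

lemma idC5 : pt X' Y' * ee X = (Y' * ((16 / 25 : ℂ) • (X' * X') + (9 / 25 : ℂ) • X')) * pp X Y := by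
  simp only [pp, pt, v1, v2, ee, mul_add, add_mul, mul_sub, sub_mul, smul_mul_assoc,
    mul_smul_comm, smul_smul, one_mul, mul_one, mul_assoc, smul_add, smul_sub, h.XX, h.YY, h.YX,
    h.YX', h.Y'X, h.Y'X', h.a1, h.a2, h.a3, h.a4, h.a5, h.a6]
  module

lemma idC3d : v1 X' Y' * pt X Y = pp X' Y' * ((3 / 5 : ℂ) • (X * (X * Y)) - (4 / 5 : ℂ) • X) := by
  simp only [pp, pt, v1, v2, ee, mul_add, add_mul, mul_sub, sub_mul, smul_mul_assoc,
    mul_smul_comm, smul_smul, one_mul, mul_one, mul_assoc, smul_add, smul_sub, h.XX, h.YY, h.YX,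
    h.YX', h.Y'X, h.Y'X', h.a1, h.a2, h.a3, h.a4, h.a5, h.a6]
  module

lemma idC4d : v2 X' Y' * pt X Y = pp X' Y' * ((16 / 25 : ℂ) • (X * X) + (9 / 25 : ℂ) • X) := by
  simp only [pp, pt, v1, v2, ee, mul_add, add_mul, mul_sub, sub_mul, smul_mul_assoc,
    mul_smul_comm, smul_smul, one_mul, mul_one, mul_assoc, smul_add, smul_sub, h.XX, h.YY, h.YX,
    h.YX', h.Y'X, h.Y'X', h.a1, h.a2, h.a3, h.a4, h.a5, h.a6]
  module

lemma idC5d : ee X' * pt X Y = pp X' Y' * (Y * ((16 / 25 : ℂ) • (X * X) + (9 / 25 : ℂ) • X)) := by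
  simp only [pp, pt, v1, v2, ee, mul_add, add_mul, mul_sub, sub_mul, smul_mul_assoc,
    mul_smul_comm, smul_smul, one_mul, mul_one, mul_assoc, smul_add, smul_sub, h.XX, h.YY, h.YX,
    h.YX', h.Y'X, h.Y'X', h.a1, h.a2, h.a3, h.a4, h.a5, h.a6]
  module

lemma idD1 : X * v1 X Y = (-4 / 5 : ℂ) • pt X Y + (3 / 5 : ℂ) • ee X := by
  simp only [pp, pt, v1, v2, ee, mul_add, add_mul, mul_sub, sub_mul, smul_mul_assoc,
    mul_smul_comm, smul_smul, one_mul, mul_one, mul_assoc, smul_add, smul_sub, h.XX, h.YY, h.YX,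
    h.YX', h.Y'X, h.Y'X', h.a1, h.a2, h.a3, h.a4, h.a5, h.a6]
  module

lemma idD2 : X * v2 X Y = (9 / 25 : ℂ) • pt X Y - (4 / 5 : ℂ) • v1 X Y + (12 / 25 : ℂ) • ee X := by
  simp only [pp, pt, v1, v2, ee, mul_add, add_mul, mul_sub, sub_mul, smul_mul_assoc,
    mul_smul_comm, smul_smul, one_mul, mul_one, mul_assoc, smul_add, smul_sub, h.XX, h.YY, h.YX,
    h.YX', h.Y'X, h.Y'X', h.a1, h.a2, h.a3, h.a4, h.a5, h.a6]
  module

lemma idD3 : v2 X Y = Y * ee X := by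
  simp only [pp, pt, v1, v2, ee, mul_add, add_mul, mul_sub, sub_mul, smul_mul_assoc,
    mul_smul_comm, smul_smul, one_mul, mul_one, mul_assoc, smul_add, smul_sub, h.XX, h.YY, h.YX,
    h.YX', h.Y'X, h.Y'X', h.a1, h.a2, h.a3, h.a4, h.a5, h.a6]

lemma comm_pX : pp X Y * X = X * pp X Y := by
  simp only [pp, pt, v1, v2, ee, mul_add, add_mul, mul_sub, sub_mul, smul_mul_assoc,
    mul_smul_comm, smul_smul, one_mul, mul_one, mul_assoc, smul_add, smul_sub, h.XX, h.YY, h.YX,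
    h.YX', h.Y'X, h.Y'X', h.a1, h.a2, h.a3, h.a4, h.a5, h.a6]

lemma comm_pY : pp X Y * Y = Y * pp X Y := by
  simp only [pp, pt, v1, v2, ee, mul_add, add_mul, mul_sub, sub_mul, smul_mul_assoc,
    mul_smul_comm, smul_smul, one_mul, mul_one, mul_assoc, smul_add, smul_sub, h.XX, h.YY, h.YX,
    h.YX', h.Y'X, h.Y'X', h.a1, h.a2, h.a3, h.a4, h.a5, h.a6]

lemma comm_pX' : pp X' Y' * X' = X' * pp X' Y' := by
  simp only [pp, pt, v1, v2, ee, mul_add, add_mul, mul_sub, sub_mul, smul_mul_assoc,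
    mul_smul_comm, smul_smul, one_mul, mul_one, mul_assoc, smul_add, smul_sub, h.XX, h.YY, h.YX,
    h.YX', h.Y'X, h.Y'X', h.a1, h.a2, h.a3, h.a4, h.a5, h.a6]

lemma comm_pY' : pp X' Y' * Y' = Y' * pp X' Y' := by
  simp only [pp, pt, v1, v2, ee, mul_add, add_mul, mul_sub, sub_mul, smul_mul_assoc,
    mul_smul_comm, smul_smul, one_mul, mul_one, mul_assoc, smul_add, smul_sub, h.XX, h.YY, h.YX,
    h.YX', h.Y'X, h.Y'X', h.a1, h.a2, h.a3, h.a4, h.a5, h.a6]

omit h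

/-- the inverse of `p` -/
structure Data (X Y X' Y' R R' : A) : Prop extends Rel X Y X' Y' where
  Rp : R * pp X Y = 1
  pR : pp X Y * R = 1
  Rp' : R' * pp X' Y' = 1
  pR' : pp X' Y' * R' = 1

variable {R R' : A} (d : Data X Y X' Y' R R')
include d

lemma R_comm {Z : A} (hZ : pp X Y * Z = Z * pp X Y) : R * Z = Z * R := by
  calc R * Z = R * Z * (pp X Y * R) := by rw [d.pR, mul_one]
    _ = R * (Z * pp X Y) * R := by simp only [mul_assoc]
    _ = R * pp X Y * (Z * R) := by rw [← hZ]; simp only [mul_assoc]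
    _ = Z * R := by rw [d.Rp, one_mul]

lemma R'_comm {Z : A} (hZ : pp X' Y' * Z = Z * pp X' Y') : R' * Z = Z * R' := by
  calc R' * Z = R' * Z * (pp X' Y' * R') := by rw [d.pR', mul_one]
    _ = R' * (Z * pp X' Y') * R' := by simp only [mul_assoc]
    _ = R' * pp X' Y' * (Z * R') := by rw [← hZ]; simp only [mul_assoc]
    _ = Z * R' := by rw [d.Rp', one_mul]

lemma RX : R * X = X * R := R_comm d (comm_pX d.toRel)
lemma RY : R * Y = Y * R := R_comm d (comm_pY d.toRel)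
lemma RX' : R' * X' = X' * R' := R'_comm d (comm_pX' d.toRel)
lemma RY' : R' * Y' = Y' * R' := R'_comm d (comm_pY' d.toRel)
lemma RXa (Z : A) : R * (X * Z) = X * (R * Z) := by rw [← mul_assoc, RX d, mul_assoc]
lemma RYa (Z : A) : R * (Y * Z) = Y * (R * Z) := by rw [← mul_assoc, RY d, mul_assoc]
lemma RXa' (Z : A) : R' * (X' * Z) = X' * (R' * Z) := by rw [← mul_assoc, RX' d, mul_assoc]
lemma RYa' (Z : A) : R' * (Y' * Z) = Y' * (R' * Z) := by rw [← mul_assoc, RY' d, mul_assoc]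

omit d
include h

lemma PX : (1 - X * X') * X = 0 := by rw [sub_mul, one_mul, mul_assoc, h.XX, mul_one, sub_self]
lemma PXa (Z : A) : (1 - X * X') * (X * Z) = 0 := by rw [← mul_assoc, PX h, zero_mul]
lemma X'P : X' * (1 - X * X') = 0 := by rw [mul_sub, mul_one, ← mul_assoc, h.XX, one_mul, sub_self]
lemma X'Pa (Z : A) : X' * ((1 - X * X') * Z) = 0 := by rw [← mul_assoc, X'P h, zero_mul]
lemma QY : (1 - Y * Y') * Y = 0 := by rw [sub_mul, one_mul, mul_assoc, h.YY, mul_one, sub_self]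
lemma QYa (Z : A) : (1 - Y * Y') * (Y * Z) = 0 := by rw [← mul_assoc, QY h, zero_mul]
lemma Y'Q : Y' * (1 - Y * Y') = 0 := by rw [mul_sub, mul_one, ← mul_assoc, h.YY, one_mul, sub_self]
lemma Y'Qa (Z : A) : Y' * ((1 - Y * Y') * Z) = 0 := by rw [← mul_assoc, Y'Q h, zero_mul]
lemma YP : Y * (1 - X * X') = (1 - X * X') * Y := by
  simp only [mul_sub, sub_mul, mul_one, one_mul, mul_assoc, h.a3, h.YX']
lemma YPa (Z : A) : Y * ((1 - X * X') * Z) = (1 - X * X') * (Y * Z) := by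
  rw [← mul_assoc, YP h, mul_assoc]
lemma Y'P : Y' * (1 - X * X') = (1 - X * X') * Y' := by
  simp only [mul_sub, sub_mul, mul_one, one_mul, mul_assoc, h.a5, h.Y'X']
lemma Y'Pa (Z : A) : Y' * ((1 - X * X') * Z) = (1 - X * X') * (Y' * Z) := by
  rw [← mul_assoc, Y'P h, mul_assoc]
lemma XQ : X * (1 - Y * Y') = (1 - Y * Y') * X := by
  simp only [mul_sub, sub_mul, mul_one, one_mul, mul_assoc, h.a3, h.Y'X]
lemma XQa (Z : A) : X * ((1 - Y * Y') * Z) = (1 - Y * Y') * (X * Z) := by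
  rw [← mul_assoc, XQ h, mul_assoc]
lemma X'Q : X' * (1 - Y * Y') = (1 - Y * Y') * X' := by
  simp only [mul_sub, sub_mul, mul_one, one_mul, mul_assoc, ← h.a4, ← h.Y'X']
lemma X'Qa (Z : A) : X' * ((1 - Y * Y') * Z) = (1 - Y * Y') * (X' * Z) := by
  rw [← mul_assoc, X'Q h, mul_assoc]
lemma PP : (1 - X * X') * (1 - X * X') = 1 - X * X' := by
  rw [mul_sub, mul_one, ← mul_assoc, PX h, zero_mul, sub_zero]
lemma PPa (Z : A) : (1 - X * X') * ((1 - X * X') * Z) = (1 - X * X') * Z := by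
  rw [← mul_assoc, PP h]
lemma QQ : (1 - Y * Y') * (1 - Y * Y') = 1 - Y * Y' := by
  rw [mul_sub, mul_one, ← mul_assoc, QY h, zero_mul, sub_zero]
lemma QQa (Z : A) : (1 - Y * Y') * ((1 - Y * Y') * Z) = (1 - Y * Y') * Z := by
  rw [← mul_assoc, QQ h]

omit h

-- PART2
/-- with names for the projections -/
structure Full (X Y X' Y' R R' P Q : A) : Prop extends Data X Y X' Y' R R' where
  hP : P = 1 - X * X'
  hQ : Q = 1 - Y * Y'

variable {P Q : A} (f : Full X Y X' Y' R R' P Q)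
include f

lemma Full.PX : P * X = 0 := by
  rw [f.hP]; exact _root_.Pool.Agent.R285.BiShift.PX f.toRel
lemma Full.PXa (Z : A) : P * (X * Z) = 0 := by
  rw [f.hP]; exact _root_.Pool.Agent.R285.BiShift.PXa f.toRel Z
lemma Full.X'P : X' * P = 0 := by
  rw [f.hP]; exact _root_.Pool.Agent.R285.BiShift.X'P f.toRel
lemma Full.X'Pa (Z : A) : X' * (P * Z) = 0 := by
  rw [f.hP]; exact _root_.Pool.Agent.R285.BiShift.X'Pa f.toRel Z
lemma Full.QY : Q * Y = 0 := by
  rw [f.hQ]; exact _root_.Pool.Agent.R285.BiShift.QY f.toRel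
lemma Full.QYa (Z : A) : Q * (Y * Z) = 0 := by
  rw [f.hQ]; exact _root_.Pool.Agent.R285.BiShift.QYa f.toRel Z
lemma Full.Y'Q : Y' * Q = 0 := by
  rw [f.hQ]; exact _root_.Pool.Agent.R285.BiShift.Y'Q f.toRel
lemma Full.Y'Qa (Z : A) : Y' * (Q * Z) = 0 := by
  rw [f.hQ]; exact _root_.Pool.Agent.R285.BiShift.Y'Qa f.toRel Z
lemma Full.YP : Y * P = P * Y := by
  rw [f.hP]; exact _root_.Pool.Agent.R285.BiShift.YP f.toRel
lemma Full.YPa (Z : A) : Y * (P * Z) = P * (Y * Z) := by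
  rw [f.hP]; exact _root_.Pool.Agent.R285.BiShift.YPa f.toRel Z
lemma Full.Y'P : Y' * P = P * Y' := by
  rw [f.hP]; exact _root_.Pool.Agent.R285.BiShift.Y'P f.toRel
lemma Full.Y'Pa (Z : A) : Y' * (P * Z) = P * (Y' * Z) := by
  rw [f.hP]; exact _root_.Pool.Agent.R285.BiShift.Y'Pa f.toRel Z
lemma Full.XQ : X * Q = Q * X := by
  rw [f.hQ]; exact _root_.Pool.Agent.R285.BiShift.XQ f.toRel
lemma Full.XQa (Z : A) : X * (Q * Z) = Q * (X * Z) := by
  rw [f.hQ]; exact _root_.Pool.Agent.R285.BiShift.XQa f.toRel Z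
lemma Full.X'Q : X' * Q = Q * X' := by
  rw [f.hQ]; exact _root_.Pool.Agent.R285.BiShift.X'Q f.toRel
lemma Full.X'Qa (Z : A) : X' * (Q * Z) = Q * (X' * Z) := by
  rw [f.hQ]; exact _root_.Pool.Agent.R285.BiShift.X'Qa f.toRel Z
lemma Full.PP : P * P = P := by
  rw [f.hP]; exact _root_.Pool.Agent.R285.BiShift.PP f.toRel
lemma Full.PPa (Z : A) : P * (P * Z) = P * Z := by
  rw [f.hP]; exact _root_.Pool.Agent.R285.BiShift.PPa f.toRel Z
lemma Full.QQ : Q * Q = Q := by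
  rw [f.hQ]; exact _root_.Pool.Agent.R285.BiShift.QQ f.toRel
lemma Full.QQa (Z : A) : Q * (Q * Z) = Q * Z := by
  rw [f.hQ]; exact _root_.Pool.Agent.R285.BiShift.QQa f.toRel Z

/-- general product -/
lemma gen (S T u v α β : A) (e : u * v = pp X' Y' * α + β * pp X Y) :
    (S * R' * u) * (v * R * T) = S * α * R * T + S * R' * β * T := by
  calc (S * R' * u) * (v * R * T) = S * R' * (u * v) * R * T := by simp only [mul_assoc]
    _ = S * (R' * pp X' Y') * α * R * T + S * R' * β * (pp X Y * R) * T := by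
        rw [e]; simp only [mul_add, add_mul, mul_assoc]
    _ = _ := by rw [f.Rp', f.pR]; simp only [mul_one]

lemma gen2 (S T u v α β : A) (e : u * v = pp X' Y' * pp X Y + pp X' Y' * α + β * pp X Y) :
    (S * R' * u) * (v * R * T) = S * T + S * α * R * T + S * R' * β * T := by
  have e2 : u * v = pp X' Y' * (pp X Y + α) + β * pp X Y := by rw [e, mul_add]
  rw [gen f S T u v _ _ e2, mul_add, add_mul, add_mul, mul_assoc S (pp X Y) R, f.pR, mul_one]

lemma AA11 : (P * R' * v1 X' Y') * (v1 X Y * R * P) = P := by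
  rw [gen2 f P P _ _ _ _ (idB1 f.toRel)]
  simp only [mul_add, add_mul, mul_sub, sub_mul, smul_mul_assoc, mul_smul_comm,
    one_mul, mul_one, mul_assoc, f.PX, f.PXa, f.X'P, f.X'Pa, f.QY, f.QYa, f.Y'Q, f.Y'Qa, f.Y'P,
    f.Y'Pa, f.PP, f.PPa, f.QQ, f.QQa, ← f.XQ, ← f.XQa, smul_zero, mul_zero, zero_mul, add_zero, zero_add, sub_self,
    sub_zero, neg_zero]

lemma AA22 : (P * R' * v2 X' Y') * (v2 X Y * R * P) = P := by
  rw [gen2 f P P _ _ _ _ (idB2 f.toRel)]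
  simp only [mul_add, add_mul, mul_sub, sub_mul, smul_mul_assoc, mul_smul_comm,
    one_mul, mul_one, mul_assoc, f.PX, f.PXa, f.X'P, f.X'Pa, f.QY, f.QYa, f.Y'Q, f.Y'Qa, f.Y'P,
    f.Y'Pa, f.PP, f.PPa, f.QQ, f.QQa, ← f.XQ, ← f.XQa, smul_zero, mul_zero, zero_mul, add_zero, zero_add, sub_self,
    sub_zero, neg_zero]

lemma BB : (Q * R' * ee X') * (ee X * R * Q) = Q := by
  rw [gen2 f Q Q _ _ _ _ (idB4 f.toRel)]
  simp only [mul_add, add_mul, mul_sub, sub_mul, smul_mul_assoc, mul_smul_comm,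
    one_mul, mul_one, mul_assoc, f.PX, f.PXa, f.X'P, f.X'Pa, f.QY, f.QYa, f.Y'Q, f.Y'Qa, f.Y'P,
    f.Y'Pa, f.PP, f.PPa, f.QQ, f.QQa, ← f.XQ, ← f.XQa, smul_zero, mul_zero, zero_mul, add_zero, zero_add, sub_self,
    sub_zero, neg_zero]

lemma AA12 : (P * R' * v1 X' Y') * (v2 X Y * R * P) = 0 := by
  rw [gen f P P _ _ _ _ (idB3 f.toRel)]
  simp only [mul_add, add_mul, mul_sub, sub_mul, smul_mul_assoc, mul_smul_comm,
    one_mul, mul_one, mul_assoc, f.PX, f.PXa, f.X'P, f.X'Pa, f.QY, f.QYa, f.Y'Q, f.Y'Qa, f.Y'P,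
    f.Y'Pa, f.PP, f.PPa, f.QQ, f.QQa, ← f.XQ, ← f.XQa, smul_zero, mul_zero, zero_mul, add_zero, zero_add, sub_self,
    sub_zero, neg_zero]

lemma AA21 : (P * R' * v2 X' Y') * (v1 X Y * R * P) = 0 := by
  rw [gen f P P _ _ _ _ (by rw [idB3d f.toRel, add_comm])]
  simp only [mul_add, add_mul, mul_sub, sub_mul, smul_mul_assoc, mul_smul_comm,
    one_mul, mul_one, mul_assoc, f.PX, f.PXa, f.X'P, f.X'Pa, f.QY, f.QYa, f.Y'Q, f.Y'Qa, f.Y'P,
    f.Y'Pa, f.PP, f.PPa, f.QQ, f.QQa, ← f.XQ, ← f.XQa, smul_zero, mul_zero, zero_mul, add_zero, zero_add, sub_self,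
    sub_zero, neg_zero]

lemma BA1 : (Q * R' * ee X') * (v1 X Y * R * P) = 0 := by
  rw [gen f Q P _ _ _ _ (idC1 f.toRel)]
  simp only [mul_add, add_mul, mul_sub, sub_mul, smul_mul_assoc, mul_smul_comm,
    one_mul, mul_one, mul_assoc, f.PX, f.PXa, f.X'P, f.X'Pa, f.QY, f.QYa, f.Y'Q, f.Y'Qa, f.Y'P,
    f.Y'Pa, f.PP, f.PPa, f.QQ, f.QQa, ← f.XQ, ← f.XQa, smul_zero, mul_zero, zero_mul, add_zero, zero_add, sub_self,
    sub_zero, neg_zero]

lemma A1B : (P * R' * v1 X' Y') * (ee X * R * Q) = 0 := by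
  rw [gen f P Q _ _ _ _ (by rw [idC1d f.toRel, add_comm])]
  simp only [mul_add, add_mul, mul_sub, sub_mul, smul_mul_assoc, mul_smul_comm,
    one_mul, mul_one, mul_assoc, f.PX, f.PXa, f.X'P, f.X'Pa, f.QY, f.QYa, f.Y'Q, f.Y'Qa, f.Y'P,
    f.Y'Pa, f.PP, f.PPa, f.QQ, f.QQa, ← f.XQ, ← f.XQa, smul_zero, mul_zero, zero_mul, add_zero, zero_add, sub_self,
    sub_zero, neg_zero]

lemma BA2 : (Q * R' * ee X') * (v2 X Y * R * P) = 0 := by
  rw [gen f Q P _ _ _ _ (idC2 f.toRel)]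
  simp only [mul_add, add_mul, mul_sub, sub_mul, smul_mul_assoc, mul_smul_comm,
    one_mul, mul_one, mul_assoc, f.PX, f.PXa, f.X'P, f.X'Pa, f.QY, f.QYa, f.Y'Q, f.Y'Qa, f.Y'P,
    f.Y'Pa, f.PP, f.PPa, f.QQ, f.QQa, ← f.XQ, ← f.XQa, smul_zero, mul_zero, zero_mul, add_zero, zero_add, sub_self,
    sub_zero, neg_zero]

lemma A2B : (P * R' * v2 X' Y') * (ee X * R * Q) = 0 := by
  rw [gen f P Q _ _ _ _ (by rw [idC2d f.toRel, add_comm])]
  simp only [mul_add, add_mul, mul_sub, sub_mul, smul_mul_assoc, mul_smul_comm,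
    one_mul, mul_one, mul_assoc, f.PX, f.PXa, f.X'P, f.X'Pa, f.QY, f.QYa, f.Y'Q, f.Y'Qa, f.Y'P,
    f.Y'Pa, f.PP, f.PPa, f.QQ, f.QQa, ← f.XQ, ← f.XQa, smul_zero, mul_zero, zero_mul, add_zero, zero_add, sub_self,
    sub_zero, neg_zero]

lemma TT : (R' * pt X' Y') * (pt X Y * R) = 1 := by
  calc (R' * pt X' Y') * (pt X Y * R) = R' * (pt X' Y' * pt X Y) * R := by simp only [mul_assoc]
    _ = (R' * pp X' Y') * (pp X Y * R) := by rw [idB5 f.toRel]; simp only [mul_assoc]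
    _ = 1 := by rw [f.Rp', f.pR, mul_one]

lemma TA1 : (R' * pt X' Y') * (v1 X Y * R * P) = 0 := by
  calc (R' * pt X' Y') * (v1 X Y * R * P) = R' * (pt X' Y' * v1 X Y) * R * P := by
        simp only [mul_assoc]
    _ = R' * ((3 / 5 : ℂ) • (X' * (X' * Y')) - (4 / 5 : ℂ) • X') * ((pp X Y * R) * P) := by
        rw [idC3 f.toRel]; simp only [mul_assoc]
    _ = 0 := by
        rw [f.pR]
        simp only [mul_add, add_mul, mul_sub, sub_mul, smul_mul_assoc, mul_smul_comm,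
    one_mul, mul_one, mul_assoc, f.PX, f.PXa, f.X'P, f.X'Pa, f.QY, f.QYa, f.Y'Q, f.Y'Qa, f.Y'P,
    f.Y'Pa, f.PP, f.PPa, f.QQ, f.QQa, ← f.XQ, ← f.XQa, smul_zero, mul_zero, zero_mul, add_zero, zero_add, sub_self,
    sub_zero, neg_zero]

lemma TA2 : (R' * pt X' Y') * (v2 X Y * R * P) = 0 := by
  calc (R' * pt X' Y') * (v2 X Y * R * P) = R' * (pt X' Y' * v2 X Y) * R * P := by
        simp only [mul_assoc]
    _ = R' * ((16 / 25 : ℂ) • (X' * X') + (9 / 25 : ℂ) • X') * ((pp X Y * R) * P) := by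
        rw [idC4 f.toRel]; simp only [mul_assoc]
    _ = 0 := by
        rw [f.pR]
        simp only [mul_add, add_mul, mul_sub, sub_mul, smul_mul_assoc, mul_smul_comm,
    one_mul, mul_one, mul_assoc, f.PX, f.PXa, f.X'P, f.X'Pa, f.QY, f.QYa, f.Y'Q, f.Y'Qa, f.Y'P,
    f.Y'Pa, f.PP, f.PPa, f.QQ, f.QQa, ← f.XQ, ← f.XQa, smul_zero, mul_zero, zero_mul, add_zero, zero_add, sub_self,
    sub_zero, neg_zero]

lemma TB : (R' * pt X' Y') * (ee X * R * Q) = 0 := by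
  calc (R' * pt X' Y') * (ee X * R * Q) = R' * (pt X' Y' * ee X) * R * Q := by
        simp only [mul_assoc]
    _ = R' * (Y' * ((16 / 25 : ℂ) • (X' * X') + (9 / 25 : ℂ) • X')) * ((pp X Y * R) * Q) := by
        rw [idC5 f.toRel]; simp only [mul_assoc]
    _ = 0 := by
        rw [f.pR]
        simp only [mul_add, add_mul, mul_sub, sub_mul, smul_mul_assoc, mul_smul_comm,
    one_mul, mul_one, mul_assoc, f.PX, f.PXa, f.X'P, f.X'Pa, f.QY, f.QYa, f.Y'Q, f.Y'Qa, f.Y'P,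
    f.Y'Pa, f.PP, f.PPa, f.QQ, f.QQa, ← f.XQ, ← f.XQa, smul_zero, mul_zero, zero_mul, add_zero, zero_add, sub_self,
    sub_zero, neg_zero, f.X'Q, f.X'Qa]

lemma v1R : v1 X Y * R = R * v1 X Y := by
  refine (R_comm f.toData ?_).symm
  simp only [pp, v1, mul_add, add_mul, mul_sub, sub_mul, smul_mul_assoc,
    mul_smul_comm, smul_smul, one_mul, mul_one, mul_assoc, smul_add, smul_sub, f.YX, f.a3]
  module
lemma v2R : v2 X Y * R = R * v2 X Y := by
  refine (R_comm f.toData ?_).symm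
  simp only [pp, v2, mul_add, add_mul, mul_sub, sub_mul, smul_mul_assoc,
    mul_smul_comm, smul_smul, one_mul, mul_one, mul_assoc, smul_add, smul_sub, f.YX, f.a3]
  module
lemma eeR : ee X * R = R * ee X := by
  refine (R_comm f.toData ?_).symm
  simp only [pp, ee, mul_add, add_mul, mul_sub, sub_mul, smul_mul_assoc,
    mul_smul_comm, smul_smul, one_mul, mul_one, mul_assoc, smul_add, smul_sub, f.YX, f.a3]
  module
lemma ptR : pt X Y * R = R * pt X Y := by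
  refine (R_comm f.toData ?_).symm
  simp only [pp, pt, mul_add, add_mul, mul_sub, sub_mul, smul_mul_assoc,
    mul_smul_comm, smul_smul, one_mul, mul_one, mul_assoc, smul_add, smul_sub, f.YX, f.a3]
  module
lemma v1R' : R' * v1 X' Y' = v1 X' Y' * R' := by
  refine R'_comm f.toData ?_
  simp only [pp, v1, mul_add, add_mul, mul_sub, sub_mul, smul_mul_assoc,
    mul_smul_comm, smul_smul, one_mul, mul_one, mul_assoc, smul_add, smul_sub, f.Y'X', f.a6]
  module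
lemma v2R' : R' * v2 X' Y' = v2 X' Y' * R' := by
  refine R'_comm f.toData ?_
  simp only [pp, v2, mul_add, add_mul, mul_sub, sub_mul, smul_mul_assoc,
    mul_smul_comm, smul_smul, one_mul, mul_one, mul_assoc, smul_add, smul_sub, f.Y'X', f.a6]
  module
lemma eeR' : R' * ee X' = ee X' * R' := by
  refine R'_comm f.toData ?_
  simp only [pp, ee, mul_add, add_mul, mul_sub, sub_mul, smul_mul_assoc,
    mul_smul_comm, smul_smul, one_mul, mul_one, mul_assoc, smul_add, smul_sub, f.Y'X', f.a6]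
  module
lemma ptR' : R' * pt X' Y' = pt X' Y' * R' := by
  refine R'_comm f.toData ?_
  simp only [pp, pt, mul_add, add_mul, mul_sub, sub_mul, smul_mul_assoc,
    mul_smul_comm, smul_smul, one_mul, mul_one, mul_assoc, smul_add, smul_sub, f.Y'X', f.a6]
  module

/-- the decomposition of the identity -/
lemma total : (pt X Y * R) * (R' * pt X' Y') + (v1 X Y * R * P) * (P * R' * v1 X' Y') +
    (v2 X Y * R * P) * (P * R' * v2 X' Y') + (ee X * R * Q) * (Q * R' * ee X') = 1 := by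
  have hA := idA f.toRel
  rw [← f.hP, ← f.hQ] at hA
  have hA2 : pt X Y * pt X' Y' + v1 X Y * P * v1 X' Y' + v2 X Y * P * v2 X' Y' +
      ee X * Q * ee X' = pp X Y * pp X' Y' := by
    rw [add_assoc, add_assoc, ← add_assoc (v1 X Y * P * v1 X' Y'), ← hA]
    abel
  calc _ = R * (pt X Y * pt X' Y' + v1 X Y * P * v1 X' Y' + v2 X Y * P * v2 X' Y' +
      ee X * Q * ee X') * R' := by
        have e1 : (pt X Y * R) * (R' * pt X' Y') = R * (pt X Y * pt X' Y') * R' := by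
          rw [ptR f, ptR' f]; simp only [mul_assoc]
        have e2 : (v1 X Y * R * P) * (P * R' * v1 X' Y') = R * (v1 X Y * P * v1 X' Y') * R' := by
          calc (v1 X Y * R * P) * (P * R' * v1 X' Y') = v1 X Y * R * (P * P) * (R' * v1 X' Y') := by
                simp only [mul_assoc]
            _ = _ := by rw [f.PP, v1R f, v1R' f]; simp only [mul_assoc]
        have e3 : (v2 X Y * R * P) * (P * R' * v2 X' Y') = R * (v2 X Y * P * v2 X' Y') * R' := by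
          calc (v2 X Y * R * P) * (P * R' * v2 X' Y') = v2 X Y * R * (P * P) * (R' * v2 X' Y') := by
                simp only [mul_assoc]
            _ = _ := by rw [f.PP, v2R f, v2R' f]; simp only [mul_assoc]
        have e4 : (ee X * R * Q) * (Q * R' * ee X') = R * (ee X * Q * ee X') * R' := by
          calc (ee X * R * Q) * (Q * R' * ee X') = ee X * R * (Q * Q) * (R' * ee X') := by
                simp only [mul_assoc]
            _ = _ := by rw [f.QQ, eeR f, eeR' f]; simp only [mul_assoc]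
        rw [e1, e2, e3, e4]
        simp only [mul_add, add_mul]
    _ = (R * pp X Y) * (pp X' Y' * R') := by rw [hA2]; simp only [mul_assoc]
    _ = 1 := by rw [f.Rp, f.pR', mul_one]

lemma ERP : ee X * R * P = (ee X * R * Q) * P + (v2 X Y * R * P) * Y' := by
  have h1 : ee X * R * P = ee X * R * ((Q + Y * Y') * P) := by
    rw [f.hQ, sub_add_cancel, one_mul]
  rw [h1, idD3 f.toRel, add_mul, mul_add]
  congr 1
  · simp only [mul_assoc]
  · have h2 : Y * ee X = ee X * Y := by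
      simp only [ee, mul_add, add_mul, smul_mul_assoc, mul_smul_comm, one_mul, mul_one, f.YX]
    rw [h2]
    simp only [mul_assoc, f.Y'P, RYa f.toData]

lemma XA1 : X * (v1 X Y * R * P) = (-4 / 5 : ℂ) • ((pt X Y * R) * P) +
    (3 / 5 : ℂ) • ((ee X * R * Q) * P + (v2 X Y * R * P) * Y') := by
  rw [← ERP f]
  calc X * (v1 X Y * R * P) = (X * v1 X Y) * R * P := by simp only [mul_assoc]
    _ = _ := by rw [idD1 f.toRel]; simp only [add_mul, smul_mul_assoc]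

lemma XA2 : X * (v2 X Y * R * P) = (9 / 25 : ℂ) • ((pt X Y * R) * P) -
    (4 / 5 : ℂ) • (v1 X Y * R * P) +
    (12 / 25 : ℂ) • ((ee X * R * Q) * P + (v2 X Y * R * P) * Y') := by
  rw [← ERP f]
  calc X * (v2 X Y * R * P) = (X * v2 X Y) * R * P := by simp only [mul_assoc]
    _ = _ := by rw [idD2 f.toRel]; simp only [add_mul, sub_mul, smul_mul_assoc]

lemma YA1 : Y * (v1 X Y * R * P) = (v1 X Y * R * P) * Y := by
  simp only [v1, mul_sub, sub_mul, smul_mul_assoc, mul_smul_comm, one_mul, mul_one, mul_assoc,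
    ← f.YP, f.a3, RYa f.toData]

lemma YA2 : Y * (v2 X Y * R * P) = (v2 X Y * R * P) * Y := by
  simp only [v2, mul_add, add_mul, smul_mul_assoc, mul_smul_comm, one_mul, mul_one, mul_assoc,
    ← f.YP, f.a3, RYa f.toData]

lemma XB : X * (ee X * R * Q) = (ee X * R * Q) * X := by
  simp only [ee, mul_add, add_mul, smul_mul_assoc, mul_smul_comm, one_mul, mul_one, mul_assoc,
    ← f.XQ, RXa f.toData]

end Pool.Agent.R285.BiShift
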