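import Mathlib

/-!
# Tools for `ℓ²` spaces and power series
-/

set_option autoImplicit false

namespace Pool.Agent.R285.Ell2

open Filter Topology

universe u v

/-- `ℓ²(I)` -/
abbrev L2 (I : Type u) : Type u := lp (fun _ : I => ℂ) 2

variable {I : Type u} {J : Type v}

lemma summable_sq (f : L2 I) : Summable fun i => ‖f i‖ ^ 2 := by
  have h := (lp.memℓp f).summable (by norm_num : 0 < (2 : ENNReal).toReal)
  simpa using h

lemma norm_sq (f : L2 I) : ‖f‖ ^ 2 = ∑' i, ‖f i‖ ^ 2 := by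
  have h := lp.norm_rpow_eq_tsum (p := 2) (by norm_num) f
  simpa using h

lemma memℓp_of_summable (y : I → ℂ) (hy : Summable fun i => ‖y i‖ ^ 2) : Memℓp y 2 := by
  apply memℓp_gen
  simpa using hy

/-- construction of elements -/
lemma exists_mk (y : I → ℂ) (hy : Summable fun i => ‖y i‖ ^ 2) : ∃ f : L2 I, ∀ i, f i = y i :=
  ⟨⟨y, memℓp_of_summable y hy⟩, fun _ => rfl⟩

lemma coe_le (f : L2 I) (i : I) : ‖f i‖ ≤ ‖f‖ := lp.norm_apply_le_norm (by norm_num) f i

/-- construction of operators -/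
lemma exists_op (L : L2 I → J → ℂ) (C : ℝ) (hC : 0 ≤ C)
    (hs : ∀ f, Summable fun j => ‖L f j‖ ^ 2) (hL : ∀ f, ∑' j, ‖L f j‖ ^ 2 ≤ C ^ 2 * ‖f‖ ^ 2)
    (hadd : ∀ f g j, L (f + g) j = L f j + L g j) (hsmul : ∀ (c : ℂ) f j, L (c • f) j = c * L f j) :
    ∃ T : L2 I →L[ℂ] L2 J, ∀ f j, T f j = L f j := by
  have h := fun f => exists_mk (L f) (hs f)
  choose T hT using h
  refine ⟨LinearMap.mkContinuous
    { toFun := T
      map_add' := fun f g => lp.ext (funext fun j => by
        rw [hT, lp.coeFn_add, Pi.add_apply, hT, hT, hadd])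
      map_smul' := fun c f => lp.ext (funext fun j => by
        rw [hT, lp.coeFn_smul, Pi.smul_apply, hT, hsmul, RingHom.id_apply, smul_eq_mul]) } C
      (fun f => ?_), fun f j => hT f j⟩
  change ‖T f‖ ≤ _
  rw [← sq_le_sq₀ (norm_nonneg _) (by positivity), mul_pow, norm_sq]
  simp only [hT]
  exact hL f

/-- uniqueness of power series -/
lemma coeff_zero (a : ℕ → ℂ) (C : ℝ) (hC : ∀ n, ‖a n‖ ≤ C)
    (h : ∀ z : ℂ, ‖z‖ < 1 → ∑' n, a n * z ^ n = 0) (n : ℕ) : a n = 0 := by
  have hC0 : 0 ≤ C := (norm_nonneg _).trans (hC 0)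
  have hsum : ∀ (n : ℕ) (z : ℂ), ‖z‖ < 1 → Summable fun k => a (n + k) * z ^ k := by
    intro n z hz
    refine Summable.of_norm_bounded ((summable_geometric_of_lt_one (norm_nonneg z) hz).mul_left C)
      fun k => ?_
    rw [norm_mul, norm_pow]
    exact mul_le_mul_of_nonneg_right (hC _) (by positivity)
  have hbd : ∀ (n : ℕ) (z : ℂ), ‖z‖ ≤ 1 / 2 → ‖∑' k, a (n + k) * z ^ k‖ ≤ 2 * C := by
    intro n z hz
    have h1 : HasSum (fun k : ℕ => C * (1 / 2 : ℝ) ^ k) (2 * C) := by
      have := (hasSum_geometric_of_lt_one (r := (1 / 2 : ℝ)) (by norm_num) (by norm_num)).mul_left C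
      have e : C * (1 - 1 / 2 : ℝ)⁻¹ = 2 * C := by norm_num; ring
      rw [e] at this
      exact this
    refine tsum_of_norm_bounded h1 fun k => ?_
    rw [norm_mul, norm_pow]
    exact mul_le_mul (hC _) (pow_le_pow_left₀ (norm_nonneg z) hz k) (by positivity) hC0
  have hrec : ∀ (n : ℕ) (z : ℂ), ‖z‖ < 1 →
      ∑' k, a (n + k) * z ^ k = a n + z * ∑' k, a (n + 1 + k) * z ^ k := by
    intro n z hz
    rw [(hsum n z hz).tsum_eq_zero_add, ← tsum_mul_left]
    congr 1
    · simp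
    · refine tsum_congr fun k => ?_
      rw [show n + (k + 1) = n + 1 + k by ring, pow_succ]
      ring
  have key : ∀ n, (∀ z : ℂ, ‖z‖ < 1 → z ≠ 0 → ∑' k, a (n + k) * z ^ k = 0) := by
    intro n
    induction n with
    | zero => intro z hz _; simpa using h z hz
    | succ n ih =>
      have han : a n = 0 := by
        have hlim : ∀ ε : ℝ, 0 < ε → ‖a n‖ ≤ ε := by
          intro ε hε
          set δ : ℝ := min (1 / 2) (ε / (2 * C + 1)) with hδ
          have hδ0 : 0 < δ := by positivity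
          have hδ1 : δ ≤ 1 / 2 := min_le_left _ _
          have hδ2 : δ ≤ ε / (2 * C + 1) := min_le_right _ _
          have hn : ‖(δ : ℂ)‖ = δ := by rw [Complex.norm_real, Real.norm_eq_abs, abs_of_pos hδ0]
          have h1 := ih (δ : ℂ) (by rw [hn]; linarith) (by exact_mod_cast hδ0.ne')
          rw [hrec n δ (by rw [hn]; linarith)] at h1
          have h2 : a n = -((δ : ℂ) * ∑' k, a (n + 1 + k) * (δ : ℂ) ^ k) :=
            eq_neg_of_add_eq_zero_left h1
          rw [h2, norm_neg, norm_mul, hn]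
          calc δ * ‖∑' k, a (n + 1 + k) * (δ : ℂ) ^ k‖ ≤ (ε / (2 * C + 1)) * (2 * C) :=
                mul_le_mul hδ2 (hbd _ _ (by rw [hn]; exact hδ1)) (norm_nonneg _) (by positivity)
            _ ≤ ε := by
                rw [div_mul_eq_mul_div, div_le_iff₀ (by positivity)]
                nlinarith
        have := le_of_forall_pos_le_add (a := ‖a n‖) (b := 0) fun ε hε => by
          rw [zero_add]; exact hlim ε hε
        exact norm_le_zero_iff.1 this
      intro z hz hz0
      have h1 := ih z hz hz0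
      rw [hrec n z hz, han, zero_add] at h1
      exact (mul_eq_zero.1 h1).resolve_left hz0
  -- the coefficient `a n`
  have hlim : ∀ ε : ℝ, 0 < ε → ‖a n‖ ≤ ε := by
    intro ε hε
    set δ : ℝ := min (1 / 2) (ε / (2 * C + 1)) with hδ
    have hδ0 : 0 < δ := by positivity
    have hδ1 : δ ≤ 1 / 2 := min_le_left _ _
    have hδ2 : δ ≤ ε / (2 * C + 1) := min_le_right _ _
    have hn : ‖(δ : ℂ)‖ = δ := by rw [Complex.norm_real, Real.norm_eq_abs, abs_of_pos hδ0]
    have h1 := key n (δ : ℂ) (by rw [hn]; linarith) (by exact_mod_cast hδ0.ne')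
    rw [hrec n δ (by rw [hn]; linarith)] at h1
    have h2 : a n = -((δ : ℂ) * ∑' k, a (n + 1 + k) * (δ : ℂ) ^ k) :=
      eq_neg_of_add_eq_zero_left h1
    rw [h2, norm_neg, norm_mul, hn]
    calc δ * ‖∑' k, a (n + 1 + k) * (δ : ℂ) ^ k‖ ≤ (ε / (2 * C + 1)) * (2 * C) :=
          mul_le_mul hδ2 (hbd _ _ (by rw [hn]; exact hδ1)) (norm_nonneg _) (by positivity)
      _ ≤ ε := by
          rw [div_mul_eq_mul_div, div_le_iff₀ (by positivity)]
          nlinarith
  have := le_of_forall_pos_le_add (a := ‖a n‖) (b := 0) fun ε hε => by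
    rw [zero_add]; exact hlim ε hε
  exact norm_le_zero_iff.1 this

end Pool.Agent.R285.Ell2
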