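import Mathlib
import Pool.Agent.R285.Ell2
import Pool.Agent.R285.BiShift

/-!
# The Hardy space of the bidisk as `ℓ²(ℕ × ℕ)`
-/

set_option autoImplicit false
set_option linter.all false

namespace Pool.Agent.R285.BiHardy

open Pool.Agent.R285.Ell2 Pool.Agent.R285.BiShift

/-- `H²(𝔻²)`, the space of square summable coefficient families -/
abbrev H2 : Type := L2 (ℕ × ℕ)

/-- the value of `f = ∑ f(k,l) z₁^k z₂^l` at `z` -/
noncomputable def ev (f : H2) (z : ℂ × ℂ) : ℂ := ∑' n : ℕ × ℕ, f n * (z.1 ^ n.1 * z.2 ^ n.2)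

/-- the open bidisk -/
def bidisk : Set (ℂ × ℂ) := {z | ‖z.1‖ < 1 ∧ ‖z.2‖ < 1}

lemma ev_bound {z : ℂ × ℂ} (hz : z ∈ bidisk) :
    Summable fun n : ℕ × ℕ => ‖z.1‖ ^ n.1 * ‖z.2‖ ^ n.2 :=
  (summable_geometric_of_lt_one (norm_nonneg _) hz.1).mul_of_nonneg
    (summable_geometric_of_lt_one (norm_nonneg _) hz.2) (fun n => by positivity)
    (fun n => by positivity)

lemma ev_summable (f : H2) {z : ℂ × ℂ} (hz : z ∈ bidisk) :
    Summable fun n : ℕ × ℕ => f n * (z.1 ^ n.1 * z.2 ^ n.2) := by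
  refine Summable.of_norm_bounded ((ev_bound hz).mul_left ‖f‖) fun n => ?_
  rw [norm_mul, norm_mul, norm_pow, norm_pow]
  exact mul_le_mul_of_nonneg_right (coe_le f n) (by positivity)

lemma ev_add (f g : H2) {z : ℂ × ℂ} (hz : z ∈ bidisk) : ev (f + g) z = ev f z + ev g z := by
  rw [ev, ev, ev, ← (ev_summable f hz).tsum_add (ev_summable g hz)]
  refine tsum_congr fun n => ?_
  rw [lp.coeFn_add, Pi.add_apply, add_mul]

lemma ev_smul (c : ℂ) (f : H2) (z : ℂ × ℂ) : ev (c • f) z = c * ev f z := by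
  rw [ev, ev, ← tsum_mul_left]
  refine tsum_congr fun n => ?_
  rw [lp.coeFn_smul, Pi.smul_apply, smul_eq_mul, mul_assoc]

lemma ev_sub (f g : H2) {z : ℂ × ℂ} (hz : z ∈ bidisk) : ev (f - g) z = ev f z - ev g z := by
  have h : f - g = f + (-1 : ℂ) • g := by rw [neg_one_smul, sub_eq_add_neg]
  rw [h, ev_add _ _ hz, ev_smul]
  ring

/-- a function in `H²` with zero values vanishes -/
lemma ev_inj (f : H2) (h : ∀ z ∈ bidisk, ev f z = 0) : f = 0 := by
  have h1 : ∀ w : ℂ, ‖w‖ < 1 → ∀ k, ∑' l, f (k, l) * w ^ l = 0 := by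
    intro w hw
    have hs : ∀ k, Summable fun l => f (k, l) * w ^ l := by
      intro k
      refine Summable.of_norm_bounded ((summable_geometric_of_lt_one (norm_nonneg _) hw).mul_left
        ‖f‖) fun l => ?_
      rw [norm_mul, norm_pow]
      exact mul_le_mul_of_nonneg_right (coe_le f _) (by positivity)
    refine coeff_zero _ (‖f‖ * (1 - ‖w‖)⁻¹) (fun k => ?_) fun z hz => ?_
    · refine tsum_of_norm_bounded ((hasSum_geometric_of_lt_one (norm_nonneg _) hw).mul_left ‖f‖)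
        fun l => ?_
      rw [norm_mul, norm_pow]
      exact mul_le_mul_of_nonneg_right (coe_le f _) (by positivity)
    · have hzw : (z, w) ∈ bidisk := ⟨hz, hw⟩
      have h2 := h (z, w) hzw
      rw [ev, (ev_summable f hzw).tsum_prod] at h2
      rw [← h2]
      refine tsum_congr fun k => ?_
      rw [← tsum_mul_right]
      refine tsum_congr fun l => ?_
      simp only
      ring
  refine lp.ext (funext fun n => ?_)
  exact coeff_zero (fun l => f (n.1, l)) ‖f‖ (fun l => coe_le f _) (fun w hw => h1 w hw n.1) n.2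

/-! ### shifts -/

/-- forward shift of coefficients along an injection -/
noncomputable def fwd (e : ℕ × ℕ → ℕ × ℕ) (f : H2) : ℕ × ℕ → ℂ := Function.extend e f 0

section shift

variable {e : ℕ × ℕ → ℕ × ℕ} (he : Function.Injective e)
include he

lemma fwd_apply (f : H2) (n : ℕ × ℕ) : fwd e f (e n) = f n := he.extend_apply _ _ _

lemma fwd_zero (f : H2) {n : ℕ × ℕ} (hn : n ∉ Set.range e) : fwd e f n = 0 := by
  rw [fwd, Function.extend_apply' _ _ _ (by simpa using hn)]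
  rfl

lemma fwd_summable (f : H2) : Summable fun n => ‖fwd e f n‖ ^ 2 := by
  rw [← he.summable_iff]
  · refine (summable_sq f).congr fun n => ?_
    rw [Function.comp_apply, fwd_apply he]
  · intro x hx
    rw [fwd_zero he f hx]; simp

lemma fwd_tsum (f : H2) : ∑' n, ‖fwd e f n‖ ^ 2 = ‖f‖ ^ 2 := by
  rw [← he.tsum_eq, norm_sq]
  · simp only [fwd_apply he]
  · intro x hx
    by_contra h
    exact hx (by simp [fwd_zero he f h])

lemma exists_fwd : ∃ T : H2 →L[ℂ] H2, ∀ f n, T f n = fwd e f n := by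
  refine exists_op (fwd e) 1 (by norm_num) (fwd_summable he) (fun f => ?_) (fun f g j => ?_)
    (fun c f j => ?_)
  · rw [fwd_tsum he]; simp
  · by_cases hj : j ∈ Set.range e
    · obtain ⟨i, rfl⟩ := hj
      rw [fwd_apply he, fwd_apply he, fwd_apply he, lp.coeFn_add, Pi.add_apply]
    · rw [fwd_zero he _ hj, fwd_zero he _ hj, fwd_zero he _ hj, add_zero]
  · by_cases hj : j ∈ Set.range e
    · obtain ⟨i, rfl⟩ := hj
      rw [fwd_apply he, fwd_apply he, lp.coeFn_smul, Pi.smul_apply, smul_eq_mul]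
    · rw [fwd_zero he _ hj, fwd_zero he _ hj, mul_zero]

lemma bwd_summable (f : H2) : Summable fun n => ‖f (e n)‖ ^ 2 :=
  (summable_sq f).comp_injective he

lemma exists_bwd : ∃ T : H2 →L[ℂ] H2, ∀ f n, T f n = f (e n) := by
  refine exists_op (fun f n => f (e n)) 1 (by norm_num) (bwd_summable he) (fun f => ?_)
    (fun f g j => rfl) (fun c f j => rfl)
  rw [one_pow, one_mul, norm_sq]
  exact (bwd_summable he f).tsum_le_tsum_of_inj e he (fun _ _ => by positivity)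
    (fun _ => le_rfl) (summable_sq f)

end shift

lemma inner_eq (f g : H2) : inner ℂ f g = ∑' n, g n * starRingEnd ℂ (f n) := by
  rw [lp.inner_eq_tsum]
  rfl

lemma adjoint_fwd {e : ℕ × ℕ → ℕ × ℕ} (he : Function.Injective e) (S T : H2 →L[ℂ] H2)
    (hS : ∀ f n, S f n = fwd e f n) (hT : ∀ f n, T f n = f (e n)) : S.adjoint = T := by
  symm
  rw [ContinuousLinearMap.eq_adjoint_iff]
  intro f g
  rw [inner_eq, inner_eq]
  simp only [hT, hS]
  rw [← he.tsum_eq (f := fun n => fwd e g n * starRingEnd ℂ (f n))]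
  · simp only [fwd_apply he]
  · intro x hx
    by_contra h
    exact hx (by simp [fwd_zero he g h])

/-! ### the two coordinate shifts -/

/-- index map of multiplication by `z₁` -/
def e1 (n : ℕ × ℕ) : ℕ × ℕ := (n.1 + 1, n.2)
/-- index map of multiplication by `z₂` -/
def e2 (n : ℕ × ℕ) : ℕ × ℕ := (n.1, n.2 + 1)

lemma e1_inj : Function.Injective e1 := by
  intro a b h
  have h1 := congrArg Prod.fst h
  have h2 := congrArg Prod.snd h
  simp only [e1] at h1 h2
  exact Prod.ext (by omega) h2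

lemma e2_inj : Function.Injective e2 := by
  intro a b h
  have h1 := congrArg Prod.fst h
  have h2 := congrArg Prod.snd h
  simp only [e2] at h1 h2
  exact Prod.ext h1 (by omega)

/-- multiplication by `z₁` -/
noncomputable def Z1 : H2 →L[ℂ] H2 := (exists_fwd e1_inj).choose
/-- multiplication by `z₂` -/
noncomputable def Z2 : H2 →L[ℂ] H2 := (exists_fwd e2_inj).choose

lemma Z1_apply (f : H2) (n : ℕ × ℕ) : Z1 f n = fwd e1 f n := (exists_fwd e1_inj).choose_spec f n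
lemma Z2_apply (f : H2) (n : ℕ × ℕ) : Z2 f n = fwd e2 f n := (exists_fwd e2_inj).choose_spec f n

lemma Z1_adj (f : H2) (n : ℕ × ℕ) : Z1.adjoint f n = f (e1 n) := by
  obtain ⟨T, hT⟩ := exists_bwd e1_inj
  rw [adjoint_fwd e1_inj Z1 T Z1_apply hT, hT]

lemma Z2_adj (f : H2) (n : ℕ × ℕ) : Z2.adjoint f n = f (e2 n) := by
  obtain ⟨T, hT⟩ := exists_bwd e2_inj
  rw [adjoint_fwd e2_inj Z2 T Z2_apply hT, hT]

lemma range_e1 (n : ℕ × ℕ) : n ∈ Set.range e1 ↔ n.1 ≠ 0 := by
  constructor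
  · rintro ⟨m, rfl⟩; simp [e1]
  · intro h
    exact ⟨(n.1 - 1, n.2), Prod.ext (by simp only [e1]; omega) rfl⟩

lemma range_e2 (n : ℕ × ℕ) : n ∈ Set.range e2 ↔ n.2 ≠ 0 := by
  constructor
  · rintro ⟨m, rfl⟩; simp [e2]
  · intro h
    exact ⟨(n.1, n.2 - 1), Prod.ext rfl (by simp only [e2]; omega)⟩

lemma Z1_e1 (f : H2) (n : ℕ × ℕ) : Z1 f (e1 n) = f n := by rw [Z1_apply, fwd_apply e1_inj]
lemma Z2_e2 (f : H2) (n : ℕ × ℕ) : Z2 f (e2 n) = f n := by rw [Z2_apply, fwd_apply e2_inj]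
lemma Z1_zero (f : H2) {n : ℕ × ℕ} (hn : n.1 = 0) : Z1 f n = 0 := by
  rw [Z1_apply, fwd_zero e1_inj f (by rw [range_e1]; simpa using hn)]
lemma Z2_zero (f : H2) {n : ℕ × ℕ} (hn : n.2 = 0) : Z2 f n = 0 := by
  rw [Z2_apply, fwd_zero e2_inj f (by rw [range_e2]; simpa using hn)]

lemma e12 (n : ℕ × ℕ) : e1 (e2 n) = e2 (e1 n) := rfl

/-- the algebraic relations -/
lemma rel : Rel Z1 Z2 Z1.adjoint Z2.adjoint := by
  refine ⟨?_, ?_, ?_, ?_, ?_, ?_⟩
  · refine ContinuousLinearMap.ext fun f => lp.ext (funext fun n => ?_)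
    rw [mul_apply_eq_comp, Z1_adj, Z1_e1]; rfl
  · refine ContinuousLinearMap.ext fun f => lp.ext (funext fun n => ?_)
    rw [mul_apply_eq_comp, Z2_adj, Z2_e2]; rfl
  · refine ContinuousLinearMap.ext fun f => lp.ext (funext fun n => ?_)
    rw [mul_apply_eq_comp, mul_apply_eq_comp]
    by_cases h1 : n.1 = 0
    · rw [Z1_zero _ h1]
      by_cases h2 : n.2 = 0
      · rw [Z2_zero _ h2]
      · obtain ⟨m, rfl⟩ := (range_e2 n).2 h2
        rw [Z2_e2, Z1_zero f (n := m) h1]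
    · obtain ⟨m, rfl⟩ := (range_e1 n).2 h1
      rw [Z1_e1]
      by_cases h2 : m.2 = 0
      · rw [Z2_zero f h2, Z2_zero (Z1 f) (n := e1 m) h2]
      · obtain ⟨k, rfl⟩ := (range_e2 m).2 h2
        rw [e12, Z2_e2, Z2_e2, Z1_e1]
  · refine ContinuousLinearMap.ext fun f => lp.ext (funext fun n => ?_)
    rw [mul_apply_eq_comp, mul_apply_eq_comp, Z1_adj]
    by_cases h2 : n.2 = 0
    · rw [Z2_zero _ h2, Z2_zero f (n := e1 n) h2]
    · obtain ⟨m, rfl⟩ := (range_e2 n).2 h2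
      rw [e12, Z2_e2, Z2_e2, Z1_adj]
  · refine ContinuousLinearMap.ext fun f => lp.ext (funext fun n => ?_)
    rw [mul_apply_eq_comp, mul_apply_eq_comp, Z2_adj]
    by_cases h1 : n.1 = 0
    · rw [Z1_zero _ h1, Z1_zero f (n := e2 n) h1]
    · obtain ⟨m, rfl⟩ := (range_e1 n).2 h1
      rw [← e12, Z1_e1, Z1_e1, Z2_adj]
  · refine ContinuousLinearMap.ext fun f => lp.ext (funext fun n => ?_)
    rw [mul_apply_eq_comp, mul_apply_eq_comp, Z2_adj, Z1_adj, Z1_adj, Z2_adj, e12]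

lemma ev_Z1 (f : H2) {z : ℂ × ℂ} (hz : z ∈ bidisk) : ev (Z1 f) z = z.1 * ev f z := by
  rw [ev, ev, ← tsum_mul_left, ← e1_inj.tsum_eq]
  · refine tsum_congr fun n => ?_
    rw [Z1_e1]
    simp only [e1, pow_succ]
    ring
  · intro x hx
    by_contra h
    rw [range_e1, not_not] at h
    exact hx (by simp [Z1_zero f h])

lemma ev_Z2 (f : H2) {z : ℂ × ℂ} (hz : z ∈ bidisk) : ev (Z2 f) z = z.2 * ev f z := by
  rw [ev, ev, ← tsum_mul_left, ← e2_inj.tsum_eq]
  · refine tsum_congr fun n => ?_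
    rw [Z2_e2]
    simp only [e2, pow_succ]
    ring
  · intro x hx
    by_contra h
    rw [range_e2, not_not] at h
    exact hx (by simp [Z2_zero f h])

lemma Z1_norm : ‖Z1‖ ≤ 1 := by
  refine ContinuousLinearMap.opNorm_le_bound _ (by norm_num) fun f => ?_
  rw [one_mul, ← sq_le_sq₀ (norm_nonneg _) (norm_nonneg _), ← fwd_tsum e1_inj f, norm_sq]
  simp only [Z1_apply]
  exact le_rfl

lemma Z2_norm : ‖Z2‖ ≤ 1 := by
  refine ContinuousLinearMap.opNorm_le_bound _ (by norm_num) fun f => ?_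
  rw [one_mul, ← sq_le_sq₀ (norm_nonneg _) (norm_nonneg _), ← fwd_tsum e2_inj f, norm_sq]
  simp only [Z2_apply]
  exact le_rfl

lemma exists_R : ∃ R : H2 →L[ℂ] H2, R * pp Z1 Z2 = 1 ∧ pp Z1 Z2 * R = 1 := by
  set t : H2 →L[ℂ] H2 := (12 / 25 : ℂ) • (Z1 * Z2) - (12 / 25 : ℂ) • (Z1 * (Z1 * Z2)) with ht
  have h12 : ‖Z1 * Z2‖ ≤ 1 := (norm_mul_le _ _).trans (by
    calc ‖Z1‖ * ‖Z2‖ ≤ 1 * 1 := mul_le_mul Z1_norm Z2_norm (norm_nonneg _) zero_le_one
      _ = 1 := one_mul 1)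
  have h112 : ‖Z1 * (Z1 * Z2)‖ ≤ 1 := (norm_mul_le _ _).trans (by
    calc ‖Z1‖ * ‖Z1 * Z2‖ ≤ 1 * 1 := mul_le_mul Z1_norm h12 (norm_nonneg _) zero_le_one
      _ = 1 := one_mul 1)
  have hc : ‖(12 / 25 : ℂ)‖ = 12 / 25 := by norm_num
  have htn : ‖t‖ < 1 := by
    calc ‖t‖ ≤ ‖(12 / 25 : ℂ) • (Z1 * Z2)‖ + ‖(12 / 25 : ℂ) • (Z1 * (Z1 * Z2))‖ := norm_sub_le _ _
      _ = 12 / 25 * ‖Z1 * Z2‖ + 12 / 25 * ‖Z1 * (Z1 * Z2)‖ := by rw [norm_smul, norm_smul, hc]
      _ ≤ 24 / 25 := by linarith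
      _ < 1 := by norm_num
  have hp : pp Z1 Z2 = 1 - t := by
    rw [pp, ht]; abel
  refine ⟨↑(Units.oneSub t htn)⁻¹, ?_, ?_⟩
  · rw [hp, ← Units.val_oneSub t htn, Units.inv_mul]
  · rw [hp, ← Units.val_oneSub t htn, Units.mul_inv]

/-- the inverse of `p(Z₁, Z₂)` -/
noncomputable def RR : H2 →L[ℂ] H2 := exists_R.choose

lemma RR_spec : RR * pp Z1 Z2 = 1 ∧ pp Z1 Z2 * RR = 1 := exists_R.choose_spec

lemma star_Z1 : star Z1 = Z1.adjoint := rfl
lemma star_Z2 : star Z2 = Z2.adjoint := rfl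

lemma star_num : ∀ r : ℝ, star (r : ℂ) = r := fun r => Complex.conj_ofReal r

lemma star_pp : star (pp Z1 Z2) = pp Z1.adjoint Z2.adjoint := by
  have h : Z2.adjoint * Z1.adjoint = Z1.adjoint * Z2.adjoint := rel.Y'X'
  have h2 : Z1.adjoint * Z2.adjoint * Z1.adjoint = Z1.adjoint * (Z1.adjoint * Z2.adjoint) := by
    rw [mul_assoc, h]
  simp only [pp, star_add, star_sub, star_one, star_smul, star_mul, star_Z1, star_Z2, h, h2]
  simp

lemma star_v1 : star (v1 Z1 Z2) = v1 Z1.adjoint Z2.adjoint := by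
  have h : Z2.adjoint * Z1.adjoint = Z1.adjoint * Z2.adjoint := rel.Y'X'
  simp only [v1, star_add, star_sub, star_one, star_smul, star_mul, star_Z1, star_Z2, h]
  simp

lemma star_v2 : star (v2 Z1 Z2) = v2 Z1.adjoint Z2.adjoint := by
  have h : Z2.adjoint * Z1.adjoint = Z1.adjoint * Z2.adjoint := rel.Y'X'
  simp only [v2, star_add, star_sub, star_one, star_smul, star_mul, star_Z1, star_Z2, h]
  simp

lemma star_ee : star (ee Z1) = ee Z1.adjoint := by
  simp only [ee, star_add, star_sub, star_one, star_smul, star_mul, star_Z1]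
  simp

lemma star_pt : star (pt Z1 Z2) = pt Z1.adjoint Z2.adjoint := by
  have h : Z2.adjoint * Z1.adjoint = Z1.adjoint * Z2.adjoint := rel.Y'X'
  have h2 : Z1.adjoint * Z2.adjoint * Z1.adjoint = Z1.adjoint * (Z1.adjoint * Z2.adjoint) := by
    rw [mul_assoc, h]
  simp only [pt, star_add, star_sub, star_one, star_smul, star_mul, star_Z1, star_Z2, h, h2]
  simp

/-- projection on functions of `z₂` -/
noncomputable def PP : H2 →L[ℂ] H2 := 1 - Z1 * Z1.adjoint
/-- projection on functions of `z₁` -/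
noncomputable def QQ : H2 →L[ℂ] H2 := 1 - Z2 * Z2.adjoint

lemma full : Full Z1 Z2 Z1.adjoint Z2.adjoint RR (star RR) PP QQ :=
  { rel with
    Rp := RR_spec.1
    pR := RR_spec.2
    Rp' := by rw [← star_pp, ← star_mul, RR_spec.2, star_one]
    pR' := by rw [← star_pp, ← star_mul, RR_spec.1, star_one]
    hP := rfl
    hQ := rfl }

lemma star_PP : star PP = PP := by
  rw [PP, star_sub, star_one, star_mul, ← star_Z1, star_star]

lemma star_QQ : star QQ = QQ := by
  rw [QQ, star_sub, star_one, star_mul, ← star_Z2, star_star]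

/-- the operators -/
noncomputable def Th : H2 →L[ℂ] H2 := pt Z1 Z2 * RR
noncomputable def A1 : H2 →L[ℂ] H2 := v1 Z1 Z2 * RR * PP
noncomputable def A2 : H2 →L[ℂ] H2 := v2 Z1 Z2 * RR * PP
noncomputable def BB : H2 →L[ℂ] H2 := ee Z1 * RR * QQ

lemma star_Th : star Th = star RR * pt Z1.adjoint Z2.adjoint := by
  rw [Th, star_mul, star_pt]
lemma star_A1 : star A1 = PP * star RR * v1 Z1.adjoint Z2.adjoint := by
  rw [A1, star_mul, star_mul, star_v1, star_PP, mul_assoc]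
lemma star_A2 : star A2 = PP * star RR * v2 Z1.adjoint Z2.adjoint := by
  rw [A2, star_mul, star_mul, star_v2, star_PP, mul_assoc]
lemma star_BB : star BB = QQ * star RR * ee Z1.adjoint := by
  rw [BB, star_mul, star_mul, star_ee, star_QQ, mul_assoc]

lemma h_total : Th * star Th + A1 * star A1 + A2 * star A2 + BB * star BB = 1 := by
  rw [star_Th, star_A1, star_A2, star_BB]; exact total full
lemma h_AA11 : star A1 * A1 = PP := by rw [star_A1]; exact AA11 full
lemma h_AA22 : star A2 * A2 = PP := by rw [star_A2]; exact AA22 full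
lemma h_AA12 : star A1 * A2 = 0 := by rw [star_A1]; exact AA12 full
lemma h_AA21 : star A2 * A1 = 0 := by rw [star_A2]; exact AA21 full
lemma h_BB : star BB * BB = QQ := by rw [star_BB]; exact BiShift.BB full
lemma h_BA1 : star BB * A1 = 0 := by rw [star_BB]; exact BA1 full
lemma h_BA2 : star BB * A2 = 0 := by rw [star_BB]; exact BA2 full
lemma h_A1B : star A1 * BB = 0 := by rw [star_A1]; exact A1B full
lemma h_A2B : star A2 * BB = 0 := by rw [star_A2]; exact A2B full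
lemma h_TT : star Th * Th = 1 := by rw [star_Th]; exact TT full
lemma h_TA1 : star Th * A1 = 0 := by rw [star_Th]; exact TA1 full
lemma h_TA2 : star Th * A2 = 0 := by rw [star_Th]; exact TA2 full
lemma h_TB : star Th * BB = 0 := by rw [star_Th]; exact TB full
lemma h_A1T : star A1 * Th = 0 := by
  have := congrArg star h_TA1
  rwa [star_mul, star_star, star_zero] at this
lemma h_A2T : star A2 * Th = 0 := by
  have := congrArg star h_TA2
  rwa [star_mul, star_star, star_zero] at this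
lemma h_XA1 : Z1 * A1 = (-4 / 5 : ℂ) • (Th * PP) + (3 / 5 : ℂ) • (BB * PP + A2 * Z2.adjoint) :=
  XA1 full
lemma h_XA2 : Z1 * A2 = (9 / 25 : ℂ) • (Th * PP) - (4 / 5 : ℂ) • A1 +
    (12 / 25 : ℂ) • (BB * PP + A2 * Z2.adjoint) :=
  XA2 full
lemma h_YA1 : Z2 * A1 = A1 * Z2 := YA1 full
lemma h_YA2 : Z2 * A2 = A2 * Z2 := YA2 full
lemma h_XB : Z1 * BB = BB * Z1 := XB full
lemma h_A1P : A1 * PP = A1 := by rw [A1, mul_assoc, full.PP]
lemma h_A2P : A2 * PP = A2 := by rw [A2, mul_assoc, full.PP]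
lemma h_BQ : BB * QQ = BB := by rw [BB, mul_assoc, full.QQ]

end Pool.Agent.R285.BiHardy
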