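import Pool.Agent.R285.SSD

/-!
Coefficients of real rational functions bounded by one: an inequality and the extremal functions.
-/

open Finset Metric

namespace Pool.Agent.R285.Coef

open Pool.Agent.R285.SchurB (IsCon)
open Pool.Agent.R285.SchurE (cf isCon)
open Pool.Agent.R285.SchurF (cf_mul)
open Pool.Agent.R285.SchurG (cf_add cf_smul)
open Pool.Agent.R285.SS (cf_zero cf_congr cf_mul_range cf_id_mul)

/-- Carlson type inequality for real coefficients. -/
lemma carlson (a : ℕ → ℂ) (ha : IsCon a) (c : ℕ → ℝ) (hc : ∀ n, a n = (c n : ℂ)) (p q : ℕ) :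
    2 * c (p + 1 + q) ≤ 2 - ∑ i ∈ range (p + 1), c i ^ 2 - ∑ i ∈ range (q + 1), c i ^ 2 := by
  set x : ℕ → ℂ := fun j => if j = 0 then 1 else if j < p + 1 then 0 else (c (p + 1 + q - j) : ℂ)
    with hx
  have h := ha (p + 1 + (q + 1)) x
  rw [sum_range_add, sum_range_add (fun j => ‖x j‖ ^ 2)] at h
  have hx0 : x 0 = 1 := by simp [hx]
  have hxs : ∀ j, 0 < j → j < p + 1 → x j = 0 := by
    intro j h1 h2
    simp only [hx]
    rw [if_neg (by omega), if_pos h2]
  have hxp : ∀ j, x (p + 1 + j) = (c (q - j) : ℂ) := by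
    intro j
    simp only [hx]
    rw [if_neg (by omega), if_neg (by omega)]
    congr 2
    omega
  have e1 : ∑ i ∈ range (p + 1), ‖∑ j ∈ range (i + 1), a (i - j) * x j‖ ^ 2
      = ∑ i ∈ range (p + 1), c i ^ 2 := by
    refine sum_congr rfl fun i hi => ?_
    have hi' := mem_range.1 hi
    rw [sum_eq_single 0]
    · rw [Nat.sub_zero, hx0, mul_one, hc, Complex.norm_real, Real.norm_eq_abs, sq_abs]
    · intro j hj hj0
      have := mem_range.1 hj
      rw [hxs j (by omega) (by omega), mul_zero]
    · intro h0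
      exact absurd (mem_range.2 (by omega)) h0
  have e2 : ∑ j ∈ range (p + 1), ‖x j‖ ^ 2 = 1 := by
    rw [sum_eq_single 0]
    · rw [hx0]; simp
    · intro j hj hj0
      rw [hxs j (by omega) (mem_range.1 hj)]
      simp
    · intro h0
      exact absurd (mem_range.2 (by omega)) h0
  have e3 : ∑ j ∈ range (q + 1), ‖x (p + 1 + j)‖ ^ 2 = ∑ i ∈ range (q + 1), c i ^ 2 := by
    rw [← sum_range_reflect (fun i => c i ^ 2)]
    refine sum_congr rfl fun j _ => ?_
    rw [hxp, Complex.norm_real, Real.norm_eq_abs, sq_abs]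
    congr 2
  have e4 : ∑ j ∈ range (p + 1 + q + 1), a (p + 1 + q - j) * x j
      = ((c (p + 1 + q) + ∑ i ∈ range (q + 1), c i ^ 2 : ℝ) : ℂ) := by
    rw [add_assoc (p + 1) q 1, sum_range_add, sum_eq_single 0]
    · rw [Nat.sub_zero, hx0, mul_one, hc]
      push_cast
      congr 1
      rw [← sum_range_reflect (fun i => (c i : ℂ) ^ 2)]
      refine sum_congr rfl fun j hj => ?_
      have hj' := mem_range.1 hj
      rw [hxp, hc]
      have h1 : p + 1 + q - (p + 1 + j) = q - j := by omega
      have h2 : q + 1 - 1 - j = q - j := by omega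
      rw [h1, h2]
      ring
    · intro j hj hj0
      rw [hxs j (by omega) (mem_range.1 hj), mul_zero]
    · intro h0
      exact absurd (mem_range.2 (by omega)) h0
  have e5 : (c (p + 1 + q) + ∑ i ∈ range (q + 1), c i ^ 2) ^ 2
      ≤ ∑ i ∈ range (q + 1), ‖∑ j ∈ range (p + 1 + i + 1), a (p + 1 + i - j) * x j‖ ^ 2 := by
    have h1 := single_le_sum
      (f := fun i => ‖∑ j ∈ range (p + 1 + i + 1), a (p + 1 + i - j) * x j‖ ^ 2)
      (s := range (q + 1)) (fun i _ => by positivity) (mem_range.2 (Nat.lt_succ_self q))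
    refine le_trans (le_of_eq ?_) h1
    rw [e4, Complex.norm_real, Real.norm_eq_abs, sq_abs]
  rw [e1, e2, e3] at h
  nlinarith [sq_nonneg (c (p + 1 + q) + ∑ i ∈ range (q + 1), c i ^ 2 - 1)]

lemma cf_pow_id (m n : ℕ) : cf (fun z : ℂ => z ^ m) n = if n = m then 1 else 0 := by
  induction m generalizing n with
  | zero =>
    have : (fun z : ℂ => z ^ 0) = (1 : ℂ → ℂ) := by funext z; simp
    rw [this, Pool.Agent.R285.SchurF.cf_one]
  | succ m ih =>
    have e : (fun z : ℂ => z ^ (m + 1)) = fun z => z * (fun z : ℂ => z ^ m) z := by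
      funext z
      simp only [pow_succ]
      ring
    rw [e]
    cases n with
    | zero =>
      rw [cf_zero]
      simp
    | succ n =>
      rw [cf_id_mul (differentiableOn_pow m), ih]
      simp

lemma cf_tri (u v w : ℂ) (s t n : ℕ) : cf (fun z : ℂ => u + v * z ^ s + w * z ^ t) n
    = (if n = 0 then u else 0) + (if n = s then v else 0) + (if n = t then w else 0) := by
  have e : (fun z : ℂ => u + v * z ^ s + w * z ^ t)
      = ((fun z : ℂ => u * z ^ 0) + fun z : ℂ => v * z ^ s) + fun z : ℂ => w * z ^ t := by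
    funext z
    simp
  rw [e, cf_add (((differentiableOn_pow 0).const_mul u).add ((differentiableOn_pow s).const_mul v))
    ((differentiableOn_pow t).const_mul w), cf_add ((differentiableOn_pow 0).const_mul u)
    ((differentiableOn_pow s).const_mul v), cf_smul (differentiableOn_pow 0),
    cf_smul (differentiableOn_pow s), cf_smul (differentiableOn_pow t), cf_pow_id, cf_pow_id,
    cf_pow_id]
  simp

end Pool.Agent.R285.Coef
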