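import Pool.Agent.R285.CoefA

/-!
Coefficients of real rational functions bounded by one: the class and the extremal functions.
-/

open Finset Metric

namespace Pool.Agent.R285.Coef

open Pool.Agent.R285.SchurB (IsCon)
open Pool.Agent.R285.SchurE (cf isCon)
open Pool.Agent.R285.SS (cf_zero cf_congr cf_mul_range cf_id_mul)

/-- the `n`-th Taylor coefficient at `0` -/
noncomputable def coef (f : ℂ → ℂ) (n : ℕ) : ℂ := iteratedDeriv n f 0 / (n.factorial : ℂ)

/-- nonconstant rational functions without poles in the closed unit disc, bounded by one on the unit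
circle, with real Taylor coefficients at `0` -/
structure InHR (f : ℂ → ℂ) : Prop where
  rat : ∃ P Q : Polynomial ℂ, (∀ z : ℂ, ‖z‖ ≤ 1 → Q.eval z ≠ 0) ∧
    ∀ z : ℂ, ‖z‖ ≤ 1 → f z = P.eval z / Q.eval z
  bdd : ∀ z : ℂ, ‖z‖ = 1 → ‖f z‖ ≤ 1
  real : ∀ n, (coef f n).im = 0
  nonconst : ∃ n, 1 ≤ n ∧ coef f n ≠ 0

/-- the values of `c_l` for given `c_0 = a`, `c_k = b` -/
def Vals (k l : ℕ) (a b : ℝ) : Set ℝ :=
  {x | ∃ f : ℂ → ℂ, InHR f ∧ coef f 0 = a ∧ coef f k = b ∧ coef f l = x}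

lemma InHR.diff {f : ℂ → ℂ} (h : InHR f) : DifferentiableOn ℂ f (closedBall 0 1) := by
  obtain ⟨P, Q, hQ, hf⟩ := h.rat
  have h1 : DifferentiableOn ℂ (fun z => P.eval z / Q.eval z) (closedBall 0 1) :=
    P.differentiable.differentiableOn.div Q.differentiable.differentiableOn
      fun z hz => hQ z (mem_closedBall_zero_iff.1 hz)
  exact h1.congr fun z hz => hf z (mem_closedBall_zero_iff.1 hz)

lemma InHR.con {f : ℂ → ℂ} (h : InHR f) : IsCon (coef f) := by
  have hd := h.diff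
  refine isCon (hd.mono ball_subset_closedBall) fun z hz => ?_
  have hc : DiffContOnCl ℂ f (ball 0 1) := by
    refine ⟨hd.mono ball_subset_closedBall, ?_⟩
    rw [closure_ball _ one_ne_zero]
    exact hd.continuousOn
  refine Complex.norm_le_of_forall_mem_frontier_norm_le isBounded_ball hc (fun w hw => ?_)
    (subset_closure hz)
  rw [frontier_ball _ one_ne_zero, mem_sphere_zero_iff_norm] at hw
  exact h.bdd w hw

lemma InHR.real' {f : ℂ → ℂ} (h : InHR f) (n : ℕ) : coef f n = ((coef f n).re : ℂ) := by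
  apply Complex.ext
  · simp
  · rw [h.real n]; simp

/-- the extremal family -/
noncomputable def ef (k l : ℕ) (a b ε : ℝ) (z : ℂ) : ℂ :=
  (a + b * z ^ k + ε * z ^ l) / (1 + (ε * b : ℝ) * z ^ (l - k) + (ε * a : ℝ) * z ^ l)

lemma ef_norm {k l : ℕ} (hkl : k < l) (a b ε : ℝ) (hε : ε ^ 2 = 1) (z : ℂ) (hz : ‖z‖ = 1) :
    ‖(a + b * z ^ k + ε * z ^ l : ℂ)‖
      = ‖(1 + (ε * b : ℝ) * z ^ (l - k) + (ε * a : ℝ) * z ^ l : ℂ)‖ := by
  have hzz : z * (starRingEnd ℂ) z = 1 := by
    rw [Complex.mul_conj, Complex.normSq_eq_norm_sq, hz]; simp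
  obtain ⟨m, rfl⟩ : ∃ m, l = k + m := ⟨l - k, by omega⟩
  rw [Nat.add_sub_cancel_left]
  have hεc : (ε : ℂ) ^ 2 = 1 := by exact_mod_cast hε
  have e1 : (starRingEnd ℂ) (1 + (ε * b : ℝ) * z ^ m + (ε * a : ℝ) * z ^ (k + m)) * z ^ (k + m)
      = ε * (a + b * z ^ k + ε * z ^ (k + m)) := by
    simp only [map_add, map_mul, map_one, map_pow, Complex.conj_ofReal]
    have h1 : (starRingEnd ℂ) z ^ m * z ^ (k + m) = z ^ k := by
      rw [pow_add, mul_comm (z ^ k), ← mul_assoc, ← mul_pow, mul_comm ((starRingEnd ℂ) z), hzz,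
        one_pow, one_mul]
    have h2 : (starRingEnd ℂ) z ^ (k + m) * z ^ (k + m) = 1 := by
      rw [← mul_pow, mul_comm ((starRingEnd ℂ) z), hzz, one_pow]
    push_cast
    linear_combination (ε * b : ℂ) * h1 + (ε * a : ℂ) * h2 - z ^ (k + m) * hεc
  have e2 := congrArg norm e1
  rw [norm_mul, norm_mul, Complex.norm_conj, norm_pow, hz, one_pow, mul_one, Complex.norm_real,
    Real.norm_eq_abs] at e2
  have e3 : |ε| = 1 := by
    have : |ε| ^ 2 = 1 := by rw [sq_abs]; exact hε
    have h0 := abs_nonneg ε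
    nlinarith
  rw [e3, one_mul] at e2
  exact e2.symm

lemma ef_rec {k l : ℕ} (hk : 1 ≤ k) (hkl : k < l) (a b ε : ℝ)
    (hQ : ∀ z : ℂ, ‖z‖ ≤ 1 → (1 + (ε * b : ℝ) * z ^ (l - k) + (ε * a : ℝ) * z ^ l : ℂ) ≠ 0)
    (n : ℕ) :
    coef (ef k l a b ε) n + (if l - k ≤ n then (ε * b : ℝ) * coef (ef k l a b ε) (n - (l - k)) else 0)
      + (if l ≤ n then (ε * a : ℝ) * coef (ef k l a b ε) (n - l) else 0)
      = (if n = 0 then (a : ℂ) else 0) + (if n = k then (b : ℂ) else 0)
        + (if n = l then (ε : ℂ) else 0) := by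
  set Q : ℂ → ℂ := fun z => 1 + (ε * b : ℝ) * z ^ (l - k) + (ε * a : ℝ) * z ^ l with hQdef
  have hQd : DifferentiableOn ℂ Q (ball 0 1) := by
    rw [hQdef]; fun_prop
  have hfd : DifferentiableOn ℂ (ef k l a b ε) (ball 0 1) := by
    unfold ef
    refine DifferentiableOn.div (by fun_prop) hQd fun z hz => hQ z ?_
    exact (mem_ball_zero_iff.1 hz).le
  have h1 : cf (fun z => Q z * ef k l a b ε z) n
      = cf (fun z : ℂ => (a : ℂ) + b * z ^ k + ε * z ^ l) n := by
    refine cf_congr (fun z hz => ?_) n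
    have := hQ z (mem_ball_zero_iff.1 hz).le
    simp only [hQdef, ef]
    rw [mul_div_cancel₀ _ this]
  rw [cf_mul_range hQd hfd, cf_tri] at h1
  rw [← h1]
  have h2 : ∀ j ∈ range (n + 1), cf Q (n - j) * cf (ef k l a b ε) j
      = (if j = n then cf (ef k l a b ε) n else 0)
        + (if j = n - (l - k) then (if l - k ≤ n then
            (ε * b : ℝ) * cf (ef k l a b ε) (n - (l - k)) else 0) else 0)
        + (if j = n - l then (if l ≤ n then
            (ε * a : ℝ) * cf (ef k l a b ε) (n - l) else 0) else 0) := by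
    intro j hj
    have hj' := mem_range.1 hj
    rw [hQdef, cf_tri, add_mul, add_mul]
    congr 1
    · congr 1
      · by_cases h : j = n
        · subst h; simp
        · rw [if_neg (by omega), if_neg h, zero_mul]
      · by_cases h : l - k ≤ n
        · by_cases h' : j = n - (l - k)
          · rw [if_pos (by omega), if_pos h', if_pos h, h']
          · rw [if_neg (by omega), if_neg h', zero_mul]
        · rw [if_neg (by omega), if_neg h, zero_mul]
          simp
    · by_cases h : l ≤ n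
      · by_cases h' : j = n - l
        · rw [if_pos (by omega), if_pos h', if_pos h, h']
        · rw [if_neg (by omega), if_neg h', zero_mul]
      · rw [if_neg (by omega), if_neg h, zero_mul]
        simp
  rw [sum_congr rfl h2, sum_add_distrib, sum_add_distrib, sum_ite_eq', sum_ite_eq', sum_ite_eq',
    if_pos (mem_range.2 (by omega)), if_pos (mem_range.2 (by omega)),
    if_pos (mem_range.2 (by omega))]
  rfl

lemma ef_real {k l : ℕ} (hk : 1 ≤ k) (hkl : k < l) (a b ε : ℝ)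
    (hQ : ∀ z : ℂ, ‖z‖ ≤ 1 → (1 + (ε * b : ℝ) * z ^ (l - k) + (ε * a : ℝ) * z ^ l : ℂ) ≠ 0)
    (n : ℕ) : (coef (ef k l a b ε) n).im = 0 := by
  induction n using Nat.strong_induction_on with
  | _ n ih =>
    have h := congrArg Complex.im (ef_rec hk hkl a b ε hQ n)
    have h1 : (if l - k ≤ n then ((ε * b : ℝ) : ℂ) * coef (ef k l a b ε) (n - (l - k)) else 0).im
        = 0 := by
      split_ifs with hc
      · rw [Complex.im_ofReal_mul, ih _ (by omega), mul_zero]
      · simp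
    have h2 : (if l ≤ n then ((ε * a : ℝ) : ℂ) * coef (ef k l a b ε) (n - l) else 0).im = 0 := by
      split_ifs with hc
      · rw [Complex.im_ofReal_mul, ih _ (by omega), mul_zero]
      · simp
    rw [Complex.add_im, Complex.add_im, h1, h2, Complex.add_im, Complex.add_im] at h
    have h3 : (if n = 0 then (a : ℂ) else 0).im = 0 := by split_ifs <;> simp
    have h4 : (if n = k then (b : ℂ) else 0).im = 0 := by split_ifs <;> simp
    have h5 : (if n = l then (ε : ℂ) else 0).im = 0 := by split_ifs <;> simp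
    rw [h3, h4, h5] at h
    linarith

lemma ef_mem {k l : ℕ} (hk : 1 ≤ k) (hkl : k < l) (a b ε : ℝ) (hε : ε ^ 2 = 1)
    (hQ : ∀ z : ℂ, ‖z‖ ≤ 1 → (1 + (ε * b : ℝ) * z ^ (l - k) + (ε * a : ℝ) * z ^ l : ℂ) ≠ 0)
    (hn : ∃ n, 1 ≤ n ∧ coef (ef k l a b ε) n ≠ 0) : InHR (ef k l a b ε) := by
  refine ⟨⟨Polynomial.C (a : ℂ) + Polynomial.C (b : ℂ) * Polynomial.X ^ k
      + Polynomial.C (ε : ℂ) * Polynomial.X ^ l,
    1 + Polynomial.C ((ε * b : ℝ) : ℂ) * Polynomial.X ^ (l - k)
      + Polynomial.C ((ε * a : ℝ) : ℂ) * Polynomial.X ^ l, ?_, ?_⟩, ?_, ?_, hn⟩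
  · intro z hz
    have := hQ z hz
    simpa using this
  · intro z _
    simp [ef]
  · intro z hz
    unfold ef
    rw [norm_div, ef_norm hkl a b ε hε z hz]
    exact div_self_le_one _
  · exact ef_real hk hkl a b ε hQ

end Pool.Agent.R285.Coef
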