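import Pool.Agent.R285.CoefB

/-!
Coefficients of real rational functions bounded by one: the range for `2k < l`.
-/

open Finset Metric

namespace Pool.Agent.R285.Coef

open Pool.Agent.R285.SchurB (IsCon)
open Pool.Agent.R285.SchurE (cf isCon)

lemma isCon_neg {a : ℕ → ℂ} (ha : IsCon a) : IsCon (fun n => - a n) := by
  intro n x
  have h := ha n x
  simpa only [neg_mul, sum_neg_distrib, norm_neg] using h

lemma two_le_sum (c : ℕ → ℝ) {k m : ℕ} (hk : 1 ≤ k) (hm : k < m) :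
    c 0 ^ 2 + c k ^ 2 ≤ ∑ i ∈ range m, c i ^ 2 := by
  have h : ∑ i ∈ ({0, k} : Finset ℕ), c i ^ 2 ≤ ∑ i ∈ range m, c i ^ 2 := by
    refine sum_le_sum_of_subset_of_nonneg ?_ fun i _ _ => sq_nonneg _
    intro i hi
    simp only [mem_insert, mem_singleton] at hi
    rcases hi with rfl | rfl
    · exact mem_range.2 (by omega)
    · exact mem_range.2 hm
  rwa [sum_pair (by omega)] at h

lemma upper {k l : ℕ} (hk : 1 ≤ k) (hkl : 2 * k < l) {a b x : ℝ} (hx : x ∈ Vals k l a b) :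
    x ≤ 1 - a ^ 2 - b ^ 2 := by
  obtain ⟨f, hf, h0, h1, h2⟩ := hx
  have h := carlson (coef f) hf.con (fun n => (coef f n).re) hf.real' (l - 1 - k) k
  have e : l - 1 - k + 1 + k = l := by omega
  rw [e] at h
  have g1 := two_le_sum (fun n => (coef f n).re) hk (m := l - 1 - k + 1) (by omega)
  have g2 := two_le_sum (fun n => (coef f n).re) hk (m := k + 1) (by omega)
  simp only [h0, h1, h2, Complex.ofReal_re] at h g1 g2
  linarith

lemma lower {k l : ℕ} (hk : 1 ≤ k) (hkl : 2 * k < l) {a b x : ℝ} (hx : x ∈ Vals k l a b) :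
    -(1 - a ^ 2 - b ^ 2) ≤ x := by
  obtain ⟨f, hf, h0, h1, h2⟩ := hx
  have h := carlson (fun n => - coef f n) (isCon_neg hf.con) (fun n => -(coef f n).re)
    (fun n => by rw [Complex.ofReal_neg, ← hf.real' n]) (l - 1 - k) k
  have e : l - 1 - k + 1 + k = l := by omega
  rw [e] at h
  have g1 := two_le_sum (fun n => -(coef f n).re) hk (m := l - 1 - k + 1) (by omega)
  have g2 := two_le_sum (fun n => -(coef f n).re) hk (m := k + 1) (by omega)
  simp only [h0, h1, h2, Complex.ofReal_re] at h g1 g2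
  linarith

/-- the three relevant coefficients of the extremal function -/
lemma ef_coefs {k l : ℕ} (hk : 1 ≤ k) (hkl : 2 * k < l) (a b ε : ℝ)
    (hQ : ∀ z : ℂ, ‖z‖ ≤ 1 → (1 + (ε * b : ℝ) * z ^ (l - k) + (ε * a : ℝ) * z ^ l : ℂ) ≠ 0) :
    coef (ef k l a b ε) 0 = a ∧ coef (ef k l a b ε) k = b ∧
      coef (ef k l a b ε) l = (ε * (1 - a ^ 2 - b ^ 2) : ℝ) := by
  have h0 := ef_rec hk (by omega : k < l) a b ε hQ 0
  rw [if_neg (by omega), if_neg (by omega), if_pos rfl, if_neg (by omega), if_neg (by omega)] at h0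
  have h1 := ef_rec hk (by omega : k < l) a b ε hQ k
  rw [if_neg (by omega), if_neg (by omega), if_neg (by omega), if_pos rfl, if_neg (by omega)] at h1
  have h2 := ef_rec hk (by omega : k < l) a b ε hQ l
  rw [if_pos (by omega), if_pos le_rfl, if_neg (by omega), if_neg (by omega), if_pos rfl,
    Nat.sub_self, Nat.sub_sub_self (by omega)] at h2
  have g0 : coef (ef k l a b ε) 0 = a := by simpa using h0
  have g1 : coef (ef k l a b ε) k = b := by simpa using h1
  refine ⟨g0, g1, ?_⟩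
  rw [g0, g1] at h2
  push_cast at h2 ⊢
  linear_combination h2

lemma attained {k l : ℕ} (hk : 1 ≤ k) (hkl : 2 * k < l) (a b ε : ℝ) (hε : ε ^ 2 = 1)
    (hQ : ∀ z : ℂ, ‖z‖ ≤ 1 → (1 + (ε * b : ℝ) * z ^ (l - k) + (ε * a : ℝ) * z ^ l : ℂ) ≠ 0) :
    ε * (1 - a ^ 2 - b ^ 2) ∈ Vals k l a b := by
  obtain ⟨g0, g1, g2⟩ := ef_coefs hk hkl a b ε hQ
  refine ⟨ef k l a b ε, ef_mem hk (by omega) a b ε hε hQ ?_, g0, g1, g2⟩
  by_cases hb : b = 0
  · refine ⟨l, by omega, ?_⟩
    rw [g2]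
    intro h
    have h3 : ε * (1 - a ^ 2 - b ^ 2) = 0 := by exact_mod_cast h
    have hε0 : ε ≠ 0 := by
      rintro rfl
      norm_num at hε
    have h4 : 1 - a ^ 2 - b ^ 2 = 0 := (mul_eq_zero.1 h3).resolve_left hε0
    have h5 : (ε * a) ^ 2 = 1 := by
      rw [mul_pow, hε, one_mul]
      rw [hb] at h4
      linarith
    subst hb
    have h7 : (ε * a - 1) * (ε * a + 1) = 0 := by linear_combination h5
    rcases mul_eq_zero.1 h7 with h6 | h6
    · -- `z = exp (i π / l)`
      refine hQ (Complex.exp (Real.pi * Complex.I / l)) ?_ ?_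
      · rw [Complex.norm_exp]
        simp
      · rw [sub_eq_zero.1 h6, ← Complex.exp_nat_mul, ← Complex.exp_nat_mul]
        have hl : (l : ℂ) ≠ 0 := by
          have : l ≠ 0 := by omega
          exact_mod_cast this
        rw [show (l : ℂ) * (Real.pi * Complex.I / l) = Real.pi * Complex.I by field_simp,
          Complex.exp_pi_mul_I]
        simp
    · refine hQ 1 (by simp) ?_
      rw [eq_neg_of_add_eq_zero_left h6]
      simp
  · refine ⟨k, hk, ?_⟩
    rw [g1]
    exact_mod_cast hb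

lemma nz_of_abs {l m : ℕ} {a b : ℝ} (h : |a| + |b| < 1) (z : ℂ) (hz : ‖z‖ ≤ 1) :
    (1 + (b : ℝ) * z ^ m + (a : ℝ) * z ^ l : ℂ) ≠ 0 := by
  intro h0
  have h1 : ‖((b : ℝ) * z ^ m + (a : ℝ) * z ^ l : ℂ)‖ ≤ |b| + |a| := by
    refine (norm_add_le _ _).trans (add_le_add ?_ ?_)
    · rw [norm_mul, norm_pow, Complex.norm_real, Real.norm_eq_abs]
      exact mul_le_of_le_one_right (abs_nonneg _) (pow_le_one₀ (norm_nonneg _) hz)
    · rw [norm_mul, norm_pow, Complex.norm_real, Real.norm_eq_abs]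
      exact mul_le_of_le_one_right (abs_nonneg _) (pow_le_one₀ (norm_nonneg _) hz)
  have h2 : ((b : ℝ) * z ^ m + (a : ℝ) * z ^ l : ℂ) = -1 := by linear_combination h0
  rw [h2, norm_neg, norm_one] at h1
  linarith

end Pool.Agent.R285.Coef
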