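import Pool.Agent.R285.CoefC

/-!
Coefficients of real rational functions bounded by one: the case `l = 3k`.
-/

open Finset Metric

namespace Pool.Agent.R285.Coef

open Pool.Agent.R285.SchurB (IsCon)
open Pool.Agent.R285.SchurE (cf isCon)

lemma sum_mult {M : Type*} [AddCommMonoid M] (g : ℕ → M) {k n N : ℕ} (hk : 1 ≤ k)
    (h1 : ∀ i < n, k * i < N) (h2 : ∀ i, k * i < N → i < n) (hg : ∀ m, ¬ k ∣ m → g m = 0) :
    ∑ m ∈ range N, g m = ∑ i ∈ range n, g (k * i) := by
  have hinj : Set.InjOn (fun i => k * i) (range n : Set ℕ) := by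
    intro i _ j _ hij
    exact Nat.eq_of_mul_eq_mul_left hk hij
  rw [← sum_image (f := g) (g := fun i => k * i) hinj]
  symm
  refine sum_subset ?_ ?_
  · intro m hm
    obtain ⟨i, hi, rfl⟩ := mem_image.1 hm
    exact mem_range.2 (h1 i (mem_range.1 hi))
  · intro m hm hm'
    apply hg
    rintro ⟨i, rfl⟩
    exact hm' (mem_image.2 ⟨i, mem_range.2 (h2 i (mem_range.1 hm)), rfl⟩)

lemma isCon_sub {a : ℕ → ℂ} (ha : IsCon a) {k : ℕ} (hk : 1 ≤ k) :
    IsCon (fun j => a (k * j)) := by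
  intro n x
  set X : ℕ → ℂ := fun m => if k ∣ m then x (m / k) else 0 with hX
  have hXk : ∀ i, X (k * i) = x i := by
    intro i
    simp only [hX]
    rw [if_pos (dvd_mul_right k i), Nat.mul_div_cancel_left i hk]
  have hX0 : ∀ m, ¬ k ∣ m → X m = 0 := by
    intro m hm
    simp only [hX]
    rw [if_neg hm]
  have h := ha (k * n) X
  have e1 : ∑ j ∈ range (k * n), ‖X j‖ ^ 2 = ∑ j ∈ range n, ‖x j‖ ^ 2 := by
    rw [sum_mult (fun j => ‖X j‖ ^ 2) hk (n := n)]
    · exact sum_congr rfl fun i _ => by rw [hXk]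
    · intro i hi
      exact (Nat.mul_lt_mul_left hk).2 hi
    · intro i hi
      exact (Nat.mul_lt_mul_left hk).1 hi
    · intro m hm
      simp only [hX0 m hm]
      simp
  have e2 : ∀ i, ∑ j ∈ range (k * i + 1), a (k * i - j) * X j
      = ∑ j ∈ range (i + 1), a (k * (i - j)) * x j := by
    intro i
    rw [sum_mult (fun j => a (k * i - j) * X j) hk (n := i + 1)]
    · exact sum_congr rfl fun j _ => by rw [hXk, Nat.mul_sub]
    · intro j hj
      have : k * j ≤ k * i := Nat.mul_le_mul_left k (by omega)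
      omega
    · intro j hj
      have : k * j < k * (i + 1) := by
        rw [Nat.mul_succ]
        omega
      exact (Nat.mul_lt_mul_left hk).1 this
    · intro m hm
      simp only [hX0 m hm, mul_zero]
  have e3 : ∑ i ∈ range n, ‖∑ j ∈ range (i + 1), a (k * (i - j)) * x j‖ ^ 2
      ≤ ∑ i ∈ range (k * n), ‖∑ j ∈ range (i + 1), a (i - j) * X j‖ ^ 2 := by
    have hinj : Set.InjOn (fun i => k * i) (range n : Set ℕ) := by
      intro i _ j _ hij
      exact Nat.eq_of_mul_eq_mul_left hk hij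
    calc ∑ i ∈ range n, ‖∑ j ∈ range (i + 1), a (k * (i - j)) * x j‖ ^ 2
        = ∑ i ∈ range n, ‖∑ j ∈ range (k * i + 1), a (k * i - j) * X j‖ ^ 2 :=
          sum_congr rfl fun i _ => by rw [e2]
      _ = ∑ m ∈ (range n).image (fun i => k * i), ‖∑ j ∈ range (m + 1), a (m - j) * X j‖ ^ 2 := by
          rw [sum_image hinj]
      _ ≤ _ := by
          refine sum_le_sum_of_subset_of_nonneg ?_ fun i _ _ => by positivity
          intro m hm
          obtain ⟨i, hi, rfl⟩ := mem_image.1 hm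
          exact mem_range.2 ((Nat.mul_lt_mul_left hk).2 (mem_range.1 hi))
  rw [e1] at h
  exact e3.trans h

/-- the four term bilinear inequality -/
lemma bil4 {a : ℕ → ℂ} (ha : IsCon a) {c : ℕ → ℝ} (hc : ∀ n, a n = (c n : ℂ)) (x y w : ℝ) :
    c 3 + 2 * x * c 2 + c 1 * (x ^ 2 + 2 * y) + c 0 * (2 * w + 2 * x * y)
      ≤ 1 + x ^ 2 + y ^ 2 + w ^ 2 := by
  have h := ha 4 (fun j => ((if j = 0 then 1 else if j = 1 then x else if j = 2 then y else w : ℝ)
    : ℂ))
  simp only [sum_range_succ, sum_range_zero, hc, zero_add, ← Complex.ofReal_mul,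
    ← Complex.ofReal_add, Complex.norm_real, Real.norm_eq_abs, sq_abs] at h
  norm_num at h
  nlinarith [sq_nonneg (c 0 - w), sq_nonneg (c 1 + c 0 * x - y),
    sq_nonneg (c 2 + c 1 * x + c 0 * y - x), sq_nonneg (c 3 + c 2 * x + c 1 * y + c 0 * w - 1)]

/-- the three term bilinear inequality -/
lemma bil3 {a : ℕ → ℂ} (ha : IsCon a) {c : ℕ → ℝ} (hc : ∀ n, a n = (c n : ℂ)) (x y : ℝ) :
    c 2 + 2 * x * c 1 + c 0 * (2 * y + x ^ 2) ≤ 1 + x ^ 2 + y ^ 2 := by
  have h := ha 3 (fun j => ((if j = 0 then 1 else if j = 1 then x else y : ℝ) : ℂ))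
  simp only [sum_range_succ, sum_range_zero, hc, zero_add, ← Complex.ofReal_mul,
    ← Complex.ofReal_add, Complex.norm_real, Real.norm_eq_abs, sq_abs] at h
  norm_num at h
  nlinarith [sq_nonneg (c 0 - y), sq_nonneg (c 1 + c 0 * x - x),
    sq_nonneg (c 2 + c 1 * x + c 0 * y - 1)]

end Pool.Agent.R285.Coef
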