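import Pool.Agent.R285.CoefD

/-!
Coefficients of real rational functions bounded by one: the case `l = 3k`, bounds and attainment.
-/

open Finset Metric

namespace Pool.Agent.R285.Coef

open Pool.Agent.R285.SchurB (IsCon)
open Pool.Agent.R285.SchurE (cf isCon)

/-- the upper bound for `c_{3k}` in terms of `c_0 = a` and `c_k = b` -/
noncomputable def U3 (a b : ℝ) : ℝ :=
  if -(1 - |a|) < b then 1 - a ^ 2 - b ^ 2 else -(1 + 2 * |a|) * b + b ^ 3 / (1 - |a|) ^ 2

lemma U3_neg (a b : ℝ) : U3 (-a) b = U3 a b := by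
  unfold U3
  rw [abs_neg, neg_sq]

lemma isCon_sign {a : ℕ → ℂ} (ha : IsCon a) : IsCon (fun n => (-1) ^ (n + 1) * a n) := by
  intro n x
  have h := ha n (fun j => (-1) ^ j * x j)
  have e1 : ∀ j, ‖(-1) ^ j * x j‖ ^ 2 = ‖x j‖ ^ 2 := by
    intro j
    rw [norm_mul, norm_pow, norm_neg, norm_one, one_pow, one_mul]
  have e2 : ∀ i, ‖∑ j ∈ range (i + 1), (-1) ^ (i - j + 1) * a (i - j) * x j‖
      = ‖∑ j ∈ range (i + 1), a (i - j) * ((-1) ^ j * x j)‖ := by
    intro i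
    have : ∑ j ∈ range (i + 1), (-1) ^ (i - j + 1) * a (i - j) * x j
        = (-1) ^ (i + 1) * ∑ j ∈ range (i + 1), a (i - j) * ((-1) ^ j * x j) := by
      rw [mul_sum]
      refine sum_congr rfl fun j hj => ?_
      have hj' := mem_range.1 hj
      have e : (-1 : ℂ) ^ (i + 1) * (-1) ^ j = (-1) ^ (i - j + 1) := by
        have : i + 1 = (i - j + 1) + j := by omega
        rw [this, pow_add, mul_assoc, ← mul_pow]
        simp
      rw [← e]
      ring
    rw [this, norm_mul, norm_pow, norm_neg, norm_one, one_pow, one_mul]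
  simp only [e1] at h
  simpa only [e2] using h

lemma up2 {d : ℕ → ℂ} (hd : IsCon d) {c : ℕ → ℝ} (hc : ∀ n, d n = (c n : ℂ))
    (h0 : 0 ≤ c 0) (h1 : c 0 < 1) (hb : c 1 ≤ -(1 - c 0)) :
    c 3 ≤ -(1 + 2 * c 0) * c 1 + c 1 ^ 3 / (1 - c 0) ^ 2 := by
  obtain ⟨s, hs⟩ : ∃ s, c 1 = s * (1 - c 0 ^ 2) := ⟨c 1 / (1 - c 0 ^ 2), by
    have : 1 - c 0 ^ 2 ≠ 0 := by nlinarith
    field_simp⟩
  set A := c 0 with hA
  have i4 := bil4 hd hc (1 + s * (1 + A)) (s + A * (1 + s)) A
  have i3 := bil3 hd hc (s * (1 + A)) A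
  rw [← hA] at i3 i4
  rw [hs] at i3 i4 hb ⊢
  have hx : 1 + s * (1 + A) ≤ 0 := by
    have : (1 + s * (1 + A)) * (1 - A) ≤ 0 := by nlinarith
    by_contra hcon
    push Not at hcon
    have := mul_pos hcon (sub_pos.2 h1)
    linarith
  have e : (s * (1 - A ^ 2)) ^ 3 / (1 - A) ^ 2 = s ^ 3 * (1 - A ^ 2) * (1 + A) ^ 2 := by
    have : 1 - A ≠ 0 := by linarith
    field_simp
    ring
  rw [e]
  have h5 := mul_le_mul_of_nonpos_left i3 hx
  nlinarith [h5]

lemma seq_up {d : ℕ → ℂ} (hd : IsCon d) {c : ℕ → ℝ} (hc : ∀ n, d n = (c n : ℂ))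
    (h1 : |c 0| < 1) : c 3 ≤ U3 (c 0) (c 1) := by
  unfold U3
  split_ifs with h
  · have h2 := carlson d hd c hc 1 1
    simp only [sum_range_succ, sum_range_zero, zero_add] at h2
    norm_num at h2
    linarith
  · push Not at h
    rcases le_or_gt 0 (c 0) with h0 | h0
    · rw [abs_of_nonneg h0] at h h1 ⊢
      exact up2 hd hc h0 h1 h
    · rw [abs_of_neg h0] at h h1 ⊢
      have := up2 (isCon_sign hd) (c := fun n => (-1) ^ (n + 1) * c n) (by
        intro n
        rw [hc]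
        push_cast
        rfl) (by simpa using h0.le) (by simpa using h1) (by simpa using h)
      norm_num at this ⊢
      linarith

lemma upper3 {k : ℕ} (hk : 1 ≤ k) {a b x : ℝ} (ha : |a| < 1) (hx : x ∈ Vals k (3 * k) a b) :
    x ≤ U3 a b := by
  obtain ⟨f, hf, h0, h1, h2⟩ := hx
  have h := seq_up (isCon_sub hf.con hk) (c := fun j => (coef f (k * j)).re)
    (fun n => hf.real' (k * n)) (by simpa [h0] using ha)
  simp only [mul_zero, mul_one, h0, h1, mul_comm k 3, h2, Complex.ofReal_re] at h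
  exact h

lemma lower3 {k : ℕ} (hk : 1 ≤ k) {a b x : ℝ} (ha : |a| < 1) (hx : x ∈ Vals k (3 * k) a b) :
    -U3 a (-b) ≤ x := by
  obtain ⟨f, hf, h0, h1, h2⟩ := hx
  have h := seq_up (isCon_neg (isCon_sub hf.con hk)) (c := fun j => -(coef f (k * j)).re)
    (fun n => by rw [Complex.ofReal_neg, ← hf.real' (k * n)]) (by simpa [h0] using ha)
  simp only [mul_zero, mul_one, h0, h1, mul_comm k 3, h2, Complex.ofReal_re, U3_neg] at h
  linarith

end Pool.Agent.R285.Coef
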