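import Pool.Agent.R285.CoefE

/-!
Coefficients of real rational functions bounded by one: the case `l = 3k`, extremal functions.
-/

open Finset Metric

namespace Pool.Agent.R285.Coef

lemma mob {s : ℝ} (hs : |s| ≤ 1) {u v : ℂ} (h : ‖v‖ ≤ ‖u‖) : ‖s * u + v‖ ≤ ‖u + s * v‖ := by
  have h1 : ‖v‖ ^ 2 ≤ ‖u‖ ^ 2 := pow_le_pow_left₀ (norm_nonneg _) h 2
  have h2 : s ^ 2 ≤ 1 := by
    rw [← sq_abs]
    exact pow_le_one₀ (abs_nonneg _) hs
  have h3 : ‖s * u + v‖ ^ 2 ≤ ‖u + s * v‖ ^ 2 := by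
    rw [Complex.sq_norm, Complex.sq_norm, Complex.normSq_apply] at h1
    rw [Complex.sq_norm, Complex.sq_norm, Complex.normSq_apply, Complex.normSq_apply]
    rw [Complex.normSq_apply] at h1
    simp only [Complex.add_re, Complex.add_im, Complex.re_ofReal_mul, Complex.im_ofReal_mul]
    nlinarith [mul_nonneg (sub_nonneg.2 h2) (sub_nonneg.2 h1)]
  exact (pow_le_pow_iff_left₀ (norm_nonneg _) (norm_nonneg _) two_ne_zero).1 h3

lemma mob_ne {s : ℝ} (hs : |s| < 1) {u v : ℂ} (h : ‖v‖ ≤ ‖u‖) (hu : u ≠ 0) : u + s * v ≠ 0 := by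
  intro h0
  have h1 : u = -(s * v) := eq_neg_of_add_eq_zero_left h0
  have h2 : ‖u‖ = |s| * ‖v‖ := by
    conv_lhs => rw [h1]
    rw [norm_neg, norm_mul, Complex.norm_real, Real.norm_eq_abs]
  have h3 : 0 < ‖u‖ := norm_pos_iff.2 hu
  have h4 : |s| * ‖v‖ ≤ |s| * ‖u‖ := mul_le_mul_of_nonneg_left h (abs_nonneg _)
  nlinarith

lemma nz_cubic {a b : ℝ} (ha : |a| < 1) (hb : |b| < 1 - a ^ 2) (h : -(1 - |a|) < b) {w : ℂ}
    (hw : ‖w‖ ≤ 1) : 1 + (b : ℂ) * w ^ 2 + (a : ℂ) * w ^ 3 ≠ 0 := by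
  have hp : 0 < 1 - a ^ 2 := lt_of_le_of_lt (abs_nonneg _) hb
  obtain ⟨s, hs⟩ : ∃ s, b = s * (1 - a ^ 2) := ⟨b / (1 - a ^ 2), by field_simp⟩
  have hs1 : |s| < 1 := by
    rw [hs, abs_mul, abs_of_pos hp] at hb
    exact lt_of_mul_lt_mul_right (by linarith) hp.le
  have hs2 := abs_lt.1 hs1
  have hs3 : 0 < 1 + s := by linarith
  obtain ⟨γ, hγ⟩ : ∃ γ, γ * (1 + s) = -a * s := ⟨-a * s / (1 + s), by field_simp⟩
  have hγ1 : |γ| < 1 := by
    have e1 : |γ| * (1 + s) = |a| * |s| := by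
      conv_lhs => rw [← abs_of_pos hs3]
      rw [← abs_mul, hγ, abs_mul, abs_neg]
    have e2 : |a| * |s| < 1 + s := by
      rcases le_or_gt 0 s with h0 | h0
      · rw [abs_of_nonneg h0]
        nlinarith
      · rw [abs_of_neg h0]
        have e3 : |a| ^ 2 = a ^ 2 := sq_abs a
        have e4 : 0 < (1 + s * (1 + |a|)) * (1 - |a|) := by
          rw [hs, ← e3] at h
          nlinarith
        have e5 : 0 < 1 + s * (1 + |a|) := by
          by_contra hcon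
          push Not at hcon
          have := mul_nonpos_of_nonpos_of_nonneg hcon (by linarith : 0 ≤ 1 - |a|)
          linarith
        linarith
    by_contra hcon
    push Not at hcon
    have := mul_le_mul_of_nonneg_right hcon hs3.le
    linarith
  set u : ℂ := 1 + γ * w with hu
  set v : ℂ := w * (γ * 1 + w) with hv
  have k1 : ‖w‖ ≤ ‖(1 : ℂ)‖ := by simpa using hw
  have hvu : ‖v‖ ≤ ‖u‖ := by
    rw [hv, norm_mul]
    exact (mul_le_of_le_one_left (norm_nonneg _) hw).trans (mob hγ1.le k1)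
  have hu0 : u ≠ 0 := mob_ne hγ1 k1 one_ne_zero
  have hA := mob_ne hs1 hvu hu0
  have hBA := mob hs1.le hvu
  have hwB : ‖w * (s * u + v)‖ ≤ ‖u + s * v‖ := by
    rw [norm_mul]
    exact (mul_le_of_le_one_left (norm_nonneg _) hw).trans hBA
  have hfin := mob_ne ha hwB hA
  intro h0
  apply hfin
  rw [← h0, hu, hv, hs]
  have hγc : (γ : ℂ) * (1 + s) = -a * s := by exact_mod_cast hγ
  push_cast
  linear_combination (w + a * w ^ 2) * hγc

lemma nz_quad {a s σ : ℝ} (ha : |a| < 1) (hs : |s| < 1) (hσ : σ ^ 2 = 1) (hσa : σ * a = |a|)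
    {w : ℂ} (hw : ‖w‖ ≤ 1) :
    1 + ((σ * (s * (1 + |a|)) : ℝ) : ℂ) * w + ((σ * a : ℝ) : ℂ) * w ^ 2 ≠ 0 := by
  have hσ1 : |σ| = 1 := by
    have h1 : |σ| ^ 2 = 1 := by rw [sq_abs]; exact hσ
    have h0 := abs_nonneg σ
    nlinarith
  have hs1 : |σ * s| < 1 := by rw [abs_mul, hσ1, one_mul]; exact hs
  have k1 : ‖w‖ ≤ ‖(1 : ℂ)‖ := by simpa using hw
  have hA := mob_ne hs1 k1 one_ne_zero
  have hBA := mob hs1.le k1
  have hwB : ‖w * ((σ * s : ℝ) * 1 + w)‖ ≤ ‖1 + ((σ * s : ℝ) : ℂ) * w‖ := by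
    rw [norm_mul]
    exact (mul_le_of_le_one_left (norm_nonneg _) hw).trans hBA
  have ha' : |(|a|)| < 1 := by rwa [abs_abs]
  have hfin := mob_ne ha' hwB hA
  intro h0
  apply hfin
  rw [← h0, hσa]
  push_cast
  ring

lemma ef2_coefs {k : ℕ} (hk : 1 ≤ k) (a β σ : ℝ)
    (hQ : ∀ z : ℂ, ‖z‖ ≤ 1 → (1 + (σ * β : ℝ) * z ^ (2 * k - k) + (σ * a : ℝ) * z ^ (2 * k) : ℂ) ≠ 0) :
    coef (ef k (2 * k) a β σ) 0 = a ∧
    coef (ef k (2 * k) a β σ) k = (β * (1 - σ * a) : ℝ) ∧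
    coef (ef k (2 * k) a β σ) (3 * k)
      = (-(σ * β) * (σ * (1 - a ^ 2) - σ * β * (β * (1 - σ * a))) - σ * a * (β * (1 - σ * a)) : ℝ)
      := by
  have h0 := ef_rec hk (by omega : k < 2 * k) a β σ hQ 0
  rw [if_neg (by omega), if_neg (by omega), if_pos rfl, if_neg (by omega), if_neg (by omega)] at h0
  have g0 : coef (ef k (2 * k) a β σ) 0 = a := by simpa using h0
  have h1 := ef_rec hk (by omega : k < 2 * k) a β σ hQ k
  rw [if_pos (by omega), if_neg (by omega), if_neg (by omega), if_pos rfl, if_neg (by omega),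
    show k - (2 * k - k) = 0 by omega, g0] at h1
  have g1 : coef (ef k (2 * k) a β σ) k = (β * (1 - σ * a) : ℝ) := by
    push_cast at h1 ⊢
    linear_combination h1
  have h2 := ef_rec hk (by omega : k < 2 * k) a β σ hQ (2 * k)
  rw [if_pos (by omega), if_pos (by omega), if_neg (by omega), if_neg (by omega), if_pos rfl,
    show 2 * k - (2 * k - k) = k by omega, Nat.sub_self, g0, g1] at h2
  have g2 : coef (ef k (2 * k) a β σ) (2 * k)
      = (σ * (1 - a ^ 2) - σ * β * (β * (1 - σ * a)) : ℝ) := by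
    push_cast at h2 ⊢
    linear_combination h2
  have h3 := ef_rec hk (by omega : k < 2 * k) a β σ hQ (3 * k)
  rw [if_pos (by omega), if_pos (by omega), if_neg (by omega), if_neg (by omega),
    if_neg (by omega), show 3 * k - (2 * k - k) = 2 * k by omega,
    show 3 * k - 2 * k = k by omega, g1, g2] at h3
  refine ⟨g0, g1, ?_⟩
  push_cast at h3 ⊢
  linear_combination h3

lemma att2 {k : ℕ} (hk : 1 ≤ k) {a b : ℝ} (ha : |a| < 1) (hb : |b| < 1 - a ^ 2) (hb0 : b ≠ 0) :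
    -(1 + 2 * |a|) * b + b ^ 3 / (1 - |a|) ^ 2 ∈ Vals k (3 * k) a b := by
  have hp : 0 < 1 - a ^ 2 := lt_of_le_of_lt (abs_nonneg _) hb
  obtain ⟨s, hs⟩ : ∃ s, b = s * (1 - a ^ 2) := ⟨b / (1 - a ^ 2), by field_simp⟩
  have hs1 : |s| < 1 := by
    rw [hs, abs_mul, abs_of_pos hp] at hb
    exact lt_of_mul_lt_mul_right (by linarith) hp.le
  obtain ⟨σ, hσ, hσa⟩ : ∃ σ : ℝ, σ ^ 2 = 1 ∧ σ * a = |a| := by
    rcases le_or_gt 0 a with h | h
    · exact ⟨1, by norm_num, by rw [abs_of_nonneg h, one_mul]⟩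
    · exact ⟨-1, by norm_num, by rw [abs_of_neg h]; ring⟩
  have hQ : ∀ z : ℂ, ‖z‖ ≤ 1 → (1 + (σ * (s * (1 + |a|)) : ℝ) * z ^ (2 * k - k)
      + (σ * a : ℝ) * z ^ (2 * k) : ℂ) ≠ 0 := by
    intro z hz
    have hw : ‖z ^ k‖ ≤ 1 := by
      rw [norm_pow]
      exact pow_le_one₀ (norm_nonneg _) hz
    have := nz_quad ha hs1 hσ hσa hw
    rw [← pow_mul, mul_comm k 2] at this
    rwa [show 2 * k - k = k by omega]
  obtain ⟨g0, g1, g3⟩ := ef2_coefs hk a (s * (1 + |a|)) σ hQ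
  have e3 : a ^ 2 = |a| ^ 2 := (sq_abs a).symm
  have e1 : s * (1 + |a|) * (1 - σ * a) = b := by
    rw [hs, hσa, e3]
    ring
  have e2 : -(σ * (s * (1 + |a|))) * (σ * (1 - a ^ 2) - σ * (s * (1 + |a|)) * (s * (1 + |a|) *
      (1 - σ * a))) - σ * a * (s * (1 + |a|) * (1 - σ * a))
      = -(1 + 2 * |a|) * b + b ^ 3 / (1 - |a|) ^ 2 := by
    rw [e1, hσa]
    have e4 : b / (1 - |a|) = s * (1 + |a|) := by
      have : 1 - |a| ≠ 0 := by linarith
      rw [hs, e3]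
      field_simp
      ring
    have e5 : b ^ 3 / (1 - |a|) ^ 2 = b * (s * (1 + |a|)) ^ 2 := by
      rw [← e4]
      have : 1 - |a| ≠ 0 := by linarith
      field_simp
    rw [e5]
    have e6 : s * (1 + |a|) * (1 - a ^ 2) = b * (1 + |a|) := by rw [hs]; ring
    linear_combination (-(s * (1 + |a|)) * (1 - a ^ 2) + b * (s * (1 + |a|)) ^ 2) * hσ - e6
  rw [e1] at g1
  rw [e2] at g3
  refine ⟨ef k (2 * k) a (s * (1 + |a|)) σ, ef_mem hk (by omega) a _ σ hσ hQ ⟨k, hk, ?_⟩, g0, g1,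
    g3⟩
  rw [g1]
  exact_mod_cast hb0

lemma att1 {k : ℕ} (hk : 1 ≤ k) {a b : ℝ} (ha : |a| < 1) (hb : |b| < 1 - a ^ 2)
    (h : -(1 - |a|) < b) : 1 - a ^ 2 - b ^ 2 ∈ Vals k (3 * k) a b := by
  have := attained hk (by omega : 2 * k < 3 * k) a b 1 (by norm_num) (by
    intro z hz
    have hw : ‖z ^ k‖ ≤ 1 := by
      rw [norm_pow]
      exact pow_le_one₀ (norm_nonneg _) hz
    have := nz_cubic ha hb h hw
    rw [← pow_mul, ← pow_mul, mul_comm k 2, mul_comm k 3] at this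
    rw [show 3 * k - k = 2 * k by omega]
    simpa using this)
  simpa using this

lemma att1' {k : ℕ} (hk : 1 ≤ k) {a b : ℝ} (ha : |a| < 1) (hb : |b| < 1 - a ^ 2)
    (h : b < 1 - |a|) : -(1 - a ^ 2 - b ^ 2) ∈ Vals k (3 * k) a b := by
  have := attained hk (by omega : 2 * k < 3 * k) a b (-1) (by norm_num) (by
    intro z hz
    have hw : ‖z ^ k‖ ≤ 1 := by
      rw [norm_pow]
      exact pow_le_one₀ (norm_nonneg _) hz
    have := nz_cubic (a := -a) (b := -b) (by rwa [abs_neg]) (by rwa [abs_neg, neg_sq])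
      (by rw [abs_neg]; linarith) hw
    rw [← pow_mul, ← pow_mul, mul_comm k 2, mul_comm k 3] at this
    rw [show 3 * k - k = 2 * k by omega, neg_one_mul, neg_one_mul]
    exact this)
  rwa [neg_one_mul] at this

lemma great3 {k : ℕ} (hk : 1 ≤ k) {a b : ℝ} (hb : |b| < 1 - a ^ 2) :
    IsGreatest (Vals k (3 * k) a b) (U3 a b) ∧
      IsLeast (Vals k (3 * k) a b) (-U3 a (-b)) := by
  have hp : 0 < 1 - a ^ 2 := lt_of_le_of_lt (abs_nonneg _) hb
  have ha : |a| < 1 := by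
    rw [← sq_lt_one_iff_abs_lt_one]
    linarith
  refine ⟨⟨?_, fun x hx => upper3 hk ha hx⟩, ⟨?_, fun x hx => lower3 hk ha hx⟩⟩
  · unfold U3
    split_ifs with h
    · exact att1 hk ha hb h
    · exact att2 hk ha hb (by rintro rfl; apply h; linarith)
  · unfold U3
    split_ifs with h
    · rw [neg_sq]
      exact att1' hk ha hb (by linarith)
    · have := att2 hk ha hb (by rintro rfl; apply h; rw [neg_zero]; linarith)
      convert this using 1
      ring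

end Pool.Agent.R285.Coef
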