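import Pool.Agent.R285.CoefF

/-!
Coefficients of real rational functions bounded by one: the case `l = 3k`, the boundary of the
domain.
-/

open Finset Metric

namespace Pool.Agent.R285.Coef

open Pool.Agent.R285.SchurB (IsCon)
open Pool.Agent.R285.SchurE (cf isCon)
open Pool.Agent.R285.SS (cf_zero cf_congr cf_mul_range cf_id_mul)

lemma ef_rec' {k l : ℕ} (hkl : k < l) (a b ε : ℝ)
    (hQ : ∀ z : ℂ, ‖z‖ ≤ 1 → (1 + (ε * b : ℝ) * z ^ (l - k) + (ε * a : ℝ) * z ^ l : ℂ) ≠ 0)
    (n : ℕ) :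
    coef (ef k l a b ε) n + (if l - k ≤ n then (ε * b : ℝ) * coef (ef k l a b ε) (n - (l - k)) else 0)
      + (if l ≤ n then (ε * a : ℝ) * coef (ef k l a b ε) (n - l) else 0)
      = (if n = 0 then (a : ℂ) else 0) + (if n = k then (b : ℂ) else 0)
        + (if n = l then (ε : ℂ) else 0) := by
  set Q : ℂ → ℂ := fun z => 1 + (ε * b : ℝ) * z ^ (l - k) + (ε * a : ℝ) * z ^ l with hQdef
  have hQd : DifferentiableOn ℂ Q (ball 0 1) := by
    rw [hQdef]; fun_prop
  have hfd : DifferentiableOn ℂ (ef k l a b ε) (ball 0 1) := by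
    unfold ef
    refine DifferentiableOn.div (by fun_prop) hQd fun z hz => hQ z ?_
    exact (mem_ball_zero_iff.1 hz).le
  have h1 : cf (fun z => Q z * ef k l a b ε z) n
      = cf (fun z : ℂ => (a : ℂ) + b * z ^ k + ε * z ^ l) n := by
    refine cf_congr (fun z hz => ?_) n
    have := hQ z (mem_ball_zero_iff.1 hz).le
    simp only [hQdef, ef]
    rw [mul_div_cancel₀ _ this]
  rw [cf_mul_range hQd hfd, cf_tri] at h1
  rw [← h1]
  have h2 : ∀ j ∈ range (n + 1), cf Q (n - j) * cf (ef k l a b ε) j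
      = (if j = n then cf (ef k l a b ε) n else 0)
        + (if j = n - (l - k) then (if l - k ≤ n then
            (ε * b : ℝ) * cf (ef k l a b ε) (n - (l - k)) else 0) else 0)
        + (if j = n - l then (if l ≤ n then
            (ε * a : ℝ) * cf (ef k l a b ε) (n - l) else 0) else 0) := by
    intro j hj
    have hj' := mem_range.1 hj
    rw [hQdef, cf_tri, add_mul, add_mul]
    congr 1
    · congr 1
      · by_cases h : j = n
        · subst h; simp
        · rw [if_neg (by omega), if_neg h, zero_mul]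
      · by_cases h : l - k ≤ n
        · by_cases h' : j = n - (l - k)
          · rw [if_pos (by omega), if_pos h', if_pos h, h']
          · rw [if_neg (by omega), if_neg h', zero_mul]
        · rw [if_neg (by omega), if_neg h, zero_mul]
          simp
    · by_cases h : l ≤ n
      · by_cases h' : j = n - l
        · rw [if_pos (by omega), if_pos h', if_pos h, h']
        · rw [if_neg (by omega), if_neg h', zero_mul]
      · rw [if_neg (by omega), if_neg h, zero_mul]
        simp
  rw [sum_congr rfl h2, sum_add_distrib, sum_add_distrib, sum_ite_eq', sum_ite_eq', sum_ite_eq',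
    if_pos (mem_range.2 (by omega)), if_pos (mem_range.2 (by omega)),
    if_pos (mem_range.2 (by omega))]
  rfl

lemma ef_real' {k l : ℕ} (hkl : k < l) (a b ε : ℝ)
    (hQ : ∀ z : ℂ, ‖z‖ ≤ 1 → (1 + (ε * b : ℝ) * z ^ (l - k) + (ε * a : ℝ) * z ^ l : ℂ) ≠ 0)
    (n : ℕ) : (coef (ef k l a b ε) n).im = 0 := by
  induction n using Nat.strong_induction_on with
  | _ n ih =>
    have h := congrArg Complex.im (ef_rec' hkl a b ε hQ n)
    have h1 : (if l - k ≤ n then ((ε * b : ℝ) : ℂ) * coef (ef k l a b ε) (n - (l - k)) else 0).im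
        = 0 := by
      split_ifs with hc
      · rw [Complex.im_ofReal_mul, ih _ (by omega), mul_zero]
      · simp
    have h2 : (if l ≤ n then ((ε * a : ℝ) : ℂ) * coef (ef k l a b ε) (n - l) else 0).im = 0 := by
      split_ifs with hc
      · rw [Complex.im_ofReal_mul, ih _ (by omega), mul_zero]
      · simp
    rw [Complex.add_im, Complex.add_im, h1, h2, Complex.add_im, Complex.add_im] at h
    have h3 : (if n = 0 then (a : ℂ) else 0).im = 0 := by split_ifs <;> simp
    have h4 : (if n = k then (b : ℂ) else 0).im = 0 := by split_ifs <;> simp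
    have h5 : (if n = l then (ε : ℂ) else 0).im = 0 := by split_ifs <;> simp
    rw [h3, h4, h5] at h
    linarith

lemma ef_mem' {k l : ℕ} (hkl : k < l) (a b ε : ℝ) (hε : ε ^ 2 = 1)
    (hQ : ∀ z : ℂ, ‖z‖ ≤ 1 → (1 + (ε * b : ℝ) * z ^ (l - k) + (ε * a : ℝ) * z ^ l : ℂ) ≠ 0)
    (hn : ∃ n, 1 ≤ n ∧ coef (ef k l a b ε) n ≠ 0) : InHR (ef k l a b ε) := by
  refine ⟨⟨Polynomial.C (a : ℂ) + Polynomial.C (b : ℂ) * Polynomial.X ^ k
      + Polynomial.C (ε : ℂ) * Polynomial.X ^ l,
    1 + Polynomial.C ((ε * b : ℝ) : ℂ) * Polynomial.X ^ (l - k)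
      + Polynomial.C ((ε * a : ℝ) : ℂ) * Polynomial.X ^ l, ?_, ?_⟩, ?_, ?_, hn⟩
  · intro z hz
    have := hQ z hz
    simpa using this
  · intro z _
    simp [ef]
  · intro z hz
    unfold ef
    rw [norm_div, ef_norm hkl a b ε hε z hz]
    exact div_self_le_one _
  · exact ef_real' hkl a b ε hQ

lemma att3 {k : ℕ} (hk : 1 ≤ k) {a b ε : ℝ} (ha : |a| < 1) (hε : ε ^ 2 = 1)
    (hb : b = ε * (1 - a ^ 2)) : a ^ 2 * b ∈ Vals k (3 * k) a b := by
  have hε1 : |ε| = 1 := by
    have h1 : |ε| ^ 2 = 1 := by rw [sq_abs]; exact hε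
    have h0 := abs_nonneg ε
    nlinarith
  have hp : 0 < 1 - a ^ 2 := by
    have := (sq_lt_one_iff_abs_lt_one a).2 ha
    linarith
  have hQ : ∀ z : ℂ, ‖z‖ ≤ 1 → (1 + (ε * (0 : ℝ) : ℝ) * z ^ (k - 0) + (ε * a : ℝ) * z ^ k : ℂ) ≠ 0 := by
    intro z hz
    exact nz_of_abs (a := ε * a) (b := ε * 0) (by
      rw [mul_zero, abs_zero, add_zero, abs_mul, hε1, one_mul]
      exact ha) z hz
  have h0 := ef_rec' (by omega : 0 < k) a 0 ε hQ 0
  rw [if_neg (by omega), if_neg (by omega), if_pos rfl, if_pos rfl, if_neg (by omega)] at h0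
  have g0 : coef (ef 0 k a 0 ε) 0 = a := by simpa using h0
  have h1 := ef_rec' (by omega : 0 < k) a 0 ε hQ k
  rw [if_pos (by omega), if_pos (by omega), if_neg (by omega), if_neg (by omega), if_pos rfl,
    Nat.sub_zero, Nat.sub_self, g0] at h1
  have g1 : coef (ef 0 k a 0 ε) k = b := by
    rw [hb]
    push_cast at h1 ⊢
    linear_combination h1
  have h2 := ef_rec' (by omega : 0 < k) a 0 ε hQ (2 * k)
  rw [if_pos (by omega), if_pos (by omega), if_neg (by omega), if_neg (by omega),
    if_neg (by omega), Nat.sub_zero, show 2 * k - k = k by omega, g1] at h2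
  have g2 : coef (ef 0 k a 0 ε) (2 * k) = (-(ε * a * b) : ℝ) := by
    push_cast at h2 ⊢
    linear_combination h2
  have h3 := ef_rec' (by omega : 0 < k) a 0 ε hQ (3 * k)
  rw [if_pos (by omega), if_pos (by omega), if_neg (by omega), if_neg (by omega),
    if_neg (by omega), Nat.sub_zero, show 3 * k - k = 2 * k by omega, g2] at h3
  have g3 : coef (ef 0 k a 0 ε) (3 * k) = (a ^ 2 * b : ℝ) := by
    have hεc : (ε : ℂ) ^ 2 = 1 := by exact_mod_cast hε
    push_cast at h3 ⊢
    linear_combination h3 + (a : ℂ) ^ 2 * b * hεc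
  refine ⟨ef 0 k a 0 ε, ef_mem' (by omega) a 0 ε hε hQ ⟨k, hk, ?_⟩, g0, g1, g3⟩
  rw [g1]
  have : b ≠ 0 := by
    rw [hb]
    refine mul_ne_zero ?_ hp.ne'
    rintro rfl
    norm_num at hε
  exact_mod_cast this

lemma dom {k l : ℕ} (hk : 1 ≤ k) {a b : ℝ} (h : (Vals k l a b).Nonempty) :
    |a| < 1 ∧ |b| ≤ 1 - a ^ 2 := by
  obtain ⟨x, f, hf, h0, h1, -⟩ := h
  constructor
  · by_contra hcon
    push Not at hcon
    have h2 : 1 ≤ a ^ 2 := by
      rw [← sq_abs]
      nlinarith
    obtain ⟨n, hn, hn0⟩ := hf.nonconst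
    apply hn0
    have h3 := hf.con (n + 1) (fun j => if j = 0 then 1 else 0)
    have e1 : ∑ j ∈ range (n + 1), ‖(if j = 0 then 1 else 0 : ℂ)‖ ^ 2 = 1 := by
      rw [sum_eq_single 0]
      · simp
      · intro j _ hj
        rw [if_neg hj]
        simp
      · intro h
        exact absurd (mem_range.2 (by omega)) h
    have e2 : ∀ i, ∑ j ∈ range (i + 1), coef f (i - j) * (if j = 0 then 1 else 0 : ℂ)
        = coef f i := by
      intro i
      rw [sum_eq_single 0]
      · simp
      · intro j _ hj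
        rw [if_neg hj, mul_zero]
      · intro h
        exact absurd (mem_range.2 (by omega)) h
    rw [e1] at h3
    simp only [e2] at h3
    have h4 : ∑ i ∈ ({0, n} : Finset ℕ), ‖coef f i‖ ^ 2 ≤ ∑ i ∈ range (n + 1), ‖coef f i‖ ^ 2 := by
      refine sum_le_sum_of_subset_of_nonneg ?_ fun i _ _ => by positivity
      intro i hi
      simp only [mem_insert, mem_singleton] at hi
      rcases hi with rfl | rfl
      · exact mem_range.2 (by omega)
      · exact mem_range.2 (by omega)
    rw [sum_pair (by omega), h0, Complex.norm_real, Real.norm_eq_abs, sq_abs] at h4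
    have h5 : ‖coef f n‖ ^ 2 ≤ 0 := by linarith
    have h6 : ‖coef f n‖ = 0 := by
      have := norm_nonneg (coef f n)
      nlinarith
    exact norm_eq_zero.1 h6
  · have key : ∀ (d : ℕ → ℂ) (c : ℕ → ℝ), IsCon d → (∀ n, d n = (c n : ℂ)) →
        c k ≤ 1 - c 0 ^ 2 := by
      intro d c hd hc
      have h := carlson d hd c hc (k - 1) 0
      rw [show k - 1 + 1 + 0 = k by omega] at h
      have g1 : c 0 ^ 2 ≤ ∑ i ∈ range k, c i ^ 2 :=
        single_le_sum (f := fun i => c i ^ 2) (fun i _ => sq_nonneg _) (mem_range.2 (by omega))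
      simp only [sum_range_succ, sum_range_zero, zero_add] at h
      linarith
    have k1 := key (coef f) (fun n => (coef f n).re) hf.con hf.real'
    have k2 := key (fun n => - coef f n) (fun n => -(coef f n).re) (isCon_neg hf.con)
      (fun n => by rw [Complex.ofReal_neg, ← hf.real' n])
    simp only [h0, h1, Complex.ofReal_re, neg_sq] at k1 k2
    exact abs_le.2 ⟨by linarith, k1⟩

lemma U3_bdry_neg {a : ℝ} (ha : |a| < 1) : U3 a (-(1 - a ^ 2)) = -(a ^ 2 * (1 - a ^ 2)) := by
  have e3 : a ^ 2 = |a| ^ 2 := (sq_abs a).symm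
  have h0 := abs_nonneg a
  unfold U3
  rw [if_neg (by
    push Not
    rw [e3]
    nlinarith)]
  have : 1 - |a| ≠ 0 := by linarith
  rw [e3]
  field_simp
  ring

lemma U3_bdry_pos {a : ℝ} (ha : |a| < 1) : U3 a (1 - a ^ 2) = a ^ 2 * (1 - a ^ 2) := by
  have e3 : a ^ 2 = |a| ^ 2 := (sq_abs a).symm
  have h0 := abs_nonneg a
  unfold U3
  rw [if_pos (by
    rw [e3]
    nlinarith)]
  ring

/-- the complete answer for `l = 3k` -/
lemma full3 {k : ℕ} (hk : 1 ≤ k) {a b : ℝ} (ha : |a| < 1) (hb : |b| ≤ 1 - a ^ 2) :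
    IsGreatest (Vals k (3 * k) a b) (U3 a b) ∧
      IsLeast (Vals k (3 * k) a b) (-U3 a (-b)) := by
  rcases hb.lt_or_eq with h | h
  · exact great3 hk h
  · rcases abs_choice b with hc | hc
    · rw [hc] at h
      have hm := att3 hk (b := b) (ε := 1) ha (by norm_num) (by rw [one_mul]; exact h)
      refine ⟨⟨?_, fun x hx => upper3 hk ha hx⟩, ⟨?_, fun x hx => lower3 hk ha hx⟩⟩
      · rw [h, U3_bdry_pos ha]
        rw [h] at hm
        exact hm
      · rw [h, U3_bdry_neg ha, neg_neg]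
        rw [h] at hm
        exact hm
    · rw [hc] at h
      have h' : b = -(1 - a ^ 2) := by linarith
      have hm := att3 hk (b := b) (ε := -1) ha (by norm_num) (by rw [neg_one_mul]; exact h')
      refine ⟨⟨?_, fun x hx => upper3 hk ha hx⟩, ⟨?_, fun x hx => lower3 hk ha hx⟩⟩
      · rw [h', U3_bdry_neg ha]
        rw [h', mul_neg] at hm
        exact hm
      · rw [h', neg_neg, U3_bdry_pos ha]
        rw [h', mul_neg] at hm
        exact hm

end Pool.Agent.R285.Coef
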