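import Mathlib
import Pool.Agent.Results.MP_01d095_an.SecondIndexSum

/-!
# The second numerical index of an `ℓ₁`-sum of Hilbert spaces is at least `1/2`
-/

set_option autoImplicit false

namespace Pool.Agent.R285.EllOne

open Pool.Agent.Results.MP_01d095_an.SecondIndexSum

universe u v

variable {ι : Type u} {E : Type v} [NormedAddCommGroup E] [InnerProductSpace ℝ E] [CompleteSpace E]

/-- the `ℓ₁`-sum of copies of `E` -/
abbrev L1 (ι : Type u) (E : Type v) [NormedAddCommGroup E] [InnerProductSpace ℝ E] :=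
  lp (fun _ : ι => E) 1

omit [CompleteSpace E] in
lemma summable_norm (x : L1 ι E) : Summable fun i => ‖x i‖ := by
  have h := (lp.memℓp x).summable (by simp)
  simpa using h

omit [CompleteSpace E] in
lemma norm_eq (x : L1 ι E) : ‖x‖ = ∑' i, ‖x i‖ := by
  rw [lp.norm_eq_tsum_rpow (by simp)]
  simp

omit [InnerProductSpace ℝ E] [CompleteSpace E] in
lemma memlp_of_summable (f : ι → E) (h : Summable fun i => ‖f i‖) : Memℓp f 1 := by
  apply memℓp_gen
  simpa using h

/-- the functional `x ↦ ∑ ⟨w_i, x_i⟩` attached to a family with `‖w_i‖ ≤ 1` -/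
noncomputable def pairing (w : ι → E) (hw : ∀ i, ‖w i‖ ≤ 1) : L1 ι E →L[ℝ] ℝ :=
  LinearMap.mkContinuous
    { toFun := fun x => ∑' i, inner ℝ (w i) (x i)
      map_add' := by
        intro x y
        have hs : ∀ z : L1 ι E, Summable fun i => inner ℝ (w i) (z i) := fun z =>
          Summable.of_norm_bounded (summable_norm z) fun i => by
            calc ‖inner ℝ (w i) (z i)‖ ≤ ‖w i‖ * ‖z i‖ := norm_inner_le_norm _ _
              _ ≤ 1 * ‖z i‖ := by gcongr; exact hw i
              _ = ‖z i‖ := one_mul _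
        rw [← (hs x).tsum_add (hs y)]
        refine tsum_congr fun i => ?_
        rw [lp.coeFn_add, Pi.add_apply, inner_add_right]
      map_smul' := by
        intro c x
        rw [RingHom.id_apply, smul_eq_mul, ← tsum_mul_left]
        refine tsum_congr fun i => ?_
        rw [lp.coeFn_smul, Pi.smul_apply, inner_smul_right] }
    1 (by
      intro x
      have hb : ∀ i, ‖inner ℝ (w i) (x i)‖ ≤ ‖x i‖ := fun i => by
        calc ‖inner ℝ (w i) (x i)‖ ≤ ‖w i‖ * ‖x i‖ := norm_inner_le_norm _ _
          _ ≤ 1 * ‖x i‖ := by gcongr; exact hw i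
          _ = ‖x i‖ := one_mul _
      rw [one_mul, norm_eq x]
      exact tsum_of_norm_bounded (summable_norm x).hasSum hb)

omit [CompleteSpace E] in
lemma pairing_apply (w : ι → E) (hw : ∀ i, ‖w i‖ ≤ 1) (x : L1 ι E) :
    pairing w hw x = ∑' i, inner ℝ (w i) (x i) := rfl

omit [CompleteSpace E] in
lemma pairing_norm_le (w : ι → E) (hw : ∀ i, ‖w i‖ ≤ 1) : ‖pairing w hw‖ ≤ 1 :=
  LinearMap.mkContinuous_norm_le _ zero_le_one _

open scoped Classical in
omit [CompleteSpace E] in
/-- lower bound for the numerical radius on `ℓ₁`-sums -/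
lemma numRadius_ge (T : L1 ι E →L[ℝ] L1 ι E) (i : ι) (u : E) (hu : ‖u‖ = 1) :
    |inner ℝ u (T (lp.single 1 i u) i)| + (‖T (lp.single 1 i u)‖ - ‖T (lp.single 1 i u) i‖) ≤
      numRadius T := by
  set y := T (lp.single 1 i u) with hy
  set σ : ℝ := if 0 ≤ inner ℝ u (y i) then 1 else -1 with hσ
  have hσ1 : ‖σ‖ = 1 := by rw [hσ]; split_ifs <;> simp
  have hσ2 : σ * inner ℝ u (y i) = |inner ℝ u (y i)| := by
    rw [hσ]
    split_ifs with h
    · rw [one_mul, abs_of_nonneg h]
    · rw [abs_of_neg (not_le.1 h)]; ring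
  have hσσ : σ * σ = 1 := by rw [hσ]; split_ifs <;> norm_num
  let w : ι → E := fun j => if j = i then u else (σ * ‖y j‖⁻¹) • y j
  have hw : ∀ j, ‖w j‖ ≤ 1 := by
    intro j
    simp only [w]
    split_ifs with h
    · exact hu.le
    · rw [norm_smul, norm_mul, hσ1, one_mul, norm_inv, norm_norm]
      exact inv_mul_le_one
  have hstate : IsState (L1 ι E) (lp.single 1 i u) (pairing w hw) := by
    have h1 : ‖(lp.single 1 i u : L1 ι E)‖ = 1 := by
      rw [lp.norm_single (by simp), hu]
    have h2 : pairing w hw (lp.single 1 i u) = 1 := by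
      rw [pairing_apply, tsum_eq_single i]
      · rw [lp.single_apply_self]
        simp only [w, if_true]
        rw [real_inner_self_eq_norm_sq, hu]; norm_num
      · intro j hj
        rw [lp.single_apply_ne _ _ _ hj, inner_zero_right]
    refine ⟨h1, le_antisymm (pairing_norm_le w hw) ?_, h2⟩
    have := (pairing w hw).le_opNorm (lp.single 1 i u)
    rw [h2, h1, mul_one, norm_one] at this
    exact this
  have h3 := le_numRadius T hstate
  rw [← hy] at h3
  refine le_trans ?_ h3
  refine le_trans ?_ (le_abs_self (σ * pairing w hw y) |>.trans_eq (by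
    rw [abs_mul, ← Real.norm_eq_abs σ, hσ1, one_mul]))
  rw [pairing_apply, ← tsum_mul_left, norm_eq y]
  have hs : Summable fun j => σ * inner ℝ (w j) (y j) := by
    refine Summable.mul_left σ (Summable.of_norm_bounded (summable_norm y) fun j => ?_)
    calc ‖inner ℝ (w j) (y j)‖ ≤ ‖w j‖ * ‖y j‖ := norm_inner_le_norm _ _
      _ ≤ 1 * ‖y j‖ := by gcongr; exact hw j
      _ = ‖y j‖ := one_mul _
  rw [(summable_norm y).tsum_eq_add_tsum_ite i, hs.tsum_eq_add_tsum_ite i]
  have h4 : ∀ j, (if j = i then 0 else σ * inner ℝ (w j) (y j)) = if j = i then 0 else ‖y j‖ := by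
    intro j
    split_ifs with h
    · rfl
    · simp only [w, if_neg h]
      rw [inner_smul_left, real_inner_self_eq_norm_sq]
      simp only [conj_trivial]
      rcases eq_or_ne (‖y j‖) 0 with h0 | h0
      · rw [h0]; simp
      · field_simp
        linear_combination hσσ
  rw [tsum_congr h4]
  simp only [w, if_true]
  rw [hσ2]
  ring_nf
  exact le_rfl

/-- the symmetric part of an operator with small quadratic form is small -/
lemma sym_bound (A : E →L[ℝ] E) (ρ : ℝ) (hρ : ∀ u, ‖u‖ = 1 → |inner ℝ u (A u)| ≤ ρ) (x : E) :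
    ‖((1 / 2 : ℝ) • (A + A.adjoint)) x‖ ≤ ρ * ‖x‖ := by
  set B := (1 / 2 : ℝ) • (A + A.adjoint) with hB
  have hBA : ∀ z, inner ℝ z (B z) = inner ℝ z (A z) := by
    intro z
    rw [hB]
    simp only [smul_apply, add_apply, inner_smul_right, inner_add_right,
      ContinuousLinearMap.adjoint_inner_right]
    rw [real_inner_comm z (A z)]
    ring
  have hBs : ∀ z z', inner ℝ (B z) z' = inner ℝ z (B z') := by
    intro z z'
    rw [hB]
    simp only [smul_apply, add_apply, inner_smul_right, inner_add_right, inner_smul_left,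
      inner_add_left, ContinuousLinearMap.adjoint_inner_right,
      ContinuousLinearMap.adjoint_inner_left, conj_trivial]
    ring
  have hq : ∀ z, |inner ℝ z (B z)| ≤ ρ * ‖z‖ ^ 2 := by
    intro z
    rw [hBA]
    rcases eq_or_ne z 0 with rfl | hz
    · simp
    · have hz' : 0 < ‖z‖ := norm_pos_iff.2 hz
      have h1 := hρ (‖z‖⁻¹ • z) (by rw [norm_smul, norm_inv, norm_norm, inv_mul_cancel₀ hz'.ne'])
      rw [map_smul, inner_smul_left, inner_smul_right, conj_trivial, abs_mul, abs_mul,
        abs_of_pos (inv_pos.2 hz')] at h1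
      have h2 : |inner ℝ z (A z)| = (‖z‖⁻¹ * (‖z‖⁻¹ * |inner ℝ z (A z)|)) * ‖z‖ ^ 2 := by
        field_simp
      rw [h2]
      exact mul_le_mul_of_nonneg_right h1 (sq_nonneg _)
  rcases eq_or_ne (B x) 0 with h0 | h0
  · rw [h0, norm_zero]
    rcases eq_or_ne x 0 with rfl | hx
    · simp
    · have h1 := hq x
      have h2 : 0 < ‖x‖ := norm_pos_iff.2 hx
      have h3 : 0 ≤ ρ * ‖x‖ ^ 2 := (abs_nonneg _).trans h1
      have h4 : 0 ≤ ρ := by
        by_contra hneg
        push Not at hneg
        have : ρ * ‖x‖ ^ 2 < 0 := mul_neg_of_neg_of_pos hneg (by positivity)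
        linarith
      positivity
  · have hBx : 0 < ‖B x‖ := norm_pos_iff.2 h0
    rcases eq_or_ne x 0 with rfl | hx
    · simp at h0
    have hx' : 0 < ‖x‖ := norm_pos_iff.2 hx
    set y : E := (‖x‖ / ‖B x‖) • B x with hy
    have hyn : ‖y‖ = ‖x‖ := by
      rw [hy, norm_smul, Real.norm_of_nonneg (by positivity)]
      field_simp
    have e1 : inner ℝ (x + y) (B (x + y)) - inner ℝ (x - y) (B (x - y)) =
        4 * inner ℝ (B x) y := by
      simp only [map_add, map_sub, inner_add_left, inner_add_right, inner_sub_left,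
        inner_sub_right]
      have h1 : inner ℝ x (B y) = inner ℝ (B x) y := (hBs x y).symm
      have h2 : inner ℝ y (B x) = inner ℝ (B x) y := real_inner_comm _ _
      rw [h1, h2]
      ring
    have e2 : inner ℝ (B x) y = ‖x‖ * ‖B x‖ := by
      rw [hy, inner_smul_right, real_inner_self_eq_norm_sq]
      field_simp
    have h3 := (abs_le.1 (hq (x + y))).2
    have h4 := (abs_le.1 (hq (x - y))).1
    have h5 : ‖x + y‖ ^ 2 + ‖x - y‖ ^ 2 = 4 * ‖x‖ ^ 2 := by
      have := parallelogram_law_with_norm ℝ x y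
      rw [hyn] at this
      nlinarith
    have h6 : 4 * (‖x‖ * ‖B x‖) ≤ ρ * (4 * ‖x‖ ^ 2) := by
      rw [← e2, ← e1, ← h5]
      nlinarith
    have h7 : ‖x‖ * ‖B x‖ ≤ ‖x‖ * (ρ * ‖x‖) := by nlinarith
    exact le_of_mul_le_mul_left h7 hx'

omit [CompleteSpace E] in
/-- the diagonal operator with uniformly bounded entries -/
lemma exists_diag (K : ι → E →L[ℝ] E) (C : ℝ) (hK : ∀ i, ‖K i‖ ≤ C) :
    ∃ S : L1 ι E →L[ℝ] L1 ι E, ∀ x i, S x i = K i (x i) := by
  have hb : ∀ (x : L1 ι E) i, ‖K i (x i)‖ ≤ C * ‖x i‖ := fun x i =>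
    ((K i).le_opNorm _).trans (mul_le_mul_of_nonneg_right (hK i) (norm_nonneg _))
  have hs : ∀ x : L1 ι E, Summable fun i => ‖K i (x i)‖ := fun x =>
    Summable.of_nonneg_of_le (fun i => norm_nonneg _) (hb x) ((summable_norm x).mul_left C)
  refine ⟨LinearMap.mkContinuous
    { toFun := fun x => ⟨fun i => K i (x i), memlp_of_summable _ (hs x)⟩
      map_add' := by
        intro x y
        ext i
        change K i ((x + y : L1 ι E) i) = K i (x i) + K i (y i)
        rw [lp.coeFn_add, Pi.add_apply, map_add]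
      map_smul' := by
        intro c x
        ext i
        change K i ((c • x : L1 ι E) i) = c • K i (x i)
        rw [lp.coeFn_smul, Pi.smul_apply, map_smul] } C ?_, fun x i => rfl⟩
  intro x
  rw [norm_eq, norm_eq, ← tsum_mul_left]
  exact (hs x).tsum_le_tsum (hb x) ((summable_norm x).mul_left C)

/-- diagonal skew operators have numerical radius zero -/
lemma numRadius_diag (K : ι → E →L[ℝ] E) (hK : ∀ i u, inner ℝ u (K i u) = 0)
    (S : L1 ι E →L[ℝ] L1 ι E) (hS : ∀ x i, S x i = K i (x i)) : numRadius S = 0 := by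
  classical
  apply le_antisymm _ (numRadius_nonneg _)
  apply numRadius_le _ _ le_rfl
  intro x f hf
  have hsum : ∀ y : L1 ι E, HasSum (fun i => f (lp.single 1 i (y i))) (f y) := fun y =>
    (lp.hasSum_single (by simp) y).mapL f
  have hle : ∀ (i : ι) (u : E), ‖f (lp.single 1 i u)‖ ≤ ‖u‖ := by
    intro i u
    have h1 := f.le_opNorm (lp.single 1 i u)
    rw [hf.2.1, one_mul, lp.norm_single (by simp)] at h1
    exact h1
  -- equality in every coordinate
  have heq : ∀ i, f (lp.single 1 i (x i)) = ‖x i‖ := by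
    intro i
    by_contra hne
    have hlt : f (lp.single 1 i (x i)) < ‖x i‖ :=
      lt_of_le_of_ne ((le_abs_self _).trans (hle i (x i))) hne
    have h1 : f x < ‖x‖ := by
      rw [← (hsum x).tsum_eq, norm_eq x]
      exact Summable.tsum_lt_tsum (fun j => (le_abs_self _).trans (hle j (x j))) hlt
        (hsum x).summable (summable_norm x)
    rw [hf.2.2, hf.1] at h1
    exact lt_irrefl _ h1
  have hzero : ∀ i, f (lp.single 1 i (K i (x i))) = 0 := by
    intro i
    rcases eq_or_ne (x i) 0 with h0 | h0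
    · rw [h0, map_zero, lp.single_zero, map_zero]
    have hx : 0 < ‖x i‖ := norm_pos_iff.2 h0
    let fi : E →L[ℝ] ℝ := f.comp (lp.singleContinuousLinearMap ℝ (fun _ : ι => E) 1 i)
    have hfi : ∀ u, fi u = f (lp.single 1 i u) := fun u => rfl
    set g : E := (InnerProductSpace.toDual ℝ E).symm fi with hg
    have hgi : ∀ u, inner ℝ g u = f (lp.single 1 i u) := by
      intro u
      rw [hg, InnerProductSpace.toDual_symm_apply, hfi]
    have hgn : ‖g‖ ≤ 1 := by
      rw [hg, LinearIsometryEquiv.norm_map]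
      exact ContinuousLinearMap.opNorm_le_bound _ zero_le_one fun u => by
        rw [one_mul, hfi]; exact hle i u
    have h1 : ‖‖x i‖ • g - x i‖ ^ 2 ≤ 0 := by
      rw [norm_sub_sq_real, norm_smul, norm_norm, inner_smul_left, conj_trivial, hgi, heq]
      have : ‖g‖ ^ 2 ≤ 1 := by nlinarith [norm_nonneg g]
      nlinarith
    have h2 : ‖x i‖ • g = x i := by
      have : ‖‖x i‖ • g - x i‖ = 0 := pow_eq_zero_iff two_ne_zero |>.1
        (le_antisymm h1 (sq_nonneg _))
      exact sub_eq_zero.1 (norm_eq_zero.1 this)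
    have h3 : ‖x i‖ * inner ℝ g (K i (x i)) = 0 := by
      have h4 := hK i (x i)
      conv_lhs at h4 => rw [← h2]
      rw [map_smul, inner_smul_left, inner_smul_right, conj_trivial] at h4
      rcases mul_eq_zero.1 h4 with h5 | h5
      · exact absurd h5 hx.ne'
      · rcases mul_eq_zero.1 h5 with h6 | h6
        · exact absurd h6 hx.ne'
        · have h7 : inner ℝ g (K i (x i)) = 0 := by
            conv_lhs => rw [← h2]
            rw [map_smul, inner_smul_right, h6, mul_zero]
          rw [h7, mul_zero]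
    rw [hgi] at h3
    rcases mul_eq_zero.1 h3 with h4 | h4
    · exact absurd h4 hx.ne'
    · exact h4
  have h1 := (hsum (S x)).tsum_eq
  rw [← h1]
  simp only [hS, hzero, tsum_zero, abs_zero]
  exact le_rfl

/-- On an `ℓ₁`-sum of copies of a real Hilbert space, `‖T + Z‖ ≤ 2 v(T)`. -/
theorem quotNorm_le_two (T : L1 ι E →L[ℝ] L1 ι E) : quotNorm T ≤ 2 * numRadius T := by
  classical
  set v := numRadius T with hv
  have hv0 : 0 ≤ v := numRadius_nonneg T
  -- diagonal entries
  let ev : ι → (L1 ι E →L[ℝ] E) := fun i =>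
    LinearMap.mkContinuous
      { toFun := fun x => x i
        map_add' := fun x y => by simp
        map_smul' := fun c x => by simp } 1 (fun x => by
          rw [one_mul]; exact lp.norm_apply_le_norm (by simp) x i)
  let D : ι → (E →L[ℝ] E) := fun i =>
    (ev i).comp (T.comp (lp.singleContinuousLinearMap ℝ (fun _ : ι => E) 1 i))
  have hD : ∀ i u, D i u = T (lp.single 1 i u) i := fun i u => rfl
  have hDn : ∀ i, ‖D i‖ ≤ ‖T‖ := by
    intro i
    refine ContinuousLinearMap.opNorm_le_bound (D i) (norm_nonneg T) fun u => ?_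
    rw [hD]
    refine (lp.norm_apply_le_norm (by simp) _ i).trans ?_
    have := T.le_opNorm (lp.single 1 i u)
    rwa [lp.norm_single (by simp)] at this
  let K : ι → (E →L[ℝ] E) := fun i => (1 / 2 : ℝ) • (D i - (D i).adjoint)
  have hKn : ∀ i, ‖K i‖ ≤ ‖T‖ := by
    intro i
    simp only [K]
    rw [norm_smul]
    have h1 : ‖D i - (D i).adjoint‖ ≤ ‖D i‖ + ‖(D i).adjoint‖ := norm_sub_le _ _
    rw [LinearIsometryEquiv.norm_map] at h1
    have h2 := hDn i
    rw [Real.norm_of_nonneg (by norm_num)]
    linarith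
  have hKskew : ∀ i u, inner ℝ u (K i u) = 0 := by
    intro i u
    simp only [K, smul_apply, sub_apply, inner_smul_right, inner_sub_right,
      ContinuousLinearMap.adjoint_inner_right]
    rw [real_inner_comm u (D i u)]
    ring
  obtain ⟨S, hS⟩ := exists_diag K ‖T‖ hKn
  have hS0 := numRadius_diag K hKskew S hS
  refine (quotNorm_le T S hS0).trans ?_
  -- estimate on the basic vectors
  have hbasic : ∀ (i : ι) (u : E), ‖(T - S) (lp.single 1 i u)‖ ≤ 2 * v * ‖u‖ := by
    have hunit : ∀ (i : ι) (u : E), ‖u‖ = 1 → ‖(T - S) (lp.single 1 i u)‖ ≤ 2 * v := by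
      intro i u hu
      have h1 := numRadius_ge T i u hu
      rw [← hv] at h1
      have hρ : ∀ u', ‖u'‖ = 1 → |inner ℝ u' (D i u')| ≤ v := by
        intro u' hu'
        have h2 := numRadius_ge T i u' hu'
        rw [← hv] at h2
        have h3 : ‖T (lp.single 1 i u') i‖ ≤ ‖T (lp.single 1 i u')‖ :=
          lp.norm_apply_le_norm (by simp) _ i
        rw [hD]
        linarith
      have h2 := sym_bound (D i) v hρ u
      rw [hu, mul_one] at h2
      have h3 : ‖T (lp.single 1 i u)‖ - ‖T (lp.single 1 i u) i‖ ≤ v := by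
        have := abs_nonneg (inner ℝ u (T (lp.single 1 i u) i))
        linarith
      -- norm of the difference
      set y := T (lp.single 1 i u) with hy
      have hcoord : ∀ j, ((T - S) (lp.single 1 i u)) j =
          if j = i then ((1 / 2 : ℝ) • (D i + (D i).adjoint)) u else y j := by
        intro j
        rw [sub_apply, lp.coeFn_sub, Pi.sub_apply, hS]
        split_ifs with h
        · subst h
          rw [lp.single_apply_self]
          simp only [K, smul_apply, sub_apply, add_apply]
          rw [hD, ← hy]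
          module
        · rw [lp.single_apply_ne _ _ _ h, map_zero, sub_zero]
      rw [norm_eq, (summable_norm ((T - S) (lp.single 1 i u))).tsum_eq_add_tsum_ite i]
      have h4 : ∀ j, (if j = i then 0 else ‖((T - S) (lp.single 1 i u)) j‖) =
          if j = i then 0 else ‖y j‖ := by
        intro j
        by_cases h : j = i
        · simp [h]
        · simp only [if_neg h, hcoord]
      rw [tsum_congr h4, hcoord, if_pos rfl]
      rw [norm_eq y, (summable_norm y).tsum_eq_add_tsum_ite i] at h3
      linarith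
    intro i u
    rcases eq_or_ne u 0 with rfl | hu
    · rw [lp.single_zero, map_zero, norm_zero, norm_zero, mul_zero]
    · have hu' : 0 < ‖u‖ := norm_pos_iff.2 hu
      have h1 := hunit i (‖u‖⁻¹ • u) (by rw [norm_smul, norm_inv, norm_norm, inv_mul_cancel₀ hu'.ne'])
      rw [lp.single_smul, map_smul, norm_smul, norm_inv, norm_norm,
        inv_mul_le_iff₀ hu'] at h1
      linarith
  apply ContinuousLinearMap.opNorm_le_bound _ (by positivity)
  intro x
  have h1 : HasSum (fun i => (T - S) (lp.single 1 i (x i))) ((T - S) x) :=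
    (lp.hasSum_single (by simp) x).mapL (T - S)
  rw [← h1.tsum_eq, norm_eq x, ← tsum_mul_left]
  exact tsum_of_norm_bounded ((summable_norm x).mul_left (2 * v)).hasSum
    (fun i => hbasic i (x i))

/-- `n'(ℓ₁(ι; E)) ≥ 1/2` for every real Hilbert space `E ≠ 0` and `ι ≠ ∅`. -/
theorem half_le_secondIndex [Nonempty ι] [Nontrivial E] : 1 / 2 ≤ secondIndex (L1 ι E) := by
  classical
  have : Nontrivial (L1 ι E) := by
    obtain ⟨i⟩ := ‹Nonempty ι›
    obtain ⟨u, hu⟩ := exists_ne (0 : E)
    refine ⟨⟨lp.single 1 i u, 0, fun h => hu ?_⟩⟩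
    rw [← norm_eq_zero, ← lp.norm_single (p := 1) (E := fun _ : ι => E) (by simp) i u, h, norm_zero]
  apply isGreatest_secondIndex.2
  refine ⟨by norm_num, fun T => ?_⟩
  have := quotNorm_le_two T
  linarith

end Pool.Agent.R285.EllOne
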