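import Mathlib
import Pool.Agent.R285.EllOne

/-!
# The space `X_φ = {x ∈ ℓ_∞(ℕ; E) : x_n → φ(x_0)}` and its dual
-/

set_option autoImplicit false

namespace Pool.Agent.R285.DualX

open Filter Topology Pool.Agent.R285.EllOne Pool.Agent.Results.MP_01d095_an.SecondIndexSum

universe v

variable {E : Type v} [NormedAddCommGroup E] [InnerProductSpace ℝ E] [CompleteSpace E]

/-- the space `X_φ` -/
def X (φ : E →L[ℝ] E) : Submodule ℝ (lp (fun _ : ℕ => E) ⊤) where
  carrier := {x | Tendsto (fun n => x n) atTop (𝓝 (φ (x 0)))}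
  add_mem' := by
    intro x y hx hy
    have h := Tendsto.add (M := E) hx hy
    rw [Set.mem_ofPred_eq]
    have e : φ ((x + y : lp (fun _ : ℕ => E) ⊤) 0) = φ (x 0) + φ (y 0) := by
      rw [lp.coeFn_add, Pi.add_apply, map_add]
    rw [e]
    exact h
  zero_mem' := by
    rw [Set.mem_ofPred_eq]
    have e : φ ((0 : lp (fun _ : ℕ => E) ⊤) 0) = 0 := by
      rw [lp.coeFn_zero, Pi.zero_apply, map_zero]
    rw [e]
    exact tendsto_const_nhds
  smul_mem' := by
    intro c x hx
    have h := Tendsto.const_smul (M := ℝ) (α := E) hx c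
    rw [Set.mem_ofPred_eq]
    have e : φ ((c • x : lp (fun _ : ℕ => E) ⊤) 0) = c • φ (x 0) := by
      rw [lp.coeFn_smul, Pi.smul_apply, map_smul]
    rw [e]
    exact h

variable {φ : E →L[ℝ] E}

/-- coordinates -/
def co (x : X φ) (n : ℕ) : E := (x : lp (fun _ : ℕ => E) ⊤) n

omit [CompleteSpace E] in
lemma co_tendsto (x : X φ) : Tendsto (fun n => co x n) atTop (𝓝 (φ (co x 0))) := x.2

omit [CompleteSpace E] in
@[simp] lemma co_add (x y : X φ) (n : ℕ) : co (x + y) n = co x n + co y n := rfl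
omit [CompleteSpace E] in
@[simp] lemma co_sub (x y : X φ) (n : ℕ) : co (x - y) n = co x n - co y n := rfl
omit [CompleteSpace E] in
@[simp] lemma co_smul (c : ℝ) (x : X φ) (n : ℕ) : co (c • x) n = c • co x n := rfl
omit [CompleteSpace E] in
@[simp] lemma co_zero (n : ℕ) : co (0 : X φ) n = 0 := rfl
omit [CompleteSpace E] in
@[simp] lemma co_neg (x : X φ) (n : ℕ) : co (-x) n = -co x n := rfl

omit [CompleteSpace E] in
lemma co_le (x : X φ) (n : ℕ) : ‖co x n‖ ≤ ‖x‖ :=
  lp.norm_apply_le_norm (by simp) (x : lp (fun _ : ℕ => E) ⊤) n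

omit [CompleteSpace E] in
lemma norm_le (x : X φ) {C : ℝ} (hC : 0 ≤ C) (h : ∀ n, ‖co x n‖ ≤ C) : ‖x‖ ≤ C :=
  lp.norm_le_of_forall_le hC h

omit [CompleteSpace E] in
lemma co_ext {x y : X φ} (h : ∀ n, co x n = co y n) : x = y := by
  apply Subtype.ext
  apply lp.ext
  funext n
  exact h n

omit [CompleteSpace E] in
/-- construction of elements -/
lemma exists_mk (y : ℕ → E) (C : ℝ) (hC : ∀ n, ‖y n‖ ≤ C)
    (hy : Tendsto y atTop (𝓝 (φ (y 0)))) : ∃ x : X φ, ∀ n, co x n = y n := by
  have hm : Memℓp y ⊤ := by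
    apply memℓp_infty
    refine ⟨C, ?_⟩
    rintro _ ⟨n, rfl⟩
    exact hC n
  exact ⟨⟨⟨y, hm⟩, hy⟩, fun n => rfl⟩

omit [CompleteSpace E] in
/-- construction of elements which are eventually constant -/
lemma exists_mk' (y : ℕ → E) (N : ℕ) (hy : ∀ n, N ≤ n → y n = φ (y 0)) :
    ∃ x : X φ, ∀ n, co x n = y n := by
  refine exists_mk y (∑ n ∈ Finset.range (N + 1), ‖y n‖ + ‖φ (y 0)‖) (fun n => ?_) ?_
  · rcases lt_or_ge n (N + 1) with h | h
    · have h1 : ‖y n‖ ≤ ∑ n ∈ Finset.range (N + 1), ‖y n‖ :=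
        Finset.single_le_sum (f := fun n => ‖y n‖) (fun _ _ => norm_nonneg _)
          (Finset.mem_range.2 h)
      have := norm_nonneg (φ (y 0))
      linarith
    · rw [hy n (by omega)]
      have : 0 ≤ ∑ n ∈ Finset.range (N + 1), ‖y n‖ := Finset.sum_nonneg fun _ _ => norm_nonneg _
      linarith
  · refine tendsto_const_nhds.congr' ?_
    filter_upwards [eventually_ge_atTop N] with n hn
    exact (hy n hn).symm

omit [CompleteSpace E] in
/-- construction of operators -/
lemma exists_op (L : ℕ → X φ → E) (C : ℝ) (hC : 0 ≤ C) (hL : ∀ n x, ‖L n x‖ ≤ C * ‖x‖)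
    (hadd : ∀ n x y, L n (x + y) = L n x + L n y) (hsmul : ∀ n (c : ℝ) x, L n (c • x) = c • L n x)
    (hlim : ∀ x, Tendsto (fun n => L n x) atTop (𝓝 (φ (L 0 x)))) :
    ∃ T : X φ →L[ℝ] X φ, ∀ x n, co (T x) n = L n x := by
  have h := fun x => exists_mk (φ := φ) (fun n => L n x) (C * ‖x‖) (fun n => hL n x) (hlim x)
  choose T hT using h
  refine ⟨LinearMap.mkContinuous
    { toFun := T
      map_add' := fun x y => co_ext fun n => by rw [co_add, hT, hT, hT, hadd]
      map_smul' := fun c x => co_ext fun n => by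
        rw [RingHom.id_apply, co_smul, hT, hT, hsmul] } C (fun x => ?_), fun x n => hT x n⟩
  exact norm_le _ (by positivity) fun n => by
    change ‖co (T x) n‖ ≤ _
    rw [hT]; exact hL n x

omit [CompleteSpace E] in
lemma isClosed_X (φ : E →L[ℝ] E) : IsClosed (X φ : Set (lp (fun _ : ℕ => E) ⊤)) := by
  rw [← isSeqClosed_iff_isClosed]
  intro u x hu hx
  change Tendsto (fun n => x n) atTop (𝓝 (φ (x 0)))
  rw [Metric.tendsto_atTop]
  intro ε hε
  set c := ‖φ‖ + 2 with hc
  have hc0 : 0 < c := by have := norm_nonneg φ; linarith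
  rw [Metric.tendsto_atTop] at hx
  obtain ⟨k, hk⟩ := hx (ε / c) (by positivity)
  have hk' := hk k le_rfl
  rw [dist_eq_norm] at hk'
  have hco : ∀ n, ‖(u k) n - x n‖ ≤ ‖u k - x‖ := fun n =>
    lp.norm_apply_le_norm (by simp) (u k - x) n
  have huk := hu k
  change Tendsto (fun n => (u k) n) atTop (𝓝 (φ ((u k) 0))) at huk
  rw [Metric.tendsto_atTop] at huk
  obtain ⟨N, hN⟩ := huk (ε / c) (by positivity)
  refine ⟨N, fun n hn => ?_⟩
  have h1 := hN n hn
  rw [dist_eq_norm] at h1 ⊢
  have h2 : x n - φ (x 0) = ((u k) n - φ ((u k) 0)) - ((u k) n - x n) + φ ((u k) 0 - x 0) := by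
    rw [map_sub]; abel
  have h3 : ‖φ ((u k) 0 - x 0)‖ ≤ ‖φ‖ * ‖u k - x‖ :=
    (φ.le_opNorm _).trans (mul_le_mul_of_nonneg_left (hco 0) (norm_nonneg _))
  have h4 : ‖x n - φ (x 0)‖ ≤ ‖(u k) n - φ ((u k) 0)‖ + ‖(u k) n - x n‖ +
      ‖φ ((u k) 0 - x 0)‖ := by
    rw [h2]
    exact (norm_add_le _ _).trans (add_le_add_left (norm_sub_le _ _) _)
  have h5 : ‖φ‖ * ‖u k - x‖ ≤ ‖φ‖ * (ε / c) := mul_le_mul_of_nonneg_left hk'.le (norm_nonneg _)
  have h6 : ε / c + ε / c + ‖φ‖ * (ε / c) = ε := by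
    rw [hc]; field_simp; ring
  have h7 := hco n
  linarith

instance : CompleteSpace (X φ) := (isClosed_X φ).completeSpace_coe

omit [CompleteSpace E] in
lemma pair_summable (a : L1 ℕ E) (x : X φ) : Summable fun i => inner ℝ (a i) (co x i) := by
  refine Summable.of_norm_bounded ((summable_norm a).mul_right ‖x‖) fun i => ?_
  exact (norm_inner_le_norm _ _).trans (mul_le_mul_of_nonneg_left (co_le x i) (norm_nonneg _))

/-- the functional on `X_φ` attached to `a ∈ ℓ₁(ℕ; E)` -/
noncomputable def psi (φ : E →L[ℝ] E) (a : L1 ℕ E) : X φ →L[ℝ] ℝ :=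
  LinearMap.mkContinuous
    { toFun := fun x => ∑' i, inner ℝ (a i) (co x i)
      map_add' := fun x y => by
        rw [← (pair_summable a x).tsum_add (pair_summable a y)]
        exact tsum_congr fun i => by rw [co_add, inner_add_right]
      map_smul' := fun c x => by
        rw [RingHom.id_apply, smul_eq_mul, ← tsum_mul_left]
        exact tsum_congr fun i => by rw [co_smul, inner_smul_right] }
    ‖a‖ (fun x => by
      rw [norm_eq a, ← tsum_mul_right]
      refine tsum_of_norm_bounded ((summable_norm a).mul_right ‖x‖).hasSum fun i => ?_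
      exact (norm_inner_le_norm _ _).trans
        (mul_le_mul_of_nonneg_left (co_le x i) (norm_nonneg _)))

omit [CompleteSpace E] in
lemma psi_apply (a : L1 ℕ E) (x : X φ) : psi φ a x = ∑' i, inner ℝ (a i) (co x i) := rfl

/-- normalised vector -/
noncomputable def un (u : E) : E := ‖u‖⁻¹ • u

omit [CompleteSpace E] in
lemma un_le (u : E) : ‖un u‖ ≤ 1 := by
  rw [un, norm_smul, norm_inv, norm_norm]
  exact inv_mul_le_one

omit [CompleteSpace E] in
lemma un_inner (u : E) : inner ℝ u (un u) = ‖u‖ := by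
  rw [un, inner_smul_right, real_inner_self_eq_norm_sq]
  rcases eq_or_ne ‖u‖ 0 with h | h
  · rw [h]; simp
  · field_simp

omit [CompleteSpace E] in
lemma psi_tail (a : L1 ℕ E) (x : X φ) (hxn : ‖x‖ ≤ 1) (M : ℕ) :
    -(∑' i, ‖a (i + M)‖) ≤ ∑' i, inner ℝ (a (i + M)) (co x (i + M)) := by
  have hsn : Summable fun i => ‖a (i + M)‖ :=
    (summable_nat_add_iff M).2 (summable_norm a)
  have hsp : Summable fun i => inner ℝ (a (i + M)) (co x (i + M)) :=
    (summable_nat_add_iff (f := fun i => inner ℝ (a i) (co x i)) M).2 (pair_summable a x)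
  rw [← tsum_neg]
  refine Summable.tsum_le_tsum (fun i => ?_) hsn.neg hsp
  have h5 : ‖inner ℝ (a (i + M)) (co x (i + M))‖ ≤ ‖a (i + M)‖ * ‖x‖ :=
    (norm_inner_le_norm _ _).trans (mul_le_mul_of_nonneg_left (co_le x _) (norm_nonneg _))
  have h6 : ‖a (i + M)‖ * ‖x‖ ≤ ‖a (i + M)‖ * 1 :=
    mul_le_mul_of_nonneg_left hxn (norm_nonneg _)
  have h7 := (abs_le.1 (h5.trans h6)).1
  linarith

omit [CompleteSpace E] in
lemma psi_split (a : L1 ℕ E) (x : X φ) (M : ℕ) :
    psi φ a x = ∑ i ∈ Finset.range M, inner ℝ (a i) (co x i) +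
      ∑' i, inner ℝ (a (i + M)) (co x (i + M)) := by
  rw [psi_apply]
  exact ((pair_summable a x).sum_add_tsum_nat_add M).symm

omit [CompleteSpace E] in
lemma norm_split (a : L1 ℕ E) (M : ℕ) :
    ‖a‖ = ∑ i ∈ Finset.range M, ‖a i‖ + ∑' i, ‖a (i + M)‖ := by
  rw [norm_eq]
  exact ((summable_norm a).sum_add_tsum_nat_add M).symm

omit [CompleteSpace E] in
lemma psi_norm (hφ : ∀ u, ‖φ u‖ ≤ ‖u‖) (a : L1 ℕ E) : ‖psi φ a‖ = ‖a‖ := by
  have hle : ‖psi φ a‖ ≤ ‖a‖ := LinearMap.mkContinuous_norm_le _ (norm_nonneg a) _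
  refine le_antisymm hle ?_
  apply le_of_forall_pos_le_add
  intro ε hε
  -- a finite set carrying almost all of the norm
  have h1 := (summable_norm a).hasSum
  rw [← norm_eq] at h1
  have h2 := h1.tendsto_sum_nat
  rw [Metric.tendsto_atTop] at h2
  obtain ⟨N, hN⟩ := h2 (ε / 2) (by positivity)
  have hN' := hN (N + 1) (by omega)
  rw [Real.dist_eq] at hN'
  obtain ⟨x, hx⟩ := exists_mk' (φ := φ)
    (fun n => if n < N + 1 then un (a n) else φ (un (a 0))) (N + 1) (by
      intro n hn
      simp only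
      rw [if_neg (by omega), if_pos (by omega)])
  have hxn : ‖x‖ ≤ 1 := norm_le x zero_le_one fun n => by
    rw [hx]
    split_ifs
    · exact un_le _
    · exact (hφ _).trans (un_le _)
  have h3 : psi φ a x ≤ ‖psi φ a‖ := by
    have := (psi φ a).le_opNorm x
    calc psi φ a x ≤ ‖psi φ a x‖ := le_abs_self _
      _ ≤ ‖psi φ a‖ * ‖x‖ := this
      _ ≤ ‖psi φ a‖ * 1 := mul_le_mul_of_nonneg_left hxn (norm_nonneg (psi φ a))
      _ = _ := mul_one _
  have e1 : ∑ i ∈ Finset.range (N + 1), inner ℝ (a i) (co x i) =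
      ∑ i ∈ Finset.range (N + 1), ‖a i‖ := by
    refine Finset.sum_congr rfl fun i hi => ?_
    rw [hx, if_pos (Finset.mem_range.1 hi), un_inner]
  have h4 := psi_tail a x hxn (N + 1)
  have h5 := psi_split a x (N + 1)
  have h6 := norm_split a (N + 1)
  rw [e1] at h5
  have h8 := (abs_lt.1 hN').1
  linarith

/-- The dual of `X_φ` is isometric to `ℓ₁(ℕ; E)` when `‖φ‖ ≤ 1`. -/
lemma psi_surjective (a : X φ →L[ℝ] ℝ) : ∃ b : L1 ℕ E, psi φ b = a := by
  classical
  -- basic vectors `e n u`, `n ≥ 1`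
  have he : ∀ (n : ℕ) (u : E), ∃ x : X φ, ∀ m, co x m = if m = n + 1 then u else 0 := by
    intro n u
    obtain ⟨x, hx⟩ := exists_mk' (φ := φ) (fun m => if m = n + 1 then u else 0) (n + 2) (by
      intro m hm
      rw [if_neg (by omega), if_neg (by omega), map_zero])
    exact ⟨x, hx⟩
  choose e he using he
  have hc : ∀ u : E, ∃ x : X φ, ∀ m, co x m = if m = 0 then u else φ u := by
    intro u
    obtain ⟨x, hx⟩ := exists_mk' (φ := φ) (fun m => if m = 0 then u else φ u) 1 (by
      intro m hm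
      simp only [if_true]
      rw [if_neg (by omega)])
    exact ⟨x, hx⟩
  choose c hc using hc
  let en : ℕ → E →L[ℝ] X φ := fun n => LinearMap.mkContinuous
    { toFun := e n
      map_add' := fun u w => co_ext fun m => by
        rw [co_add, he, he, he]; split_ifs <;> simp
      map_smul' := fun r u => co_ext fun m => by
        rw [RingHom.id_apply, co_smul, he, he]; split_ifs <;> simp } 1 (fun u => by
      rw [one_mul]
      refine norm_le _ (norm_nonneg _) fun m => ?_
      change ‖co (e n u) m‖ ≤ _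
      rw [he]
      split_ifs
      · exact le_rfl
      · rw [norm_zero]; exact norm_nonneg _)
  have hen : ∀ n u, en n u = e n u := fun n u => rfl
  let cl : E →L[ℝ] X φ := LinearMap.mkContinuous
    { toFun := c
      map_add' := fun u w => co_ext fun m => by
        rw [co_add, hc, hc, hc]; split_ifs <;> simp
      map_smul' := fun r u => co_ext fun m => by
        rw [RingHom.id_apply, co_smul, hc, hc]; split_ifs <;> simp } (1 + ‖φ‖) (fun u => by
      refine norm_le _ (by positivity) fun m => ?_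
      change ‖co (c u) m‖ ≤ _
      rw [hc]
      have h0 := norm_nonneg φ
      have h1 := norm_nonneg u
      split_ifs
      · nlinarith
      · have := φ.le_opNorm u
        nlinarith)
  have hcl : ∀ u, cl u = c u := fun u => rfl
  -- the coefficients
  let b : ℕ → E := fun n => (InnerProductSpace.toDual ℝ E).symm (a.comp (en n))
  have hb : ∀ n u, inner ℝ (b n) u = a (e n u) := by
    intro n u
    simp only [b]
    rw [InnerProductSpace.toDual_symm_apply]
    rfl
  have hsum : ∀ (s : Finset ℕ) (y : ℕ → E) (m : ℕ), co (∑ n ∈ s, e n (y n)) m =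
      if 1 ≤ m ∧ m - 1 ∈ s then y (m - 1) else 0 := by
    intro s y m
    have h1 : co (∑ n ∈ s, e n (y n)) m = ∑ n ∈ s, co (e n (y n)) m := by
      induction s using Finset.induction_on with
      | empty => simp
      | insert a s ha ih => rw [Finset.sum_insert ha, co_add, ih, Finset.sum_insert ha]
    rw [h1]
    simp only [he]
    split_ifs with h
    · rw [Finset.sum_eq_single (m - 1)]
      · rw [if_pos (by omega)]
      · intro n _ hn
        rw [if_neg (by omega)]
      · intro h'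
        exact absurd h.2 h'
    · refine Finset.sum_eq_zero fun n hn => ?_
      rw [if_neg]
      intro hm
      apply h
      refine ⟨by omega, ?_⟩
      have : m - 1 = n := by omega
      rw [this]; exact hn
  have hbsum : Summable fun n => ‖b n‖ := by
    refine summable_of_sum_le (c := ‖a‖) (fun n => norm_nonneg _) fun s => ?_
    have h1 : ∑ n ∈ s, ‖b n‖ = a (∑ n ∈ s, e n (un (b n))) := by
      rw [map_sum]
      refine Finset.sum_congr rfl fun n _ => ?_
      rw [← hb, un_inner]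
    have h2 : ‖∑ n ∈ s, e n (un (b n))‖ ≤ 1 := by
      refine norm_le _ zero_le_one fun m => ?_
      rw [hsum]
      split_ifs
      · exact un_le _
      · rw [norm_zero]; exact zero_le_one
    rw [h1]
    calc a (∑ n ∈ s, e n (un (b n))) ≤ ‖a (∑ n ∈ s, e n (un (b n)))‖ := le_abs_self _
      _ ≤ ‖a‖ * ‖∑ n ∈ s, e n (un (b n))‖ := a.le_opNorm _
      _ ≤ ‖a‖ * 1 := mul_le_mul_of_nonneg_left h2 (norm_nonneg a)
      _ = ‖a‖ := mul_one _
  -- the coefficient at `0`
  have hsφ : ∀ u : E, Summable fun n => inner ℝ (b n) (φ u) := fun u =>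
    Summable.of_norm_bounded (hbsum.mul_right ‖φ u‖) fun n => norm_inner_le_norm _ _
  let g : E →L[ℝ] ℝ := LinearMap.mkContinuous
    { toFun := fun u => a (c u) - ∑' n, inner ℝ (b n) (φ u)
      map_add' := fun u w => by
        have h1 : c (u + w) = c u + c w := cl.map_add u w
        rw [h1, map_add, map_add]
        simp only [inner_add_right]
        rw [(hsφ u).tsum_add (hsφ w)]
        ring
      map_smul' := fun r u => by
        have h1 : c (r • u) = r • c u := cl.map_smul r u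
        rw [h1, map_smul, map_smul, RingHom.id_apply]
        simp only [inner_smul_right, smul_eq_mul]
        rw [tsum_mul_left]
        ring } (‖a‖ * (1 + ‖φ‖) + (∑' n, ‖b n‖) * ‖φ‖) (fun u => by
      have h1 : ‖a (c u)‖ ≤ ‖a‖ * ((1 + ‖φ‖) * ‖u‖) := by
        refine (a.le_opNorm _).trans (mul_le_mul_of_nonneg_left ?_ (norm_nonneg a))
        refine norm_le _ (by positivity) fun m => ?_
        rw [hc]
        have h0 := norm_nonneg φ
        have h1 := norm_nonneg u
        split_ifs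
        · nlinarith
        · have := φ.le_opNorm u
          nlinarith
      have h2 : ‖∑' n, inner ℝ (b n) (φ u)‖ ≤ (∑' n, ‖b n‖) * (‖φ‖ * ‖u‖) := by
        rw [← tsum_mul_right]
        refine tsum_of_norm_bounded (hbsum.mul_right _).hasSum fun n => ?_
        exact (norm_inner_le_norm _ _).trans
          (mul_le_mul_of_nonneg_left (φ.le_opNorm u) (norm_nonneg _))
      change ‖a (c u) - ∑' n, inner ℝ (b n) (φ u)‖ ≤ _
      refine (norm_sub_le _ _).trans ?_
      calc ‖a (c u)‖ + ‖∑' n, inner ℝ (b n) (φ u)‖ ≤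
            ‖a‖ * ((1 + ‖φ‖) * ‖u‖) + (∑' n, ‖b n‖) * (‖φ‖ * ‖u‖) := add_le_add h1 h2
        _ = _ := by ring)
  set b0 : E := (InnerProductSpace.toDual ℝ E).symm g with hb0
  have hb0' : ∀ u, inner ℝ b0 u = a (c u) - ∑' n, inner ℝ (b n) (φ u) := by
    intro u
    rw [hb0, InnerProductSpace.toDual_symm_apply]
    rfl
  let B : ℕ → E := fun n => if n = 0 then b0 else b (n - 1)
  have hBs : Summable fun n => ‖B n‖ := by
    rw [← summable_nat_add_iff 1]
    simpa [B] using hbsum
  refine ⟨⟨B, memlp_of_summable B hBs⟩, ?_⟩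
  ext x
  rw [psi_apply]
  have hB0 : (⟨B, memlp_of_summable B hBs⟩ : L1 ℕ E) 0 = b0 := rfl
  have hBn : ∀ n, inner ℝ ((⟨B, memlp_of_summable B hBs⟩ : L1 ℕ E) (n + 1)) (co x (n + 1)) =
      inner ℝ (b n) (co x (n + 1)) := fun n => rfl
  rw [(pair_summable (⟨B, memlp_of_summable B hBs⟩ : L1 ℕ E) x).tsum_eq_zero_add, hB0, hb0',
    tsum_congr hBn]
  -- the remaining part
  set z : X φ := x - c (co x 0) with hz
  have hz0 : co z 0 = 0 := by rw [hz, co_sub, hc, if_pos rfl, sub_self]
  have hzn : ∀ n, co z (n + 1) = co x (n + 1) - φ (co x 0) := by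
    intro n
    rw [hz, co_sub, hc, if_neg (by omega)]
  have hzlim : Tendsto (fun n => co z n) atTop (𝓝 0) := by
    have := co_tendsto z
    rwa [hz0, map_zero] at this
  have hconv : Tendsto (fun N => ∑ n ∈ Finset.range N, e n (co z (n + 1))) atTop (𝓝 z) := by
    rw [Metric.tendsto_atTop]
    intro ε hε
    rw [Metric.tendsto_atTop] at hzlim
    obtain ⟨N, hN⟩ := hzlim (ε / 2) (by positivity)
    refine ⟨N, fun M hM => ?_⟩
    rw [dist_eq_norm]
    refine lt_of_le_of_lt (norm_le _ (by positivity : (0 : ℝ) ≤ ε / 2) fun m => ?_) (by linarith)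
    rw [co_sub, hsum]
    by_cases hm : 1 ≤ m ∧ m - 1 ∈ Finset.range M
    · rw [if_pos hm]
      have : m - 1 + 1 = m := by omega
      rw [this, sub_self, norm_zero]
      positivity
    · rw [if_neg hm, zero_sub, norm_neg]
      rcases Nat.eq_zero_or_pos m with h0 | h0
      · rw [h0, hz0, norm_zero]; positivity
      · have : M ≤ m - 1 := by
          by_contra hcon
          exact hm ⟨h0, Finset.mem_range.2 (by omega)⟩
        have h1 := hN m (by omega)
        rw [dist_zero_right] at h1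
        exact h1.le
  have haz : a z = ∑' n, inner ℝ (b n) (co z (n + 1)) := by
    have h1 : Tendsto (fun N => ∑ n ∈ Finset.range N, inner ℝ (b n) (co z (n + 1))) atTop
        (𝓝 (a z)) := by
      have h2 := (a.continuous.tendsto z).comp hconv
      refine h2.congr fun N => ?_
      rw [Function.comp_apply, map_sum]
      exact Finset.sum_congr rfl fun n _ => (hb n _).symm
    have h3 : Summable fun n => ‖inner ℝ (b n) (co z (n + 1))‖ := by
      refine Summable.of_nonneg_of_le (fun _ => norm_nonneg _) (fun n => ?_)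
        (hbsum.mul_right ‖z‖)
      exact (norm_inner_le_norm _ _).trans
        (mul_le_mul_of_nonneg_left (co_le z _) (norm_nonneg _))
    exact (((hasSum_iff_tendsto_nat_of_summable_norm h3).2 h1).tsum_eq).symm
  have hx : a x = a (c (co x 0)) + a z := by
    rw [← map_add, hz]; congr 1; abel
  rw [hx, haz]
  have hs1 : Summable fun n => inner ℝ (b n) (co x (n + 1)) :=
    Summable.of_norm_bounded (hbsum.mul_right ‖x‖) fun n =>
      (norm_inner_le_norm _ _).trans (mul_le_mul_of_nonneg_left (co_le x _) (norm_nonneg _))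
  have h5 : ∑' n, inner ℝ (b n) (co z (n + 1)) =
      ∑' n, inner ℝ (b n) (co x (n + 1)) - ∑' n, inner ℝ (b n) (φ (co x 0)) := by
    rw [← hs1.tsum_sub (hsφ _)]
    exact tsum_congr fun n => by rw [hzn, inner_sub_right]
  rw [h5]
  ring

/-- The dual of `X_φ` has second numerical index at least `1/2`. -/
theorem half_le_dual [Nontrivial E] (hφ : ∀ u, ‖φ u‖ ≤ ‖u‖) :
    1 / 2 ≤ secondIndex (X φ →L[ℝ] ℝ) := by
  let Ψ : L1 ℕ E →ₗ[ℝ] (X φ →L[ℝ] ℝ) :=
    { toFun := psi φ
      map_add' := fun a b => by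
        ext x
        rw [add_apply, psi_apply, psi_apply, psi_apply,
          ← (pair_summable a x).tsum_add (pair_summable b x)]
        exact tsum_congr fun i => by rw [lp.coeFn_add, Pi.add_apply, inner_add_left]
      map_smul' := fun r a => by
        ext x
        rw [smul_apply, psi_apply, psi_apply, smul_eq_mul, RingHom.id_apply, ← tsum_mul_left]
        exact tsum_congr fun i => by
          rw [lp.coeFn_smul, Pi.smul_apply, inner_smul_left]; rfl }
  let Ψi : L1 ℕ E →ₗᵢ[ℝ] (X φ →L[ℝ] ℝ) := ⟨Ψ, psi_norm hφ⟩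
  let Ψe : L1 ℕ E ≃ₗᵢ[ℝ] (X φ →L[ℝ] ℝ) := LinearIsometryEquiv.ofSurjective Ψi psi_surjective
  have hsum : IsAbsoluteSummand (X := L1 ℕ E) (Y := (X φ →L[ℝ] ℝ))
      (Ψe.symm.toContinuousLinearEquiv : (X φ →L[ℝ] ℝ) →L[ℝ] L1 ℕ E)
      (Ψe.toContinuousLinearEquiv : L1 ℕ E →L[ℝ] (X φ →L[ℝ] ℝ)) := by
    refine ⟨fun y => Ψe.apply_symm_apply y, fun y => Ψe.symm.norm_map y, fun y y' z hz hy => ?_⟩
    have hz0 : z = 0 := by
      have h1 : Ψe z = 0 := hz
      have := congrArg Ψe.symm h1
      rwa [Ψe.symm_apply_apply, LinearIsometryEquiv.map_zero] at this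
    rw [hz0, add_zero, add_zero]
    have e1 : ∀ y, ‖(Ψe.symm.toContinuousLinearEquiv : (X φ →L[ℝ] ℝ) →L[ℝ] L1 ℕ E) y‖ = ‖y‖ :=
      fun y => Ψe.symm.norm_map y
    rw [e1, e1]
    exact hy
  obtain ⟨u, hu⟩ := exists_ne (0 : E)
  have hnt : Nontrivial (L1 ℕ E) := by
    refine ⟨⟨⟨fun n => if n = 0 then u else 0, memlp_of_summable _ ?_⟩, 0, ?_⟩⟩
    · refine summable_of_ne_finset_zero (s := {0}) fun n hn => ?_
      rw [if_neg (by simpa using hn), norm_zero]
    · intro h
      have h1 := congrArg (fun w : L1 ℕ E => w 0) h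
      exact hu h1
  have : Nontrivial (X φ →L[ℝ] ℝ) := Ψe.symm.toLinearEquiv.toEquiv.nontrivial
  exact (half_le_secondIndex (ι := ℕ) (E := E)).trans (secondIndex_le_of_absoluteSummand hsum)

end Pool.Agent.R285.DualX
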