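import Mathlib

/-!
# Strict total positivity of the exponential kernel
-/

set_option autoImplicit false

namespace Pool.Agent.R285.ExpDet

open Matrix

/-- the determinant as a linear function of a row -/
lemma det_updateRow_sum {n : ℕ} (M : Matrix (Fin n) (Fin n) ℝ) (i : Fin n) (v : Fin n → ℝ) :
    (M.updateRow i v).det = ∑ j, v j * (M.updateRow i (Pi.single j 1)).det := by
  rw [Matrix.det_eq_sum_mul_adjugate_row (M.updateRow i v) i]
  refine Finset.sum_congr rfl fun j _ => ?_
  rw [Matrix.updateRow_self, Matrix.adjugate_apply, Matrix.updateRow_idem]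

/-- the mean value theorem, applied row by row -/
lemma mvt_det {n : ℕ} (F F' : Fin n → ℝ → ℝ) (hF : ∀ j s, HasDerivAt (F j) (F' j s) s)
    (a b : Fin n → ℝ) (hab : ∀ i, a i < b i) :
    ∃ ξ : Fin n → ℝ, (∀ i, a i < ξ i ∧ ξ i < b i) ∧
      (Matrix.of fun i j => F j (b i) - F j (a i)).det =
        (∏ i, (b i - a i)) * (Matrix.of fun i j => F' j (ξ i)).det := by
  classical
  have key : ∀ s : Finset (Fin n), ∃ ξ : Fin n → ℝ, (∀ i, a i < ξ i ∧ ξ i < b i) ∧
      (Matrix.of fun i j => F j (b i) - F j (a i)).det =
        (∏ i ∈ s, (b i - a i)) *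
          (Matrix.of fun i j => if i ∈ s then F' j (ξ i) else F j (b i) - F j (a i)).det := by
    intro s
    induction s using Finset.induction_on with
    | empty =>
      refine ⟨fun i => (a i + b i) / 2, fun i => ⟨by have := hab i; linarith,
        by have := hab i; linarith⟩, by simp⟩
    | insert i0 s hi ih =>
      obtain ⟨ξ, hξ, hdet⟩ := ih
      set M : Matrix (Fin n) (Fin n) ℝ :=
        Matrix.of fun i j => if i ∈ s then F' j (ξ i) else F j (b i) - F j (a i) with hM
      -- the function of one variable
      let g : ℝ → ℝ := fun x => (M.updateRow i0 (fun j => F j x)).det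
      let g' : ℝ → ℝ := fun x => (M.updateRow i0 (fun j => F' j x)).det
      have hg : ∀ x, HasDerivAt g (g' x) x := by
        intro x
        have e1 : g = fun x => ∑ j, F j x * (M.updateRow i0 (Pi.single j 1)).det :=
          funext fun x => det_updateRow_sum M i0 _
        have e2 : g' x = ∑ j, F' j x * (M.updateRow i0 (Pi.single j 1)).det :=
          det_updateRow_sum M i0 _
        rw [e1, e2]
        exact HasDerivAt.fun_sum fun j _ => (hF j x).mul_const _
      obtain ⟨c, hc, hc'⟩ := exists_hasDerivAt_eq_slope g g' (hab i0)
        (fun x _ => (hg x).continuousAt.continuousWithinAt) (fun x _ => hg x)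
      refine ⟨Function.update ξ i0 c, fun i => ?_, ?_⟩
      · by_cases h : i = i0
        · subst h; simp only [Function.update_self]; exact ⟨hc.1, hc.2⟩
        · rw [Function.update_of_ne h]; exact hξ i
      · have hba : b i0 - a i0 ≠ 0 := by have := hab i0; intro h; linarith
        have h1 : M.det = g (b i0) - g (a i0) := by
          have e0 : M = M.updateRow i0 (fun j => F j (b i0) - F j (a i0)) := by
            ext i j
            by_cases h : i = i0
            · subst h; simp [hM, hi]
            · rw [Matrix.updateRow_ne h]
          have e1 : M.det = (M.updateRow i0 (fun j => F j (b i0) - F j (a i0))).det := by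
            rw [← e0]
          rw [e1, det_updateRow_sum]
          simp only [g]
          rw [det_updateRow_sum M i0 (fun j => F j (b i0)),
            det_updateRow_sum M i0 (fun j => F j (a i0)), ← Finset.sum_sub_distrib]
          exact Finset.sum_congr rfl fun j _ => by ring
        have h2 : (Matrix.of fun i j => if i ∈ insert i0 s then F' j (Function.update ξ i0 c i)
            else F j (b i) - F j (a i)) = M.updateRow i0 (fun j => F' j c) := by
          ext i j
          by_cases h : i = i0
          · subst h; simp
          · rw [Matrix.updateRow_ne h, Matrix.of_apply, Function.update_of_ne h]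
            simp only [Finset.mem_insert, h, false_or, hM, Matrix.of_apply]
        rw [hdet, Finset.prod_insert hi, h1, h2]
        have h3 : g (b i0) - g (a i0) = (b i0 - a i0) * g' c := by
          rw [hc']; field_simp
        rw [h3]
        simp only [g']
        ring
  obtain ⟨ξ, h1, h2⟩ := key Finset.univ
  exact ⟨ξ, h1, by simpa using h2⟩

/-- The exponential kernel is strictly totally positive. -/
theorem expDet_pos (n : ℕ) : ∀ (x α : Fin n → ℝ), StrictMono x → StrictMono α →
    0 < (Matrix.of fun i j => Real.exp (x i * α j)).det := by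
  induction n with
  | zero => intro x α _ _; simp
  | succ n ih =>
    intro x α hx hα
    have e1 : (Matrix.of fun i j => Real.exp (x i * α j)) =
        Matrix.of fun i j => Real.exp (x i * α 0) *
          (Matrix.of fun i j => Real.exp (x i * (α j - α 0)) : Matrix _ _ ℝ) i j := by
      ext i j
      simp only [Matrix.of_apply]
      rw [← Real.exp_add]
      congr 1
      ring
    rw [e1, Matrix.det_mul_column]
    refine mul_pos (Finset.prod_pos fun i _ => Real.exp_pos _) ?_
    set A : Matrix (Fin (n + 1)) (Fin (n + 1)) ℝ :=
      Matrix.of fun i j => Real.exp (x i * (α j - α 0)) with hA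
    set B : Matrix (Fin (n + 1)) (Fin (n + 1)) ℝ := Matrix.of fun i j =>
      Fin.cases (A 0 j) (fun k => A k.succ j - A k.castSucc j) i with hB
    have e2 : A.det = B.det := by
      refine Matrix.det_eq_of_forall_row_eq_smul_add_pred (fun _ => 1) (fun j => ?_) fun i j => ?_
      · simp [hB]
      · simp [hB]
    rw [e2, Matrix.det_succ_column_zero, Fin.sum_univ_succ]
    have h0 : ∀ i : Fin n, B i.succ 0 = 0 := by
      intro i
      simp [hB, hA]
    have h00 : B 0 0 = 1 := by simp [hB, hA]
    have hz : ∑ i : Fin n, (-1) ^ ((i.succ : Fin (n + 1)) : ℕ) * B i.succ 0 *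
        (B.submatrix i.succ.succAbove Fin.succ).det = 0 :=
      Finset.sum_eq_zero fun i _ => by rw [h0]; ring
    rw [hz, add_zero, h00, Fin.val_zero, pow_zero, one_mul, one_mul]
    have hsub : B.submatrix (Fin.succAbove 0) Fin.succ =
        Matrix.of fun i j => (fun (j : Fin n) s => Real.exp (s * (α j.succ - α 0))) j (x i.succ) -
          (fun (j : Fin n) s => Real.exp (s * (α j.succ - α 0))) j (x i.castSucc) := by
      ext i j
      simp [hB, hA]
    rw [hsub]
    obtain ⟨ξ, hξ, hdet⟩ := mvt_det
      (fun (j : Fin n) s => Real.exp (s * (α j.succ - α 0)))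
      (fun (j : Fin n) s => (α j.succ - α 0) * Real.exp (s * (α j.succ - α 0)))
      (fun j s => by
        have h1 : HasDerivAt (fun s : ℝ => s * (α j.succ - α 0)) (1 * (α j.succ - α 0)) s :=
          (hasDerivAt_id s).mul_const _
        have h2 := h1.exp
        rwa [one_mul, mul_comm] at h2)
      (fun i => x i.castSucc) (fun i => x i.succ) (fun i => hx (Fin.castSucc_lt_succ))
    rw [hdet]
    refine mul_pos (Finset.prod_pos fun i _ => sub_pos.2 (hx (Fin.castSucc_lt_succ))) ?_
    have e3 : (Matrix.of fun (i j : Fin n) => (α j.succ - α 0) *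
        Real.exp (ξ i * (α j.succ - α 0))) =
        Matrix.of fun i j => (α j.succ - α 0) *
          (Matrix.of fun (i j : Fin n) => Real.exp (ξ i * (α j.succ - α 0)) : Matrix _ _ ℝ) i j := rfl
    rw [e3, Matrix.det_mul_row]
    refine mul_pos (Finset.prod_pos fun j _ => sub_pos.2 (hα (Fin.succ_pos j))) ?_
    refine ih ξ (fun j => α j.succ - α 0) ?_ ?_
    · intro i j hij
      have h1 : x i.succ ≤ x j.castSucc := hx.monotone (by
        rw [Fin.le_def]; simp only [Fin.val_succ, Fin.val_castSucc]; exact hij)
      exact ((hξ i).2.trans_le h1).trans (hξ j).1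
    · intro i j hij
      have := hα (Fin.succ_lt_succ_iff.2 hij)
      linarith

end Pool.Agent.R285.ExpDet
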