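import Mathlib
import Pool.Agent.R984.RatMain

/-!
# Joint spectral radius of `{A_0, α A_1}`: dictionary with the pressure (after helper984)
-/

open Matrix Real Filter Topology
open R984.Ratio

namespace Pool.Agent.R285.Jsr

/-- The family: `false` is the letter `0` and `true` the letter `1`. -/
noncomputable def A (α : ℝ) : Bool → Matrix (Fin 2) (Fin 2) ℝ
  | false => !![1, 1; 0, 1]
  | true => α • !![1, 0; 1, 1]

/-- The norm used: sum of the absolute values of the entries. -/
noncomputable def nrm (M : Matrix (Fin 2) (Fin 2) ℝ) : ℝ := ∑ i, ∑ j, |M i j|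

/-- The joint spectral radius. -/
noncomputable def jsr (α : ℝ) : ℝ :=
  limsup (fun n : ℕ => ⨆ w : Fin n → Bool,
    nrm (List.ofFn fun i => A α (w i)).prod ^ ((1 : ℝ) / n)) atTop

/-- The product `A_{x_n} ⋯ A_{x_1}`; the letter `x_{i+1}` is `x i`. -/
noncomputable def cocycle (α : ℝ) (x : ℕ → Bool) : ℕ → Matrix (Fin 2) (Fin 2) ℝ
  | 0 => 1
  | n + 1 => A α (x n) * cocycle α x n

/-- The proportion of ones among the first `n` letters. -/
noncomputable def ratio (x : ℕ → Bool) (n : ℕ) : ℝ :=
  (((Finset.range n).filter (fun i => x i = true)).card : ℝ) / n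

/-- Weakly extremal words. -/
def WeaklyExtremal (α : ℝ) (x : ℕ → Bool) : Prop :=
  Tendsto (fun n : ℕ => nrm (cocycle α x n) ^ ((1 : ℝ) / n)) atTop (𝓝 (jsr α))

/-- `r` is the unique optimal 1-ratio of `A_α`. -/
def IsOptimalRatio (α r : ℝ) : Prop :=
  ∀ x : ℕ → Bool, WeaklyExtremal α x → Tendsto (ratio x) atTop (𝓝 r)

/-! ### Dictionary for `α > 0` -/

lemma A_eq (α : ℝ) (b : Bool) : A α b = α ^ (if b then 1 else 0) • B b := by
  cases b <;> simp [A, B]

lemma prod_eq (α : ℝ) (l : List Bool) : (l.map (A α)).prod = α ^ (l.count true) • ev l := by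
  induction l with
  | nil => simp
  | cons b l ih =>
    rw [List.map_cons, List.prod_cons, ih, ev_cons, A_eq, smul_mul_smul_comm, ← pow_add]
    congr 2
    cases b <;> simp [add_comm]

lemma cocycle_eq (α : ℝ) (x : ℕ → Bool) (n : ℕ) :
    cocycle α x n = ((pre x n).map (A α)).prod := by
  induction n with
  | zero => simp [cocycle, pre]
  | succ n ih => rw [cocycle, ih, pre]; simp

lemma nrm_eq {α : ℝ} (hα : 0 ≤ α) (l : List Bool) :
    nrm (l.map (A α)).prod = α ^ (l.count true) * S l := by
  rw [prod_eq]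
  obtain ⟨a, b, c, d⟩ := big_ev l
  rw [nrm, S]
  simp only [Fin.sum_univ_two, Matrix.smul_apply, smul_eq_mul]
  rw [abs_of_nonneg (mul_nonneg (by positivity) (by linarith)),
    abs_of_nonneg (mul_nonneg (by positivity) b), abs_of_nonneg (mul_nonneg (by positivity) c),
    abs_of_nonneg (mul_nonneg (by positivity) (by linarith))]
  ring

lemma nrm_exp {t : ℝ} (l : List Bool) : nrm (l.map (A (exp t))).prod = exp (W t l) := by
  rw [nrm_eq (exp_pos t).le, W, exp_add, exp_log (S_pos l), ← exp_nat_mul]
  ring_nf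

lemma rpow_eq (y : ℝ) (n : ℕ) : exp y ^ ((1 : ℝ) / n) = exp (y / n) := by
  rw [← exp_mul]
  congr 1
  ring

lemma sup_eq (t : ℝ) (n : ℕ) :
    (⨆ w : Fin n → Bool, nrm (List.ofFn fun i => A (exp t) (w i)).prod ^ ((1 : ℝ) / n)) =
      exp (cn t n / n) := by
  have h1 : ∀ w : Fin n → Bool, nrm (List.ofFn fun i => A (exp t) (w i)).prod ^ ((1 : ℝ) / n) =
      exp (W t (List.ofFn w) / n) := by
    intro w
    have : (List.ofFn fun i => A (exp t) (w i)) = (List.ofFn w).map (A (exp t)) := by
      rw [List.map_ofFn]; rfl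
    rw [this, nrm_exp, rpow_eq]
  simp_rw [h1]
  apply le_antisymm
  · apply ciSup_le
    intro w
    apply exp_le_exp.mpr
    apply div_le_div_of_nonneg_right _ (Nat.cast_nonneg n)
    have := W_le_cn t (List.ofFn w)
    rwa [List.length_ofFn] at this
  · obtain ⟨w, hw, h⟩ := cn_attained t n
    subst hw
    have hle := le_ciSup (Finite.bddAbove_range
      (fun v : Fin w.length → Bool => exp (W t (List.ofFn v) / w.length))) w.get
    rw [← h]
    refine le_trans (le_of_eq ?_) hle
    rw [List.ofFn_get]

lemma jsr_eq (t : ℝ) : jsr (exp t) = exp (P t) := by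
  rw [jsr]
  simp_rw [sup_eq]
  exact ((continuous_exp.tendsto _).comp (P_tendsto t)).limsup_eq

lemma extremal_iff (t : ℝ) (x : ℕ → Bool) : WeaklyExtremal (exp t) x ↔
    Tendsto (fun n : ℕ => W t (pre x n) / n) atTop (𝓝 (P t)) := by
  rw [WeaklyExtremal, jsr_eq]
  have : (fun n : ℕ => nrm (cocycle (exp t) x n) ^ ((1 : ℝ) / n)) =
      fun n : ℕ => exp (W t (pre x n) / n) := by
    funext n
    rw [cocycle_eq, nrm_exp, rpow_eq]
  rw [this]
  constructor
  · intro h
    have h2 := ((Real.continuousAt_log (exp_ne_zero (P t))).tendsto.comp h)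
    rw [Real.log_exp] at h2
    refine h2.congr (fun n => ?_)
    simp [Function.comp]
  · intro h
    exact (continuous_exp.tendsto _).comp h

lemma ratio_eq (x : ℕ → Bool) (n : ℕ) : ratio x n = c1 (pre x n) / n := by
  rw [ratio, c1]
  congr 2
  induction n with
  | zero => simp [pre]
  | succ n ih =>
    rw [Finset.range_add_one, Finset.filter_insert, pre]
    split_ifs with h
    · rw [Finset.card_insert_of_notMem (by simp), ih, h]
      simp
    · rw [ih]
      simp [h]

lemma exists_weaklyExtremal (t : ℝ) : ∃ x, WeaklyExtremal (exp t) x := by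
  obtain ⟨x, hx⟩ := exists_extremal t
  refine ⟨x, (extremal_iff t x).mpr ?_⟩
  have l1 : Tendsto (fun n : ℕ => P t + (t - 2 * P t) / n) atTop (𝓝 (P t + 0)) :=
    tendsto_const_nhds.add (tendsto_const_div_atTop_nhds_zero_nat _)
  have l2 : Tendsto (fun n : ℕ => P t + (2 * P t - t) / n) atTop (𝓝 (P t + 0)) :=
    tendsto_const_nhds.add (tendsto_const_div_atTop_nhds_zero_nat _)
  rw [add_zero] at l1 l2
  refine tendsto_of_tendsto_of_tendsto_of_le_of_le' l1 l2 ?_ ?_
  · filter_upwards [eventually_gt_atTop 0] with n hn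
    have hn0 : (0 : ℝ) < n := by exact_mod_cast hn
    rw [le_div_iff₀ hn0]
    have e : (P t + (t - 2 * P t) / n) * n = n * P t + t - 2 * P t := by field_simp; ring
    rw [e]
    exact hx n
  · filter_upwards [eventually_gt_atTop 0] with n hn
    have hn0 : (0 : ℝ) < n := by exact_mod_cast hn
    rw [div_le_iff₀ hn0]
    have e : (P t + (2 * P t - t) / n) * n = n * P t + 2 * P t - t := by field_simp; ring
    rw [e]
    have := W_le t (pre x n)
    rw [pre_length] at this
    linarith

/-! ### The case `α = 0` -/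

lemma S_replicate (n : ℕ) : S (List.replicate n false) = n + 2 := by
  have h : ev (List.replicate n false) = !![1, (n : ℝ); 0, 1] := by
    induction n with
    | zero => ext i j; fin_cases i <;> fin_cases j <;> simp
    | succ n ih =>
      rw [List.replicate_succ, ev_cons, ih]
      ext i j
      fin_cases i <;> fin_cases j <;>
        simp [B, Matrix.mul_apply, Fin.sum_univ_two]
  rw [S, h]
  simp
  ring

lemma sup_zero (n : ℕ) (hn : 0 < n) :
    (⨆ w : Fin n → Bool, nrm (List.ofFn fun i => A 0 (w i)).prod ^ ((1 : ℝ) / n)) =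
      ((n : ℝ) + 2) ^ ((1 : ℝ) / n) := by
  have hn0 : (0 : ℝ) < n := by exact_mod_cast hn
  have h1 : ∀ w : Fin n → Bool, nrm (List.ofFn fun i => A 0 (w i)).prod =
      0 ^ ((List.ofFn w).count true) * S (List.ofFn w) := by
    intro w
    have : (List.ofFn fun i => A 0 (w i)) = (List.ofFn w).map (A 0) := by
      rw [List.map_ofFn]; rfl
    rw [this, nrm_eq le_rfl]
  apply le_antisymm
  · apply ciSup_le
    intro w
    rw [h1 w]
    rcases Nat.eq_zero_or_pos ((List.ofFn w).count true) with h | h
    · have h2 := eq_replicate_of_count h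
      have h3 : (List.ofFn w).count false = n := by
        have := List.count_false_add_count_true (List.ofFn w)
        rw [List.length_ofFn] at this
        omega
      rw [h, h2, h3, S_replicate]
      simp
    · rw [zero_pow h.ne', zero_mul, Real.zero_rpow (by positivity)]
      positivity
  · have hle := le_ciSup (Finite.bddAbove_range
      (fun w : Fin n → Bool => nrm (List.ofFn fun i => A 0 (w i)).prod ^ ((1 : ℝ) / n)))
      (fun _ => false)
    refine le_trans (le_of_eq ?_) hle
    have : List.ofFn (fun _ : Fin n => false) = List.replicate n false := List.ofFn_const n false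
    rw [h1, this, S_replicate, List.count_replicate]
    simp

lemma lim_root : Tendsto (fun n : ℕ => ((n : ℝ) + 2) ^ ((1 : ℝ) / n)) atTop (𝓝 1) := by
  have h := tendsto_rpow_div_mul_add (a := 1) (b := 1) (c := -2) one_ne_zero.symm
  have h2 : Tendsto (fun n : ℕ => (n : ℝ) + 2) atTop atTop :=
    tendsto_atTop_add_const_right _ _ tendsto_natCast_atTop_atTop
  refine (h.comp h2).congr (fun n => ?_)
  simp only [Function.comp]
  congr 2
  ring

lemma jsr_zero : jsr 0 = 1 := by
  rw [jsr]
  apply Tendsto.limsup_eq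
  refine lim_root.congr' ?_
  filter_upwards [eventually_gt_atTop 0] with n hn
  rw [sup_zero n hn]

lemma pre_false (n : ℕ) : pre (fun _ => false) n = List.replicate n false := by
  induction n with
  | zero => rfl
  | succ n ih => rw [pre, ih, List.replicate_succ]

lemma extremal_zero : WeaklyExtremal 0 (fun _ => false) := by
  rw [WeaklyExtremal, jsr_zero]
  refine lim_root.congr (fun n => ?_)
  rw [cocycle_eq, nrm_eq le_rfl, pre_false, S_replicate, List.count_replicate]
  simp

lemma not_zero {γ : ℝ} (hγ : 0 < γ) : ¬ IsOptimalRatio 0 γ := by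
  intro h
  have h1 := h _ extremal_zero
  have h2 : ratio (fun _ => false) = fun _ => 0 := by
    funext n
    simp [ratio]
  rw [h2] at h1
  have := tendsto_nhds_unique h1 tendsto_const_nhds
  linarith

end Pool.Agent.R285.Jsr
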