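import Mathlib
import Pool.Agent.R285.JsrDict

/-!
# Weights with irrational ratio: localisation and covering
-/

set_option autoImplicit false

open Matrix Real Filter Topology
open R984.Ratio

namespace Pool.Agent.R285.Jsr

/-- Coordinates of the extremal direction and the two defects (adapted from `uniq_aux` of
helper984). -/
theorem defects {t γ c : ℝ} (x : ℕ → Bool)
    (hx : Tendsto (fun n : ℕ => W t (pre x n) / n) atTop (𝓝 (P t)))
    (hr : Tendsto (fun n : ℕ => c1 (pre x n) / n) atTop (𝓝 γ))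
    {p q : List Bool} {s r : ℝ} (h : At γ 3 c p q s r)
    (hdet : ln p * c1 q - ln q * c1 p = 1) :
    ln p * P t - t * c1 p - L p ≤ 2 * exp (-(L p + L q)) ∧
    ln q * P t - t * c1 q - L q ≤ 2 * exp (-(L p + L q)) := by
  set E := 2 * exp (-(L p + L q)) with hE
  have hE0 : 0 < E := by positivity
  set dp := ln p * P t - t * c1 p - L p with hdp
  set dq := ln q * P t - t * c1 q - L q with hdq
  have hdp0 : 0 ≤ dp := by
    have h1 := L_le t p
    have e1 : (p.length : ℝ) = ln p := rfl
    have e3 : (p.count true : ℝ) = c1 p := rfl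
    rw [e1, e3] at h1
    rw [hdp]; linarith
  have hdq0 : 0 ≤ dq := by
    have h1 := L_le t q
    have e1 : (q.length : ℝ) = ln q := rfl
    have e3 : (q.count true : ℝ) = c1 q := rfl
    rw [e1, e3] at h1
    rw [hdq]; linarith
  -- integer coordinates
  have hdetZ : (p.length : ℤ) * q.count true - q.length * p.count true = 1 := by
    rw [ln, ln, c1, c1] at hdet; exact_mod_cast hdet
  set A : ℕ → ℝ := fun n => (n + 2) * c1 q - (c1 (pre x n) + 1) * ln q with hA
  set Bn : ℕ → ℝ := fun n => (c1 (pre x n) + 1) * ln p - (n + 2) * c1 p with hB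
  have hs : c1 q - γ * ln q = s := by
    rw [← h.h2]
    linear_combination (-(c1 q)) * h.h1 + s * hdet
  have hrr : γ * ln p - c1 p = r := by
    rw [← h.h2]
    linear_combination (c1 p) * h.h1 + r * hdet
  have limA : Tendsto (fun n : ℕ => A n / n) atTop (𝓝 s) := by
    have e : Tendsto (fun n : ℕ => c1 q - c1 (pre x n) / n * ln q + (2 * c1 q - ln q) / n) atTop
        (𝓝 (c1 q - γ * ln q + 0)) :=
      (tendsto_const_nhds.sub (hr.mul_const _)).add (tendsto_const_div_atTop_nhds_zero_nat _)
    rw [add_zero, hs] at e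
    refine e.congr' ?_
    filter_upwards [eventually_gt_atTop 0] with n hn
    have hn0 : (0 : ℝ) < n := by exact_mod_cast hn
    simp only [hA]
    field_simp
    ring
  have limB : Tendsto (fun n : ℕ => Bn n / n) atTop (𝓝 r) := by
    have e : Tendsto (fun n : ℕ => c1 (pre x n) / n * ln p - c1 p + (ln p - 2 * c1 p) / n) atTop
        (𝓝 (γ * ln p - c1 p + 0)) :=
      ((hr.mul_const _).sub tendsto_const_nhds).add (tendsto_const_div_atTop_nhds_zero_nat _)
    rw [add_zero, hrr] at e
    refine e.congr' ?_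
    filter_upwards [eventually_gt_atTop 0] with n hn
    have hn0 : (0 : ℝ) < n := by exact_mod_cast hn
    simp only [hB]
    field_simp
    ring
  -- main estimate
  have main : ∀ᶠ n : ℕ in atTop, W t (pre x n) ≤ n * P t + (2 * P t - t + log 2) -
      A n * dp - Bn n * dq + min (A n) (Bn n) * E := by
    have evA := (tendsto_order.1 limA).1 0 h.hs
    have evB := (tendsto_order.1 limB).1 0 h.hr
    filter_upwards [evA, evB, eventually_gt_atTop 0] with n hnA hnB hn
    have hn0 : (0 : ℝ) < n := by exact_mod_cast hn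
    have hApos : 0 < A n := by
      by_contra hc
      push Not at hc
      exact absurd hnA (not_lt.mpr (div_nonpos_of_nonpos_of_nonneg hc hn0.le))
    have hBpos : 0 < Bn n := by
      by_contra hc
      push Not at hc
      exact absurd hnB (not_lt.mpr (div_nonpos_of_nonpos_of_nonneg hc hn0.le))
    set w := pre x n ++ [false, true] with hw
    have hlw : w.length = n + 2 := by rw [hw]; simp [pre_length]
    have hcw : w.count true = (pre x n).count true + 1 := by rw [hw]; simp
    -- naturals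
    have hAz : A n = (((n + 2 : ℤ) * q.count true - ((pre x n).count true + 1) * q.length : ℤ) : ℝ) := by
      simp only [hA, c1, ln]; push_cast; ring
    have hBz : Bn n = ((((pre x n).count true + 1 : ℤ) * p.length - (n + 2) * p.count true : ℤ) : ℝ) := by
      simp only [hB, c1, ln]; push_cast; ring
    have hAz0 : 0 ≤ (n + 2 : ℤ) * q.count true - ((pre x n).count true + 1) * q.length := by
      rw [hAz] at hApos
      exact (Int.cast_pos.mp hApos).le
    have hBz0 : 0 ≤ ((pre x n).count true + 1 : ℤ) * p.length - (n + 2) * p.count true := by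
      rw [hBz] at hBpos
      exact (Int.cast_pos.mp hBpos).le
    obtain ⟨a, ha⟩ := Int.eq_ofNat_of_zero_le hAz0
    obtain ⟨b, hb⟩ := Int.eq_ofNat_of_zero_le hBz0
    have hAa : A n = a := by rw [hAz, ha]; simp
    have hBb : Bn n = b := by rw [hBz, hb]; simp
    have hlen : (w.length : ℤ) = a * p.length + b * q.length := by
      rw [hlw, ← ha, ← hb]
      push_cast
      linear_combination (-(n + 2 : ℤ)) * hdetZ
    have hcnt : (w.count true : ℤ) = a * p.count true + b * q.count true := by
      rw [hcw, ← ha, ← hb]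
      push_cast
      linear_combination (-((pre x n).count true + 1 : ℤ)) * hdetZ
    have hlenN : w.length = a * p.length + b * q.length := by exact_mod_cast hlen
    have hcntN : w.count true = a * p.count true + b * q.count true := by exact_mod_cast hcnt
    have hc0 : w.count false = a * p.count false + b * q.count false := by
      have e1 := List.count_false_add_count_true w
      have e2 := List.count_false_add_count_true p
      have e3 := List.count_false_add_count_true q
      rw [hlenN, hcntN, ← e2, ← e3] at e1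
      have e4 : w.count false + (a * p.count true + b * q.count true) =
        (a * p.count false + b * q.count false) + (a * p.count true + b * q.count true) := by
        rw [e1]; ring
      omega
    have hst := star h.reach h.hp h.hq a b w hc0 hcntN
    have hS := log_le_log (S_pos _) (S_le_T (pre x n))
    have g3 : (a : ℝ) * ln p + b * ln q = n + 2 := by
      have : ((w.length : ℕ) : ℝ) = a * ln p + b * ln q := by
        rw [ln, ln]; exact_mod_cast hlenN
      rw [← this, hlw]; push_cast; ring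
    have g4 : (a : ℝ) * c1 p + b * c1 q = c1 (pre x n) + 1 := by
      have : ((w.count true : ℕ) : ℝ) = a * c1 p + b * c1 q := by
        rw [c1, c1]; exact_mod_cast hcntN
      rw [← this, hcw, c1]; push_cast; ring
    have g5 : ((min a b : ℕ) : ℝ) = min (A n) (Bn n) := by
      rw [hAa, hBb]; push_cast; rfl
    rw [g5] at hst
    rw [W_eq]
    rw [hAa, hBb] at hst ⊢
    have g6 : a * L p + b * L q = (n + 2) * P t - t * (c1 (pre x n) + 1) - a * dp - b * dq := by
      rw [← g3, ← g4, hdp, hdq]; ring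
    linarith
  have lim1 : Tendsto (fun n : ℕ => P t + (2 * P t - t + log 2) / n - A n / n * dp -
      Bn n / n * dq + A n / n * E) atTop (𝓝 (P t + 0 - s * dp - r * dq + s * E)) :=
    (((tendsto_const_nhds.add (tendsto_const_div_atTop_nhds_zero_nat _)).sub
      (limA.mul_const _)).sub (limB.mul_const _)).add (limA.mul_const _)
  have lim2 : Tendsto (fun n : ℕ => P t + (2 * P t - t + log 2) / n - A n / n * dp -
      Bn n / n * dq + Bn n / n * E) atTop (𝓝 (P t + 0 - s * dp - r * dq + r * E)) :=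
    (((tendsto_const_nhds.add (tendsto_const_div_atTop_nhds_zero_nat _)).sub
      (limA.mul_const _)).sub (limB.mul_const _)).add (limB.mul_const _)
  have k1 : P t ≤ P t + 0 - s * dp - r * dq + s * E := by
    refine le_of_tendsto_of_tendsto hx lim1 ?_
    filter_upwards [main, eventually_gt_atTop 0] with n hn hn1
    have hn0 : (0 : ℝ) < n := by exact_mod_cast hn1
    rw [div_le_iff₀ hn0]
    have e : (P t + (2 * P t - t + log 2) / n - A n / n * dp - Bn n / n * dq + A n / n * E) * n =
        n * P t + (2 * P t - t + log 2) - A n * dp - Bn n * dq + A n * E := by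
      field_simp
    rw [e]
    have := mul_le_mul_of_nonneg_right (min_le_left (A n) (Bn n)) hE0.le
    linarith
  have k2 : P t ≤ P t + 0 - s * dp - r * dq + r * E := by
    refine le_of_tendsto_of_tendsto hx lim2 ?_
    filter_upwards [main, eventually_gt_atTop 0] with n hn hn1
    have hn0 : (0 : ℝ) < n := by exact_mod_cast hn1
    rw [div_le_iff₀ hn0]
    have e : (P t + (2 * P t - t + log 2) / n - A n / n * dp - Bn n / n * dq + Bn n / n * E) * n =
        n * P t + (2 * P t - t + log 2) - A n * dp - Bn n * dq + Bn n * E := by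
      field_simp
    rw [e]
    have := mul_le_mul_of_nonneg_right (min_le_right (A n) (Bn n)) hE0.le
    linarith
  have hs0 := h.hs
  have hr0 := h.hr
  constructor
  · have h1 : s * dp ≤ s * E := by
      have := mul_nonneg hr0.le hdq0
      linarith
    exact le_of_mul_le_mul_left h1 hs0
  · have h1 : r * dq ≤ r * E := by
      have := mul_nonneg hs0.le hdp0
      linarith
    exact le_of_mul_le_mul_left h1 hr0

/-- Localisation of the weight. -/
theorem localise {t γ c : ℝ} (x : ℕ → Bool)
    (hx : Tendsto (fun n : ℕ => W t (pre x n) / n) atTop (𝓝 (P t)))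
    (hr : Tendsto (fun n : ℕ => c1 (pre x n) / n) atTop (𝓝 γ))
    {p q : List Bool} {s r : ℝ} (h : At γ 3 c p q s r)
    (hdet : ln p * c1 q - ln q * c1 p = 1) :
    |t - (ln q * L p - ln p * L q)| ≤ (ln p + ln q) * (2 * exp (-(L p + L q))) := by
  obtain ⟨h1, h2⟩ := defects x hx hr h hdet
  set E := 2 * exp (-(L p + L q)) with hE
  have hdp0 : 0 ≤ ln p * P t - t * c1 p - L p := by
    have h1 := L_le t p
    have e1 : (p.length : ℝ) = ln p := rfl
    have e3 : (p.count true : ℝ) = c1 p := rfl
    rw [e1, e3] at h1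
    linarith
  have hdq0 : 0 ≤ ln q * P t - t * c1 q - L q := by
    have h1 := L_le t q
    have e1 : (q.length : ℝ) = ln q := rfl
    have e3 : (q.count true : ℝ) = c1 q := rfl
    rw [e1, e3] at h1
    linarith
  have hl := h.reach.len_pos
  have hlp : 0 ≤ ln p := by linarith [hl.1]
  have hlq : 0 ≤ ln q := by linarith [hl.2]
  have key : t - (ln q * L p - ln p * L q) =
      ln q * (ln p * P t - t * c1 p - L p) - ln p * (ln q * P t - t * c1 q - L q) := by
    linear_combination (-t) * hdet
  rw [key, abs_le]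
  have a1 := mul_le_mul_of_nonneg_left h1 hlq
  have a2 := mul_le_mul_of_nonneg_left h2 hlp
  have a3 := mul_nonneg hlq hdp0
  have a4 := mul_nonneg hlp hdq0
  have hE0 : 0 < E := by positivity
  have a5 := mul_nonneg hlq hE0.le
  have a6 := mul_nonneg hlp hE0.le
  constructor <;> linarith

/-- The spectral radius of a Christoffel word depends on its type only. -/
theorem T_type {p q p' q' : List Bool} (h : Reach p q) (h' : Reach p' q')
    (hl : p.length = p'.length) (hc : p.count true = p'.count true) : T p = T p' := by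
  have key : ∀ {p q p' q' : List Bool}, Reach p q → p.length = p'.length →
      p.count true = p'.count true → T p' ≤ T p := by
    intro p q p' q' h hl hc
    have e1 := List.count_false_add_count_true p
    have e2 := List.count_false_add_count_true p'
    obtain ⟨w', g0, g1, hle⟩ := cone h 1 0 p' (by omega) (by omega)
    have hw : w' = [false] := by
      rw [eq_replicate_of_count g1, g0]; rfl
    rw [hw] at hle
    have e3 : f p q [false] = T p := by
      rw [f_eq_T]
      congr 1
      simp [sb]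
    rw [e3] at hle
    exact hle
  exact le_antisymm (key (q := q') h' hl.symm hc.symm (q' := q)) (key h hl hc (q' := q'))

theorem L_type {p q p' q' : List Bool} (h : Reach p q) (h' : Reach p' q')
    (hl : p.length = p'.length) (hc : p.count true = p'.count true) : L p = L p' := by
  rw [L, L, T_type h h' hl hc]

/-- The covering sets, indexed by the types of the two words. -/
def Cov (c : ℝ) (τ : ℕ × ℕ × ℕ × ℕ) : Set ℝ :=
  {a | ∃ t ≤ 0, a = exp t ∧ ∃ p q : List Bool, Reach p q ∧ c * ln p ≤ L p ∧ c * ln q ≤ L q ∧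
    p.length = τ.1 ∧ p.count true = τ.2.1 ∧ q.length = τ.2.2.1 ∧ q.count true = τ.2.2.2 ∧
    |t - (ln q * L p - ln p * L q)| ≤ (ln p + ln q) * (2 * exp (-(L p + L q)))}

theorem exp_lip {s t : ℝ} (hs : s ≤ 0) (ht : t ≤ 0) : |exp s - exp t| ≤ |s - t| := by
  have key : ∀ {s t : ℝ}, s ≤ 0 → t ≤ s → exp s - exp t ≤ s - t := by
    intro s t hs hts
    have h1 : exp t = exp s * exp (t - s) := by rw [← exp_add]; congr 1; ring
    have h2 : t - s + 1 ≤ exp (t - s) := add_one_le_exp _
    have h3 : exp s ≤ 1 := exp_le_one_iff.mpr hs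
    have h4 : 0 < exp s := exp_pos s
    rw [h1]
    have h5 : exp s * (1 - exp (t - s)) ≤ 1 * (1 - exp (t - s)) :=
      mul_le_mul_of_nonneg_right h3 (by linarith [exp_le_one_iff.mpr (show t - s ≤ 0 by linarith)])
    nlinarith
  rcases le_total t s with h | h
  · rw [abs_of_nonneg (by linarith [exp_le_exp.mpr h]), abs_of_nonneg (by linarith)]
    exact key hs h
  · rw [abs_sub_comm, abs_sub_comm s t, abs_of_nonneg (by linarith [exp_le_exp.mpr h]),
      abs_of_nonneg (by linarith)]
    exact key ht h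

/-- Diameter of the covering sets. -/
theorem cov_diam {c : ℝ} (hc : 0 < c) (τ : ℕ × ℕ × ℕ × ℕ) (a b : ℝ) (ha : a ∈ Cov c τ)
    (hb : b ∈ Cov c τ) :
    |a - b| ≤ 8 / c * exp (-(c / 2 * (τ.1 + τ.2.2.1))) := by
  obtain ⟨t, ht, rfl, p, q, h, h1, h2, h3, h4, h5, h6, h7⟩ := ha
  obtain ⟨t', ht', rfl, p', q', h', h1', h2', h3', h4', h5', h6', h7'⟩ := hb
  have e1 : L p' = L p := L_type h' h (by rw [h3, h3']) (by rw [h4, h4'])
  have e2 : L q' = L q := L_type h'.swap h.swap (by rw [h5, h5']) (by rw [h6, h6'])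
  have e3 : ln p' = ln p := by rw [ln, ln, h3, h3']
  have e4 : ln q' = ln q := by rw [ln, ln, h5, h5']
  rw [e1, e2, e3, e4] at h7'
  refine (exp_lip ht ht').trans ?_
  set M := ln p + ln q with hM
  have hM' : (τ.1 : ℝ) + τ.2.2.1 = M := by rw [hM, ln, ln, h3, h5]
  rw [hM']
  have hM0 : 0 ≤ M := by
    have := h.len_pos
    linarith [this.1, this.2]
  have h8 : |t - t'| ≤ 2 * (M * (2 * exp (-(L p + L q)))) := by
    have := abs_sub_le t (ln q * L p - ln p * L q) t'
    rw [abs_sub_comm (ln q * L p - ln p * L q) t'] at this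
    linarith
  have h9 : exp (-(L p + L q)) ≤ exp (-(c * M)) := by
    apply exp_le_exp.mpr
    rw [hM]
    linarith
  have h10 : M * exp (-(c / 2 * M)) ≤ 2 / c := by
    have h11 : c / 2 * M ≤ exp (c / 2 * M) := by
      have := add_one_le_exp (c / 2 * M)
      linarith
    rw [exp_neg, ← div_eq_mul_inv, div_le_div_iff₀ (exp_pos _) hc]
    linarith
  have h12 : exp (-(c * M)) = exp (-(c / 2 * M)) * exp (-(c / 2 * M)) := by
    rw [← exp_add]; congr 1; ring
  calc |t - t'| ≤ 2 * (M * (2 * exp (-(L p + L q)))) := h8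
    _ ≤ 2 * (M * (2 * exp (-(c * M)))) := by
        apply mul_le_mul_of_nonneg_left _ zero_le_two
        apply mul_le_mul_of_nonneg_left _ hM0
        linarith
    _ = 4 * (M * exp (-(c / 2 * M))) * exp (-(c / 2 * M)) := by rw [h12]; ring
    _ ≤ 4 * (2 / c) * exp (-(c / 2 * M)) := by
        apply mul_le_mul_of_nonneg_right _ (exp_pos _).le
        linarith
    _ = 8 / c * exp (-(c / 2 * M)) := by ring

theorem cov_types {c : ℝ} (τ : ℕ × ℕ × ℕ × ℕ) {a : ℝ} (ha : a ∈ Cov c τ) :
    τ.2.1 ≤ τ.1 ∧ τ.2.2.2 ≤ τ.2.2.1 := by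
  obtain ⟨t, ht, rfl, p, q, h, h1, h2, h3, h4, h5, h6, h7⟩ := ha
  rw [← h3, ← h4, ← h5, ← h6]
  exact ⟨List.count_le_length, List.count_le_length⟩

/-- The restricted covering: large types only. -/
def CovN (c : ℝ) (N : ℕ) (τ : ℕ × ℕ × ℕ × ℕ) : Set ℝ := {a | a ∈ Cov c τ ∧ N ≤ τ.1 + τ.2.2.1}

/-- The summable majorant. -/
noncomputable def maj (u : ℝ) (τ : ℕ × ℕ × ℕ × ℕ) : ℝ :=
  u ^ τ.1 * (u ^ τ.2.1 * (u ^ τ.2.2.1 * u ^ τ.2.2.2))

theorem maj_summable {u : ℝ} (h0 : 0 ≤ u) (h1 : u < 1) : Summable (maj u) := by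
  have hg := summable_geometric_of_lt_one h0 h1
  have hn : (0 : ℕ → ℝ) ≤ fun n => u ^ n := fun n => pow_nonneg h0 n
  have s1 : Summable (fun x : ℕ × ℕ => u ^ x.1 * u ^ x.2) := hg.mul_of_nonneg hg hn hn
  have n1 : (0 : ℕ × ℕ → ℝ) ≤ fun x => u ^ x.1 * u ^ x.2 := fun x =>
    mul_nonneg (pow_nonneg h0 _) (pow_nonneg h0 _)
  have s2 : Summable (fun x : ℕ × ℕ × ℕ => u ^ x.1 * (u ^ x.2.1 * u ^ x.2.2)) :=
    hg.mul_of_nonneg s1 hn n1
  have n2 : (0 : ℕ × ℕ × ℕ → ℝ) ≤ fun x => u ^ x.1 * (u ^ x.2.1 * u ^ x.2.2) := fun x =>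
    mul_nonneg (pow_nonneg h0 _) (n1 x.2)
  exact hg.mul_of_nonneg s2 hn n2

theorem maj_nonneg {u : ℝ} (h0 : 0 ≤ u) (τ : ℕ × ℕ × ℕ × ℕ) : 0 ≤ maj u τ := by
  unfold maj; positivity

theorem cov_ediam {c : ℝ} (hc : 0 < c) (N : ℕ) (τ : ℕ × ℕ × ℕ × ℕ) :
    Metric.ediam (CovN c N τ) ≤ ENNReal.ofReal (8 / c * exp (-(c / 2 * N))) ∧
    Metric.ediam (CovN c N τ) ≤ ENNReal.ofReal (8 / c * maj (exp (-(c / 4))) τ) := by
  have key : ∀ a ∈ CovN c N τ, ∀ b ∈ CovN c N τ,
      |a - b| ≤ 8 / c * exp (-(c / 2 * N)) ∧ |a - b| ≤ 8 / c * maj (exp (-(c / 4))) τ := by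
    rintro a ⟨ha, hN⟩ b ⟨hb, _⟩
    have h1 := cov_diam hc τ a b ha hb
    obtain ⟨t1, t2⟩ := cov_types τ ha
    have hN' : (N : ℝ) ≤ τ.1 + τ.2.2.1 := by exact_mod_cast hN
    have t1' : (τ.2.1 : ℝ) ≤ τ.1 := by exact_mod_cast t1
    have t2' : (τ.2.2.2 : ℝ) ≤ τ.2.2.1 := by exact_mod_cast t2
    have hk : 0 < 8 / c := by positivity
    constructor
    · refine h1.trans (mul_le_mul_of_nonneg_left (exp_le_exp.mpr ?_) hk.le)
      nlinarith
    · refine h1.trans (mul_le_mul_of_nonneg_left ?_ hk.le)
      unfold maj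
      rw [← exp_nat_mul, ← exp_nat_mul, ← exp_nat_mul, ← exp_nat_mul, ← exp_add, ← exp_add,
        ← exp_add]
      apply exp_le_exp.mpr
      nlinarith
  constructor
  · apply Metric.ediam_le
    intro a ha b hb
    rw [edist_dist, Real.dist_eq]
    exact ENNReal.ofReal_le_ofReal (key a ha b hb).1
  · apply Metric.ediam_le
    intro a ha b hb
    rw [edist_dist, Real.dist_eq]
    exact ENNReal.ofReal_le_ofReal (key a ha b hb).2

/-- Sets covered at every level have dimension zero. -/
theorem dim_zero {c : ℝ} (hc : 0 < c) (F : Set ℝ) (hF : ∀ N : ℕ, F ⊆ ⋃ τ, CovN c N τ) :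
    dimH F = 0 := by
  have main : ∀ d : NNReal, 0 < d → dimH F ≤ d := by
    intro d hd
    apply dimH_le_of_hausdorffMeasure_ne_top
    have hr : Tendsto (fun N : ℕ => ENNReal.ofReal (8 / c * exp (-(c / 2 * N)))) atTop (𝓝 0) := by
      rw [← ENNReal.ofReal_zero]
      apply ENNReal.tendsto_ofReal
      have h1 : Tendsto (fun N : ℕ => c / 2 * (N : ℝ)) atTop atTop :=
        tendsto_natCast_atTop_atTop.const_mul_atTop (by positivity)
      have h2 := (tendsto_exp_neg_atTop_nhds_zero.comp h1).const_mul (8 / c)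
      rw [mul_zero] at h2
      exact h2
    have hle := MeasureTheory.Measure.hausdorffMeasure_le_liminf_tsum (ι := fun _ : ℕ =>
      ℕ × ℕ × ℕ × ℕ) (d : ℝ) F (l := atTop) _ hr (fun N τ => CovN c N τ)
      (Eventually.of_forall fun N τ => (cov_ediam hc N τ).1) (Eventually.of_forall hF)
    have hu0 : 0 ≤ exp (-(c / 4)) := (exp_pos _).le
    have hd0 : (0 : ℝ) < d := hd
    set v : ℝ := exp (-(c / 4)) ^ (d : ℝ) with hv
    have hv0 : 0 ≤ v := rpow_nonneg hu0 _
    have hv1 : v < 1 := by
      apply rpow_lt_one hu0 _ hd0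
      rw [exp_lt_one_iff]
      linarith
    have hmaj : ∀ τ, maj (exp (-(c / 4))) τ ^ (d : ℝ) = maj v τ := by
      intro τ
      unfold maj
      rw [mul_rpow (by positivity) (by positivity), mul_rpow (by positivity) (by positivity),
        mul_rpow (by positivity) (by positivity)]
      have e : ∀ n : ℕ, (exp (-(c / 4)) ^ n) ^ (d : ℝ) = v ^ n := by
        intro n
        rw [hv, ← rpow_natCast, ← rpow_natCast, ← rpow_mul hu0, ← rpow_mul hu0, mul_comm]
      rw [e, e, e, e]
    have hbound : ∀ N : ℕ, ∑' τ : ℕ × ℕ × ℕ × ℕ, Metric.ediam (CovN c N τ) ^ (d : ℝ) ≤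
        ENNReal.ofReal (∑' τ, (8 / c) ^ (d : ℝ) * maj v τ) := by
      intro N
      rw [ENNReal.ofReal_tsum_of_nonneg (fun τ => mul_nonneg (by positivity) (maj_nonneg hv0 τ))
        ((maj_summable hv0 hv1).mul_left _)]
      apply ENNReal.tsum_le_tsum
      intro τ
      calc Metric.ediam (CovN c N τ) ^ (d : ℝ) ≤
            ENNReal.ofReal (8 / c * maj (exp (-(c / 4))) τ) ^ (d : ℝ) :=
            ENNReal.rpow_le_rpow (cov_ediam hc N τ).2 hd0.le
        _ = ENNReal.ofReal ((8 / c * maj (exp (-(c / 4))) τ) ^ (d : ℝ)) :=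
            ENNReal.ofReal_rpow_of_nonneg (mul_nonneg (by positivity) (maj_nonneg hu0 τ)) hd0.le
        _ = ENNReal.ofReal ((8 / c) ^ (d : ℝ) * maj v τ) := by
            rw [mul_rpow (by positivity) (maj_nonneg hu0 τ), hmaj]
    have hlim : liminf (fun N : ℕ => ∑' τ : ℕ × ℕ × ℕ × ℕ, Metric.ediam (CovN c N τ) ^ (d : ℝ))
        atTop ≤ ENNReal.ofReal (∑' τ, (8 / c) ^ (d : ℝ) * maj v τ) := by
      calc _ ≤ liminf (fun _ : ℕ => ENNReal.ofReal (∑' τ, (8 / c) ^ (d : ℝ) * maj v τ)) atTop :=
            liminf_le_liminf (Eventually.of_forall hbound)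
        _ = _ := liminf_const _
    exact ne_top_of_le_ne_top ENNReal.ofReal_ne_top (hle.trans hlim)
  by_contra hne
  have hpos : 0 < dimH F := pos_iff_ne_zero.mpr hne
  obtain ⟨d, hd0, hd⟩ := ENNReal.lt_iff_exists_nnreal_btwn.mp hpos
  have hd0' : 0 < d := by exact_mod_cast hd0
  exact absurd (main d hd0') (not_le.mpr hd)

end Pool.Agent.R285.Jsr
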