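import Mathlib
import Pool.Agent.Results.MP_e3a8c8_an.ShimorinCertificates

/-!
# Extension of Pick data from finite sets to arbitrary sets; certificates give complete Pick pairs
-/

set_option autoImplicit false

namespace Pool.Agent.R285.PickExt

open scoped InnerProductSpace ComplexOrder ComplexConjugate Topology
open Matrix Filter Pool.Agent.H770R3.Shim Pool.Agent.Results.MP_e3a8c8_an.ShimorinCertificates

universe u

variable {X : Type u} {N : ℕ}

/-- terms vanishing outside `F` -/
lemma Q_subset [DecidableEq X] (g : Matrix X X ℂ) {F G : Finset X} (hFG : F ⊆ G) (h : X → E N)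
    (h0 : ∀ i, i ∉ F → h i = 0) : Q g G h = Q g F h := by
  unfold Q
  congr 1
  symm
  rw [← Finset.sum_subset hFG]
  · refine Finset.sum_congr rfl fun i hi => ?_
    rw [← Finset.sum_subset hFG]
    intro j _ hj
    rw [h0 j hj, inner_zero_right, mul_zero]
  · intro i _ hi
    exact Finset.sum_eq_zero fun j _ => by rw [h0 i hi, inner_zero_left, mul_zero]

/-- the Pick inequality passes to subsets -/
lemma pick_mono {k l : Matrix X X ℂ} {F G : Finset X} (hFG : F ⊆ G) (T : X → E N →ₗ[ℂ] E N)
    (hT : ∀ h : X → E N, Q k G (fun i => T i (h i)) ≤ Q l G h) (h : X → E N) :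
    Q k F (fun i => T i (h i)) ≤ Q l F h := by
  classical
  have h1 := hT (fun i => if i ∈ F then h i else 0)
  rw [Q_subset k hFG _ (fun i hi => by simp [hi]), Q_subset l hFG _ (fun i hi => by simp [hi])]
    at h1
  rw [Q_congr k (h' := fun i => T i (if i ∈ F then h i else 0)) (fun i hi => by simp [hi]),
    Q_congr l (h' := fun i => if i ∈ F then h i else 0) (fun i hi => by simp [hi])]
  exact h1

/-- changing the data at points where `k` vanishes -/
lemma Q_degenerate {k : Matrix X X ℂ} (hk : k.PosSemidef) (F : Finset X) (g g' : X → E N)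
    (hgg : ∀ i, k i i ≠ 0 → g i = g' i) : Q k F g = Q k F g' := by
  unfold Q
  congr 1
  refine Finset.sum_congr rfl fun i _ => Finset.sum_congr rfl fun j _ => ?_
  by_cases hi : k i i = 0
  · rw [psd_zero_row hk hi, zero_mul, zero_mul]
  · by_cases hj : k j j = 0
    · rw [psd_zero_col hk hj, zero_mul, zero_mul]
    · rw [hgg i hi, hgg j hj]

/-- finite extension -/
lemma extend_finite {k l : Matrix X X ℂ} (hk : k.PosSemidef) (hl : l.PosSemidef)
    (hOP : OnePoint N k l) {F G : Finset X} (hFG : F ⊆ G) (S : X → E N →ₗ[ℂ] E N)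
    (hS : ∀ h : X → E N, Q k F (fun i => S i (h i)) ≤ Q l F h) :
    ∃ T : X → E N →ₗ[ℂ] E N, (∀ i ∈ F, T i = S i) ∧
      ∀ h : X → E N, Q k G (fun i => T i (h i)) ≤ Q l G h := by
  classical
  obtain ⟨T, hT1, hT2⟩ := tnp hk hl hOP G.card G rfl (fun i => if i ∈ F then ⊤ else ⊥)
    S (fun h hh => by
      have h0 : ∀ i ∈ G, i ∉ F → h i = 0 := by
        intro i hi hiF
        have := hh i hi
        rw [if_neg hiF] at this
        exact (Submodule.mem_bot ℂ).1 this
      have h1 := hS (fun i => if i ∈ F then h i else 0)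
      rw [← Q_subset k hFG _ (fun i hi => by simp [hi]),
        ← Q_subset l hFG _ (fun i hi => by simp [hi])] at h1
      rw [Q_congr k (h' := fun i => S i (if i ∈ F then h i else 0)) (fun i hi => by
          by_cases hiF : i ∈ F
          · simp [hiF]
          · simp [hiF, h0 i hi hiF]),
        Q_congr l (h' := fun i => if i ∈ F then h i else 0) (fun i hi => by
          by_cases hiF : i ∈ F
          · simp [hiF]
          · simp [hiF, h0 i hi hiF])]
      exact h1)
  refine ⟨T, fun i hi => ?_, hT2⟩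
  ext1 v
  exact hT1 i (hFG hi) v (by rw [if_pos hi]; exact Submodule.mem_top)

lemma Q_singleton (g : Matrix X X ℂ) (x : X) (h : X → E N) (hx : (g x x).im = 0) :
    Q g {x} h = (g x x).re * ‖h x‖ ^ 2 := by
  unfold Q
  rw [Finset.sum_singleton, Finset.sum_singleton, inner_self_eq_norm_sq_to_K]
  have h1 : ((‖h x‖ : ℂ) ^ 2) = ((‖h x‖ ^ 2 : ℝ) : ℂ) := by push_cast; rfl
  have h2 : (RCLike.ofReal ‖h x‖ : ℂ) ^ 2 = ((‖h x‖ ^ 2 : ℝ) : ℂ) := by
    push_cast; rfl
  rw [h2, Complex.mul_re, Complex.ofReal_re, Complex.ofReal_im, hx]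
  ring

/-- Extension of Pick data from a finite set to all of `X`. -/
theorem extend_all {k l : Matrix X X ℂ} (hk : k.PosSemidef) (hl : l.PosSemidef)
    (hOP : OnePoint N k l) (F : Finset X) (S : X → E N →ₗ[ℂ] E N)
    (hS : ∀ h : X → E N, Q k F (fun i => S i (h i)) ≤ Q l F h) :
    ∃ T : X → E N →ₗ[ℂ] E N, (∀ i ∈ F, T i = S i) ∧
      ∀ (G : Finset X) (h : X → E N), Q k G (fun i => T i (h i)) ≤ Q l G h := by
  classical
  -- choice on every finite set, as continuous linear maps
  have hex : ∀ G : Finset X, ∃ T : X → E N →L[ℂ] E N,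
      (∀ i ∈ F, T i = LinearMap.toContinuousLinearMap (S i)) ∧
      (∀ i, i ∉ F → k i i = 0 → T i = 0) ∧
      ∀ h : X → E N, Q k (F ∪ G) (fun i => T i (h i)) ≤ Q l (F ∪ G) h := by
    intro G
    obtain ⟨T, hT1, hT2⟩ := extend_finite hk hl hOP (F := F) (G := F ∪ G)
      Finset.subset_union_left S hS
    refine ⟨fun i => if i ∈ F then LinearMap.toContinuousLinearMap (S i) else
      if k i i = 0 then 0 else LinearMap.toContinuousLinearMap (T i), ?_, ?_, ?_⟩
    · intro i hi
      simp [hi]
    · intro i hi h0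
      simp [hi, h0]
    · intro h
      refine le_trans (le_of_eq ?_) (hT2 h)
      apply Q_degenerate hk
      intro i hi
      by_cases hiF : i ∈ F
      · simp [hiF, hT1 i hiF]
      · simp [hiF, hi]
  choose T hT1 hT2 hT3 using hex
  -- bounds
  have hbound : ∀ x, ∃ R : ℝ, ∀ G : Finset X, x ∈ G → ‖T G x‖ ≤ R := by
    intro x
    by_cases hxF : x ∈ F
    · exact ⟨‖LinearMap.toContinuousLinearMap (S x)‖, fun G _ => by rw [hT1 G x hxF]⟩
    by_cases h0 : k x x = 0
    · exact ⟨0, fun G _ => by rw [hT2 G x hxF h0, norm_zero]⟩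
    · have hkpos : 0 < (k x x).re := by
        have h1 := psd_diag_re hk x
        have h2 := psd_diag_im hk x
        rcases h1.lt_or_eq with h | h
        · exact h
        · exfalso
          apply h0
          exact Complex.ext h.symm h2
      refine ⟨Real.sqrt ((l x x).re / (k x x).re), fun G hxG => ?_⟩
      apply ContinuousLinearMap.opNorm_le_bound _ (Real.sqrt_nonneg _)
      intro v
      have h1 := pick_mono (F := {x}) (G := F ∪ G)
        (Finset.singleton_subset_iff.2 (Finset.mem_union_right _ hxG))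
        (fun i => (T G i : E N →ₗ[ℂ] E N)) (hT3 G) (fun _ => v)
      rw [Q_singleton k x _ (psd_diag_im hk x), Q_singleton l x _ (psd_diag_im hl x)] at h1
      have h2 : ‖T G x v‖ ^ 2 ≤ (l x x).re / (k x x).re * ‖v‖ ^ 2 := by
        rw [div_mul_eq_mul_div, le_div_iff₀ hkpos]
        have h3 : (k x x).re * ‖T G x v‖ ^ 2 ≤ (l x x).re * ‖v‖ ^ 2 := h1
        linarith
      have h4 : 0 ≤ (l x x).re / (k x x).re := div_nonneg (psd_diag_re hl x) hkpos.le
      calc ‖T G x v‖ = Real.sqrt (‖T G x v‖ ^ 2) := (Real.sqrt_sq (norm_nonneg _)).symm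
        _ ≤ Real.sqrt ((l x x).re / (k x x).re * ‖v‖ ^ 2) := Real.sqrt_le_sqrt h2
        _ = Real.sqrt ((l x x).re / (k x x).re) * ‖v‖ := by
            rw [Real.sqrt_mul h4, Real.sqrt_sq (norm_nonneg _)]
  choose R hR using hbound
  let U : Ultrafilter (Finset X) := Ultrafilter.of atTop
  have hU : (U : Filter (Finset X)) ≤ atTop := Ultrafilter.of_le atTop
  have hev : ∀ G₀ : Finset X, ∀ᶠ G in (U : Filter (Finset X)), G₀ ⊆ G := fun G₀ =>
    hU (Filter.eventually_ge_atTop G₀)
  have hlim : ∀ x, ∃ A : E N →L[ℂ] E N, Tendsto (fun G => T G x) U (𝓝 A) := by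
    intro x
    have : ProperSpace (E N →L[ℂ] E N) := FiniteDimensional.proper ℂ _
    have hc : IsCompact (Metric.closedBall (0 : E N →L[ℂ] E N) (R x)) := isCompact_closedBall _ _
    have h1 : (U.map (fun G => T G x) : Filter (E N →L[ℂ] E N)) ≤
        𝓟 (Metric.closedBall (0 : E N →L[ℂ] E N) (R x)) := by
      rw [le_principal_iff]
      have h2 : ∀ᶠ G in (U : Filter (Finset X)), T G x ∈ Metric.closedBall 0 (R x) := by
        filter_upwards [hev {x}] with G hG
        rw [mem_closedBall_zero_iff]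
        exact hR x G (Finset.singleton_subset_iff.1 hG)
      exact h2
    obtain ⟨A, _, hA⟩ := hc.ultrafilter_le_nhds (U.map (fun G => T G x)) h1
    exact ⟨A, hA⟩
  choose A hA using hlim
  refine ⟨fun x => (A x : E N →ₗ[ℂ] E N), ?_, ?_⟩
  · intro i hi
    have h1 : Tendsto (fun G => T G i) U (𝓝 (LinearMap.toContinuousLinearMap (S i))) := by
      refine tendsto_const_nhds.congr fun G => ?_
      rw [hT1 G i hi]
    have h2 : A i = LinearMap.toContinuousLinearMap (S i) := tendsto_nhds_unique (hA i) h1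
    change ((A i : E N →L[ℂ] E N) : E N →ₗ[ℂ] E N) = S i
    rw [h2]
    rfl
  · intro G₀ h
    have hc : Tendsto (fun G => Q k G₀ (fun i => T G i (h i))) U
        (𝓝 (Q k G₀ (fun i => A i (h i)))) := by
      unfold Q
      refine (Complex.continuous_re.tendsto _).comp ?_
      refine tendsto_finsetSum _ fun i _ => tendsto_finsetSum _ fun j _ => ?_
      have h1 : ∀ i, Tendsto (fun G => T G i (h i)) U (𝓝 (A i (h i))) := by
        intro i
        exact ((ContinuousLinearMap.apply ℂ (E N) (h i)).continuous.tendsto (A i)).comp (hA i)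
      exact (tendsto_const_nhds).mul ((h1 i).inner (h1 j))
    apply le_of_tendsto hc
    filter_upwards [hev G₀] with G hG
    exact pick_mono (F := G₀) (G := F ∪ G) (hG.trans Finset.subset_union_right)
      (fun i => (T G i : E N →ₗ[ℂ] E N)) (hT3 G) h

/-- The one-point extension property (for all `N`) gives a complete Pick pair. -/
theorem cp_of_onePoint {k l : Kernel X} (hOP : ∀ N, OnePoint N k.fn l.fn) : IsCPPair k l := by
  intro N _ F _ W hW
  rw [pick_iff] at hW
  obtain ⟨T, hT1, hT2⟩ := extend_all k.psd l.psd (hOP N) F (adjMap W) hW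
  let Φ : X → Matrix (Fin N) (Fin N) ℂ := fun x => (Matrix.toEuclideanLin.symm (T x))ᴴ
  have hΦ : ∀ x, adjMap Φ x = T x := by
    intro x
    simp only [adjMap, Φ, Matrix.conjTranspose_conjTranspose, LinearEquiv.apply_symm_apply]
  refine ⟨Φ, multiplier_of_Q ?_, ?_⟩
  · intro G h
    simp only [hΦ]
    exact hT2 G h
  · intro x hx
    have h1 := hT1 x hx
    simp only [Φ, h1, adjMap, LinearEquiv.symm_apply_apply, Matrix.conjTranspose_conjTranspose]

/-- Schur product estimate for block forms. -/
lemma schur_block {p k l : Matrix X X ℂ} (hp : p.PosSemidef) (F : Finset X)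
    (S : X → E N →ₗ[ℂ] E N)
    (hS : ∀ h : X → E N, Q k F (fun i => S i (h i)) ≤ Q l F h) (h : X → E N) :
    Q (p ⊙ k) F (fun i => S i (h i)) ≤ Q (p ⊙ l) F h := by
  classical
  obtain ⟨B, hB⟩ := exists_factor (hp.submatrix (fun i : F => (i : X)))
  have hpe : ∀ i j : F, p i j = ∑ m : F, conj (B m i) * B m j := by
    intro i j
    have := congrFun (congrFun hB i) j
    rw [Matrix.submatrix_apply] at this
    rw [this, Matrix.mul_apply]
    rfl
  have key : ∀ (g : Matrix X X ℂ) (f : X → E N), Q (p ⊙ g) F f =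
      ∑ m : F, Q g F (fun i => if hi : i ∈ F then B m ⟨i, hi⟩ • f i else 0) := by
    intro g f
    unfold Q
    rw [← Complex.re_sum]
    congr 1
    rw [Finset.sum_comm]
    have e1 : ∀ i ∈ F, ∀ j ∈ F, (p ⊙ g) i j * ⟪f i, f j⟫_ℂ =
        ∑ m : F, g i j * ⟪(if hi : i ∈ F then B m ⟨i, hi⟩ • f i else 0 : E N),
          (if hj : j ∈ F then B m ⟨j, hj⟩ • f j else 0 : E N)⟫_ℂ := by
      intro i hi j hj
      rw [Matrix.hadamard_apply, hpe ⟨i, hi⟩ ⟨j, hj⟩, Finset.sum_mul, Finset.sum_mul]
      refine Finset.sum_congr rfl fun m _ => ?_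
      simp only [hi, hj, dif_pos, inner_smul_left, inner_smul_right]
      ring
    rw [Finset.sum_comm]
    rw [Finset.sum_congr rfl fun i hi => Finset.sum_congr rfl fun j hj => e1 i hi j hj]
    rw [Finset.sum_congr rfl fun i _ => Finset.sum_comm]
    rw [Finset.sum_comm]
  rw [key, key]
  refine Finset.sum_le_sum fun m _ => ?_
  have h1 := hS (fun i => if hi : i ∈ F then B m ⟨i, hi⟩ • h i else 0)
  refine le_trans (le_of_eq ?_) h1
  refine Q_congr k fun i hi => ?_
  simp [hi]

lemma Q_sub (g g' : Matrix X X ℂ) (F : Finset X) (h : X → E N) :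
    Q (g - g') F h = Q g F h - Q g' F h := by
  unfold Q
  rw [← Complex.sub_re, ← Finset.sum_sub_distrib]
  congr 1
  refine Finset.sum_congr rfl fun i _ => ?_
  rw [← Finset.sum_sub_distrib]
  refine Finset.sum_congr rfl fun j _ => ?_
  rw [Matrix.sub_apply]
  ring

/-- A Shimorin certificate gives the one-point extension property. -/
theorem onePoint_of_certificate {k l : Kernel X} (hc : HasShimorinCertificate k l) (N : ℕ) :
    OnePoint N k.fn l.fn := by
  obtain ⟨p, hp⟩ := hc
  intro F z _ S hS h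
  obtain ⟨h1, h2⟩ := hp z
  have e1 : reduced l z = red l.fn z := rfl
  have e2 : reduced k z = red k.fn z := rfl
  rw [e1] at h1
  rw [e2] at h2
  have h3 := Q_nonneg h1 F h
  have h4 := Q_nonneg h2 F (fun i => S i (h i))
  rw [Q_sub] at h3 h4
  have h5 := schur_block (p z).psd F S hS h
  linarith

/-- change of real weights -/
lemma Q_signs' (k l : Matrix X X ℂ) (F : Finset X) (e : X → ℝ)
    (he : ∀ x ∈ F, ∀ y ∈ F, l x y = ((e x * e y : ℝ) : ℂ) * k x y) (h : X → E N) :
    Q l F h = Q k F (fun i => ((e i : ℝ) : ℂ) • h i) := by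
  unfold Q
  congr 1
  refine Finset.sum_congr rfl fun i hi => Finset.sum_congr rfl fun j hj => ?_
  rw [he i hi j hj, inner_smul_left, inner_smul_right, Complex.conj_ofReal]
  push_cast
  ring

/-- A pair with a Shimorin certificate is a complete Pick pair. -/
theorem cp_of_certificate {k l : Kernel X} (hc : HasShimorinCertificate k l) : IsCPPair k l :=
  cp_of_onePoint (onePoint_of_certificate hc)

end Pool.Agent.R285.PickExt
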