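import Mathlib

/-!
# Randomly pivoted Cholesky over `ℝ` or `ℂ`
-/

set_option autoImplicit false
set_option linter.unusedSectionVars false

namespace Pool.Agent.R285.RPCK

open Matrix Finset RCLike
open scoped ComplexOrder

variable {𝕜 : Type*} [RCLike 𝕜] {ι : Type*} [Fintype ι] [DecidableEq ι]

/-- the (real part of the) trace -/
noncomputable def tr (R : Matrix ι ι 𝕜) : ℝ := ∑ i, re (R i i)

/-- One elimination step with pivot `j`: `R - R e_j e_j* R / R_jj`. -/
noncomputable def step (R : Matrix ι ι 𝕜) (j : ι) : Matrix ι ι 𝕜 :=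
  Matrix.of fun a b => R a b - R a j * R j b / R j j

/-- The expectation of `f (R_k)`, where `R_0 = R` and `R_0, R_1, …` are the residuals of randomly
pivoted Cholesky: at each step the pivot is `j` with probability `R_jj / tr R`; if `tr R = 0` the
procedure stops. -/
noncomputable def expect (f : Matrix ι ι 𝕜 → ℝ) : ℕ → Matrix ι ι 𝕜 → ℝ
  | 0, R => f R
  | k + 1, R => if tr R = 0 then f R else ∑ j, (re (R j j) / tr R) * expect f k (step R j)

lemma tr_eq (R : Matrix ι ι 𝕜) : tr R = re R.trace := by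
  simp [tr, Matrix.trace]

omit [DecidableEq ι] in
lemma tr_add (A B : Matrix ι ι 𝕜) : tr (A + B) = tr A + tr B := by
  simp [tr, Finset.sum_add_distrib]

omit [DecidableEq ι] in
lemma tr_sub (A B : Matrix ι ι 𝕜) : tr (A - B) = tr A - tr B := by
  simp [tr, Finset.sum_sub_distrib]

omit [DecidableEq ι] in
lemma tr_smul (c : ℝ) (A : Matrix ι ι 𝕜) : tr ((c : 𝕜) • A) = c * tr A := by
  simp [tr, Finset.mul_sum]

omit [Fintype ι] [DecidableEq ι] in
lemma diag_re {R : Matrix ι ι 𝕜} (h : R.PosSemidef) (j : ι) : 0 ≤ re (R j j) :=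
  (RCLike.nonneg_iff.1 h.diag_nonneg).1

omit [Fintype ι] [DecidableEq ι] in
lemma diag_coe {R : Matrix ι ι 𝕜} (h : R.PosSemidef) (j : ι) : R j j = ((re (R j j) : ℝ) : 𝕜) := by
  have := (RCLike.nonneg_iff.1 (h.diag_nonneg (i := j))).2
  apply RCLike.ext
  · simp
  · simp [this]

omit [Fintype ι] [DecidableEq ι] in
lemma herm {R : Matrix ι ι 𝕜} (h : R.PosSemidef) (a b : ι) : star (R a b) = R b a := h.1.apply b a

omit [DecidableEq ι] in
lemma tr_nonneg {R : Matrix ι ι 𝕜} (h : R.PosSemidef) : 0 ≤ tr R :=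
  Finset.sum_nonneg fun i _ => diag_re h i

omit [DecidableEq ι] in
lemma diag_le_tr {R : Matrix ι ι 𝕜} (h : R.PosSemidef) (j : ι) : re (R j j) ≤ tr R :=
  Finset.single_le_sum (f := fun i => re (R i i)) (fun i _ => diag_re h i) (Finset.mem_univ j)

/-- vanishing diagonal entries force vanishing columns -/
lemma row_zero {R : Matrix ι ι 𝕜} (h : R.PosSemidef) {j : ι} (hj : re (R j j) = 0) (a : ι) :
    R a j = 0 := by
  have h1 : star (Pi.single j (1 : 𝕜)) ⬝ᵥ (R *ᵥ Pi.single j 1) = 0 := by
    rw [Matrix.mulVec_single_one, ← Pi.single_star, star_one, single_one_dotProduct,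
      Matrix.col_apply, diag_coe h j, hj]
    simp
  have h2 := (h.dotProduct_mulVec_zero_iff _).1 h1
  rw [Matrix.mulVec_single_one] at h2
  exact congrFun h2 a

lemma row_zero' {R : Matrix ι ι 𝕜} (h : R.PosSemidef) {j : ι} (hj : re (R j j) = 0) (a : ι) :
    R j a = 0 := by
  rw [← herm h a j, row_zero h hj a, star_zero]

lemma step_of_zero {R : Matrix ι ι 𝕜} (h : R.PosSemidef) {j : ι} (hj : re (R j j) = 0) :
    step R j = R := by
  ext a b
  simp only [step, Matrix.of_apply]
  rw [row_zero h hj a]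
  simp

/-- The residual of a positive semidefinite matrix is positive semidefinite. -/
lemma step_psd {R : Matrix ι ι 𝕜} (h : R.PosSemidef) (j : ι) : (step R j).PosSemidef := by
  by_cases hj : re (R j j) = 0
  · rw [step_of_zero h hj]; exact h
  · have hj' : R j j ≠ 0 := fun hc => hj (by rw [hc]; simp)
    set v : ι → 𝕜 := fun b => R j b / R j j with hv
    set T : Matrix ι ι 𝕜 := 1 - vecMulVec (Pi.single j 1) v with hT
    have h1 : R * T = step R j := by
      rw [hT, Matrix.mul_sub, Matrix.mul_one, Matrix.mul_vecMulVec, Matrix.mulVec_single_one]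
      ext a b
      simp only [step, Matrix.of_apply, Matrix.sub_apply, vecMulVec_apply, Matrix.col_apply, hv]
      ring
    have h2 : Tᴴ * R * T = step R j := by
      rw [Matrix.mul_assoc, h1, hT, Matrix.conjTranspose_sub, Matrix.conjTranspose_one,
        Matrix.conjTranspose_vecMulVec, Matrix.sub_mul, Matrix.one_mul, Matrix.vecMulVec_mul]
      have : (star (Pi.single j (1 : 𝕜)) : ι → 𝕜) ᵥ* step R j = 0 := by
        rw [← Pi.single_star, star_one, Matrix.single_one_vecMul]
        ext b
        simp only [Matrix.row_apply, step, Matrix.of_apply, Pi.zero_apply]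
        field_simp
        ring
      rw [this]
      simp
    rw [← h2]
    exact h.conjTranspose_mul_mul_same T

/-- the rank one downdate -/
noncomputable def dvec (R : Matrix ι ι 𝕜) (j : ι) : ι → 𝕜 :=
  fun a => ((Real.sqrt (re (R j j)))⁻¹ : ℝ) * R a j

lemma sub_step {R : Matrix ι ι 𝕜} (h : R.PosSemidef) (j : ι) :
    R - step R j = vecMulVec (dvec R j) (star (dvec R j)) := by
  ext a b
  simp only [step, Matrix.sub_apply, Matrix.of_apply, vecMulVec_apply, dvec, Pi.star_apply,
    star_mul', herm h b j, RCLike.star_def, RCLike.conj_ofReal]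
  by_cases hj : re (R j j) = 0
  · rw [row_zero h hj a]; simp
  · have hs : (Real.sqrt (re (R j j)))⁻¹ * (Real.sqrt (re (R j j)))⁻¹ = (re (R j j))⁻¹ := by
      rw [← mul_inv, Real.mul_self_sqrt (diag_re h j)]
    have hs' : (((Real.sqrt (re (R j j)))⁻¹ : ℝ) : 𝕜) * (((Real.sqrt (re (R j j)))⁻¹ : ℝ) : 𝕜) =
        (R j j)⁻¹ := by
      rw [← RCLike.ofReal_mul, hs, RCLike.ofReal_inv, ← diag_coe h j]
    calc R a b - (R a b - R a j * R j b / R j j) = (R j j)⁻¹ * (R a j * R j b) := by
          rw [div_eq_mul_inv]; ring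
      _ = _ := by rw [← hs']; ring

lemma sub_step_psd {R : Matrix ι ι 𝕜} (h : R.PosSemidef) (j : ι) : (R - step R j).PosSemidef := by
  rw [sub_step h j]
  exact posSemidef_vecMulVec_self_star _

lemma tr_step_le {R : Matrix ι ι 𝕜} (h : R.PosSemidef) (j : ι) : tr (step R j) ≤ tr R := by
  have := tr_nonneg (sub_step_psd h j)
  rw [tr_sub] at this
  linarith

section Expect

lemma expect_zero (f : Matrix ι ι 𝕜 → ℝ) (R : Matrix ι ι 𝕜) : expect f 0 R = f R := rfl

lemma expect_succ (f : Matrix ι ι 𝕜 → ℝ) (k : ℕ) (R : Matrix ι ι 𝕜) (h : tr R ≠ 0) :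
    expect f (k + 1) R = ∑ j, (re (R j j) / tr R) * expect f k (step R j) := by
  rw [expect, if_neg h]

lemma expect_of_tr_zero (f : Matrix ι ι 𝕜 → ℝ) (k : ℕ) (R : Matrix ι ι 𝕜) (h : tr R = 0) :
    expect f k R = f R := by
  cases k with
  | zero => rfl
  | succ k => rw [expect, if_pos h]

/-- Chapman–Kolmogorov -/
lemma expect_expect (f : Matrix ι ι 𝕜 → ℝ) (k l : ℕ) :
    ∀ R, expect (expect f l) k R = expect f (k + l) R := by
  induction k with
  | zero => intro R; rw [expect_zero, Nat.zero_add]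
  | succ k ih =>
    intro R
    by_cases h : tr R = 0
    · rw [expect_of_tr_zero _ _ _ h, expect_of_tr_zero _ _ _ h, expect_of_tr_zero _ _ _ h]
    · rw [expect_succ _ _ _ h, show k + 1 + l = (k + l) + 1 by ring, expect_succ _ _ _ h]
      exact Finset.sum_congr rfl fun j _ => by rw [ih]

lemma expect_add (f g : Matrix ι ι 𝕜 → ℝ) (k : ℕ) :
    ∀ R, expect (fun R => f R + g R) k R = expect f k R + expect g k R := by
  induction k with
  | zero => intro R; rfl
  | succ k ih =>
    intro R
    by_cases h : tr R = 0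
    · rw [expect_of_tr_zero _ _ _ h, expect_of_tr_zero _ _ _ h, expect_of_tr_zero _ _ _ h]
    · rw [expect_succ _ _ _ h, expect_succ _ _ _ h, expect_succ _ _ _ h, ← Finset.sum_add_distrib]
      exact Finset.sum_congr rfl fun j _ => by rw [ih]; ring

lemma expect_mul (c : ℝ) (f : Matrix ι ι 𝕜 → ℝ) (k : ℕ) :
    ∀ R, expect (fun R => c * f R) k R = c * expect f k R := by
  induction k with
  | zero => intro R; rfl
  | succ k ih =>
    intro R
    by_cases h : tr R = 0
    · rw [expect_of_tr_zero _ _ _ h, expect_of_tr_zero _ _ _ h]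
    · rw [expect_succ _ _ _ h, expect_succ _ _ _ h, Finset.mul_sum]
      exact Finset.sum_congr rfl fun j _ => by rw [ih]; ring

lemma sum_weights (R : Matrix ι ι 𝕜) (h : tr R ≠ 0) : ∑ j, re (R j j) / tr R = 1 := by
  rw [← Finset.sum_div]
  exact div_self h

lemma expect_const (c : ℝ) (k : ℕ) :
    ∀ R : Matrix ι ι 𝕜, expect (fun _ => c) k R = c := by
  induction k with
  | zero => intro R; rfl
  | succ k ih =>
    intro R
    by_cases h : tr R = 0
    · rw [expect_of_tr_zero _ _ _ h]
    · rw [expect_succ _ _ _ h]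
      simp only [ih]
      rw [← Finset.sum_mul, sum_weights R h, one_mul]

/-- A property of matrices that is preserved by the steps. -/
structure Invariant (P : Matrix ι ι 𝕜 → Prop) : Prop where
  psd : ∀ R, P R → R.PosSemidef
  step : ∀ R j, P R → P (step R j)

lemma Invariant.psd_self : Invariant (fun R : Matrix ι ι 𝕜 => R.PosSemidef) :=
  ⟨fun _ h => h, fun _ j h => step_psd h j⟩

lemma expect_mono {P : Matrix ι ι 𝕜 → Prop} (hP : Invariant P) {f g : Matrix ι ι 𝕜 → ℝ}
    (hfg : ∀ R, P R → f R ≤ g R) (k : ℕ) : ∀ R, P R → expect f k R ≤ expect g k R := by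
  induction k with
  | zero => exact hfg
  | succ k ih =>
    intro R hR
    by_cases h : tr R = 0
    · rw [expect_of_tr_zero _ _ _ h, expect_of_tr_zero _ _ _ h]; exact hfg R hR
    · rw [expect_succ _ _ _ h, expect_succ _ _ _ h]
      exact Finset.sum_le_sum fun j _ => mul_le_mul_of_nonneg_left (ih _ (hP.step R j hR))
        (div_nonneg (diag_re (hP.psd R hR) j) (tr_nonneg (hP.psd R hR)))

lemma expect_nonneg {P : Matrix ι ι 𝕜 → Prop} (hP : Invariant P) {f : Matrix ι ι 𝕜 → ℝ}
    (hf : ∀ R, P R → 0 ≤ f R) (k : ℕ) (R : Matrix ι ι 𝕜) (hR : P R) : 0 ≤ expect f k R := by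
  have := expect_mono hP (f := fun _ => 0) (g := f) hf k R hR
  rwa [expect_const] at this

/-- the expected trace decreases -/
lemma expect_tr_anti {R : Matrix ι ι 𝕜} (hR : R.PosSemidef) (k l : ℕ) :
    expect tr (k + l) R ≤ expect tr k R := by
  rw [← expect_expect]
  refine expect_mono Invariant.psd_self (fun S hS => ?_) k R hR
  have key : ∀ l (S : Matrix ι ι 𝕜), S.PosSemidef → expect tr l S ≤ tr S := by
    intro l
    induction l with
    | zero => intro S _; exact le_rfl
    | succ l ih =>
      intro S hS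
      by_cases h : tr S = 0
      · rw [expect_of_tr_zero _ _ _ h]
      · rw [expect_succ _ _ _ h]
        calc ∑ j, re (S j j) / tr S * expect tr l (step S j)
            ≤ ∑ j, re (S j j) / tr S * tr S := Finset.sum_le_sum fun j _ =>
              mul_le_mul_of_nonneg_left ((ih _ (step_psd hS j)).trans (tr_step_le hS j))
                (div_nonneg (diag_re hS j) (tr_nonneg hS))
          _ = tr S := by rw [← Finset.sum_mul, sum_weights S h, one_mul]
  exact key l S hS

end Expect

end Pool.Agent.R285.RPCK
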