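import Mathlib
import Pool.Agent.R285.RPCK

/-!
# Spectral facts for randomly pivoted Cholesky over `ℝ` or `ℂ`
-/

set_option autoImplicit false
set_option linter.unusedSectionVars false

namespace Pool.Agent.R285.RPCK

open Matrix Finset RCLike
open scoped ComplexOrder

variable {𝕜 : Type*} [RCLike 𝕜] {ι : Type*} [Fintype ι] [DecidableEq ι]

/-- squared Frobenius norm -/
noncomputable def frob (M : Matrix ι ι 𝕜) : ℝ := ∑ a, ∑ b, ‖M a b‖ ^ 2

lemma frob_eq (M : Matrix ι ι 𝕜) : frob M = re (Mᴴ * M).trace := by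
  rw [frob, Matrix.trace, map_sum, Finset.sum_comm]
  refine Finset.sum_congr rfl fun b _ => ?_
  rw [Matrix.diag_apply, Matrix.mul_apply, map_sum]
  refine Finset.sum_congr rfl fun a _ => ?_
  rw [Matrix.conjTranspose_apply, RCLike.star_def, RCLike.conj_mul, ← RCLike.ofReal_pow,
    RCLike.ofReal_re]

lemma frob_conj {U : Matrix ι ι 𝕜} (hU : Uᴴ * U = 1) (M : Matrix ι ι 𝕜) :
    frob (Uᴴ * M * U) = frob M := by
  have hU' : U * Uᴴ = 1 := mul_eq_one_comm.1 hU
  rw [frob_eq, frob_eq]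
  congr 1
  rw [Matrix.conjTranspose_mul, Matrix.conjTranspose_mul, Matrix.conjTranspose_conjTranspose]
  have : Uᴴ * (Mᴴ * U) * (Uᴴ * M * U) = Uᴴ * ((Mᴴ * M) * U) := by
    calc Uᴴ * (Mᴴ * U) * (Uᴴ * M * U) = Uᴴ * Mᴴ * (U * Uᴴ) * M * U := by
          simp only [Matrix.mul_assoc]
      _ = _ := by rw [hU']; simp only [Matrix.mul_assoc, Matrix.mul_one]
  rw [this, Matrix.trace_mul_comm, Matrix.mul_assoc, hU', Matrix.mul_one]

lemma tr_conj {U : Matrix ι ι 𝕜} (hU : Uᴴ * U = 1) (M : Matrix ι ι 𝕜) :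
    tr (Uᴴ * M * U) = tr M := by
  have hU' : U * Uᴴ = 1 := mul_eq_one_comm.1 hU
  rw [tr_eq, tr_eq, Matrix.mul_assoc, Matrix.trace_mul_comm, Matrix.mul_assoc, hU', Matrix.mul_one]

/-- diagonal entries in the basis given by the columns of `U` -/
noncomputable def dg (U M : Matrix ι ι 𝕜) (i : ι) : ℝ := re ((Uᴴ * M * U) i i)

lemma dg_add (U A B : Matrix ι ι 𝕜) (i : ι) : dg U (A + B) i = dg U A i + dg U B i := by
  simp [dg, Matrix.mul_add, Matrix.add_mul]

lemma dg_sub (U A B : Matrix ι ι 𝕜) (i : ι) : dg U (A - B) i = dg U A i - dg U B i := by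
  simp [dg, Matrix.mul_sub, Matrix.sub_mul]

lemma dg_smul (U A : Matrix ι ι 𝕜) (c : ℝ) (i : ι) : dg U ((c : 𝕜) • A) i = c * dg U A i := by
  rw [dg, Matrix.mul_smul, Matrix.smul_mul, Matrix.smul_apply, smul_eq_mul, RCLike.re_ofReal_mul]
  rfl

lemma dg_nonneg (U : Matrix ι ι 𝕜) {M : Matrix ι ι 𝕜} (h : M.PosSemidef) (i : ι) :
    0 ≤ dg U M i := diag_re (h.conjTranspose_mul_mul_same U) i

lemma dg_one {U : Matrix ι ι 𝕜} (hU : Uᴴ * U = 1) (i : ι) : dg U 1 i = 1 := by
  simp [dg, hU]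

lemma dg_sum {U : Matrix ι ι 𝕜} (hU : Uᴴ * U = 1) (M : Matrix ι ι 𝕜) :
    ∑ i, dg U M i = tr M := by
  rw [← tr_conj hU]; rfl

lemma dg_mono (U : Matrix ι ι 𝕜) {M N : Matrix ι ι 𝕜} (h : (N - M).PosSemidef) (i : ι) :
    dg U M i ≤ dg U N i := by
  have := dg_nonneg U h i
  rw [dg_sub] at this
  linarith

lemma sum_sq_le_frob {U : Matrix ι ι 𝕜} (hU : Uᴴ * U = 1) (M : Matrix ι ι 𝕜) (T : Finset ι) :
    ∑ i ∈ T, dg U M i ^ 2 ≤ frob M := by
  rw [← frob_conj hU]
  calc ∑ i ∈ T, dg U M i ^ 2 ≤ ∑ i ∈ T, ‖(Uᴴ * M * U) i i‖ ^ 2 := by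
        refine Finset.sum_le_sum fun i _ => ?_
        rw [dg, ← sq_abs]
        exact pow_le_pow_left₀ (abs_nonneg _) (RCLike.abs_re_le_norm _) 2
    _ ≤ ∑ i, ‖(Uᴴ * M * U) i i‖ ^ 2 :=
        Finset.sum_le_sum_of_subset_of_nonneg (Finset.subset_univ _) fun _ _ _ => by positivity
    _ ≤ frob (Uᴴ * M * U) := by
        refine Finset.sum_le_sum fun i _ => ?_
        exact Finset.single_le_sum (f := fun b => ‖(Uᴴ * M * U) i b‖ ^ 2)
          (fun _ _ => by positivity) (Finset.mem_univ i)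

/-- the eigenvector matrix -/
noncomputable def UA {A : Matrix ι ι 𝕜} (hA : A.IsHermitian) : Matrix ι ι 𝕜 :=
  (hA.eigenvectorUnitary : Matrix ι ι 𝕜)

lemma UA_unit {A : Matrix ι ι 𝕜} (hA : A.IsHermitian) : (UA hA)ᴴ * UA hA = 1 :=
  (Matrix.mem_unitaryGroup_iff').1 hA.eigenvectorUnitary.2

lemma UA_unit' {A : Matrix ι ι 𝕜} (hA : A.IsHermitian) : UA hA * (UA hA)ᴴ = 1 :=
  (Matrix.mem_unitaryGroup_iff).1 hA.eigenvectorUnitary.2

lemma spectral {A : Matrix ι ι 𝕜} (hA : A.IsHermitian) :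
    A = UA hA * diagonal (fun i => ((hA.eigenvalues i : ℝ) : 𝕜)) * (UA hA)ᴴ := by
  have h := hA.spectral_theorem
  rw [Unitary.conjStarAlgAut_apply, Matrix.star_eq_conjTranspose] at h
  exact h

lemma UA_conj {A : Matrix ι ι 𝕜} (hA : A.IsHermitian) :
    (UA hA)ᴴ * A * UA hA = diagonal (fun i => ((hA.eigenvalues i : ℝ) : 𝕜)) := by
  have h := spectral hA
  calc (UA hA)ᴴ * A * UA hA = (UA hA)ᴴ * (UA hA * diagonal (fun i => ((hA.eigenvalues i : ℝ) : 𝕜)) *
        (UA hA)ᴴ) * UA hA := by rw [← h]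
    _ = ((UA hA)ᴴ * UA hA) * diagonal (fun i => ((hA.eigenvalues i : ℝ) : 𝕜)) *
        ((UA hA)ᴴ * UA hA) := by simp only [Matrix.mul_assoc]
    _ = _ := by rw [UA_unit]; simp

lemma dg_eig {A : Matrix ι ι 𝕜} (hA : A.IsHermitian) (i : ι) :
    dg (UA hA) A i = hA.eigenvalues i := by
  rw [dg, UA_conj]; simp

lemma sum_eigenvalues {A : Matrix ι ι 𝕜} (hA : A.IsHermitian) :
    ∑ i, hA.eigenvalues i = tr A := by
  rw [← dg_sum (UA_unit hA)]
  exact Finset.sum_congr rfl fun i _ => (dg_eig hA i).symm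

lemma det_shift {A : Matrix ι ι 𝕜} (hA : A.IsHermitian) (t : ℝ) :
    ((t : 𝕜) • (1 : Matrix ι ι 𝕜) + A).det = ((∏ i, (t + hA.eigenvalues i) : ℝ) : 𝕜) := by
  have h1 : (t : 𝕜) • (1 : Matrix ι ι 𝕜) + A =
      UA hA * diagonal (fun i => ((t + hA.eigenvalues i : ℝ) : 𝕜)) * (UA hA)ᴴ := by
    have h2 : diagonal (fun i => ((t + hA.eigenvalues i : ℝ) : 𝕜)) =
        (t : 𝕜) • (1 : Matrix ι ι 𝕜) + diagonal (fun i => ((hA.eigenvalues i : ℝ) : 𝕜)) := by
      rw [← Matrix.diagonal_one, ← Matrix.diagonal_smul, Matrix.diagonal_add]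
      congr 1
      funext i
      simp
    rw [h2, Matrix.mul_add, Matrix.add_mul, ← spectral hA, Matrix.mul_smul, Matrix.mul_one,
      Matrix.smul_mul, UA_unit']
  rw [h1, Matrix.det_mul, Matrix.det_mul, mul_right_comm, ← Matrix.det_mul, UA_unit',
    Matrix.det_one, one_mul, Matrix.det_diagonal, RCLike.ofReal_prod]

/-- `∑_{i > r} λ_i(A)` = `tr (A - [A]_r)`, where `λ_1 ≥ λ_2 ≥ …` are the eigenvalues of `A` -/
noncomputable def tailSum {A : Matrix ι ι 𝕜} (hA : A.IsHermitian) (r : ℕ) : ℝ :=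
  ∑ i : Fin (Fintype.card ι), if r ≤ (i : ℕ) then hA.eigenvalues₀ i else 0

/-- the numbering of the eigenvalues -/
noncomputable def idx (ι : Type*) [Fintype ι] : ι ≃ Fin (Fintype.card ι) :=
  (Fintype.equivOfCardEq (Fintype.card_fin _)).symm

lemma eig_idx {A : Matrix ι ι 𝕜} (hA : A.IsHermitian) (i : ι) :
    hA.eigenvalues i = hA.eigenvalues₀ (idx ι i) := rfl

lemma tailSum_eq {A : Matrix ι ι 𝕜} (hA : A.IsHermitian) (r : ℕ) :
    tailSum hA r = ∑ i : ι, if r ≤ (idx ι i : ℕ) then hA.eigenvalues i else 0 := by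
  rw [tailSum, ← Equiv.sum_comp (idx ι)]
  rfl

/-- weighted averages of the eigenvalues dominate the sum of the smallest ones -/
lemma sorted_ineq {A : Matrix ι ι 𝕜} (hA : A.PosSemidef) (m : ℕ) (p : ι → ℝ)
    (h0 : ∀ i, 0 ≤ p i) (h1 : ∀ i, p i ≤ 1) (hs : (Fintype.card ι : ℝ) - m ≤ ∑ i, p i) :
    tailSum hA.1 m ≤ ∑ i, hA.1.eigenvalues i * p i := by
  rw [tailSum_eq]
  rcases lt_or_ge m (Fintype.card ι) with hm | hm
  · set c := hA.1.eigenvalues₀ ⟨m, hm⟩ with hc
    have hc0 : 0 ≤ c := by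
      have := hA.eigenvalues_nonneg ((idx ι).symm ⟨m, hm⟩)
      rw [eig_idx, Equiv.apply_symm_apply] at this
      exact this
    have key : ∀ i : ι, c * (p i - if m ≤ (idx ι i : ℕ) then 1 else 0) ≤
        hA.1.eigenvalues i * p i - if m ≤ (idx ι i : ℕ) then hA.1.eigenvalues i else 0 := by
      intro i
      split_ifs with h
      · have h2 : hA.1.eigenvalues i ≤ c := by
          rw [eig_idx, hc]
          exact hA.1.eigenvalues₀_antitone h
        have h3 := h1 i
        nlinarith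
      · have h2 : c ≤ hA.1.eigenvalues i := by
          rw [eig_idx, hc]
          exact hA.1.eigenvalues₀_antitone (le_of_lt (not_le.1 h))
        have h3 := h0 i
        nlinarith
    have hsum := Finset.sum_le_sum fun i (_ : i ∈ Finset.univ) => key i
    rw [← Finset.mul_sum, Finset.sum_sub_distrib, Finset.sum_sub_distrib] at hsum
    have hcard : ∑ i : ι, (if m ≤ (idx ι i : ℕ) then (1 : ℝ) else 0) =
        (Fintype.card ι : ℝ) - m := by
      rw [Equiv.sum_comp (idx ι) (fun k : Fin (Fintype.card ι) => if m ≤ (k : ℕ) then (1 : ℝ) else 0),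
        Fin.sum_univ_eq_sum_range (fun k => if m ≤ k then (1 : ℝ) else 0), ← Finset.sum_filter]
      have : Finset.filter (fun k => m ≤ k) (Finset.range (Fintype.card ι)) =
          Finset.Ico m (Fintype.card ι) := by
        ext k; simp [and_comm]
      rw [this, Finset.sum_const, Nat.card_Ico, nsmul_eq_mul, mul_one, Nat.cast_sub hm.le]
    rw [hcard] at hsum
    have : 0 ≤ c * (∑ i, p i - ((Fintype.card ι : ℝ) - m)) := mul_nonneg hc0 (by linarith)
    linarith
  · have : ∑ i : ι, (if m ≤ (idx ι i : ℕ) then hA.1.eigenvalues i else 0) = 0 := by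
      refine Finset.sum_eq_zero fun i _ => ?_
      rw [if_neg]
      have := (idx ι i).2
      omega
    rw [this]
    exact Finset.sum_nonneg fun i _ => mul_nonneg (hA.eigenvalues_nonneg i) (h0 i)

/-- If `A - R = W W*` with `W` of `m` columns and `R` is positive semidefinite, then
`tr R ≥ ∑_{i > m} λ_i(A)`. -/
lemma tailSum_le_tr {A R : Matrix ι ι 𝕜} (hA : A.PosSemidef) (hR : R.PosSemidef) (m : ℕ)
    (W : Matrix ι (Fin m) 𝕜) (h : A = R + W * Wᴴ) : tailSum hA.1 m ≤ tr R := by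
  have hH : (W * Wᴴ).PosSemidef := posSemidef_self_mul_conjTranspose W
  set U := UA hH.1 with hU
  set z : ι → 𝕜 := fun i => if hH.1.eigenvalues i = 0 then 1 else 0 with hz
  set Z : Matrix ι ι 𝕜 := U * diagonal z * Uᴴ with hZ
  have hzpsd : (diagonal z).PosSemidef := by
    refine PosSemidef.diagonal fun i => ?_
    simp only [hz]
    split_ifs
    · exact zero_le_one
    · exact le_rfl
  have hzpsd' : (1 - diagonal z).PosSemidef := by
    have : 1 - diagonal z = diagonal (fun i => 1 - z i) := by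
      rw [← Matrix.diagonal_one, Matrix.diagonal_sub]
    rw [this]
    refine PosSemidef.diagonal fun i => ?_
    simp only [hz, Pi.zero_apply]
    split_ifs
    · simp
    · simp
  have hZpsd : Z.PosSemidef := hzpsd.mul_mul_conjTranspose_same U
  have hZpsd' : (1 - Z).PosSemidef := by
    have : 1 - Z = U * (1 - diagonal z) * Uᴴ := by
      rw [Matrix.mul_sub, Matrix.sub_mul, Matrix.mul_one, UA_unit']
    rw [this]
    exact hzpsd'.mul_mul_conjTranspose_same U
  have hZZ : Z * Z = Z := by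
    have hzz : diagonal z * diagonal z = diagonal z := by
      rw [Matrix.diagonal_mul_diagonal]
      congr 1
      funext i
      simp only [hz]
      split_ifs <;> simp
    calc Z * Z = U * (diagonal z * (Uᴴ * U) * diagonal z) * Uᴴ := by
          rw [hZ]; simp only [Matrix.mul_assoc]
      _ = Z := by rw [UA_unit, Matrix.mul_one, hzz]
  have hZH : Z * (W * Wᴴ) = 0 := by
    conv_lhs => rw [spectral hH.1]
    calc Z * (U * diagonal (fun i => ((hH.1.eigenvalues i : ℝ) : 𝕜)) * Uᴴ)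
        = U * (diagonal z * (Uᴴ * U) * diagonal (fun i => ((hH.1.eigenvalues i : ℝ) : 𝕜))) * Uᴴ := by
          rw [hZ]; simp only [Matrix.mul_assoc]
      _ = 0 := by
          rw [UA_unit, Matrix.mul_one, Matrix.diagonal_mul_diagonal]
          have : (fun i => z i * ((hH.1.eigenvalues i : ℝ) : 𝕜)) = fun _ => 0 := by
            funext i
            simp only [hz]
            split_ifs with h
            · rw [h]; simp
            · simp
          rw [this, Matrix.diagonal_zero, Matrix.mul_zero, Matrix.zero_mul]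
  -- trace comparison
  have hZher : Zᴴ = Z := hZpsd.1
  have h1 : tr (Z * R * Z) ≤ tr R := by
    have e1 : tr (Z * R * Z) = tr (Z * R) := by
      rw [tr_eq, tr_eq, Matrix.trace_mul_comm, ← Matrix.mul_assoc, hZZ]
    have h2 : ((1 - Z) * R * (1 - Z)).PosSemidef := by
      have := hR.conjTranspose_mul_mul_same (1 - Z)
      rwa [Matrix.conjTranspose_sub, Matrix.conjTranspose_one, hZher] at this
    have h3 := tr_nonneg h2
    have e2 : (1 - Z) * R * (1 - Z) = R - Z * R - R * Z + Z * R * Z := by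
      simp only [Matrix.mul_sub, Matrix.sub_mul, Matrix.mul_one, Matrix.one_mul]
      abel
    have e3 : tr (R * Z) = tr (Z * R) := by rw [tr_eq, tr_eq, Matrix.trace_mul_comm]
    rw [e2, tr_add, tr_sub, tr_sub, e3, e1] at h3
    rw [e1]
    linarith
  have h2 : Z * R * Z = Z * A * Z := by
    rw [h, Matrix.mul_add, hZH, add_zero]
  have h3 : tr (Z * A * Z) = ∑ i, hA.1.eigenvalues i * dg (UA hA.1) Z i := by
    set V := UA hA.1 with hV
    have e1 : tr (Z * A * Z) = tr (A * Z) := by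
      rw [tr_eq, tr_eq, Matrix.trace_mul_comm, ← Matrix.mul_assoc, hZZ, Matrix.trace_mul_comm]
    rw [e1, ← tr_conj (UA_unit hA.1)]
    have e2 : (UA hA.1)ᴴ * (A * Z) * UA hA.1 =
        diagonal (fun i => ((hA.1.eigenvalues i : ℝ) : 𝕜)) * (Vᴴ * Z * V) := by
      rw [← UA_conj hA.1]
      calc (UA hA.1)ᴴ * (A * Z) * UA hA.1 = Vᴴ * A * 1 * Z * V := by
            rw [hV]; simp only [Matrix.mul_assoc, Matrix.mul_one]
        _ = Vᴴ * A * (V * Vᴴ) * Z * V := by rw [UA_unit']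
        _ = _ := by simp only [Matrix.mul_assoc]; rfl
    rw [e2, tr]
    refine Finset.sum_congr rfl fun i _ => ?_
    rw [Matrix.diagonal_mul, RCLike.re_ofReal_mul]
    rfl
  rw [h2, h3] at h1
  refine le_trans (sorted_ineq hA m _ (fun i => dg_nonneg _ hZpsd i) (fun i => ?_) ?_) h1
  · have := dg_nonneg (UA hA.1) hZpsd' i
    rw [dg_sub, dg_one (UA_unit hA.1)] at this
    linarith
  · rw [dg_sum (UA_unit hA.1)]
    have e1 : tr Z = tr (diagonal z) := by
      rw [hZ, tr_eq, tr_eq, Matrix.mul_assoc, Matrix.trace_mul_comm, Matrix.mul_assoc, UA_unit,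
        Matrix.mul_one]
    have e2 : tr (diagonal z) = ∑ i, if hH.1.eigenvalues i = 0 then (1 : ℝ) else 0 := by
      rw [tr]
      refine Finset.sum_congr rfl fun i _ => ?_
      rw [Matrix.diagonal_apply_eq]
      simp only [hz]
      split_ifs <;> simp
    have e3 := hH.1.rank_eq_card_non_zero_eigs
    have e4 : (W * Wᴴ).rank ≤ m := by
      rw [Matrix.rank_self_mul_conjTranspose]
      exact (Matrix.rank_le_card_width W).trans (by simp)
    have e5 : ∑ i, (if hH.1.eigenvalues i = 0 then (1 : ℝ) else 0) =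
        (Fintype.card ι : ℝ) - Fintype.card {i // hH.1.eigenvalues i ≠ 0} := by
      rw [Fintype.card_subtype]
      have : ((Finset.univ.filter fun i => hH.1.eigenvalues i ≠ 0).card : ℝ) =
          ∑ i, if hH.1.eigenvalues i = 0 then (0 : ℝ) else 1 := by
        rw [Finset.card_filter, Nat.cast_sum]
        refine Finset.sum_congr rfl fun i _ => ?_
        split_ifs <;> simp_all
      rw [this, eq_sub_iff_add_eq, ← Finset.sum_add_distrib]
      have h8 : ∀ i, ((if hH.1.eigenvalues i = 0 then (1 : ℝ) else 0) +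
          if hH.1.eigenvalues i = 0 then (0 : ℝ) else 1) = 1 := by
        intro i; split_ifs <;> simp
      rw [Finset.sum_congr rfl fun i _ => h8 i]
      simp
    rw [e1, e2, e5]
    have e6 : (Fintype.card {i // hH.1.eigenvalues i ≠ 0} : ℝ) ≤ m := by
      rw [← e3]; exact_mod_cast e4
    linarith

end Pool.Agent.R285.RPCK
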