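import Mathlib
import Pool.Agent.R285.RPCSpec

/-!
# The potential `tr (R - a)_+` for randomly pivoted Cholesky
-/

set_option autoImplicit false
set_option linter.unusedSectionVars false

namespace Pool.Agent.R285.RPCK

open Matrix Finset RCLike
open scoped ComplexOrder

variable {𝕜 : Type*} [RCLike 𝕜] {ι : Type*} [Fintype ι] [DecidableEq ι]

/-- `tr (R - a)_+` -/
noncomputable def pot (a : ℝ) (R : Matrix ι ι 𝕜) : ℝ :=
  if h : R.IsHermitian then ∑ i, max (h.eigenvalues i - a) 0 else 0

lemma pot_eq (a : ℝ) {R : Matrix ι ι 𝕜} (h : R.IsHermitian) :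
    pot a R = ∑ i, max (h.eigenvalues i - a) 0 := by
  rw [pot, dif_pos h]

lemma pot_nonneg (a : ℝ) (R : Matrix ι ι 𝕜) : 0 ≤ pot a R := by
  rw [pot]
  split_ifs
  · exact Finset.sum_nonneg fun _ _ => le_max_right _ _
  · exact le_rfl

lemma tr_mul_eq {R : Matrix ι ι 𝕜} (hR : R.IsHermitian) (P : Matrix ι ι 𝕜) :
    tr (R * P) = ∑ i, hR.eigenvalues i * dg (UA hR) P i := by
  rw [← tr_conj (UA_unit hR)]
  have e2 : (UA hR)ᴴ * (R * P) * UA hR =
      diagonal (fun i => ((hR.eigenvalues i : ℝ) : 𝕜)) * ((UA hR)ᴴ * P * UA hR) := by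
    rw [← UA_conj hR]
    calc (UA hR)ᴴ * (R * P) * UA hR = (UA hR)ᴴ * R * 1 * P * UA hR := by
          simp only [Matrix.mul_assoc, Matrix.mul_one]
      _ = (UA hR)ᴴ * R * (UA hR * (UA hR)ᴴ) * P * UA hR := by rw [UA_unit']
      _ = _ := by simp only [Matrix.mul_assoc]
  rw [e2, tr]
  refine Finset.sum_congr rfl fun i _ => ?_
  rw [Matrix.diagonal_mul, RCLike.re_ofReal_mul]
  rfl

lemma tr_mul_comm (A B : Matrix ι ι 𝕜) : tr (A * B) = tr (B * A) := by
  rw [tr_eq, tr_eq, Matrix.trace_mul_comm]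

lemma idem_psd {W : Matrix ι ι 𝕜} (h1 : Wᴴ = W) (h2 : W * W = W) : W.PosSemidef := by
  have := posSemidef_conjTranspose_mul_self W
  rwa [h1, h2] at this

/-- the effect of one step on the potential -/
lemma pot_step {R : Matrix ι ι 𝕜} (hR : R.PosSemidef) {a : ℝ} (ha : 0 < a) (j : ι)
    (hj : 0 < re (R j j)) :
    pot a (step R j) ≤ ∑ i, max (hR.1.eigenvalues i - a) 0 *
      (1 - hR.1.eigenvalues i * ‖UA hR.1 j i‖ ^ 2 / re (R j j)) := by
  have hj' : R j j ≠ 0 := fun hc => hj.ne' (by rw [hc]; simp)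
  have hR' := step_psd hR j
  set R' := step R j with hR'def
  set U := UA hR.1 with hU
  set lam := hR.1.eigenvalues with hlam
  have hUU : Uᴴ * U = 1 := UA_unit hR.1
  have hUU' : U * Uᴴ = 1 := UA_unit' hR.1
  -- the square root of `R`
  set sq : ι → 𝕜 := fun i => ((Real.sqrt (lam i) : ℝ) : 𝕜) with hsq
  set H : Matrix ι ι 𝕜 := U * diagonal sq * Uᴴ with hH
  have hsq2 : ∀ i, sq i * sq i = ((lam i : ℝ) : 𝕜) := by
    intro i
    simp only [hsq]
    rw [← RCLike.ofReal_mul, Real.mul_self_sqrt (hR.eigenvalues_nonneg i)]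
  have hHH : H * H = R := by
    calc H * H = U * (diagonal sq * (Uᴴ * U) * diagonal sq) * Uᴴ := by
          rw [hH]; simp only [Matrix.mul_assoc]
      _ = U * diagonal (fun i => ((lam i : ℝ) : 𝕜)) * Uᴴ := by
          rw [hUU, Matrix.mul_one, Matrix.diagonal_mul_diagonal]
          congr 3
          funext i
          exact hsq2 i
      _ = R := (spectral hR.1).symm
  have hHher : Hᴴ = H := by
    rw [hH, Matrix.conjTranspose_mul, Matrix.conjTranspose_mul, Matrix.conjTranspose_conjTranspose,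
      Matrix.diagonal_conjTranspose, Matrix.mul_assoc]
    congr 3
    funext i
    simp [hsq]
  -- the rank one projection `N = u u*`
  set e : ι → 𝕜 := Pi.single j 1 with he
  set G : Matrix ι ι 𝕜 := vecMulVec e e with hG
  have hGher : Gᴴ = G := by
    ext a b
    simp only [hG, he, Matrix.conjTranspose_apply, vecMulVec_apply, star_mul', Pi.single_apply]
    by_cases h1 : a = j <;> by_cases h2 : b = j <;> simp [h1, h2]
  have hGRG : G * R * G = (R j j) • G := by
    rw [hG, Matrix.vecMulVec_mul, Matrix.vecMulVec_mul_vecMulVec, he, Matrix.single_one_vecMul,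
      dotProduct_single_one, Matrix.row_apply, Matrix.vecMulVec_smul]
  set N : Matrix ι ι 𝕜 := (R j j)⁻¹ • (H * G * H) with hN
  have hNN : N * N = N := by
    rw [hN, Matrix.smul_mul, Matrix.mul_smul, smul_smul]
    have : H * G * H * (H * G * H) = (R j j) • (H * G * H) := by
      calc H * G * H * (H * G * H) = H * (G * (H * H) * G) * H := by
            simp only [Matrix.mul_assoc]
        _ = H * ((R j j) • G) * H := by rw [hHH, hGRG]
        _ = _ := by rw [Matrix.mul_smul, Matrix.smul_mul]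
    rw [this, smul_smul]
    congr 1
    field_simp
  have hNher : Nᴴ = N := by
    have h1 : star (R j j)⁻¹ = (R j j)⁻¹ := by
      rw [diag_coe hR j, ← RCLike.ofReal_inv, RCLike.star_def, RCLike.conj_ofReal]
    have h2 : (H * G * H)ᴴ = H * G * H := by
      rw [Matrix.conjTranspose_mul (H * G) H, Matrix.conjTranspose_mul H G, hHher, hGher]
      exact (Matrix.mul_assoc H G H).symm
    rw [hN, Matrix.conjTranspose_smul, h1, h2]
  have hHNH : H * N * H = R - R' := by
    rw [hN, Matrix.mul_smul, Matrix.smul_mul]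
    have h1 : H * (H * G * H) * H = R * G * R := by
      calc H * (H * G * H) * H = (H * H) * G * (H * H) := by simp only [Matrix.mul_assoc]
        _ = _ := by rw [hHH]
    rw [h1, hG, Matrix.mul_vecMulVec, Matrix.vecMulVec_mul, he, Matrix.mulVec_single_one,
      Matrix.single_one_vecMul]
    ext a b
    simp only [hR'def, step, Matrix.sub_apply, Matrix.of_apply, Matrix.smul_apply, vecMulVec_apply,
      Matrix.col_apply, Matrix.row_apply, smul_eq_mul]
    ring
  have hR'H : H * (1 - N) * H = R' := by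
    rw [Matrix.mul_sub, Matrix.sub_mul, Matrix.mul_one, hHH, hHNH, sub_sub_cancel]
  set K : Matrix ι ι 𝕜 := (1 - N) * H with hK
  have h1N : (1 - N) * (1 - N) = 1 - N := by
    rw [Matrix.mul_sub, Matrix.sub_mul, Matrix.sub_mul, hNN]
    simp
  have hKher : Kᴴ = H * (1 - N) := by
    rw [hK, Matrix.conjTranspose_mul, Matrix.conjTranspose_sub, Matrix.conjTranspose_one, hNher,
      hHher]
  have hKK : Kᴴ * K = R' := by
    calc Kᴴ * K = H * ((1 - N) * (1 - N)) * H := by rw [hKher, hK]; simp only [Matrix.mul_assoc]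
      _ = R' := by rw [h1N, hR'H]
  have hKRK : Kᴴ * R * K = R' * R' := by
    calc Kᴴ * R * K = (H * (1 - N) * H) * (H * (1 - N) * H) := by
          rw [hKher, hK, ← hHH]; simp only [Matrix.mul_assoc]
      _ = _ := by rw [hR'H]
  have hNK : N * K = 0 := by
    rw [hK, ← Matrix.mul_assoc, Matrix.mul_sub, hNN, Matrix.mul_one, sub_self, Matrix.zero_mul]
  -- the spectral part of `R'` above `a`
  set U' := UA hR'.1 with hU'
  set mu := hR'.1.eigenvalues with hmu
  set d : ι → 𝕜 := fun k => if a < mu k then (((Real.sqrt (mu k))⁻¹ : ℝ) : 𝕜) else 0 with hd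
  set Z : Matrix ι ι 𝕜 := K * U' * diagonal d with hZ
  have hdher : (diagonal d)ᴴ = diagonal d := by
    rw [Matrix.diagonal_conjTranspose]
    congr 1
    funext k
    simp only [hd, Pi.star_apply]
    split_ifs <;> simp
  have hdm : ∀ k, d k * ((mu k : ℝ) : 𝕜) * d k = if a < mu k then 1 else 0 := by
    intro k
    simp only [hd]
    split_ifs with h
    · have h0 : 0 < mu k := ha.trans h
      rw [← RCLike.ofReal_mul, ← RCLike.ofReal_mul]
      have : (Real.sqrt (mu k))⁻¹ * mu k * (Real.sqrt (mu k))⁻¹ = 1 := by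
        have h1 := Real.mul_self_sqrt h0.le
        have h2 : Real.sqrt (mu k) ≠ 0 := (Real.sqrt_pos.2 h0).ne'
        field_simp
        nlinarith
      rw [this, RCLike.ofReal_one]
    · simp
  have hZher : Zᴴ = diagonal d * U'ᴴ * Kᴴ := by
    rw [hZ, Matrix.conjTranspose_mul, Matrix.conjTranspose_mul, hdher, Matrix.mul_assoc]
  have hZZ : Zᴴ * Z = diagonal (fun k => if a < mu k then 1 else 0) := by
    calc Zᴴ * Z = diagonal d * (U'ᴴ * (Kᴴ * K) * U') * diagonal d := by
          rw [hZher, hZ]; simp only [Matrix.mul_assoc]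
      _ = diagonal d * diagonal (fun k => ((mu k : ℝ) : 𝕜)) * diagonal d := by
          rw [hKK, UA_conj hR'.1]
      _ = _ := by
          rw [Matrix.diagonal_mul_diagonal, Matrix.diagonal_mul_diagonal]
          congr 1
          funext k
          exact hdm k
  have hZRZ : Zᴴ * R * Z = diagonal (fun k => if a < mu k then ((mu k : ℝ) : 𝕜) else 0) := by
    calc Zᴴ * R * Z = diagonal d * (U'ᴴ * (Kᴴ * R * K) * U') * diagonal d := by
          rw [hZher, hZ]; simp only [Matrix.mul_assoc]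
      _ = diagonal d * ((U'ᴴ * R' * U') * (U'ᴴ * R' * U')) * diagonal d := by
          rw [hKRK]
          congr 2
          calc U'ᴴ * (R' * R') * U' = U'ᴴ * R' * 1 * R' * U' := by
                simp only [Matrix.mul_assoc, Matrix.one_mul]
            _ = U'ᴴ * R' * (U' * U'ᴴ) * R' * U' := by rw [UA_unit']
            _ = _ := by simp only [Matrix.mul_assoc]
      _ = _ := by
          rw [UA_conj hR'.1, Matrix.diagonal_mul_diagonal, Matrix.diagonal_mul_diagonal,
            Matrix.diagonal_mul_diagonal]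
          congr 1
          funext k
          have := hdm k
          calc d k * (((mu k : ℝ) : 𝕜) * ((mu k : ℝ) : 𝕜)) * d k =
                ((mu k : ℝ) : 𝕜) * (d k * ((mu k : ℝ) : 𝕜) * d k) := by ring
            _ = _ := by rw [this]; split_ifs <;> simp
  have hZPi : Z * diagonal (fun k => if a < mu k then 1 else 0) = Z := by
    rw [hZ, Matrix.mul_assoc, Matrix.diagonal_mul_diagonal]
    congr 2
    funext k
    simp only [hd]
    split_ifs <;> simp
  set P : Matrix ι ι 𝕜 := Z * Zᴴ with hP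
  have hPher : Pᴴ = P := by
    rw [hP, Matrix.conjTranspose_mul, Matrix.conjTranspose_conjTranspose]
  have hPP : P * P = P := by
    calc P * P = Z * (Zᴴ * Z) * Zᴴ := by rw [hP]; simp only [Matrix.mul_assoc]
      _ = P := by rw [hZZ, hZPi]
  have hNP : N * P = 0 := by
    calc N * P = (N * K) * (U' * diagonal d * Zᴴ) := by
          rw [hP, hZ]; simp only [Matrix.mul_assoc]
      _ = 0 := by rw [hNK, Matrix.zero_mul]
  have hPN : P * N = 0 := by
    have := congrArg Matrix.conjTranspose hNP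
    rwa [Matrix.conjTranspose_mul, hPher, hNher, Matrix.conjTranspose_zero] at this
  have hW : (1 - N - P).PosSemidef := by
    refine idem_psd ?_ ?_
    · rw [Matrix.conjTranspose_sub, Matrix.conjTranspose_sub, Matrix.conjTranspose_one, hNher, hPher]
    · simp only [Matrix.mul_sub, Matrix.sub_mul, Matrix.mul_one, Matrix.one_mul, hNN, hPP, hNP, hPN]
      abel
  -- traces
  have htP : tr P = ∑ k, if a < mu k then (1 : ℝ) else 0 := by
    rw [hP, tr_mul_comm, hZZ, tr]
    refine Finset.sum_congr rfl fun k _ => ?_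
    rw [Matrix.diagonal_apply_eq]
    split_ifs <;> simp
  have htRP : tr (R * P) = ∑ k, if a < mu k then mu k else 0 := by
    rw [hP, ← Matrix.mul_assoc, tr_mul_comm, ← Matrix.mul_assoc, hZRZ, tr]
    refine Finset.sum_congr rfl fun k _ => ?_
    rw [Matrix.diagonal_apply_eq]
    split_ifs <;> simp
  have hpot : pot a R' = tr (R * P) - a * tr P := by
    rw [pot_eq a hR'.1, htP, htRP, Finset.mul_sum, ← Finset.sum_sub_distrib]
    refine Finset.sum_congr rfl fun k _ => ?_
    split_ifs with h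
    · rw [mul_one, max_eq_left]
      exact sub_nonneg.2 h.le
    · rw [mul_zero, sub_zero, max_eq_right]
      exact sub_nonpos.2 (not_lt.1 h)
  have hdgN : ∀ i, dg U N i = lam i * ‖U j i‖ ^ 2 / re (R j j) := by
    intro i
    have h1 : Uᴴ * N * U = (R j j)⁻¹ • (diagonal sq * (Uᴴ * G * U) * diagonal sq) := by
      rw [hN, Matrix.mul_smul, Matrix.smul_mul]
      congr 1
      calc Uᴴ * (H * G * H) * U = (Uᴴ * U) * diagonal sq * (Uᴴ * G * U) * diagonal sq * (Uᴴ * U) := by
            rw [hH]; simp only [Matrix.mul_assoc]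
        _ = _ := by rw [hUU]; simp only [Matrix.one_mul, Matrix.mul_one, Matrix.mul_assoc]
    have h2 : (Uᴴ * G * U) i i = ((‖U j i‖ ^ 2 : ℝ) : 𝕜) := by
      rw [hG, Matrix.mul_vecMulVec, Matrix.vecMulVec_mul, he, Matrix.mulVec_single_one,
        Matrix.single_one_vecMul, vecMulVec_apply, Matrix.col_apply, Matrix.row_apply,
        Matrix.conjTranspose_apply, RCLike.star_def, RCLike.conj_mul, RCLike.ofReal_pow]
    rw [dg, h1, Matrix.smul_apply, Matrix.mul_diagonal, Matrix.diagonal_mul, h2, smul_eq_mul]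
    have h3 : (R j j)⁻¹ * (sq i * ((‖U j i‖ ^ 2 : ℝ) : 𝕜) * sq i) =
        (((re (R j j))⁻¹ * (lam i * ‖U j i‖ ^ 2) : ℝ) : 𝕜) := by
      rw [RCLike.ofReal_mul, RCLike.ofReal_inv, ← diag_coe hR j, RCLike.ofReal_mul (lam i),
        ← hsq2 i]
      ring
    rw [h3, RCLike.ofReal_re]
    ring
  rw [hpot, tr_mul_eq hR.1, ← dg_sum hUU P, Finset.mul_sum, ← Finset.sum_sub_distrib]
  refine Finset.sum_le_sum fun i _ => ?_
  have h1 := dg_nonneg U hW i
  rw [dg_sub, dg_sub, dg_one hUU, hdgN] at h1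
  have h2 : 0 ≤ dg U P i := dg_nonneg U (idem_psd hPher hPP) i
  have h3 : lam i - a ≤ max (lam i - a) 0 := le_max_left _ _
  have h4 : 0 ≤ max (lam i - a) 0 := le_max_right _ _
  calc lam i * dg U P i - a * dg U P i = (lam i - a) * dg U P i := by ring
    _ ≤ max (lam i - a) 0 * dg U P i := mul_le_mul_of_nonneg_right h3 h2
    _ ≤ _ := mul_le_mul_of_nonneg_left (by linarith) h4

lemma diag_eq_sum {R : Matrix ι ι 𝕜} (hR : R.IsHermitian) (j : ι) :
    re (R j j) = ∑ i, hR.eigenvalues i * ‖UA hR j i‖ ^ 2 := by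
  have h := congrFun (congrFun (spectral hR) j) j
  rw [h, Matrix.mul_apply, map_sum]
  refine Finset.sum_congr rfl fun i _ => ?_
  rw [Matrix.mul_diagonal, Matrix.conjTranspose_apply, mul_right_comm, RCLike.star_def,
    RCLike.mul_conj, ← RCLike.ofReal_pow, ← RCLike.ofReal_mul, RCLike.ofReal_re]
  ring

lemma sum_norm_sq {R : Matrix ι ι 𝕜} (hR : R.IsHermitian) (i : ι) :
    ∑ j, ‖UA hR j i‖ ^ 2 = 1 := by
  have h := congrFun (congrFun (UA_unit hR) i) i
  rw [Matrix.mul_apply, Matrix.one_apply_eq] at h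
  have h2 : ((∑ j, ‖UA hR j i‖ ^ 2 : ℝ) : 𝕜) = 1 := by
    rw [← h, RCLike.ofReal_sum]
    refine Finset.sum_congr rfl fun j _ => ?_
    rw [Matrix.conjTranspose_apply, RCLike.star_def, RCLike.conj_mul, RCLike.ofReal_pow]
  exact_mod_cast h2

lemma pot_sum {R : Matrix ι ι 𝕜} (hR : R.PosSemidef) {a : ℝ} (ha : 0 < a) :
    ∑ j, re (R j j) * pot a (step R j) ≤ (tr R - a) * pot a R := by
  have h1 : ∀ j, re (R j j) * pot a (step R j) ≤ re (R j j) * pot a R -
      ∑ i, max (hR.1.eigenvalues i - a) 0 * hR.1.eigenvalues i * ‖UA hR.1 j i‖ ^ 2 := by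
    intro j
    rcases (diag_re hR j).eq_or_lt with h | h
    · rw [← h, zero_mul, zero_mul, zero_sub]
      have h2 := diag_eq_sum hR.1 j
      rw [← h] at h2
      have h3 : ∀ i, hR.1.eigenvalues i * ‖UA hR.1 j i‖ ^ 2 = 0 := fun i =>
        (Finset.sum_eq_zero_iff_of_nonneg (fun i _ => mul_nonneg (hR.eigenvalues_nonneg i)
          (by positivity))).1 h2.symm i (Finset.mem_univ i)
      have h4 : ∑ i, max (hR.1.eigenvalues i - a) 0 * hR.1.eigenvalues i *
          ‖UA hR.1 j i‖ ^ 2 = 0 :=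
        Finset.sum_eq_zero fun i _ => by rw [mul_assoc, h3 i, mul_zero]
      rw [h4, neg_zero]
    · have h2 := mul_le_mul_of_nonneg_left (pot_step hR ha j h) h.le
      refine h2.trans (le_of_eq ?_)
      rw [pot_eq a hR.1, Finset.mul_sum, Finset.mul_sum, ← Finset.sum_sub_distrib]
      refine Finset.sum_congr rfl fun i _ => ?_
      field_simp
  refine (Finset.sum_le_sum fun j _ => h1 j).trans ?_
  rw [Finset.sum_sub_distrib, ← Finset.sum_mul, Finset.sum_comm]
  have h2 : ∑ i, ∑ j, max (hR.1.eigenvalues i - a) 0 * hR.1.eigenvalues i * ‖UA hR.1 j i‖ ^ 2 =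
      ∑ i, max (hR.1.eigenvalues i - a) 0 * hR.1.eigenvalues i := by
    refine Finset.sum_congr rfl fun i _ => ?_
    rw [← Finset.mul_sum, sum_norm_sq, mul_one]
  have h3 : a * pot a R ≤ ∑ i, max (hR.1.eigenvalues i - a) 0 * hR.1.eigenvalues i := by
    rw [pot_eq a hR.1, Finset.mul_sum]
    refine Finset.sum_le_sum fun i _ => ?_
    rcases le_total (hR.1.eigenvalues i - a) 0 with h | h
    · rw [max_eq_right h]; simp
    · rw [max_eq_left h]; nlinarith
  rw [h2]
  have h4 : (∑ j, re (R j j)) = tr R := rfl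
  rw [h4]
  linarith

end Pool.Agent.R285.RPCK
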