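import Pool.Agent.R285.SchurB

/-!
Strongly starlike functions: the Jacobi matrix and the energy estimate.
-/

open Finset

namespace Pool.Agent.R285.SS

/-- the off-diagonal weights -/
noncomputable def bet (α : ℝ) (n : ℕ) : ℝ :=
  (((n : ℝ) + 1) ^ 2 - α ^ 2) / (2 * (2 * n + 1) * (2 * n + 3))

/-- the weights of the quadratic form -/
noncomputable def g (α : ℝ) : ℕ → ℝ
  | 0 => 1 / 4
  | n + 1 => g α n * bet α n / 2

/-- the tridiagonal operator, `A` is the upper left entry -/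
noncomputable def r (α A : ℝ) (v : ℕ → ℂ) : ℕ → ℂ
  | 0 => A * v 0 + bet α 0 * v 1
  | n + 1 => bet α (n + 1) * v (n + 2) + 2 * v n

lemma bet_pos {α : ℝ} (h0 : 0 < α) (h1 : α < 1) (n : ℕ) : 0 < bet α n := by
  unfold bet
  have hn : (0 : ℝ) ≤ n := n.cast_nonneg
  apply div_pos _ (by positivity)
  nlinarith

lemma g_pos {α : ℝ} (h0 : 0 < α) (h1 : α < 1) : ∀ n, 0 < g α n
  | 0 => by simp [g]
  | n + 1 => by
    have := g_pos h0 h1 n
    have := bet_pos h0 h1 n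
    simp only [g]
    positivity

lemma cs_two {a b p q : ℝ} (ha : 0 ≤ a) (hb : 0 ≤ b) (hp : 0 < p) (hq : 0 < q) (x y : ℂ) :
    ‖(a : ℂ) * x + (b : ℂ) * y‖ ^ 2 ≤ (a * p + b * q) * (a * (‖x‖ ^ 2 / p) + b * (‖y‖ ^ 2 / q)) := by
  have h1 : ‖(a : ℂ) * x + (b : ℂ) * y‖ ≤ a * ‖x‖ + b * ‖y‖ := by
    refine (norm_add_le _ _).trans ?_
    rw [norm_mul, norm_mul, Complex.norm_real, Complex.norm_real, Real.norm_eq_abs,
      Real.norm_eq_abs, abs_of_nonneg ha, abs_of_nonneg hb]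
  have h2 : ‖(a : ℂ) * x + (b : ℂ) * y‖ ^ 2 ≤ (a * ‖x‖ + b * ‖y‖) ^ 2 :=
    pow_le_pow_left₀ (norm_nonneg _) h1 2
  refine h2.trans ?_
  have h3 : (a * p + b * q) * (a * (‖x‖ ^ 2 / p) + b * (‖y‖ ^ 2 / q)) - (a * ‖x‖ + b * ‖y‖) ^ 2
      = a * b * (q * ‖x‖ - p * ‖y‖) ^ 2 / (p * q) := by
    field_simp
    ring
  have h4 : 0 ≤ a * b * (q * ‖x‖ - p * ‖y‖) ^ 2 / (p * q) := by positivity
  linarith

/-- Schur test. -/
lemma schur_test {α A : ℝ} (h0 : 0 < α) (h1 : α < 1) (hA : 0 ≤ A) (k : ℕ) (hk : 1 ≤ k)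
    (p : ℕ → ℝ) (hp : ∀ n, n ≤ k → 0 < p n)
    (c0 : A * p 0 + bet α 0 * p 1 ≤ p 0)
    (cn : ∀ n, n + 1 < k → bet α (n + 1) * p (n + 2) + 2 * p n ≤ p (n + 1))
    (ck : 2 * p (k - 1) ≤ p k) (v : ℕ → ℂ) (hv : ∀ n, k ≤ n → v n = 0) :
    ∑ n ∈ range (k + 1), g α n * ‖r α A v n‖ ^ 2 ≤ ∑ n ∈ range k, g α n * ‖v n‖ ^ 2 := by
  set w : ℕ → ℝ := fun n => ‖v n‖ ^ 2 / p n with hw
  have hw0 : ∀ n, k ≤ n → w n = 0 := fun n hn => by simp [hw, hv n hn]
  have hwn : ∀ n, n ≤ k → 0 ≤ w n := fun n hn => by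
    have := hp n hn
    simp only [hw]; positivity
  obtain ⟨l, rfl⟩ : ∃ l, k = l + 1 := ⟨k - 1, by omega⟩
  simp only [Nat.add_sub_cancel] at ck
  -- pointwise bounds
  have b0 : ‖r α A v 0‖ ^ 2 ≤ p 0 * (A * w 0 + bet α 0 * w 1) := by
    have hp0 := hp 0 (by omega)
    have hp1 := hp 1 (by omega)
    have hb := bet_pos h0 h1 0
    have h2 := cs_two hA hb.le hp0 hp1 (v 0) (v 1)
    have h3 : 0 ≤ A * w 0 + bet α 0 * w 1 := by
      have := hwn 0 (by omega)
      have := hwn 1 (by omega)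
      positivity
    calc ‖r α A v 0‖ ^ 2 ≤ (A * p 0 + bet α 0 * p 1) * (A * w 0 + bet α 0 * w 1) := h2
      _ ≤ _ := mul_le_mul_of_nonneg_right c0 h3
  have bn : ∀ n, n < l + 1 → ‖r α A v (n + 1)‖ ^ 2
      ≤ p (n + 1) * (bet α (n + 1) * w (n + 2) + 2 * w n) := by
    intro n hn
    have hb := bet_pos h0 h1 (n + 1)
    have hpn := hp n (by omega)
    have hpn1 := hp (n + 1) (by omega)
    rcases Nat.lt_or_ge (n + 1) (l + 1) with h | h
    · have hpn2 := hp (n + 2) (by omega)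
      have h2 := cs_two hb.le (by norm_num : (0:ℝ) ≤ 2) hpn2 hpn (v (n + 2)) (v n)
      have h3 : 0 ≤ bet α (n + 1) * w (n + 2) + 2 * w n := by
        have := hwn (n + 2) (by omega)
        have := hwn n (by omega)
        positivity
      have e : r α A v (n + 1) = ((bet α (n + 1) : ℝ) : ℂ) * v (n + 2) + ((2 : ℝ) : ℂ) * v n := by
        simp [r]
      rw [e]
      calc _ ≤ (bet α (n + 1) * p (n + 2) + 2 * p n) * (bet α (n + 1) * w (n + 2) + 2 * w n) := h2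
        _ ≤ _ := mul_le_mul_of_nonneg_right (cn n h) h3
    · have hnl : n = l := by omega
      subst hnl
      have e : r α A v (n + 1) = 2 * v n := by
        simp only [r]
        rw [hv (n + 2) (by omega)]
        ring
      rw [e, hw0 (n + 2) (by omega), norm_mul, mul_pow]
      have h2 : ‖v n‖ ^ 2 = p n * w n := by
        simp only [hw]
        field_simp
      have h3 := hwn n (by omega)
      rw [h2]
      have h4 : ‖(2 : ℂ)‖ ^ 2 = 4 := by norm_num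
      rw [h4]
      nlinarith [mul_le_mul_of_nonneg_right ck h3]
  -- summation
  rw [sum_range_succ' (fun n => g α n * ‖r α A v n‖ ^ 2)]
  have s1 : ∑ n ∈ range (l + 1), g α (n + 1) * ‖r α A v (n + 1)‖ ^ 2
      ≤ ∑ n ∈ range (l + 1), g α (n + 1) *
        (p (n + 1) * (bet α (n + 1) * w (n + 2) + 2 * w n)) :=
    sum_le_sum fun n hn => mul_le_mul_of_nonneg_left (bn n (mem_range.1 hn)) (g_pos h0 h1 _).le
  have s2 : ∑ n ∈ range (l + 1), g α (n + 1) *
        (p (n + 1) * (bet α (n + 1) * w (n + 2) + 2 * w n))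
      = ∑ n ∈ range (l + 1), g α (n + 1) * p (n + 1) * bet α (n + 1) * w (n + 2)
        + ∑ n ∈ range (l + 1), g α n * bet α n * p (n + 1) * w n := by
    rw [← sum_add_distrib]
    refine sum_congr rfl fun n _ => ?_
    have : g α (n + 1) = g α n * bet α n / 2 := rfl
    rw [mul_add, mul_add]
    congr 1
    · ring
    · rw [this]; ring
  have s3 : ∑ n ∈ range (l + 1), g α (n + 1) * p (n + 1) * bet α (n + 1) * w (n + 2)
      + g α 0 * p 0 * bet α 0 * w 1
      = ∑ n ∈ range (l + 1), g α (n + 1) * (2 * p n) * w (n + 1) := by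
    have e1 := sum_range_succ' (fun n => g α n * p n * bet α n * w (n + 1)) (l + 1)
    have e2 := sum_range_succ (fun n => g α n * p n * bet α n * w (n + 1)) (l + 1)
    have e3 : ∑ n ∈ range (l + 1), g α (n + 1) * p (n + 1) * bet α (n + 1) * w (n + 2)
      + g α 0 * p 0 * bet α 0 * w 1 = ∑ n ∈ range (l + 1 + 1), g α n * p n * bet α n * w (n + 1) :=
      e1.symm
    rw [e3, e2, hw0 (l + 1 + 1) (by omega), mul_zero, add_zero]
    refine sum_congr rfl fun n _ => ?_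
    have : g α (n + 1) = g α n * bet α n / 2 := rfl
    rw [this]; ring
  have s4 : ∑ n ∈ range (l + 1), g α (n + 1) * (2 * p n) * w (n + 1)
      = ∑ n ∈ range l, g α (n + 1) * (2 * p n) * w (n + 1) := by
    rw [sum_range_succ, hw0 (l + 1) le_rfl, mul_zero, add_zero]
  have s5 : ∑ n ∈ range (l + 1), g α n * bet α n * p (n + 1) * w n
      = ∑ n ∈ range l, g α (n + 1) * bet α (n + 1) * p (n + 2) * w (n + 1)
        + g α 0 * bet α 0 * p 1 * w 0 := sum_range_succ' _ _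
  have s6 : ∑ n ∈ range (l + 1), g α n * ‖v n‖ ^ 2
      = ∑ n ∈ range l, g α (n + 1) * (p (n + 1) * w (n + 1)) + g α 0 * (p 0 * w 0) := by
    rw [sum_range_succ' (fun n => g α n * ‖v n‖ ^ 2)]
    have e : ∀ n, n ≤ l + 1 → ‖v n‖ ^ 2 = p n * w n := fun n hn => by
      have := hp n hn
      simp only [hw]; field_simp
    rw [e 0 (by omega)]
    congr 1
    refine sum_congr rfl fun n hn => ?_
    rw [mem_range] at hn
    rw [e (n + 1) (by omega)]
  have s7 : ∑ n ∈ range l, g α (n + 1) * (2 * p n) * w (n + 1)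
      + ∑ n ∈ range l, g α (n + 1) * bet α (n + 1) * p (n + 2) * w (n + 1)
      ≤ ∑ n ∈ range l, g α (n + 1) * (p (n + 1) * w (n + 1)) := by
    rw [← sum_add_distrib]
    refine sum_le_sum fun n hn => ?_
    rw [mem_range] at hn
    have hg := g_pos h0 h1 (n + 1)
    have hwn1 := hwn (n + 1) (by omega)
    have h2 := mul_le_mul_of_nonneg_right (cn n (by omega)) (mul_nonneg hg.le hwn1)
    nlinarith
  have s8 : g α 0 * ‖r α A v 0‖ ^ 2 ≤ g α 0 * (p 0 * (A * w 0 + bet α 0 * w 1)) :=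
    mul_le_mul_of_nonneg_left b0 (g_pos h0 h1 0).le
  have s9 : g α 0 * (p 0 * (A * w 0)) + g α 0 * bet α 0 * p 1 * w 0 ≤ g α 0 * (p 0 * w 0) := by
    have hg := g_pos h0 h1 0
    have hw00 := hwn 0 (by omega)
    have h2 := mul_le_mul_of_nonneg_right c0 (mul_nonneg hg.le hw00)
    nlinarith
  rw [s6]
  rw [s4] at s3
  rw [s2, s5] at s1
  nlinarith

end Pool.Agent.R285.SS
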