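import Pool.Agent.R285.SSA

/-!
Strongly starlike functions: the condition `C_k` and the energy estimate.
-/

open Finset

namespace Pool.Agent.R285.SS

open Pool.Agent.R285.SchurB (IsCon)

/-- the weights of the Schur test -/
noncomputable def P (α : ℝ) : ℕ → ℝ
  | 0 => 1
  | n + 1 => P α n * (2 * (2 * n + 3) / (n + 1 + α))

lemma P_pos {α : ℝ} (h0 : 0 < α) : ∀ n, 0 < P α n
  | 0 => by simp [P]
  | n + 1 => by
    have := P_pos h0 n
    simp only [P]
    positivity

lemma bet_P {α : ℝ} (h0 : 0 < α) (n : ℕ) :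
    bet α n * P α (n + 1) = P α n * ((n + 1 - α) / (2 * n + 1)) := by
  simp only [P, bet]
  have hn : (0 : ℝ) ≤ n := n.cast_nonneg
  have e1 : (n : ℝ) + 1 + α ≠ 0 := by positivity
  have e2 : (2 * (n : ℝ) + 1) ≠ 0 := by positivity
  have e3 : (2 * (n : ℝ) + 3) ≠ 0 := by positivity
  field_simp
  ring

lemma two_P {α : ℝ} (h0 : 0 < α) (n : ℕ) :
    2 * P α n = P α (n + 1) * ((n + 1 + α) / (2 * n + 3)) := by
  simp only [P]
  have hn : (0 : ℝ) ≤ n := n.cast_nonneg
  have e1 : (n : ℝ) + 1 + α ≠ 0 := by positivity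
  have e3 : (2 * (n : ℝ) + 3) ≠ 0 := by positivity
  field_simp

lemma alpha_lt {α : ℝ} (h13 : 13 * α ^ 2 ≤ 1) : α ≤ 2774 / 10000 := by
  nlinarith

theorem cond {α : ℝ} (h0 : 0 < α) (h13 : 13 * α ^ 2 ≤ 1) (k : ℕ) (hk : 1 ≤ k)
    (v : ℕ → ℂ) (hv : ∀ n, k ≤ n → v n = 0) :
    ∑ n ∈ range (k + 1), g α n * ‖r α (α + 2 * α / k) v n‖ ^ 2
      ≤ ∑ n ∈ range k, g α n * ‖v n‖ ^ 2 := by
  have hα := alpha_lt h13
  have h1 : α < 1 := by linarith
  rcases Nat.lt_or_ge 1 k with hk1 | hk1
  swap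
  · obtain rfl : k = 1 := le_antisymm hk1 hk
    rw [sum_range_succ, sum_range_succ, sum_range_zero, sum_range_succ, sum_range_zero]
    simp only [r, g, Nat.cast_one, zero_add]
    rw [hv 1 le_rfl, hv (0 + 2) (by omega)]
    simp only [mul_zero, add_zero, zero_add, norm_mul, mul_pow, Complex.norm_real]
    have e2 : ‖(2 : ℂ)‖ ^ 2 = 4 := by norm_num
    rw [e2, Real.norm_eq_abs, sq_abs]
    have e3 : bet α 0 = (1 - α ^ 2) / 6 := by
      unfold bet
      push_cast
      norm_num
    rw [e3]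
    have hv0 : 0 ≤ ‖v 0‖ ^ 2 := by positivity
    have e4 : 1 / 4 * ((α + 2 * α / 1) ^ 2 * ‖v 0‖ ^ 2)
        + 1 / 4 * ((1 - α ^ 2) / 6) / 2 * (4 * ‖v 0‖ ^ 2)
        = (1 / 4 * ‖v 0‖ ^ 2) * (9 * α ^ 2 + (1 - α ^ 2) / 3) := by ring
    rw [e4]
    have : 9 * α ^ 2 + (1 - α ^ 2) / 3 ≤ 1 := by linarith
    nlinarith
  rcases Nat.lt_or_ge 2 k with hk2 | hk2
  swap
  · obtain rfl : k = 2 := by omega
    have hb : bet α 0 = (1 - α ^ 2) / 6 := by
      unfold bet
      push_cast
      norm_num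
    have hb1 : bet α 1 = (4 - α ^ 2) / 30 := by
      unfold bet
      push_cast
      norm_num
    have hd : 0 < 1 - α ^ 2 := by nlinarith
    set p1 : ℝ := 6 * (1 - 2 * α) / (1 - α ^ 2) with hp1
    have hp1' : p1 * (1 - α ^ 2) = 6 * (1 - 2 * α) := by
      rw [hp1]; field_simp
    have hp1pos : 0 < p1 := by
      rw [hp1]
      apply div_pos _ hd
      nlinarith
    have key : 30 ≤ p1 * (11 + α ^ 2) := by
      have : 30 * (1 - α ^ 2) ≤ p1 * (11 + α ^ 2) * (1 - α ^ 2) := by
        have e : p1 * (11 + α ^ 2) * (1 - α ^ 2) = (p1 * (1 - α ^ 2)) * (11 + α ^ 2) := by ring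
        rw [e, hp1']
        nlinarith [pow_pos h0 3, mul_pos h0 h0]
      exact le_of_mul_le_mul_right this hd
    refine schur_test h0 h1 (by positivity) 2 (by norm_num)
      (fun n => if n = 0 then 1 else if n = 1 then p1 else 2 * p1) ?_ ?_ ?_ ?_ v hv
    · intro n _
      split_ifs <;> positivity
    · simp only [if_true, one_ne_zero, if_false, if_true]
      rw [hb]
      push_cast
      have : (1 - α ^ 2) / 6 * p1 = 1 - 2 * α := by linarith
      rw [this]
      linarith
    · intro n hn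
      obtain rfl : n = 0 := by omega
      simp only [zero_add, if_true, one_ne_zero, if_false]
      rw [hb1]
      norm_num
      nlinarith
    · norm_num
  -- k ≥ 3
  have hkr : (3 : ℝ) ≤ k := by exact_mod_cast hk2
  have hk0 : (0 : ℝ) < k := by linarith
  have h1a : 0 < 1 - α := by linarith
  set D : ℝ := 2 * α / (k * (1 - α)) with hD
  have hDpos : 0 < D := by rw [hD]; positivity
  have hDk : k * D * (1 - α) = 2 * α := by
    rw [hD]; field_simp
  have hkD : 0 < 1 - k * D := by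
    have : 0 < (1 - k * D) * (1 - α) := by nlinarith
    exact (pos_iff_pos_of_mul_pos this).2 h1a
  have hnD : ∀ n : ℕ, n ≤ k → 0 < 1 - n * D := by
    intro n hn
    have : (n : ℝ) ≤ k := by exact_mod_cast hn
    nlinarith
  refine schur_test h0 h1 (by positivity) k hk (fun n => P α n * (1 - n * D)) ?_ ?_ ?_ ?_ v hv
  · intro n hn
    exact mul_pos (P_pos h0 n) (hnD n hn)
  · have e1 : bet α 0 * (P α 1 * (1 - ((1 : ℕ) : ℝ) * D)) = (1 - α) * (1 - D) := by
      rw [← mul_assoc, bet_P h0 0]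
      simp [P]
    rw [e1]
    simp only [P, Nat.cast_zero, zero_mul, sub_zero, mul_one]
    have e2 : 2 * α / k = (1 - α) * D := by
      rw [hD]; field_simp
    rw [e2]
    linarith
  · intro n hn
    have hP := P_pos h0 (n + 1)
    have hn0 : (0 : ℝ) ≤ n := n.cast_nonneg
    have e1 : bet α (n + 1) * (P α (n + 2) * (1 - ((n + 2 : ℕ) : ℝ) * D))
        = P α (n + 1) * ((n + 2 - α) / (2 * n + 3) * (1 - (n + 2) * D)) := by
      rw [← mul_assoc, bet_P h0 (n + 1)]
      push_cast
      ring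
    have e2 : 2 * (P α n * (1 - (n : ℝ) * D))
        = P α (n + 1) * ((n + 1 + α) / (2 * n + 3) * (1 - n * D)) := by
      rw [← mul_assoc, two_P h0 n]
      ring
    rw [e1, e2, ← mul_add]
    apply mul_le_mul_of_nonneg_left _ hP.le
    push_cast
    rw [div_mul_eq_mul_div, div_mul_eq_mul_div, ← add_div, div_le_iff₀ (by positivity)]
    nlinarith
  · obtain ⟨l, rfl⟩ : ∃ l, k = l + 1 := ⟨k - 1, by omega⟩
    simp only [Nat.add_sub_cancel]
    have hP := P_pos h0 (l + 1)
    have e2 : 2 * (P α l * (1 - (l : ℝ) * D))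
        = P α (l + 1) * ((l + 1 + α) / (2 * l + 3) * (1 - l * D)) := by
      rw [← mul_assoc, two_P h0 l]
      ring
    rw [e2]
    apply mul_le_mul_of_nonneg_left _ hP.le
    push_cast at hkr hk0 hDk ⊢
    have hl : (0 : ℝ) ≤ l := l.cast_nonneg
    rw [div_mul_eq_mul_div, div_le_iff₀ (by positivity)]
    -- (l+1+α)(1-lD) ≤ (1-(l+1)D)(2l+3)
    set K : ℝ := (l : ℝ) + 1 with hK
    have hlK : (l : ℝ) = K - 1 := by rw [hK]; ring
    rw [hlK]
    -- D (K² + 2K - αK + α) ≤ K + 1 - α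
    have hmain : D * (K ^ 2 + 2 * K - α * K + α) ≤ K + 1 - α := by
      have h3 : D * (K ^ 2 + 2 * K - α * K + α) * (K * (1 - α))
          ≤ (K + 1 - α) * (K * (1 - α)) := by
        have e : D * (K ^ 2 + 2 * K - α * K + α) * (K * (1 - α))
            = 2 * α * (K ^ 2 + 2 * K - α * K + α) := by
          have : D * (K ^ 2 + 2 * K - α * K + α) * (K * (1 - α))
            = (K * D * (1 - α)) * (K ^ 2 + 2 * K - α * K + α) := by ring
          rw [this, hDk]
        rw [e]
        have f1 : 0 ≤ K ^ 2 * (1 - 3 * α) + K * (1 - 6 * α + 3 * α ^ 2) - 2 * α ^ 2 := by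
          have f2 : 0 ≤ (K - 3) * K * (1 - 3 * α) := by
            apply mul_nonneg (mul_nonneg (by linarith) (by linarith)) (by linarith)
          have f3 : 0 ≤ (K - 3) * (4 - 15 * α + 3 * α ^ 2) := by
            apply mul_nonneg (by linarith)
            nlinarith
          nlinarith
        nlinarith
      exact le_of_mul_le_mul_right h3 (by positivity)
    nlinarith

/-- The energy estimate. -/
theorem energy {α : ℝ} (h0 : 0 < α) (h13 : 13 * α ^ 2 ≤ 1) (a : ℕ → ℂ) (ha : IsCon a)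
    (ha0 : a 0 = 0) (m : ℕ) (φ : ℕ → ℂ) (hφ0 : φ 0 = 1) (v : ℕ → ℕ → ℂ)
    (hv : ∀ n k, k ≤ n → v n k = 0)
    (hφ : ∀ k, 1 ≤ k → k < m → (k : ℂ) * φ k = α * v 0 k)
    (hr0 : ∀ k, k ≤ m → v 0 k
      = ∑ j ∈ range (k + 1), a (k - j) * (2 * φ j + α * v 0 j + bet α 0 * v 1 j))
    (hr : ∀ n k, k ≤ m → v (n + 1) k
      = ∑ j ∈ range (k + 1), a (k - j) * (bet α (n + 1) * v (n + 2) j + 2 * v n j)) :
    m ≠ 0 → ‖v 0 m‖ ≤ 2 := by
  intro hm
  have hα := alpha_lt h13
  have h1 : α < 1 := by linarith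
  set R : ℕ → ℕ → ℂ := fun n j => match n with
    | 0 => 2 * φ j + α * v 0 j + bet α 0 * v 1 j
    | n + 1 => bet α (n + 1) * v (n + 2) j + 2 * v n j with hR
  have hR0 : ∀ j, R 0 j = 2 * φ j + α * v 0 j + bet α 0 * v 1 j := fun _ => rfl
  have hRn : ∀ n j, R (n + 1) j = bet α (n + 1) * v (n + 2) j + 2 * v n j := fun _ _ => rfl
  have hvR : ∀ n k, k ≤ m → v n k = ∑ j ∈ range (k + 1), a (k - j) * R n j := by
    intro n k hk
    cases n with
    | zero => exact hr0 k hk
    | succ n => exact hr n k hk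
  -- contraction
  have hcon : ∀ n, ∑ k ∈ range (m + 1), ‖v n k‖ ^ 2 ≤ ∑ j ∈ range m, ‖R n j‖ ^ 2 := by
    intro n
    have h := ha (m + 1) (fun j => if j < m then R n j else 0)
    have e1 : ∑ j ∈ range (m + 1), ‖(fun j => if j < m then R n j else 0) j‖ ^ 2
        = ∑ j ∈ range m, ‖R n j‖ ^ 2 := by
      rw [sum_range_succ]
      simp only [lt_irrefl, if_false, norm_zero, ne_eq, OfNat.ofNat_ne_zero, not_false_eq_true,
        zero_pow, add_zero]
      refine sum_congr rfl fun j hj => ?_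
      rw [if_pos (mem_range.1 hj)]
    rw [e1] at h
    refine le_trans (le_of_eq ?_) h
    refine sum_congr rfl fun k hk => ?_
    have hk' : k ≤ m := by have := mem_range.1 hk; omega
    rw [hvR n k hk', sum_range_succ, sum_range_succ, Nat.sub_self, ha0, zero_mul, zero_mul]
    congr 2
    congr 1
    refine sum_congr rfl fun j hj => ?_
    have hj' := mem_range.1 hj
    rw [if_pos (by omega)]
  -- energies
  set E : ℕ → ℝ := fun k => ∑ n ∈ range (m + 1), g α n * ‖v n k‖ ^ 2 with hE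
  set F : ℕ → ℝ := fun j => ∑ n ∈ range (m + 1), g α n * ‖R n j‖ ^ 2 with hF
  have hsum : ∑ k ∈ range (m + 1), E k ≤ ∑ j ∈ range m, F j := by
    simp only [hE, hF]
    rw [sum_comm, sum_comm (s := range m)]
    refine sum_le_sum fun n _ => ?_
    rw [← mul_sum, ← mul_sum]
    exact mul_le_mul_of_nonneg_left (hcon n) (g_pos h0 h1 n).le
  have hF0 : F 0 = 1 := by
    simp only [hF]
    rw [sum_range_succ']
    have : ∑ n ∈ range m, g α (n + 1) * ‖R (n + 1) 0‖ ^ 2 = 0 := by
      refine sum_eq_zero fun n _ => ?_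
      rw [hRn, hv (n + 2) 0 (by omega), hv n 0 (by omega)]
      simp
    rw [this, hR0, hφ0, hv 0 0 le_rfl, hv 1 0 (by omega)]
    simp [g]
    norm_num
  have hFj : ∀ j, 1 ≤ j → j < m → F j ≤ E j := by
    intro j hj hjm
    have hjc : (j : ℂ) ≠ 0 := by exact_mod_cast (by omega : j ≠ 0)
    have hRr : ∀ n, R n j = r α (α + 2 * α / j) (fun n => v n j) n := by
      intro n
      cases n with
      | zero =>
        simp only [r]
        rw [hR0]
        have e1 := hφ j hj hjm
        have e2 : φ j = α * v 0 j / j := by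
          field_simp
          rw [mul_comm]; exact e1
        rw [e2]
        push_cast
        field_simp
        ring
      | succ n =>
        simp only [r]
        rw [hRn]
    have hc := cond h0 h13 j hj (fun n => v n j) (fun n hn => hv n j hn)
    have e1 : F j = ∑ n ∈ range (j + 1), g α n * ‖r α (α + 2 * α / j) (fun n => v n j) n‖ ^ 2 := by
      simp only [hF]
      rw [← sum_subset (range_subset_range.2 (by omega : j + 1 ≤ m + 1))]
      · refine sum_congr rfl fun n _ => ?_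
        rw [hRr]
      · intro n _ hn
        rw [mem_range] at hn
        obtain ⟨l, rfl⟩ : ∃ l, n = l + 1 := ⟨n - 1, by omega⟩
        rw [hRn, hv (l + 2) j (by omega), hv l j (by omega)]
        simp
    have e2 : E j = ∑ n ∈ range j, g α n * ‖v n j‖ ^ 2 := by
      simp only [hE]
      rw [← sum_subset (range_subset_range.2 (by omega : j ≤ m + 1))]
      intro n _ hn
      rw [mem_range] at hn
      rw [hv n j (by omega)]
      simp
    rw [e1, e2]
    exact hc
  have hEnn : ∀ k, 0 ≤ E k := fun k =>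
    sum_nonneg fun n _ => mul_nonneg (g_pos h0 h1 n).le (by positivity)
  obtain ⟨l, rfl⟩ : ∃ l, m = l + 1 := ⟨m - 1, by omega⟩
  have hEm : E (l + 1) ≤ 1 := by
    rw [sum_range_succ, sum_range_succ', sum_range_succ' F] at hsum
    have h2 : ∑ k ∈ range l, F (k + 1) ≤ ∑ k ∈ range l, E (k + 1) :=
      sum_le_sum fun k hk => hFj (k + 1) (by omega) (by have := mem_range.1 hk; omega)
    have := hEnn 0
    linarith
  have h3 : g α 0 * ‖v 0 (l + 1)‖ ^ 2 ≤ E (l + 1) := by
    simp only [hE]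
    exact single_le_sum (f := fun n => g α n * ‖v n (l + 1)‖ ^ 2)
      (fun n _ => mul_nonneg (g_pos h0 h1 n).le (by positivity)) (mem_range.2 (by omega))
  have h4 : g α 0 = 1 / 4 := rfl
  rw [h4] at h3
  have h5 := norm_nonneg (v 0 (l + 1))
  nlinarith

end Pool.Agent.R285.SS
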