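import Pool.Agent.R285.SSB

/-!
Strongly starlike functions: the coefficients of the auxiliary series.
-/

open Finset

namespace Pool.Agent.R285.SS

/-- coefficients of the hypergeometric series -/
noncomputable def c (α : ℝ) (n : ℕ) : ℕ → ℝ
  | 0 => 1
  | i + 1 => c α n i * ((n + 1 + i) * (n + 1 + α + i) / ((2 * n + 2 + i) * (i + 1)))

lemma c_ratio {α : ℝ} (h0 : 0 < α) (n : ℕ) : ∀ i : ℕ,
    c α (n + 1) i * ((n + 1) * (n + 1 + α) * (2 * n + 2 + i) * (2 * n + 3 + i))
      = c α n i * ((n + 1 + i) * (n + 1 + α + i) * (2 * n + 2) * (2 * n + 3))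
  | 0 => by
    simp only [c]
    push_cast
    ring
  | i + 1 => by
    have ih := c_ratio h0 n i
    have hn : (0 : ℝ) ≤ n := n.cast_nonneg
    have hi : (0 : ℝ) ≤ i := i.cast_nonneg
    simp only [c]
    push_cast
    have e1 : (2 * ((n : ℝ) + 1) + 2 + i) ≠ 0 := by positivity
    have e2 : ((i : ℝ) + 1) ≠ 0 := by positivity
    have e3 : (2 * (n : ℝ) + 2 + i) ≠ 0 := by positivity
    have e4 : (2 * (n : ℝ) + 3 + i) ≠ 0 := by positivity
    have e5 : c α (n + 1) i = c α n i * ((n + 1 + i) * (n + 1 + α + i) * (2 * n + 2) * (2 * n + 3))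
        / ((n + 1) * (n + 1 + α) * (2 * n + 2 + i) * (2 * n + 3 + i)) := by
      rw [eq_div_iff (by positivity)]
      exact ih
    rw [e5]
    field_simp
    ring

lemma c_succ_one {α : ℝ} (n : ℕ) : 2 * c α (n + 1) 1 - c α (n + 1) 0 - 2 * c α n 1 = 0 := by
  have hn : (0 : ℝ) ≤ n := n.cast_nonneg
  simp only [c]
  push_cast
  have e1 : (2 * ((n : ℝ) + 1) + 2 + 0) ≠ 0 := by positivity
  have e3 : (2 * (n : ℝ) + 2 + 0) ≠ 0 := by positivity
  field_simp
  ring

lemma c_succ_two {α : ℝ} (h0 : 0 < α) (n i : ℕ) :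
    2 * c α (n + 1) (i + 2) - c α (n + 1) (i + 1) - 2 * c α n (i + 2)
      = bet α (n + 1) * c α (n + 2) i := by
  have hn : (0 : ℝ) ≤ n := n.cast_nonneg
  have hi : (0 : ℝ) ≤ i := i.cast_nonneg
  have r1 := c_ratio h0 n i
  have r2 := c_ratio h0 (n + 1) i
  push_cast at r1 r2
  have e1 : c α n i = c α (n + 1) i * ((n + 1) * (n + 1 + α) * (2 * n + 2 + i) * (2 * n + 3 + i))
      / ((n + 1 + i) * (n + 1 + α + i) * (2 * n + 2) * (2 * n + 3)) := by
    rw [eq_div_iff (by positivity)]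
    exact r1.symm
  have e2 : c α (n + 2) i = c α (n + 1) i * (((n + 1 + 1 + i) * (n + 1 + 1 + α + i)
      * (2 * (n + 1) + 2) * (2 * (n + 1) + 3)))
      / ((n + 1 + 1) * (n + 1 + 1 + α) * (2 * (n + 1) + 2 + i) * (2 * (n + 1) + 3 + i)) := by
    rw [eq_div_iff (by positivity)]
    exact r2
  rw [e2]
  simp only [c, bet]
  rw [e1]
  push_cast
  field_simp
  ring

lemma c_zero_one {α : ℝ} : 2 * c α 0 1 - c α 0 0 = α * c α 0 0 := by
  simp only [c]
  push_cast
  ring

lemma c_zero_two {α : ℝ} (h0 : 0 < α) (i : ℕ) :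
    2 * c α 0 (i + 2) - c α 0 (i + 1) = α * c α 0 (i + 1) + bet α 0 * c α 1 i := by
  have hi : (0 : ℝ) ≤ i := i.cast_nonneg
  have r1 := c_ratio h0 0 i
  push_cast at r1
  simp only [zero_add, mul_zero] at r1
  have e1 : c α 1 i = c α 0 i * ((1 + i) * (1 + α + i) * 2 * 3)
      / (1 * (1 + α) * (2 + i) * (3 + i)) := by
    rw [eq_div_iff (by positivity)]
    exact r1
  rw [e1]
  simp only [c, bet]
  push_cast
  field_simp
  ring

/-- coefficients of `w^(n+1) F(n+1, n+1+α; 2n+2; w)` -/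
noncomputable def s (α : ℝ) (n d : ℕ) : ℝ := if n + 1 ≤ d then c α n (d - n - 1) else 0

lemma s_succ {α : ℝ} (h0 : 0 < α) (n d : ℕ) :
    2 * s α (n + 1) (d + 1) - s α (n + 1) d = bet α (n + 1) * s α (n + 2) d + 2 * s α n d := by
  unfold s
  rcases Nat.lt_or_ge d (n + 1) with h | h
  · rw [if_neg (by omega), if_neg (by omega), if_neg (by omega), if_neg (by omega)]
    ring
  obtain ⟨i, rfl⟩ : ∃ i, d = n + 1 + i := ⟨d - (n + 1), by omega⟩
  match i with
  | 0 =>
    rw [if_pos (by omega), if_neg (by omega), if_neg (by omega), if_pos (by omega)]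
    have e1 : n + 1 + 0 + 1 - (n + 1) - 1 = 0 := by omega
    have e2 : n + 1 + 0 - n - 1 = 0 := by omega
    rw [e1, e2]
    simp [c]
  | 1 =>
    rw [if_pos (by omega), if_pos (by omega), if_neg (by omega), if_pos (by omega)]
    have e1 : n + 1 + 1 + 1 - (n + 1) - 1 = 1 := by omega
    have e2 : n + 1 + 1 - (n + 1) - 1 = 0 := by omega
    have e3 : n + 1 + 1 - n - 1 = 1 := by omega
    rw [e1, e2, e3]
    have := c_succ_one (α := α) n
    linarith
  | i + 2 =>
    rw [if_pos (by omega), if_pos (by omega), if_pos (by omega), if_pos (by omega)]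
    have e1 : n + 1 + (i + 2) + 1 - (n + 1) - 1 = i + 2 := by omega
    have e2 : n + 1 + (i + 2) - (n + 1) - 1 = i + 1 := by omega
    have e3 : n + 1 + (i + 2) - (n + 2) - 1 = i := by omega
    have e4 : n + 1 + (i + 2) - n - 1 = i + 2 := by omega
    rw [e1, e2, e3, e4]
    have := c_succ_two h0 n i
    linarith

lemma s_zero {α : ℝ} (h0 : 0 < α) (d : ℕ) :
    2 * s α 0 (d + 1) - s α 0 d = (if d = 0 then 2 else 0) + α * s α 0 d + bet α 0 * s α 1 d := by
  unfold s
  match d with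
  | 0 => simp [c]
  | 1 =>
    have := c_zero_one (α := α)
    simp
    linarith
  | i + 2 =>
    rw [if_pos (by omega), if_pos (by omega), if_neg (by omega), if_pos (by omega)]
    have e1 : i + 2 + 1 - 0 - 1 = i + 2 := by omega
    have e2 : i + 2 - 0 - 1 = i + 1 := by omega
    have e3 : i + 2 - 1 - 1 = i := by omega
    rw [e1, e2, e3]
    have := c_zero_two h0 i
    linarith

/-- coefficients of `(1-w)^(-α)` -/
noncomputable def B (α : ℝ) : ℕ → ℝ
  | 0 => 1
  | d + 1 => B α d * ((d + α) / (d + 1))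

lemma B_rec (α : ℝ) (d : ℕ) : ((d : ℝ) + 1) * B α (d + 1) = (d + α) * B α d := by
  have hd : (0 : ℝ) ≤ d := d.cast_nonneg
  simp only [B]
  field_simp

lemma B_succ (α : ℝ) (d : ℕ) : B α (d + 1) = α * c α 0 d := by
  induction d with
  | zero => simp [B, c]
  | succ d ih =>
    have hd : (0 : ℝ) ≤ d := d.cast_nonneg
    have e1 : B α (d + 1 + 1) = B α (d + 1) * (((d + 1 : ℕ) + α) / ((d + 1 : ℕ) + 1)) := rfl
    rw [e1, ih]
    simp only [c]
    push_cast
    field_simp
    ring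

lemma B_eq (α : ℝ) (d : ℕ) : B α d = (if d = 0 then 1 else 0) + α * s α 0 d := by
  cases d with
  | zero => simp [B, s]
  | succ d =>
    rw [B_succ]
    unfold s
    rw [if_neg (by omega), if_pos (by omega)]
    have : d + 1 - 0 - 1 = d := by omega
    rw [this, zero_add]

/-- the differential equation of the truncated binomial series -/
lemma B_ode (α : ℝ) (w : ℂ) (M : ℕ) :
    (1 - w) * ∑ d ∈ range (M + 1), (B α d : ℂ) * (d * w ^ (d - 1))
      - α * ∑ d ∈ range (M + 1), (B α d : ℂ) * w ^ d = -((M + α) * B α M) * w ^ M := by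
  induction M with
  | zero => simp [B]
  | succ M ih =>
    rw [sum_range_succ, sum_range_succ (fun d => (B α d : ℂ) * w ^ d)]
    have h1 : (((M : ℂ) + 1) * (B α (M + 1) : ℂ)) = (M + α) * B α M := by
      have := B_rec α M
      exact_mod_cast this
    rw [Nat.add_sub_cancel]
    push_cast
    linear_combination ih + w ^ M * h1

end Pool.Agent.R285.SS
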