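import Pool.Agent.R285.SchurF

/-!
# Coefficients of `ω + cosh ω` are bounded by one
-/

set_option autoImplicit false

namespace Pool.Agent.R285.SchurG

open Finset Metric Filter Topology
open Pool.Agent.R285.SchurB Pool.Agent.R285.SchurD Pool.Agent.R285.SchurE Pool.Agent.R285.SchurF

noncomputable section

lemma cf_add {f g : ℂ → ℂ} (hf : DifferentiableOn ℂ f (ball 0 1))
    (hg : DifferentiableOn ℂ g (ball 0 1)) (n : ℕ) : cf (f + g) n = cf f n + cf g n := by
  unfold cf
  rw [iteratedDeriv_add (cda hf n) (cda hg n), add_div]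

lemma cf_smul {f : ℂ → ℂ} (hf : DifferentiableOn ℂ f (ball 0 1)) (a : ℂ) (n : ℕ) :
    cf (fun z => a * f z) n = a * cf f n := by
  unfold cf
  rw [iteratedDeriv_const_mul_field, mul_div_assoc]

lemma cf_poly {f : ℂ → ℂ} (hf : DifferentiableOn ℂ f (ball 0 1)) (A : ℕ → ℝ) (M n : ℕ) :
    cf (fun z => ∑ m ∈ range M, (A m : ℂ) * f z ^ m) n
      = ∑ m ∈ range M, (A m : ℂ) * PowerSeries.coeff n ((PowerSeries.mk (cf f)) ^ m) := by
  induction M with
  | zero =>
    simp only [Finset.range_zero, Finset.sum_empty]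
    unfold cf
    rw [iteratedDeriv_const]
    split_ifs <;> simp
  | succ M ih =>
    have h1 : (fun z => ∑ m ∈ range (M + 1), (A m : ℂ) * f z ^ m)
        = (fun z => ∑ m ∈ range M, (A m : ℂ) * f z ^ m) + fun z => (A M : ℂ) * (f ^ M) z := by
      funext z
      rw [Finset.sum_range_succ]
      rfl
    have h2 : DifferentiableOn ℂ (fun z => ∑ m ∈ range M, (A m : ℂ) * f z ^ m) (ball 0 1) := by
      refine DifferentiableOn.fun_sum fun m _ => ?_
      exact (hf.pow m).const_mul _
    rw [h1, cf_add h2 ((hf.pow M).const_mul _), ih, cf_smul (hf.pow M), cf_pow hf,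
      Finset.sum_range_succ]

lemma Acoef_le (k : ℕ) : |((k : ℝ) + 1) * Acoef (k + 1)| ≤ 1 / (k.factorial : ℝ) ∨ k = 0 := by
  by_cases hk : k = 0
  · right; exact hk
  · left
    unfold Acoef
    rw [if_neg (by omega), add_zero]
    have hf : (0 : ℝ) < k.factorial := by exact_mod_cast k.factorial_pos
    have h1 : ((k : ℝ) + 1) * ((1 + (-1) ^ (k + 1)) / (2 * ((k + 1).factorial : ℝ)))
        = (1 + (-1) ^ (k + 1)) / 2 * (1 / (k.factorial : ℝ)) := by
      rw [Nat.factorial_succ]
      push_cast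
      field_simp
    rw [h1, abs_mul, abs_of_pos (show (0 : ℝ) < 1 / (k.factorial : ℝ) by positivity)]
    have h2 : |(1 + (-1 : ℝ) ^ (k + 1)) / 2| ≤ 1 := by
      rcases neg_one_pow_eq_or ℝ (k + 1) with h | h <;> rw [h] <;> norm_num
    calc _ ≤ 1 * (1 / (k.factorial : ℝ)) := by gcongr
      _ = _ := one_mul _

theorem coeff_cosh {ω : ℂ → ℂ} (hd : DifferentiableOn ℂ ω (ball 0 1))
    (hb : ∀ z ∈ ball (0 : ℂ) 1, ‖ω z‖ ≤ 1) (h0 : ω 0 = 0) {n : ℕ} (hn : 1 ≤ n) :
    ‖cf (fun z => ω z + Complex.cosh (ω z)) n‖ ≤ 1 := by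
  set F : PowerSeries ℂ := PowerSeries.mk (cf ω) with hF
  have hF0 : PowerSeries.coeff 0 F = 0 := by
    rw [hF, PowerSeries.coeff_mk]
    unfold cf
    simp [h0]
  have hcon : IsCon fun k => PowerSeries.coeff k F := by
    have : (fun k => PowerSeries.coeff k F) = cf ω := by
      funext k
      rw [hF, PowerSeries.coeff_mk]
    rw [this]
    exact isCon hd hb
  have hdP : DifferentiableOn ℂ (fun z => ω z + Complex.cosh (ω z)) (ball 0 1) :=
    hd.add hd.ccosh
  have hM : ∀ M : ℕ, 6 ≤ M → ‖cf (fun z => ω z + Complex.cosh (ω z)) n‖ ≤ 1 + 2 / M / (1 / 2) ^ n := by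
    intro M hM
    have hdS : DifferentiableOn ℂ (fun z => ∑ m ∈ range M, (Acoef m : ℂ) * ω z ^ m) (ball 0 1) := by
      refine DifferentiableOn.fun_sum fun m _ => ?_
      exact (hd.pow m).const_mul _
    set D : ℂ → ℂ := fun z => (ω z + Complex.cosh (ω z)) - ∑ m ∈ range M, (Acoef m : ℂ) * ω z ^ m
      with hD
    have hdD : DifferentiableOn ℂ D (ball 0 1) := hdP.sub hdS
    have e1 : (fun z => ω z + Complex.cosh (ω z))
        = (fun z => ∑ m ∈ range M, (Acoef m : ℂ) * ω z ^ m) + D := by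
      funext z
      rw [hD, Pi.add_apply]
      ring
    rw [e1, cf_add hdS hdD]
    have h1 : ‖cf (fun z => ∑ m ∈ range M, (Acoef m : ℂ) * ω z ^ m) n‖ ≤ 1 := by
      rw [cf_poly hd]
      refine coeff_bound hn F hF0 hcon Acoef ?_ ?_ ?_ ?_ ?_ ?_ M hM
      · unfold Acoef; norm_num
      · unfold Acoef; norm_num [Nat.factorial]
      · unfold Acoef; norm_num
      · unfold Acoef; norm_num [Nat.factorial]
      · unfold Acoef; norm_num
      · intro k hk
        rcases Acoef_le k with h | h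
        · exact h
        · omega
    have h2 : ‖cf D n‖ ≤ 2 / M / (1 / 2) ^ n :=
      cf_norm_le hdD (fun z hz => bound_S (ω z) (hb z hz) M (by omega)) (by norm_num) (by norm_num) n
    exact (norm_add_le _ _).trans (add_le_add h1 h2)
  have ht : Tendsto (fun M : ℕ => 1 + 2 / (M : ℝ) / (1 / 2) ^ n) atTop
      (𝓝 (1 + 0 / (1 / 2) ^ n)) := by
    refine tendsto_const_nhds.add (Tendsto.div_const ?_ _)
    exact tendsto_const_div_atTop_nhds_zero_nat 2
  rw [zero_div, add_zero] at ht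
  refine ge_of_tendsto ht ?_
  filter_upwards [eventually_ge_atTop 6] with M hM'
  exact hM M hM'

end

end Pool.Agent.R285.SchurG
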