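import Pool.Agent.R285.SSC
import Pool.Agent.R285.SchurG

/-!
Strongly starlike functions: the analytic part.
-/

open Finset Metric

namespace Pool.Agent.R285.SS

open Pool.Agent.R285.SchurB (IsCon)
open Pool.Agent.R285.SchurE (cf isCon)
open Pool.Agent.R285.SchurF (cf_mul)
open Pool.Agent.R285.SchurG (cf_add cf_smul)

lemma cf_zero (f : ℂ → ℂ) : cf f 0 = f 0 := by
  unfold cf
  simp

lemma cf_congr {f g : ℂ → ℂ} (h : ∀ z ∈ ball (0 : ℂ) 1, f z = g z) (k : ℕ) : cf f k = cf g k := by
  unfold cf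
  have : f =ᶠ[nhds 0] g := by
    filter_upwards [isOpen_ball.mem_nhds (mem_ball_self one_pos : (0 : ℂ) ∈ ball (0 : ℂ) 1)] with z hz
    exact h z hz
  rw [this.iteratedDeriv_eq k]

lemma cf_deriv (f : ℂ → ℂ) (k : ℕ) : cf (deriv f) k = (k + 1) * cf f (k + 1) := by
  unfold cf
  rw [iteratedDeriv_succ', Nat.factorial_succ]
  have h3 : (k.factorial : ℂ) ≠ 0 := by exact_mod_cast k.factorial_ne_zero
  have h4 : ((k : ℂ) + 1) ≠ 0 := by exact_mod_cast k.succ_ne_zero
  push_cast
  field_simp

lemma cf_mul_range {f g : ℂ → ℂ} (hf : DifferentiableOn ℂ f (ball 0 1))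
    (hg : DifferentiableOn ℂ g (ball 0 1)) (k : ℕ) :
    cf (fun z => f z * g z) k = ∑ j ∈ range (k + 1), cf f (k - j) * cf g j := by
  have h := cf_mul hg hf k
  have e : (fun z => f z * g z) = g * f := by
    funext z
    simp [mul_comm]
  rw [e, h, Finset.Nat.sum_antidiagonal_eq_sum_range_succ (fun a b => cf g a * cf f b)]
  exact sum_congr rfl fun j _ => mul_comm _ _

lemma cf_id_mul {g : ℂ → ℂ} (hg : DifferentiableOn ℂ g (ball 0 1)) (k : ℕ) :
    cf (fun z => z * g z) (k + 1) = cf g k := by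
  have hid : ∀ i, cf (fun z : ℂ => z) i = if i = 1 then 1 else 0 := by
    intro i
    unfold cf
    rw [iteratedDeriv_fun_id_zero]
    by_cases h : i = 1
    · subst h; simp
    · rw [if_neg h]; simp
  rw [cf_mul_range (f := fun z : ℂ => z) differentiableOn_id hg, sum_eq_single k]
  · rw [hid, if_pos (by omega), one_mul]
  · intro j hj hjk
    have := mem_range.1 hj
    rw [hid, if_neg (by omega), zero_mul]
  · intro h
    exact absurd (mem_range.2 (by omega)) h

lemma cf_pow_mul {ζ A : ℂ → ℂ} (hζ : DifferentiableOn ℂ ζ (ball 0 1))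
    (hA : DifferentiableOn ℂ A (ball 0 1)) (h0 : ζ 0 = 0) :
    ∀ M k, k < M → cf (fun z => ζ z ^ M * A z) k = 0 := by
  intro M
  induction M with
  | zero => intro k hk; omega
  | succ M ih =>
    intro k hk
    have e : (fun z => ζ z ^ (M + 1) * A z) = fun z => ζ z * (ζ z ^ M * A z) := by
      funext z
      ring
    rw [e, cf_mul_range (g := fun z => ζ z ^ M * A z) hζ ((hζ.pow M).mul hA)]
    refine sum_eq_zero fun j hj => ?_
    have := mem_range.1 hj
    by_cases hjk : j = k
    · rw [hjk, Nat.sub_self, cf_zero, h0, zero_mul]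
    · rw [ih j (by omega), mul_zero]

lemma cf_sum (u : ℕ → ℂ) (F : ℕ → ℂ → ℂ) (hF : ∀ d, DifferentiableOn ℂ (F d) (ball 0 1)) (N k : ℕ) :
    cf (fun z => ∑ d ∈ range N, u d * F d z) k = ∑ d ∈ range N, u d * cf (F d) k := by
  induction N with
  | zero =>
    simp only [Finset.range_zero, Finset.sum_empty]
    unfold cf
    rw [iteratedDeriv_const]
    split_ifs <;> simp
  | succ N ih =>
    have h1 : (fun z => ∑ d ∈ range (N + 1), u d * F d z)
        = (fun z => ∑ d ∈ range N, u d * F d z) + fun z => u N * F N z := by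
      funext z
      rw [Finset.sum_range_succ]
      rfl
    have h2 : DifferentiableOn ℂ (fun z => ∑ d ∈ range N, u d * F d z) (ball 0 1) := by
      refine DifferentiableOn.fun_sum fun d _ => ?_
      exact (hF d).const_mul _
    rw [h1, cf_add h2 ((hF N).const_mul _), ih, cf_smul (hF N), sum_range_succ]

/-- The main analytic statement. -/
theorem core {α : ℝ} (h0 : 0 < α) (h13 : 13 * α ^ 2 ≤ 1) {Φ L : ℂ → ℂ}
    (hΦ : DifferentiableOn ℂ Φ (ball 0 1)) (hΦ0 : Φ 0 = 1)
    (hL : DifferentiableOn ℂ L (ball 0 1)) (hL0 : L 0 = 0)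
    (hLim : ∀ z ∈ ball (0 : ℂ) 1, |(L z).im| < Real.pi / 2)
    (hode : ∀ k : ℕ, ((k : ℂ) + 1) * cf Φ k = cf (fun z => Complex.exp (α * L z) * Φ z) k)
    {m : ℕ} (hm : 1 ≤ m) : m * ‖cf Φ m‖ ≤ 2 * α := by
  have hQre : ∀ z ∈ ball (0 : ℂ) 1, 0 < (Complex.exp (L z)).re := by
    intro z hz
    rw [Complex.exp_re]
    have := hLim z hz
    rw [abs_lt] at this
    exact mul_pos (Real.exp_pos _) (Real.cos_pos_of_mem_Ioo ⟨by linarith, this.2⟩)
  have hQ1 : ∀ z ∈ ball (0 : ℂ) 1, Complex.exp (L z) + 1 ≠ 0 := by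
    intro z hz h
    have h1 := hQre z hz
    have h2 : (Complex.exp (L z) + 1).re = 0 := by rw [h]; simp
    rw [Complex.add_re, Complex.one_re] at h2
    linarith
  set ω : ℂ → ℂ := fun z => (Complex.exp (L z) - 1) / (Complex.exp (L z) + 1) with hω
  set ζ : ℂ → ℂ := fun z => 1 - Complex.exp (-L z) with hζ
  have hωd : DifferentiableOn ℂ ω (ball 0 1) :=
    (hL.cexp.sub_const 1).div (hL.cexp.add_const 1) hQ1
  have hζd : DifferentiableOn ℂ ζ (ball 0 1) := (hL.neg.cexp).const_sub 1
  have hω0 : ω 0 = 0 := by simp [hω, hL0]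
  have hζ0 : ζ 0 = 0 := by simp [hζ, hL0]
  have hωb : ∀ z ∈ ball (0 : ℂ) 1, ‖ω z‖ ≤ 1 := by
    intro z hz
    simp only [hω]
    rw [norm_div, div_le_one (norm_pos_iff.2 (hQ1 z hz))]
    have h1 := hQre z hz
    have h2 : ‖Complex.exp (L z) - 1‖ ^ 2 ≤ ‖Complex.exp (L z) + 1‖ ^ 2 := by
      rw [Complex.sq_norm, Complex.sq_norm, Complex.normSq_apply, Complex.normSq_apply]
      simp only [Complex.sub_re, Complex.add_re, Complex.one_re, Complex.sub_im, Complex.add_im,
        Complex.one_im]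
      nlinarith
    exact le_of_sq_le_sq h2 (norm_nonneg _)
  have hrel : ∀ z ∈ ball (0 : ℂ) 1, ζ z = ω z * (2 - ζ z) := by
    intro z hz
    have hQ := hQ1 z hz
    simp only [hω, hζ]
    rw [Complex.exp_neg]
    have hQ0 : Complex.exp (L z) ≠ 0 := Complex.exp_ne_zero _
    field_simp
    ring
  have hcon : IsCon (cf ω) := isCon hωd hωb
  have ha0 : cf ω 0 = 0 := by rw [cf_zero, hω0]
  -- the functions `ζ^d Φ`
  have hFd : ∀ d : ℕ, DifferentiableOn ℂ (fun z => ζ z ^ d * Φ z) (ball 0 1) := fun d =>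
    (hζd.pow d).mul hΦ
  set X : ℕ → ℕ → ℂ := fun d k => cf (fun z => ζ z ^ d * Φ z) k with hX
  have hX0 : ∀ d k, k < d → X d k = 0 := fun d k h => cf_pow_mul hζd hΦ hζ0 d k h
  have hXz : ∀ k, X 0 k = cf Φ k := by
    intro k
    simp only [hX]
    congr 1
    funext z
    simp
  have hXrel : ∀ d k, X (d + 1) k
      = ∑ j ∈ range (k + 1), cf ω (k - j) * (2 * X d j - X (d + 1) j) := by
    intro d k
    have e1 : X (d + 1) k = cf (fun z => ω z *
        ((fun z => 2 * (ζ z ^ d * Φ z)) + fun z => (-1) * (ζ z ^ (d + 1) * Φ z)) z) k := by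
      simp only [hX]
      refine cf_congr (fun z hz => ?_) k
      simp only [Pi.add_apply]
      have h := hrel z hz
      have e : ζ z ^ (d + 1) * Φ z = ζ z * (ζ z ^ d * Φ z) := by ring
      have e2 : ω z * (2 * (ζ z ^ d * Φ z) + (-1) * (ζ z ^ (d + 1) * Φ z))
          = (ω z * (2 - ζ z)) * (ζ z ^ d * Φ z) := by ring
      rw [e2, ← h, e]
    rw [e1, cf_mul_range hωd (((hFd d).const_mul 2).add ((hFd (d + 1)).const_mul (-1)))]
    refine sum_congr rfl fun j _ => ?_
    rw [cf_add ((hFd d).const_mul 2) ((hFd (d + 1)).const_mul (-1)), cf_smul (hFd d),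
      cf_smul (hFd (d + 1))]
    simp only [hX]
    ring
  -- the family `v`
  set v : ℕ → ℕ → ℂ := fun n k => ∑ d ∈ range (m + 2), (s α n d : ℂ) * X d k with hvdef
  have hv : ∀ n k, k ≤ n → v n k = 0 := by
    intro n k hk
    simp only [hvdef]
    refine sum_eq_zero fun d _ => ?_
    by_cases hd : n + 1 ≤ d
    · rw [hX0 d k (by omega), mul_zero]
    · unfold s
      rw [if_neg hd]
      simp
  have hs0 : ∀ n, s α n 0 = 0 := fun n => by
    unfold s
    rw [if_neg (by omega)]
  have hvrel : ∀ n k, k ≤ m → v n k = ∑ j ∈ range (k + 1), cf ω (k - j) *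
      ∑ d ∈ range (m + 2), ((2 * s α n (d + 1) - s α n d : ℝ) : ℂ) * X d j := by
    intro n k hk
    simp only [hvdef]
    rw [sum_range_succ', hs0]
    simp only [Complex.ofReal_zero, zero_mul, add_zero]
    have e1 : ∑ d ∈ range (m + 1), (s α n (d + 1) : ℂ) * X (d + 1) k
        = ∑ j ∈ range (k + 1), cf ω (k - j) *
          ∑ d ∈ range (m + 1), (s α n (d + 1) : ℂ) * (2 * X d j - X (d + 1) j) := by
      simp only [mul_sum]
      rw [sum_comm]
      refine sum_congr rfl fun d _ => ?_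
      rw [hXrel, mul_sum]
      refine sum_congr rfl fun j _ => ?_
      ring
    rw [e1]
    refine sum_congr rfl fun j hj => ?_
    have hj' := mem_range.1 hj
    congr 1
    have e2 : ∑ d ∈ range (m + 2), ((2 * s α n (d + 1) - s α n d : ℝ) : ℂ) * X d j
        = ∑ d ∈ range (m + 2), (2 * (s α n (d + 1) : ℂ)) * X d j
          - ∑ d ∈ range (m + 2), (s α n d : ℂ) * X d j := by
      rw [← sum_sub_distrib]
      refine sum_congr rfl fun d _ => ?_
      push_cast
      ring
    rw [e2, sum_range_succ (fun d => (2 * (s α n (d + 1) : ℂ)) * X d j), hX0 (m + 1) j (by omega),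
      sum_range_succ' (fun d => (s α n d : ℂ) * X d j), hs0]
    simp only [Complex.ofReal_zero, zero_mul, mul_zero, add_zero]
    rw [← sum_sub_distrib]
    refine sum_congr rfl fun d _ => ?_
    ring
  have hr : ∀ n k, k ≤ m → v (n + 1) k = ∑ j ∈ range (k + 1), cf ω (k - j) *
      (bet α (n + 1) * v (n + 2) j + 2 * v n j) := by
    intro n k hk
    rw [hvrel (n + 1) k hk]
    refine sum_congr rfl fun j _ => ?_
    congr 1
    simp only [hvdef]
    rw [mul_sum, mul_sum, ← sum_add_distrib]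
    refine sum_congr rfl fun d _ => ?_
    rw [s_succ h0]
    push_cast
    ring
  have hr0 : ∀ k, k ≤ m → v 0 k = ∑ j ∈ range (k + 1), cf ω (k - j) *
      (2 * cf Φ j + α * v 0 j + bet α 0 * v 1 j) := by
    intro k hk
    rw [hvrel 0 k hk]
    refine sum_congr rfl fun j _ => ?_
    congr 1
    have e1 : ∀ d, ((2 * s α 0 (d + 1) - s α 0 d : ℝ) : ℂ) * X d j
        = (if d = 0 then 2 * X d j else 0) + (α * ((s α 0 d : ℂ) * X d j)
          + bet α 0 * ((s α 1 d : ℂ) * X d j)) := by
      intro d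
      rw [s_zero h0]
      split_ifs <;> (push_cast; ring)
    simp only [e1]
    rw [sum_add_distrib, sum_add_distrib, ← mul_sum, ← mul_sum, Finset.sum_ite_eq' (range (m + 2)) 0,
      if_pos (mem_range.2 (by omega)), hXz]
    simp only [hvdef]
    ring
  -- the relation `k φ_k = α v_0 k`
  have hφ : ∀ k, 1 ≤ k → k ≤ m → (k : ℂ) * cf Φ k = α * v 0 k := by
    set T : ℂ → ℂ := fun z => ∑ d ∈ range (m + 2), (B α d : ℂ) * ζ z ^ d with hT
    have hTd : DifferentiableOn ℂ T (ball 0 1) := by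
      refine DifferentiableOn.fun_sum fun d _ => ?_
      exact (hζd.pow d).const_mul _
    have hαL : DifferentiableOn ℂ (fun z => (α : ℂ) * L z) (ball 0 1) := hL.const_mul _
    set e : ℂ → ℂ := fun z => T z * Complex.exp (-((α : ℂ) * L z)) with he
    have hed : DifferentiableOn ℂ e (ball 0 1) := hTd.mul hαL.neg.cexp
    have hLdd : DifferentiableOn ℂ (deriv L) (ball 0 1) := hL.deriv isOpen_ball
    have hder : ∀ z ∈ ball (0 : ℂ) 1, deriv e z = ζ z ^ (m + 1) *
        (-((m + 1 + α) * B α (m + 1)) * Complex.exp (-((α : ℂ) * L z)) * deriv L z) := by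
      intro z hz
      have hLz : HasDerivAt L (deriv L z) z :=
        (hL.differentiableAt (isOpen_ball.mem_nhds hz)).hasDerivAt
      have hζz : HasDerivAt ζ ((1 - ζ z) * deriv L z) z := by
        have h1 := (hLz.neg.cexp).const_sub 1
        have e1 : -(Complex.exp (-L z) * -deriv L z) = (1 - ζ z) * deriv L z := by
          simp only [hζ]
          ring
        rw [← e1]
        exact h1
      have hTz : HasDerivAt T (∑ d ∈ range (m + 2),
          (B α d : ℂ) * (d * ζ z ^ (d - 1) * ((1 - ζ z) * deriv L z))) z := by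
        have h2 : ∀ d ∈ range (m + 2), HasDerivAt (fun z => (B α d : ℂ) * ζ z ^ d)
            ((B α d : ℂ) * (d * ζ z ^ (d - 1) * ((1 - ζ z) * deriv L z))) z := fun d _ =>
          (hζz.pow d).const_mul _
        exact HasDerivAt.fun_sum h2
      have hEz : HasDerivAt (fun z => Complex.exp (-((α : ℂ) * L z)))
          (Complex.exp (-((α : ℂ) * L z)) * -((α : ℂ) * deriv L z)) z :=
        (hLz.const_mul (α : ℂ)).neg.cexp
      have h3 : deriv e z = _ := (hTz.mul hEz).deriv
      rw [h3]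
      have hB := B_ode α (ζ z) (m + 1)
      have e4 : ∑ d ∈ range (m + 2), (B α d : ℂ) * (d * ζ z ^ (d - 1) * ((1 - ζ z) * deriv L z))
          = deriv L z * ((1 - ζ z) * ∑ d ∈ range (m + 1 + 1), (B α d : ℂ) * (d * ζ z ^ (d - 1))) := by
        rw [mul_sum, mul_sum]
        refine sum_congr rfl fun d _ => ?_
        ring
      rw [e4]
      simp only [hT]
      push_cast at hB
      linear_combination (deriv L z * Complex.exp (-((α : ℂ) * L z))) * hB
    have hek : ∀ k, k ≤ m → cf e (k + 1) = 0 := by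
      intro k hk
      have h1 : cf (deriv e) k = 0 := by
        rw [cf_congr hder k]
        refine cf_pow_mul hζd ?_ hζ0 (m + 1) k (by omega)
        exact ((hαL.neg.cexp).const_mul _).mul hLdd
      rw [cf_deriv] at h1
      have h4 : ((k : ℂ) + 1) ≠ 0 := by exact_mod_cast k.succ_ne_zero
      exact (mul_eq_zero.1 h1).resolve_left h4
    have he0 : cf e 0 = 1 := by
      rw [cf_zero]
      simp only [he, hT]
      rw [sum_range_succ', hζ0, hL0]
      simp [B]
    intro k hk1 hkm
    have hEd : DifferentiableOn ℂ (fun z => Complex.exp ((α : ℂ) * L z) * Φ z) (ball 0 1) :=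
      hαL.cexp.mul hΦ
    have h1 : cf (fun z => ∑ d ∈ range (m + 2), (B α d : ℂ) * (ζ z ^ d * Φ z)) k
        = cf (fun z => e z * (Complex.exp ((α : ℂ) * L z) * Φ z)) k := by
      refine cf_congr (fun z _ => ?_) k
      simp only [he, hT]
      rw [show (∑ d ∈ range (m + 2), (B α d : ℂ) * ζ z ^ d) * Complex.exp (-((α : ℂ) * L z))
        * (Complex.exp ((α : ℂ) * L z) * Φ z)
        = (Complex.exp (-((α : ℂ) * L z)) * Complex.exp ((α : ℂ) * L z)) *
          ((∑ d ∈ range (m + 2), (B α d : ℂ) * ζ z ^ d) * Φ z) by ring, ← Complex.exp_add,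
        neg_add_cancel, Complex.exp_zero, one_mul, sum_mul]
      refine sum_congr rfl fun d _ => ?_
      ring
    rw [cf_sum (fun d => (B α d : ℂ)) (fun d z => ζ z ^ d * Φ z) hFd,
      cf_mul_range hed hEd] at h1
    have h1b : ∑ j ∈ range (k + 1), cf e (k - j) * cf (fun z => Complex.exp ((α : ℂ) * L z) * Φ z) j
        = cf (fun z => Complex.exp ((α : ℂ) * L z) * Φ z) k := by
      rw [sum_eq_single k]
      · rw [Nat.sub_self, he0, one_mul]
      · intro j hj hjk
        have hj' := mem_range.1 hj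
        obtain ⟨l, hl⟩ : ∃ l, k - j = l + 1 := ⟨k - j - 1, by omega⟩
        rw [hl, hek l (by omega), zero_mul]
      · intro h
        exact absurd (mem_range.2 (by omega)) h
    rw [h1b, ← hode k] at h1
    have h2 : ∑ d ∈ range (m + 2), (B α d : ℂ) * X d k = cf Φ k + α * v 0 k := by
      have e1 : ∀ d, (B α d : ℂ) * X d k
          = (if d = 0 then X d k else 0) + α * ((s α 0 d : ℂ) * X d k) := by
        intro d
        rw [B_eq]
        split_ifs <;> (push_cast; ring)
      simp only [e1]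
      rw [sum_add_distrib, ← mul_sum, Finset.sum_ite_eq' (range (m + 2)) 0,
        if_pos (mem_range.2 (by omega)), hXz]
    have h3 : ∑ d ∈ range (m + 2), (B α d : ℂ) * X d k = (k + 1) * cf Φ k := h1
    rw [h2] at h3
    linear_combination -h3
  have hfin := energy h0 h13 (cf ω) hcon ha0 m (cf Φ) (by rw [cf_zero, hΦ0]) v hv
    (fun k h1 h2 => hφ k h1 h2.le) hr0 hr (by omega)
  have h1 := hφ m hm le_rfl
  have h2 : (m : ℝ) * ‖cf Φ m‖ = α * ‖v 0 m‖ := by
    have h3 := congrArg norm h1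
    rw [norm_mul, norm_mul, Complex.norm_natCast, Complex.norm_real, Real.norm_eq_abs,
      abs_of_pos h0] at h3
    exact h3
  rw [h2]
  nlinarith

end Pool.Agent.R285.SS
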