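import Pool.Agent.R285.SSD
import Pool.Agent.H21SS.Stmts
import Pool.Agent.Helper202.Univ

/-!
Strongly starlike functions: the coefficient bound.
-/

open Finset Metric

namespace Pool.Agent.R285.SS

open Pool.Agent.R285.SchurE (cf)
open Pool.Agent.H21SS (SS)

theorem upper {α : ℝ} (hα : 0 < α) (h13 : 13 * α ^ 2 ≤ 1) {f : ℂ → ℂ} (hf : SS α f)
    {n : ℕ} (hn : 2 ≤ n) : ‖iteratedDeriv n f 0 / (n.factorial : ℂ)‖ ≤ 2 * α / (n - 1) := by
  obtain ⟨hfd, hf0, hf1, hinj, harg⟩ := hf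
  have h0m : (0 : ℂ) ∈ ball (0 : ℂ) 1 := mem_ball_self one_pos
  have hnb : ball (0 : ℂ) 1 ∈ nhds (0 : ℂ) := ball_mem_nhds _ one_pos
  have hα1 : α < 1 := by have := alpha_lt h13; linarith
  set G₀ : ℂ → ℂ := dslope f 0 with hG₀
  have hG₀d : DifferentiableOn ℂ G₀ (ball 0 1) := (Complex.differentiableOn_dslope hnb).2 hfd
  have hG₀0 : G₀ 0 = 1 := by rw [hG₀, dslope_same, hf1]
  have hfG : ∀ z, f z = z * G₀ z := by
    intro z
    have e1 := sub_smul_dslope f 0 z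
    simp only [sub_zero, smul_eq_mul, hf0] at e1
    exact e1.symm
  have hG₀ne : ∀ z ∈ ball (0 : ℂ) 1, G₀ z ≠ 0 := by
    intro z hz h
    by_cases hz0 : z = 0
    · rw [hz0, hG₀0] at h
      exact one_ne_zero h
    · apply hz0
      refine hinj hz h0m ?_
      rw [hf0, hfG z, h, mul_zero]
  have hf'ne : ∀ z ∈ ball (0 : ℂ) 1, deriv f z ≠ 0 := fun z hz =>
    Pool.Agent.Helper202.Univ.deriv_ne_zero isOpen_ball hfd hinj hz
  set q₀ : ℂ → ℂ := fun z => deriv f z / G₀ z with hq₀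
  have hq₀d : DifferentiableOn ℂ q₀ (ball 0 1) := (hfd.deriv isOpen_ball).div hG₀d hG₀ne
  have hq₀0 : q₀ 0 = 1 := by simp only [hq₀]; rw [hf1, hG₀0, div_one]
  have hq₀ne : ∀ z ∈ ball (0 : ℂ) 1, q₀ z ≠ 0 := fun z hz => div_ne_zero (hf'ne z hz) (hG₀ne z hz)
  have hpi := Real.pi_pos
  have hq₀arg : ∀ z ∈ ball (0 : ℂ) 1, |Complex.arg (q₀ z)| < α * Real.pi / 2 := by
    intro z hz
    by_cases hz0 : z = 0
    · rw [hz0, hq₀0, Complex.arg_one, abs_zero]
      positivity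
    · have h1 : z * deriv f z / f z = q₀ z := by
        simp only [hq₀]
        rw [hfG z, mul_div_mul_left _ _ hz0]
      rw [← h1]
      exact harg z hz hz0
  have hslit : ∀ z ∈ ball (0 : ℂ) 1, q₀ z ∈ Complex.slitPlane := by
    intro z hz
    rw [Complex.mem_slitPlane_iff_arg]
    refine ⟨?_, hq₀ne z hz⟩
    intro h
    have h1 := hq₀arg z hz
    rw [h, abs_of_pos hpi] at h1
    nlinarith
  set L₀ : ℂ → ℂ := fun z => Complex.log (q₀ z) / α with hL₀
  have hL₀d : DifferentiableOn ℂ L₀ (ball 0 1) := (hq₀d.clog hslit).div_const _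
  have hαc : (α : ℂ) ≠ 0 := by exact_mod_cast hα.ne'
  have hL₀exp : ∀ z ∈ ball (0 : ℂ) 1, Complex.exp (α * L₀ z) = q₀ z := by
    intro z hz
    simp only [hL₀]
    rw [mul_div_cancel₀ _ hαc, Complex.exp_log (hq₀ne z hz)]
  have hL₀0 : L₀ 0 = 0 := by simp only [hL₀]; rw [hq₀0, Complex.log_one, zero_div]
  have hL₀im : ∀ z ∈ ball (0 : ℂ) 1, |(L₀ z).im| < Real.pi / 2 := by
    intro z hz
    have h1 : (L₀ z).im = Complex.arg (q₀ z) / α := by
      simp only [hL₀]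
      rw [Complex.div_ofReal_im, Complex.log_im]
    rw [h1, abs_div, abs_of_pos hα, div_lt_iff₀ hα]
    linarith [hq₀arg z hz]
  have hfk : ∀ k, cf f (k + 1) = cf G₀ k := by
    intro k
    rw [← cf_id_mul hG₀d k]
    congr 1
    funext z
    exact hfG z
  have hode : ∀ k : ℕ, ((k : ℂ) + 1) * cf G₀ k
      = cf (fun z => Complex.exp (α * L₀ z) * G₀ z) k := by
    intro k
    rw [← hfk k, ← cf_deriv]
    refine cf_congr (fun z hz => ?_) k
    rw [hL₀exp z hz]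
    simp only [hq₀]
    rw [div_mul_cancel₀ _ (hG₀ne z hz)]
  obtain ⟨m, rfl⟩ : ∃ m, n = m + 1 := ⟨n - 1, by omega⟩
  have hm : 1 ≤ m := by omega
  have h := core hα h13 hG₀d hG₀0 hL₀d hL₀0 hL₀im hode hm
  rw [← hfk m] at h
  have hmpos : (0 : ℝ) < m := by exact_mod_cast (by omega : 0 < m)
  push_cast
  rw [add_sub_cancel_right, le_div_iff₀ hmpos, mul_comm]
  exact h

end Pool.Agent.R285.SS
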