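import Mathlib

/-!
# Trace inequality for Toeplitz contractions

`toe n F` is the lower triangular Toeplitz matrix of the power series `F`, `Om n F` the next block.
-/

set_option autoImplicit false

namespace Pool.Agent.R285.SchurA

open Finset Matrix PowerSeries

noncomputable section

/-- lower triangular Toeplitz matrix of a power series -/
def toe (n : ℕ) (F : PowerSeries ℂ) : Matrix (Fin n) (Fin n) ℂ :=
  fun i j => if (j : ℕ) ≤ i then coeff ((i : ℕ) - j) F else 0

/-- the next block -/
def Om (n : ℕ) (F : PowerSeries ℂ) : Matrix (Fin n) (Fin n) ℂ :=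
  fun i j => coeff (n + i - j) F

lemma toe_mul (n : ℕ) (F G : PowerSeries ℂ) : toe n F * toe n G = toe n (F * G) := by
  ext i j
  have e0 : (toe n F * toe n G) i j = ∑ k ∈ range n,
      (if k ≤ (i : ℕ) then coeff ((i : ℕ) - k) F else 0) *
        (if (j : ℕ) ≤ k then coeff (k - j) G else 0) := by
    rw [Matrix.mul_apply, ← Fin.sum_univ_eq_sum_range (fun k =>
      (if k ≤ (i : ℕ) then coeff ((i : ℕ) - k) F else 0) *
        (if (j : ℕ) ≤ k then coeff (k - j) G else 0)) n]
    rfl
  rw [e0]
  by_cases h : (j : ℕ) ≤ i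
  · have e1 : ∑ k ∈ range n, (if k ≤ (i : ℕ) then coeff ((i : ℕ) - k) F else 0) *
        (if (j : ℕ) ≤ k then coeff (k - j) G else 0)
        = ∑ k ∈ Icc (j : ℕ) i, coeff ((i : ℕ) - k) F * coeff (k - j) G := by
      symm
      have hsub : Icc (j : ℕ) i ⊆ range n := by
        intro k hk
        rw [mem_Icc] at hk
        rw [mem_range]
        exact lt_of_le_of_lt hk.2 i.2
      rw [← Finset.sum_subset hsub]
      · refine Finset.sum_congr rfl fun k hk => ?_
        rw [mem_Icc] at hk
        rw [if_pos hk.2, if_pos hk.1]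
      · intro k _ hk
        rw [mem_Icc, not_and_or] at hk
        rcases hk with hk | hk
        · rw [if_neg hk, mul_zero]
        · rw [if_neg hk, zero_mul]
    rw [e1]
    unfold toe
    rw [if_pos h, coeff_mul,
      Finset.Nat.sum_antidiagonal_eq_sum_range_succ (fun a b => coeff a F * coeff b G)]
    refine Finset.sum_nbij' (fun k => (i : ℕ) - k) (fun m => (i : ℕ) - m) ?_ ?_ ?_ ?_ ?_
    · intro k hk
      rw [mem_Icc] at hk
      rw [mem_range]
      omega
    · intro m hm
      rw [mem_range] at hm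
      rw [mem_Icc]
      omega
    · intro k hk
      rw [mem_Icc] at hk
      omega
    · intro m hm
      rw [mem_range] at hm
      omega
    · intro k hk
      rw [mem_Icc] at hk
      have e2 : (i : ℕ) - j - ((i : ℕ) - k) = k - j := by omega
      rw [e2]
  · unfold toe
    rw [if_neg h]
    refine Finset.sum_eq_zero fun k _ => ?_
    by_cases hk : k ≤ (i : ℕ)
    · rw [if_neg (by omega : ¬ (j : ℕ) ≤ k), mul_zero]
    · rw [if_neg hk, zero_mul]

lemma toe_one (n : ℕ) : toe n 1 = 1 := by
  ext i j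
  unfold toe
  rw [Matrix.one_apply]
  by_cases h : i = j
  · subst h
    simp
  · rw [if_neg h]
    by_cases h2 : (j : ℕ) ≤ i
    · rw [if_pos h2, coeff_one, if_neg]
      intro h3
      exact h (Fin.ext (by omega))
    · rw [if_neg h2]

lemma toe_pow (n : ℕ) (F : PowerSeries ℂ) (m : ℕ) : (toe n F) ^ m = toe n (F ^ m) := by
  induction m with
  | zero => simp [toe_one]
  | succ m ih => rw [pow_succ, ih, toe_mul, pow_succ]

lemma trace_toe (n : ℕ) (F : PowerSeries ℂ) (hF : coeff 0 F = 0) : (toe n F).trace = 0 := by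
  unfold Matrix.trace
  refine Finset.sum_eq_zero fun i _ => ?_
  show (if (i : ℕ) ≤ i then coeff ((i : ℕ) - i) F else 0) = 0
  rw [if_pos le_rfl, Nat.sub_self, hF]

/-- double sum -/
lemma sum_tri (h : ℕ → ℂ) (n : ℕ) :
    ∑ i ∈ range n, ∑ d ∈ range (i + 1), h d = ∑ d ∈ range n, ((n : ℂ) - d) * h d := by
  induction n with
  | zero => simp
  | succ n ih =>
    rw [Finset.sum_range_succ, ih, Finset.sum_range_succ (fun d => ((n + 1 : ℕ) - (d : ℂ)) * h d),
      Finset.sum_range_succ, ← add_assoc, ← Finset.sum_add_distrib]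
    congr 1
    · refine Finset.sum_congr rfl fun d _ => ?_
      push_cast
      ring
    · push_cast
      ring

lemma trace_toe_Om (n : ℕ) (G F : PowerSeries ℂ) :
    (toe n G * Om n F).trace = ∑ d ∈ range n, ((n : ℂ) - d) * (coeff d G * coeff (n - d) F) := by
  rw [← sum_tri]
  unfold Matrix.trace
  rw [← Fin.sum_univ_eq_sum_range (fun i => ∑ d ∈ range (i + 1), coeff d G * coeff (n - d) F) n]
  refine Finset.sum_congr rfl fun i _ => ?_
  rw [Matrix.diag_apply, Matrix.mul_apply]
  have e0 : ∑ j : Fin n, toe n G i j * Om n F j i = ∑ j ∈ range n,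
      (if j ≤ (i : ℕ) then coeff ((i : ℕ) - j) G else 0) * coeff (n + j - i) F := by
    rw [← Fin.sum_univ_eq_sum_range (fun j =>
      (if j ≤ (i : ℕ) then coeff ((i : ℕ) - j) G else 0) * coeff (n + j - i) F) n]
    rfl
  rw [e0]
  have hsub : range ((i : ℕ) + 1) ⊆ range n := by
    intro k hk
    rw [mem_range] at hk ⊢
    have := i.2
    omega
  rw [← Finset.sum_subset hsub]
  · refine Finset.sum_nbij' (fun k => (i : ℕ) - k) (fun m => (i : ℕ) - m) ?_ ?_ ?_ ?_ ?_
    · intro k hk
      rw [mem_range] at hk ⊢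
      omega
    · intro k hk
      rw [mem_range] at hk ⊢
      omega
    · intro k hk
      rw [mem_range] at hk
      omega
    · intro k hk
      rw [mem_range] at hk
      omega
    · intro k hk
      rw [mem_range] at hk
      rw [if_pos (by omega)]
      have := i.2
      congr 3
      omega
  · intro k _ hk
    rw [mem_range] at hk
    rw [if_neg (by omega), zero_mul]

/-- the moments -/
def mom (n : ℕ) (F : PowerSeries ℂ) (m : ℕ) : ℂ := ((toe n F) ^ m * Om n F).trace

lemma mom_eq (n : ℕ) (hn : 1 ≤ n) (F : PowerSeries ℂ) (m : ℕ) :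
    ((m : ℂ) + 1) * mom n F m = n * coeff n (F ^ (m + 1)) := by
  obtain ⟨k, rfl⟩ : ∃ k, n = k + 1 := ⟨n - 1, by omega⟩
  have h1 : coeff k (derivative ℂ (F ^ (m + 1))) = coeff (k + 1) (F ^ (m + 1)) * ((k : ℂ) + 1) := by
    rw [PowerSeries.coeff_derivative]
  have h2 : derivative ℂ (F ^ (m + 1)) = ((m : PowerSeries ℂ) + 1) * (F ^ m * derivative ℂ F) := by
    rw [Derivation.leibniz_pow]
    simp only [Nat.add_sub_cancel, smul_eq_mul, nsmul_eq_mul]
    push_cast
    ring
  have h3 : coeff k (derivative ℂ (F ^ (m + 1))) = ((m : ℂ) + 1) * coeff k (F ^ m * derivative ℂ F) := by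
    rw [h2]
    have : ((m : PowerSeries ℂ) + 1) = C ((m : ℂ) + 1) := by
      simp
    rw [this, coeff_C_mul]
  unfold mom
  rw [toe_pow, trace_toe_Om]
  have h4 : ∑ d ∈ range (k + 1), (((k + 1 : ℕ) : ℂ) - d) * (coeff d (F ^ m) * coeff (k + 1 - d) F)
      = coeff k (F ^ m * derivative ℂ F) := by
    rw [coeff_mul,
      Finset.Nat.sum_antidiagonal_eq_sum_range_succ (fun a b => coeff a (F ^ m) * coeff b (derivative ℂ F))]
    refine Finset.sum_congr rfl fun d hd => ?_
    rw [mem_range] at hd
    rw [PowerSeries.coeff_derivative]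
    have e1 : k - d + 1 = k + 1 - d := by omega
    have e2 : ((k - d : ℕ) : ℂ) = (k : ℂ) - d := by
      rw [Nat.cast_sub (by omega)]
    rw [e1, e2]
    push_cast
    ring
  rw [h4, ← h3, h1]
  push_cast
  ring

end

end Pool.Agent.R285.SchurA
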