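import Pool.Agent.R285.SchurA

/-!
# Trace inequality for Toeplitz contractions, part B
-/

set_option autoImplicit false

namespace Pool.Agent.R285.SchurB

open Finset Matrix PowerSeries
open Pool.Agent.R285.SchurA

noncomputable section

/-- squared Frobenius norm -/
def fro {n : ℕ} (X : Matrix (Fin n) (Fin n) ℂ) : ℝ := ∑ j, ∑ i, ‖X i j‖ ^ 2

/-- real inner product -/
def ip {n : ℕ} (X Y : Matrix (Fin n) (Fin n) ℂ) : ℝ := (trace (Xᴴ * Y)).re

variable {n : ℕ}

lemma fro_nonneg (X : Matrix (Fin n) (Fin n) ℂ) : 0 ≤ fro X := by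
  unfold fro; positivity

lemma ip_self (X : Matrix (Fin n) (Fin n) ℂ) : ip X X = fro X := by
  unfold ip fro Matrix.trace
  rw [Complex.re_sum]
  refine Finset.sum_congr rfl fun j _ => ?_
  rw [Matrix.diag_apply, Matrix.mul_apply, Complex.re_sum]
  refine Finset.sum_congr rfl fun i _ => ?_
  rw [Matrix.conjTranspose_apply]
  show ((starRingEnd ℂ) (X i j) * X i j).re = _
  rw [mul_comm, Complex.mul_conj, Complex.normSq_eq_norm_sq, Complex.ofReal_re]

lemma ip_comm (X Y : Matrix (Fin n) (Fin n) ℂ) : ip X Y = ip Y X := by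
  unfold ip
  have : trace (Yᴴ * X) = star (trace (Xᴴ * Y)) := by
    rw [← trace_conjTranspose, conjTranspose_mul, conjTranspose_conjTranspose]
  rw [this]
  simp

lemma ip_add_left (X Y Z : Matrix (Fin n) (Fin n) ℂ) : ip (X + Y) Z = ip X Z + ip Y Z := by
  unfold ip
  rw [conjTranspose_add, add_mul, trace_add, Complex.add_re]

lemma ip_add_right (X Y Z : Matrix (Fin n) (Fin n) ℂ) : ip X (Y + Z) = ip X Y + ip X Z := by
  unfold ip
  rw [mul_add, trace_add, Complex.add_re]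

lemma ip_smul_left (a : ℝ) (X Y : Matrix (Fin n) (Fin n) ℂ) : ip ((a : ℂ) • X) Y = a * ip X Y := by
  unfold ip
  rw [conjTranspose_smul, smul_mul_assoc, trace_smul]
  simp

lemma ip_smul_right (a : ℝ) (X Y : Matrix (Fin n) (Fin n) ℂ) : ip X ((a : ℂ) • Y) = a * ip X Y := by
  unfold ip
  rw [mul_smul_comm, trace_smul]
  simp

lemma fro_three (a b c : ℝ) (A B C : Matrix (Fin n) (Fin n) ℂ) :
    fro ((a : ℂ) • A + (b : ℂ) • B + (c : ℂ) • C) = a ^ 2 * fro A + b ^ 2 * fro B + c ^ 2 * fro C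
      + 2 * a * b * ip A B + 2 * a * c * ip A C + 2 * b * c * ip B C := by
  rw [← ip_self, ← ip_self A, ← ip_self B, ← ip_self C]
  simp only [ip_add_left, ip_add_right, ip_smul_left, ip_smul_right]
  rw [ip_comm B A, ip_comm C A, ip_comm C B]
  ring

lemma fro_conjTranspose (X : Matrix (Fin n) (Fin n) ℂ) : fro Xᴴ = fro X := by
  unfold fro
  rw [Finset.sum_comm]
  refine Finset.sum_congr rfl fun i _ => Finset.sum_congr rfl fun j _ => ?_
  rw [conjTranspose_apply, norm_star]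

lemma fro_smul (e : ℂ) (he : ‖e‖ = 1) (X : Matrix (Fin n) (Fin n) ℂ) : fro (e • X) = fro X := by
  unfold fro
  refine Finset.sum_congr rfl fun i _ => Finset.sum_congr rfl fun j _ => ?_
  rw [Matrix.smul_apply, norm_smul, he, one_mul]

/-- the coefficients define a contraction -/
def IsCon (a : ℕ → ℂ) : Prop := ∀ (N : ℕ) (x : ℕ → ℂ),
  ∑ i ∈ range N, ‖∑ j ∈ range (i + 1), a (i - j) * x j‖ ^ 2 ≤ ∑ j ∈ range N, ‖x j‖ ^ 2

/-- extension by zero -/
def ext (v : Fin n → ℂ) (k : ℕ) : ℂ := if h : k < n then v ⟨k, h⟩ else 0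

lemma sum_ext (f : ℕ → ℂ) (v : Fin n → ℂ) :
    ∑ k : Fin n, f k * v k = ∑ k ∈ range n, f k * ext v k := by
  rw [← Fin.sum_univ_eq_sum_range (fun k => f k * ext v k) n]
  refine Finset.sum_congr rfl fun k _ => ?_
  unfold ext
  rw [dif_pos k.2]

lemma toe_vec (F : PowerSeries ℂ) (v : Fin n → ℂ) (i : Fin n) :
    (toe n F *ᵥ v) i = ∑ k ∈ range ((i : ℕ) + 1), coeff ((i : ℕ) - k) F * ext v k := by
  have e0 : (toe n F *ᵥ v) i = ∑ k ∈ range n,
      (if k ≤ (i : ℕ) then coeff ((i : ℕ) - k) F else 0) * ext v k := by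
    rw [← sum_ext]
    rfl
  rw [e0]
  have hsub : range ((i : ℕ) + 1) ⊆ range n := by
    intro k hk
    rw [mem_range] at hk ⊢
    have := i.2
    omega
  rw [← Finset.sum_subset hsub]
  · refine Finset.sum_congr rfl fun k hk => ?_
    rw [mem_range] at hk
    rw [if_pos (by omega)]
  · intro k _ hk
    rw [mem_range] at hk
    rw [if_neg (by omega), zero_mul]

lemma Om_vec (F : PowerSeries ℂ) (v : Fin n → ℂ) (i : Fin n) :
    (Om n F *ᵥ v) i = ∑ k ∈ range n, coeff (n + i - k) F * ext v k := by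
  rw [← sum_ext]
  rfl

lemma vec_ineq (F : PowerSeries ℂ) (h : IsCon fun k => coeff k F) (v w : Fin n → ℂ) :
    ∑ i, ‖(toe n F *ᵥ v) i‖ ^ 2 + ∑ i, ‖(Om n F *ᵥ v) i + (toe n F *ᵥ w) i‖ ^ 2
      ≤ ∑ i, ‖v i‖ ^ 2 + ∑ i, ‖w i‖ ^ 2 := by
  have h1 := h (n + n) (fun k => if k < n then ext v k else ext w (k - n))
  rw [Finset.sum_range_add, Finset.sum_range_add] at h1
  have e1 : ∀ v : Fin n → ℂ, ∑ i ∈ range n, ‖ext v i‖ ^ 2 = ∑ i, ‖v i‖ ^ 2 := by
    intro v
    rw [← Fin.sum_univ_eq_sum_range (fun i => ‖ext v i‖ ^ 2) n]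
    refine Finset.sum_congr rfl fun k _ => ?_
    unfold ext
    rw [dif_pos k.2]
  have e2 : ∑ j ∈ range n, ‖(fun k => if k < n then ext v k else ext w (k - n)) j‖ ^ 2
      = ∑ i, ‖v i‖ ^ 2 := by
    rw [← e1]
    refine Finset.sum_congr rfl fun k hk => ?_
    rw [mem_range] at hk
    simp only [if_pos hk]
  have e3 : ∑ j ∈ range n, ‖(fun k => if k < n then ext v k else ext w (k - n)) (n + j)‖ ^ 2
      = ∑ i, ‖w i‖ ^ 2 := by
    rw [← e1]
    refine Finset.sum_congr rfl fun k _ => ?_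
    simp only [if_neg (by omega : ¬ n + k < n), Nat.add_sub_cancel_left]
  have e4 : ∑ i ∈ range n, ‖∑ j ∈ range (i + 1), coeff (i - j) F *
      (fun k => if k < n then ext v k else ext w (k - n)) j‖ ^ 2
      = ∑ i, ‖(toe n F *ᵥ v) i‖ ^ 2 := by
    rw [← Fin.sum_univ_eq_sum_range (fun i => ‖∑ j ∈ range (i + 1), coeff (i - j) F *
      (fun k => if k < n then ext v k else ext w (k - n)) j‖ ^ 2) n]
    refine Finset.sum_congr rfl fun i _ => ?_
    rw [toe_vec]
    congr 2
    refine Finset.sum_congr rfl fun k hk => ?_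
    rw [mem_range] at hk
    have := i.2
    simp only [if_pos (by omega : k < n)]
  have e5 : ∑ i ∈ range n, ‖∑ j ∈ range (n + i + 1), coeff (n + i - j) F *
      (fun k => if k < n then ext v k else ext w (k - n)) j‖ ^ 2
      = ∑ i, ‖(Om n F *ᵥ v) i + (toe n F *ᵥ w) i‖ ^ 2 := by
    rw [← Fin.sum_univ_eq_sum_range (fun i => ‖∑ j ∈ range (n + i + 1), coeff (n + i - j) F *
      (fun k => if k < n then ext v k else ext w (k - n)) j‖ ^ 2) n]
    refine Finset.sum_congr rfl fun i _ => ?_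
    rw [toe_vec, Om_vec, add_assoc n (i : ℕ) 1, Finset.sum_range_add]
    congr 2
    congr 1
    · refine Finset.sum_congr rfl fun k hk => ?_
      rw [mem_range] at hk
      simp only [if_pos hk]
    · refine Finset.sum_congr rfl fun k _ => ?_
      simp only [if_neg (by omega : ¬ n + k < n), Nat.add_sub_cancel_left]
      rw [Nat.add_sub_add_left]
  rw [e2, e3] at h1
  rw [← e4, ← e5]
  exact h1

lemma block (F : PowerSeries ℂ) (h : IsCon fun k => coeff k F) (X Y : Matrix (Fin n) (Fin n) ℂ) :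
    fro (toe n F * X) + fro (Om n F * X + toe n F * Y) ≤ fro X + fro Y := by
  unfold fro
  rw [← Finset.sum_add_distrib, ← Finset.sum_add_distrib]
  refine Finset.sum_le_sum fun j _ => ?_
  exact vec_ineq F h (fun i => X i j) (fun i => Y i j)

lemma con_mul (F : PowerSeries ℂ) (h : IsCon fun k => coeff k F) (X : Matrix (Fin n) (Fin n) ℂ) :
    fro (toe n F * X) ≤ fro X := by
  have h1 := block F h X 0
  have h2 := fro_nonneg (Om n F * X + toe n F * 0)
  have h3 : fro (0 : Matrix (Fin n) (Fin n) ℂ) = 0 := by unfold fro; simp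
  rw [h3] at h1
  linarith

lemma key (F : PowerSeries ℂ) (h : IsCon fun k => coeff k F) (X Y : Matrix (Fin n) (Fin n) ℂ) :
    2 * ip Y (Om n F * X) ≤ fro X - fro (toe n F * X) + fro Y - fro ((toe n F)ᴴ * Y) := by
  set T := toe n F with hT
  have h1 := block F h X (Tᴴ * Y)
  rw [← hT] at h1
  set E := Om n F * X + T * (Tᴴ * Y) with hE
  have h2 : 0 ≤ fro (E - Y) := fro_nonneg _
  have h3 : fro (E - Y) = fro E - 2 * ip Y E + fro Y := by
    have := fro_three 1 (-1) 0 E Y 0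
    have e : ((1 : ℝ) : ℂ) • E + ((-1 : ℝ) : ℂ) • Y + ((0 : ℝ) : ℂ) • (0 : Matrix (Fin n) (Fin n) ℂ)
        = E - Y := by
      simp [sub_eq_add_neg]
    rw [e] at this
    rw [this, ip_comm Y E]
    ring
  have h4 : ip Y E = ip Y (Om n F * X) + fro (Tᴴ * Y) := by
    rw [hE, ip_add_right]
    congr 1
    rw [← ip_self]
    unfold ip
    rw [conjTranspose_mul, conjTranspose_conjTranspose, ← Matrix.mul_assoc]
  rw [h4] at h3
  linarith

/-- the moments, in the order `u(T) Ω u(T)` -/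
lemma key_poly (F : PowerSeries ℂ) (h : IsCon fun k => coeff k F) (U V : Matrix (Fin n) (Fin n) ℂ)
    (hV : Commute (toe n F) V) (e : ℂ) (he : ‖e‖ = 1) :
    2 * (e * trace (U * V * Om n F)).re ≤ fro U - fro (toe n F * U) + fro V - fro (toe n F * V) := by
  have h1 := key F h (e • U) Vᴴ
  have e1 : ip Vᴴ (Om n F * (e • U)) = (e * trace (U * V * Om n F)).re := by
    unfold ip
    rw [conjTranspose_conjTranspose, mul_smul_comm, mul_smul_comm, trace_smul, smul_eq_mul]
    congr 2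
    rw [← Matrix.mul_assoc, Matrix.trace_mul_comm, Matrix.mul_assoc]
  have e2 : (toe n F)ᴴ * Vᴴ = (toe n F * V)ᴴ := by
    rw [conjTranspose_mul, ← conjTranspose_mul, ← conjTranspose_mul, hV.eq]
  rw [e1, mul_smul_comm, fro_smul e he, fro_smul e he, e2, fro_conjTranspose, fro_conjTranspose] at h1
  exact h1

end

end Pool.Agent.R285.SchurB
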