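import Pool.Agent.R285.SchurB

/-!
# Trace inequality for Toeplitz contractions, part C: the certificate
-/

set_option autoImplicit false

namespace Pool.Agent.R285.SchurC

open Finset Matrix PowerSeries
open Pool.Agent.R285.SchurA Pool.Agent.R285.SchurB

noncomputable section

variable {n : ℕ}

/-- Gram numbers -/
def gr (n : ℕ) (F : PowerSeries ℂ) (a b : ℕ) : ℝ := ip ((toe n F) ^ a) ((toe n F) ^ b)

lemma gr_self (F : PowerSeries ℂ) (a : ℕ) : gr n F a a = fro ((toe n F) ^ a) := ip_self _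

lemma gr_zero_zero (F : PowerSeries ℂ) : gr n F 0 0 = n := by
  unfold gr ip
  simp

lemma gr_zero_succ (F : PowerSeries ℂ) (h0 : coeff 0 F = 0) (b : ℕ) : gr n F 0 (b + 1) = 0 := by
  unfold gr ip
  rw [pow_zero, conjTranspose_one, one_mul, toe_pow, trace_toe, Complex.zero_re]
  rw [coeff_zero_eq_constantCoeff_apply] at h0 ⊢
  rw [map_pow, h0, zero_pow (by omega)]

/-- quadratic polynomials in `T` -/
def qp (n : ℕ) (F : PowerSeries ℂ) (a b c : ℝ) : Matrix (Fin n) (Fin n) ℂ :=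
  (a : ℂ) • (toe n F) ^ 0 + (b : ℂ) • (toe n F) ^ 1 + (c : ℂ) • (toe n F) ^ 2

lemma fro_qp (F : PowerSeries ℂ) (h0 : coeff 0 F = 0) (a b c : ℝ) :
    fro (qp n F a b c) = a ^ 2 * n + b ^ 2 * gr n F 1 1 + c ^ 2 * gr n F 2 2
      + 2 * b * c * gr n F 1 2 := by
  unfold qp
  rw [fro_three, ← gr_self, ← gr_self, ← gr_self, gr_zero_zero]
  have h1 : ip ((toe n F) ^ 0) ((toe n F) ^ 1) = 0 := gr_zero_succ F h0 0
  have h2 : ip ((toe n F) ^ 0) ((toe n F) ^ 2) = 0 := gr_zero_succ F h0 1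
  rw [h1, h2]
  unfold gr
  ring

lemma fro_toe_qp (F : PowerSeries ℂ) (a b c : ℝ) :
    fro (toe n F * qp n F a b c) = a ^ 2 * gr n F 1 1 + b ^ 2 * gr n F 2 2 + c ^ 2 * gr n F 3 3
      + 2 * a * b * gr n F 1 2 + 2 * a * c * gr n F 1 3 + 2 * b * c * gr n F 2 3 := by
  have e : toe n F * qp n F a b c = (a : ℂ) • (toe n F) ^ 1 + (b : ℂ) • (toe n F) ^ 2
      + (c : ℂ) • (toe n F) ^ 3 := by
    unfold qp
    simp only [mul_add, mul_smul_comm, ← pow_succ']
  rw [e, fro_three, ← gr_self, ← gr_self, ← gr_self]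
  rfl

lemma commute_qp (F : PowerSeries ℂ) (a b c : ℝ) : Commute (toe n F) (qp n F a b c) := by
  unfold qp
  refine Commute.add_right (Commute.add_right ?_ ?_) ?_
  · exact ((Commute.refl (toe n F)).pow_right 0).smul_right _
  · exact ((Commute.refl (toe n F)).pow_right 1).smul_right _
  · exact ((Commute.refl (toe n F)).pow_right 2).smul_right _

lemma trace_qp (F : PowerSeries ℂ) (a b c : ℝ) :
    trace (qp n F a b c * qp n F a b c * Om n F) = (a ^ 2 : ℝ) * mom n F 0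
      + (2 * a * b : ℝ) * mom n F 1 + (b ^ 2 + 2 * a * c : ℝ) * mom n F 2
      + (2 * b * c : ℝ) * mom n F 3 + (c ^ 2 : ℝ) * mom n F 4 := by
  have e : qp n F a b c * qp n F a b c = ((a ^ 2 : ℝ) : ℂ) • (toe n F) ^ 0
      + ((2 * a * b : ℝ) : ℂ) • (toe n F) ^ 1 + ((b ^ 2 + 2 * a * c : ℝ) : ℂ) • (toe n F) ^ 2
      + ((2 * b * c : ℝ) : ℂ) • (toe n F) ^ 3 + ((c ^ 2 : ℝ) : ℂ) • (toe n F) ^ 4 := by
    unfold qp
    simp only [mul_add, add_mul, mul_smul_comm, smul_mul_assoc, ← pow_add, smul_smul]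
    norm_num
    module
  rw [e]
  unfold mom
  simp only [add_mul, smul_mul_assoc, trace_add, trace_smul, smul_eq_mul]

/-- the basic inequality for quadratic polynomials -/
lemma L (F : PowerSeries ℂ) (h0 : coeff 0 F = 0) (h : IsCon fun k => coeff k F) (e : ℂ)
    (he : ‖e‖ = 1) (a b c : ℝ) :
    a ^ 2 * (e * mom n F 0).re + 2 * a * b * (e * mom n F 1).re
      + (b ^ 2 + 2 * a * c) * (e * mom n F 2).re + 2 * b * c * (e * mom n F 3).re
      + c ^ 2 * (e * mom n F 4).re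
      ≤ a ^ 2 * n + b ^ 2 * gr n F 1 1 + c ^ 2 * gr n F 2 2 + 2 * b * c * gr n F 1 2
        - (a ^ 2 * gr n F 1 1 + b ^ 2 * gr n F 2 2 + c ^ 2 * gr n F 3 3
      + 2 * a * b * gr n F 1 2 + 2 * a * c * gr n F 1 3 + 2 * b * c * gr n F 2 3) := by
  have h1 := key_poly F h (qp n F a b c) (qp n F a b c) (commute_qp F a b c) e he
  rw [trace_qp, fro_toe_qp, fro_qp F h0] at h1
  have e1 : ∀ (r : ℝ) (z : ℂ), (e * ((r : ℂ) * z)).re = r * (e * z).re := by
    intro r z
    rw [mul_left_comm, Complex.re_ofReal_mul]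
  have e2 : (e * ((a ^ 2 : ℝ) * mom n F 0
      + (2 * a * b : ℝ) * mom n F 1 + (b ^ 2 + 2 * a * c : ℝ) * mom n F 2
      + (2 * b * c : ℝ) * mom n F 3 + (c ^ 2 : ℝ) * mom n F 4)).re
      = a ^ 2 * (e * mom n F 0).re + 2 * a * b * (e * mom n F 1).re
      + (b ^ 2 + 2 * a * c) * (e * mom n F 2).re + 2 * b * c * (e * mom n F 3).re
      + c ^ 2 * (e * mom n F 4).re := by
    simp only [mul_add, Complex.add_re, e1]
  rw [e2] at h1
  linarith

/-- powers have smaller norm -/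
lemma fro_pow_le (F : PowerSeries ℂ) (h : IsCon fun k => coeff k F) (a : ℕ) :
    fro ((toe n F) ^ (a + 1)) ≤ gr n F 1 1 := by
  rw [gr_self, pow_one]
  induction a with
  | zero => simp
  | succ a ih =>
    rw [pow_succ']
    exact (con_mul F h _).trans ih

/-- higher moments -/
lemma mom_le (F : PowerSeries ℂ) (h : IsCon fun k => coeff k F) (e : ℂ) (he : ‖e‖ = 1) (j : ℕ) :
    (e * mom n F (j + 2)).re ≤ gr n F 1 1 := by
  have h1 := key_poly F h ((toe n F) ^ 1) ((toe n F) ^ (j + 1))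
    ((Commute.refl (toe n F)).pow_right _) e he
  have e1 : (toe n F) ^ 1 * (toe n F) ^ (j + 1) = (toe n F) ^ (j + 2) := by
    rw [← pow_add]
    congr 1
    omega
  rw [e1] at h1
  have h2 := fro_pow_le (n := n) F h 0
  have h3 := fro_pow_le (n := n) F h j
  have h4 := fro_nonneg (toe n F * (toe n F) ^ 1)
  have h5 := fro_nonneg (toe n F * (toe n F) ^ (j + 1))
  have h6 : (e * mom n F (j + 2)).re = (e * trace ((toe n F) ^ (j + 2) * Om n F)).re := rfl
  rw [h6]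
  linarith

/-- Gram matrix is positive -/
lemma gram_pos (F : PowerSeries ℂ) (a b c : ℝ) :
    0 ≤ a ^ 2 * gr n F 1 1 + b ^ 2 * gr n F 2 2 + c ^ 2 * gr n F 3 3
      + 2 * a * b * gr n F 1 2 + 2 * a * c * gr n F 1 3 + 2 * b * c * gr n F 2 3 := by
  rw [← fro_toe_qp]
  exact fro_nonneg _

/-- the certificate -/
lemma cert (F : PowerSeries ℂ) (h0 : coeff 0 F = 0) (h : IsCon fun k => coeff k F) (e : ℂ)
    (he : ‖e‖ = 1) :
    (e * mom n F 0).re + (e * mom n F 1).re + 1 / 6 * (e * mom n F 3).re + 1 / 100 * gr n F 1 1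
      ≤ n := by
  have hne : ‖-e‖ = 1 := by rw [norm_neg, he]
  have u1 := L F h0 h e he (n := n) 1 (1 / 2) (1 / 12)
  have u2 := L F h0 h e he (n := n) 0 1 (10 / 7)
  have u3 := L F h0 h e he (n := n) 0 0 1
  have v1 := L F h0 h (-e) hne (n := n) 0 1 (8 / 27)
  have v2 := L F h0 h (-e) hne (n := n) 0 0 1
  have w1 := gram_pos F (n := n) 1 (50 / 19) (50 / 19)
  have w2 := gram_pos F (n := n) 0 1 (45 / 26)
  have w3 := gram_pos F (n := n) 0 0 1
  simp only [neg_mul, Complex.neg_re] at v1 v2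
  linarith

end

end Pool.Agent.R285.SchurC
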