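import Pool.Agent.R285.SchurC

/-!
# Coefficients of `ω + cosh ω`, part D
-/

set_option autoImplicit false

namespace Pool.Agent.R285.SchurD

open Finset Matrix PowerSeries
open Pool.Agent.R285.SchurA Pool.Agent.R285.SchurB Pool.Agent.R285.SchurC

noncomputable section

lemma tail_sum (K : ℕ) :
    ∑ j ∈ range K, (1 : ℝ) / ((5 + j).factorial : ℝ) ≤ 1 / 100 - 1 / 100 * (1 / 6) ^ K := by
  induction K with
  | zero => simp
  | succ K ih =>
    rw [Finset.sum_range_succ]
    have h1 : (120 : ℝ) * 6 ^ K ≤ ((5 + K).factorial : ℝ) := by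
      have := Nat.factorial_mul_pow_le_factorial (m := 5) (n := K)
      have h2 : ((Nat.factorial 5 * (5 + 1) ^ K : ℕ) : ℝ) ≤ ((5 + K).factorial : ℝ) := by
        exact_mod_cast this
      have h3 : ((Nat.factorial 5 * (5 + 1) ^ K : ℕ) : ℝ) = 120 * 6 ^ K := by
        push_cast [Nat.factorial]
        norm_num
      rw [h3] at h2
      exact h2
    have h2 : (1 : ℝ) / ((5 + K).factorial : ℝ) ≤ 1 / 120 * (1 / 6) ^ K := by
      rw [div_le_iff₀ (by positivity)]
      have h4 : (1 / 120 * (1 / 6) ^ K : ℝ) * (120 * 6 ^ K) = 1 := by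
        rw [_root_.one_div_pow]
        field_simp
      calc (1 : ℝ) = (1 / 120 * (1 / 6) ^ K : ℝ) * (120 * 6 ^ K) := h4.symm
        _ ≤ _ := by gcongr
    have h5 : (1 / 6 : ℝ) ^ (K + 1) = (1 / 6) ^ K * (1 / 6) := pow_succ _ _
    rw [h5]
    linarith

theorem coeff_bound {n : ℕ} (hn : 1 ≤ n) (F : PowerSeries ℂ) (h0 : coeff 0 F = 0)
    (h : IsCon fun k => coeff k F) (A : ℕ → ℝ) (hA1 : A 1 = 1) (hA2 : A 2 = 1 / 2) (hA3 : A 3 = 0)
    (hA4 : A 4 = 1 / 24) (hA5 : A 5 = 0)
    (hA : ∀ k : ℕ, 5 ≤ k → |((k : ℝ) + 1) * A (k + 1)| ≤ 1 / (k.factorial : ℝ)) (M : ℕ) (hM : 6 ≤ M) :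
    ‖∑ m ∈ range M, (A m : ℂ) * coeff n (F ^ m)‖ ≤ 1 := by
  set c := ∑ m ∈ range M, (A m : ℂ) * coeff n (F ^ m) with hc
  have hn0 : (0 : ℝ) < n := by exact_mod_cast hn
  -- the main inequality for unimodular `e`
  have hmain : ∀ e : ℂ, ‖e‖ = 1 → (e * ((n : ℂ) * c)).re ≤ n := by
    intro e he
    obtain ⟨K, rfl⟩ : ∃ K, M = 5 + K + 1 := ⟨M - 6, by omega⟩
    have e1 : (n : ℂ) * c = ∑ k ∈ range (5 + K), ((((k : ℝ) + 1) * A (k + 1) : ℝ) : ℂ) * mom n F k := by
      rw [hc, Finset.sum_range_succ', pow_zero, coeff_one, if_neg (show ¬ n = 0 by omega), mul_zero, add_zero,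
        Finset.mul_sum]
      refine Finset.sum_congr rfl fun k _ => ?_
      have := mom_eq n hn F k
      push_cast
      linear_combination (-(A (k + 1) : ℂ)) * this
    rw [e1, Finset.sum_range_add, mul_add, Complex.add_re]
    have e2 : (e * ∑ x ∈ range 5, ((((x : ℝ) + 1) * A (x + 1) : ℝ) : ℂ) * mom n F x).re
        = (e * mom n F 0).re + (e * mom n F 1).re + 1 / 6 * (e * mom n F 3).re := by
      simp only [Finset.sum_range_succ, Finset.sum_range_zero, zero_add]
      norm_num [hA1, hA2, hA3, hA4, hA5]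
      ring
    have e3 : (e * ∑ x ∈ range K, ((((5 + x : ℕ) : ℝ) + 1) * A (5 + x + 1) : ℝ) * mom n F (5 + x)).re
        ≤ 1 / 100 * gr n F 1 1 := by
      rw [Finset.mul_sum, Complex.re_sum]
      have hg : 0 ≤ gr n F 1 1 := by
        rw [gr_self]
        exact fro_nonneg _
      have hterm : ∀ x ∈ range K,
          (e * (((((5 + x : ℕ) : ℝ) + 1) * A (5 + x + 1) : ℝ) * mom n F (5 + x))).re
          ≤ 1 / ((5 + x).factorial : ℝ) * gr n F 1 1 := by
        intro x _
        rw [mul_left_comm, Complex.re_ofReal_mul]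
        have hA' := hA (5 + x) (by omega)
        have hm1 : (e * mom n F (5 + x)).re ≤ gr n F 1 1 := by
          have := mom_le (n := n) F h e he (3 + x)
          have e4 : 3 + x + 2 = 5 + x := by omega
          rw [e4] at this
          exact this
        have hm2 : -(e * mom n F (5 + x)).re ≤ gr n F 1 1 := by
          have := mom_le (n := n) F h (-e) (by rw [norm_neg, he]) (3 + x)
          have e4 : 3 + x + 2 = 5 + x := by omega
          rw [e4, neg_mul, Complex.neg_re] at this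
          exact this
        have hm3 : |(e * mom n F (5 + x)).re| ≤ gr n F 1 1 := abs_le.mpr ⟨by linarith, hm1⟩
        calc ((((5 + x : ℕ) : ℝ) + 1) * A (5 + x + 1)) * (e * mom n F (5 + x)).re
            ≤ |(((5 + x : ℕ) : ℝ) + 1) * A (5 + x + 1)| * |(e * mom n F (5 + x)).re| := by
              rw [← abs_mul]
              exact le_abs_self _
          _ ≤ 1 / ((5 + x).factorial : ℝ) * gr n F 1 1 := by
              gcongr
      refine (Finset.sum_le_sum hterm).trans ?_
      rw [← Finset.sum_mul]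
      refine mul_le_mul_of_nonneg_right ?_ hg
      have := tail_sum K
      have h6 : (0 : ℝ) ≤ 1 / 100 * (1 / 6) ^ K := by positivity
      linarith
    have e5 := cert (n := n) F h0 h e he
    rw [e2]
    linarith
  by_cases hc0 : c = 0
  · rw [hc0, norm_zero]
    exact zero_le_one
  · have hcn : (‖c‖ : ℂ) ≠ 0 := by
      simpa using hc0
    have he : ‖(starRingEnd ℂ) c / ‖c‖‖ = 1 := by
      rw [norm_div, RCLike.norm_conj, Complex.norm_real, norm_norm,
        div_self (norm_ne_zero_iff.mpr hc0)]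
    have h1 := hmain _ he
    have h2 : (starRingEnd ℂ) c / ‖c‖ * ((n : ℂ) * c) = ((n * ‖c‖ : ℝ) : ℂ) := by
      have h3 : (starRingEnd ℂ) c * c = (‖c‖ : ℂ) ^ 2 := by
        rw [mul_comm, Complex.mul_conj, Complex.normSq_eq_norm_sq]
        push_cast
        ring
      push_cast
      field_simp
      linear_combination (n : ℂ) * h3
    rw [h2, Complex.ofReal_re] at h1
    by_contra hcon
    rw [not_le] at hcon
    nlinarith

end

end Pool.Agent.R285.SchurD
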