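import Pool.Agent.R285.SchurB

/-!
# Taylor coefficients of bounded analytic functions define Toeplitz contractions
-/

set_option autoImplicit false

namespace Pool.Agent.R285.SchurE

open Finset Metric Filter Topology
open Pool.Agent.R285.SchurB

noncomputable section

/-- Taylor coefficient at `0` -/
def cf (f : ℂ → ℂ) (k : ℕ) : ℂ := iteratedDeriv k f 0 / k.factorial

lemma cf_norm_le {ω : ℂ → ℂ} (hd : DifferentiableOn ℂ ω (ball 0 1)) {C : ℝ}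
    (hb : ∀ z ∈ ball (0 : ℂ) 1, ‖ω z‖ ≤ C) {r : ℝ} (hr : 0 < r) (hr1 : r < 1) (k : ℕ) :
    ‖cf ω k‖ ≤ C / r ^ k := by
  have hsub : closedBall (0 : ℂ) r ⊆ ball 0 1 := closedBall_subset_ball hr1
  have hdc : DiffContOnCl ℂ ω (ball 0 r) := by
    refine DifferentiableOn.diffContOnCl ?_
    rw [closure_ball _ hr.ne']
    exact hd.mono hsub
  have h1 := Complex.norm_iteratedDeriv_le_of_forall_mem_sphere_norm_le k hr hdc
    (fun z hz => hb z (hsub (sphere_subset_closedBall hz)))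
  have hk : (0 : ℝ) < k.factorial := by exact_mod_cast k.factorial_pos
  unfold cf
  rw [norm_div, Complex.norm_natCast, div_le_iff₀ hk]
  calc _ ≤ _ := h1
    _ = C / r ^ k * k.factorial := by ring

lemma cf_norm_le_one {ω : ℂ → ℂ} (hd : DifferentiableOn ℂ ω (ball 0 1))
    (hb : ∀ z ∈ ball (0 : ℂ) 1, ‖ω z‖ ≤ 1) (k : ℕ) : ‖cf ω k‖ ≤ 1 := by
  have ht : Tendsto (fun r : ℝ => 1 / r ^ k) (𝓝[<] 1) (𝓝 (1 / 1 ^ k)) := by
    have : ContinuousAt (fun r : ℝ => 1 / r ^ k) 1 := by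
      refine ContinuousAt.div continuousAt_const (by fun_prop) (by simp)
    exact this.tendsto.mono_left nhdsWithin_le_nhds
  rw [one_pow, div_one] at ht
  refine ge_of_tendsto ht ?_
  have h1 : ∀ᶠ r : ℝ in 𝓝[<] 1, r ∈ Set.Ioo (0 : ℝ) 1 :=
    Ioo_mem_nhdsLT (by norm_num)
  filter_upwards [h1] with r hr
  exact cf_norm_le hd hb hr.1 hr.2 k

lemma partial_bound {ω : ℂ → ℂ} (hd : DifferentiableOn ℂ ω (ball 0 1))
    (hb : ∀ z ∈ ball (0 : ℂ) 1, ‖ω z‖ ≤ 1) {r : ℝ} (hr : 0 < r) (hr1 : r < 1) (K : ℕ) (z : ℂ)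
    (hz : ‖z‖ = r) : ‖∑ k ∈ range K, cf ω k * z ^ k‖ ≤ 1 + r ^ K * (1 - r)⁻¹ := by
  have hzb : z ∈ ball (0 : ℂ) 1 := by
    rw [mem_ball_zero_iff, hz]; exact hr1
  have h1 : HasSum (fun k => cf ω k * z ^ k) (ω z) := by
    have := Complex.hasSum_taylorSeries_on_ball hd hzb
    have e : (fun n : ℕ => (n.factorial : ℂ)⁻¹ • (z - 0) ^ n • iteratedDeriv n ω 0)
        = fun k => cf ω k * z ^ k := by
      funext k
      unfold cf
      simp only [smul_eq_mul, sub_zero]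
      ring
    rw [e] at this
    exact this
  have h2 := h1.summable.sum_add_tsum_nat_add K
  rw [h1.tsum_eq] at h2
  have h3 : HasSum (fun i : ℕ => r ^ (i + K)) (r ^ K * (1 - r)⁻¹) := by
    have := (hasSum_geometric_of_lt_one hr.le hr1).mul_left (r ^ K)
    have e : (fun i : ℕ => r ^ K * r ^ i) = fun i : ℕ => r ^ (i + K) := by
      funext i
      rw [pow_add]; ring
    rw [e] at this
    exact this
  have h4 : ‖∑' i : ℕ, cf ω (i + K) * z ^ (i + K)‖ ≤ r ^ K * (1 - r)⁻¹ := by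
    refine tsum_of_norm_bounded h3 fun i => ?_
    rw [norm_mul, norm_pow, hz]
    calc ‖cf ω (i + K)‖ * r ^ (i + K) ≤ 1 * r ^ (i + K) := by
          gcongr
          exact cf_norm_le_one hd hb _
      _ = r ^ (i + K) := one_mul _
  have h5 : ∑ k ∈ range K, cf ω k * z ^ k = ω z - ∑' i : ℕ, cf ω (i + K) * z ^ (i + K) := by
    rw [← h2]; ring
  rw [h5]
  calc _ ≤ ‖ω z‖ + ‖∑' i : ℕ, cf ω (i + K) * z ^ (i + K)‖ := norm_sub_le _ _
    _ ≤ _ := add_le_add (hb z hzb) h4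

/-- Parseval lower bound -/
lemma pars_le (P : Polynomial ℂ) (N : ℕ) :
    ∑ i ∈ range N, ‖P.coeff i‖ ^ 2 ≤ Real.circleAverage (fun θ ↦ ‖P.eval θ‖ ^ 2) 0 1 := by
  rw [← Polynomial.sum_sq_norm_coeff_eq_circleAverage]
  have e1 : ∑ i ∈ range N, ‖P.coeff i‖ ^ 2 = ∑ i ∈ range N ∩ P.support, ‖P.coeff i‖ ^ 2 := by
    symm
    refine Finset.sum_subset Finset.inter_subset_left ?_
    intro i hi hi2
    rw [Finset.mem_inter, not_and] at hi2
    have := hi2 hi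
    rw [Polynomial.mem_support_iff, not_not] at this
    rw [this]; simp
  rw [e1]
  exact Finset.sum_le_sum_of_subset_of_nonneg Finset.inter_subset_right (fun _ _ _ => by positivity)

lemma pars_eq (P : Polynomial ℂ) (N : ℕ) (h : ∀ i, N ≤ i → P.coeff i = 0) :
    Real.circleAverage (fun θ ↦ ‖P.eval θ‖ ^ 2) 0 1 = ∑ i ∈ range N, ‖P.coeff i‖ ^ 2 := by
  rw [← Polynomial.sum_sq_norm_coeff_eq_circleAverage]
  refine Finset.sum_subset ?_ ?_
  · intro i hi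
    rw [Polynomial.mem_support_iff] at hi
    rw [mem_range]
    by_contra hc
    exact hi (h i (not_lt.mp hc))
  · intro i _ hi
    rw [Polynomial.mem_support_iff, not_not] at hi
    rw [hi]; simp

lemma con_r {ω : ℂ → ℂ} (hd : DifferentiableOn ℂ ω (ball 0 1))
    (hb : ∀ z ∈ ball (0 : ℂ) 1, ‖ω z‖ ≤ 1) {r : ℝ} (hr : 0 < r) (hr1 : r < 1) (N : ℕ) (x : ℕ → ℂ)
    (K : ℕ) (hK : N ≤ K) :
    ∑ i ∈ range N, ‖(r : ℂ) ^ i * ∑ j ∈ range (i + 1), cf ω (i - j) * x j‖ ^ 2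
      ≤ (1 + r ^ K * (1 - r)⁻¹) ^ 2 * ∑ j ∈ range N, ‖x j‖ ^ 2 := by
  set P : Polynomial ℂ := ∑ k ∈ range K, Polynomial.C (cf ω k * (r : ℂ) ^ k) * Polynomial.X ^ k with hP
  set Q : Polynomial ℂ := ∑ k ∈ range N, Polynomial.C (x k * (r : ℂ) ^ k) * Polynomial.X ^ k with hQ
  have cP : ∀ i, P.coeff i = if i < K then cf ω i * (r : ℂ) ^ i else 0 := by
    intro i
    rw [hP, Polynomial.finsetSum_coeff]
    simp only [Polynomial.coeff_C_mul_X_pow]
    rw [Finset.sum_ite_eq]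
    simp only [mem_range]
  have cQ : ∀ i, Q.coeff i = if i < N then x i * (r : ℂ) ^ i else 0 := by
    intro i
    rw [hQ, Polynomial.finsetSum_coeff]
    simp only [Polynomial.coeff_C_mul_X_pow]
    rw [Finset.sum_ite_eq]
    simp only [mem_range]
  have h1 : ∑ i ∈ range N, ‖(r : ℂ) ^ i * ∑ j ∈ range (i + 1), cf ω (i - j) * x j‖ ^ 2
      = ∑ i ∈ range N, ‖(Q * P).coeff i‖ ^ 2 := by
    refine Finset.sum_congr rfl fun i hi => ?_
    rw [mem_range] at hi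
    congr 2
    rw [Polynomial.coeff_mul,
      Finset.Nat.sum_antidiagonal_eq_sum_range_succ (fun a b => Q.coeff a * P.coeff b), Finset.mul_sum]
    refine Finset.sum_congr rfl fun j hj => ?_
    rw [mem_range] at hj
    rw [cQ, cP, if_pos (by omega), if_pos (by omega)]
    have : (r : ℂ) ^ i = (r : ℂ) ^ j * (r : ℂ) ^ (i - j) := by
      rw [← pow_add]; congr 1; omega
    rw [this]; ring
  have hcirc : ∀ z ∈ sphere (0 : ℂ) |1|, ‖(Q * P).eval z‖ ^ 2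
      ≤ (1 + r ^ K * (1 - r)⁻¹) ^ 2 * ‖Q.eval z‖ ^ 2 := by
    intro z hz
    rw [abs_one, mem_sphere_zero_iff_norm] at hz
    rw [Polynomial.eval_mul, norm_mul, mul_pow, mul_comm]
    gcongr
    have e : P.eval z = ∑ k ∈ range K, cf ω k * ((r : ℂ) * z) ^ k := by
      rw [hP, Polynomial.eval_finsetSum]
      refine Finset.sum_congr rfl fun k _ => ?_
      simp only [Polynomial.eval_mul, Polynomial.eval_C, Polynomial.eval_pow, Polynomial.eval_X]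
      rw [mul_pow]; ring
    rw [e]
    refine partial_bound hd hb hr hr1 K _ ?_
    rw [norm_mul, hz, mul_one, Complex.norm_real, Real.norm_of_nonneg hr.le]
  have hint : ∀ R : Polynomial ℂ, CircleIntegrable (fun θ ↦ ‖R.eval θ‖ ^ 2) 0 1 := by
    intro R
    apply ContinuousOn.circleIntegrable'
    fun_prop
  have h2 := pars_le (Q * P) N
  have h3 : Real.circleAverage (fun θ ↦ ‖(Q * P).eval θ‖ ^ 2) 0 1
      ≤ Real.circleAverage (fun θ ↦ (1 + r ^ K * (1 - r)⁻¹) ^ 2 * ‖Q.eval θ‖ ^ 2) 0 1 := by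
    refine Real.circleAverage_mono (hint _) ?_ hcirc
    exact (hint Q).const_mul _
  have h4 : Real.circleAverage (fun θ ↦ (1 + r ^ K * (1 - r)⁻¹) ^ 2 * ‖Q.eval θ‖ ^ 2) 0 1
      = (1 + r ^ K * (1 - r)⁻¹) ^ 2 * Real.circleAverage (fun θ ↦ ‖Q.eval θ‖ ^ 2) 0 1 := by
    have := Real.circleAverage_fun_smul (𝕜 := ℝ) (a := (1 + r ^ K * (1 - r)⁻¹) ^ 2)
      (f := fun θ ↦ ‖Q.eval θ‖ ^ 2) (c := 0) (R := 1)
    simpa only [smul_eq_mul] using this
  have h5 : Real.circleAverage (fun θ ↦ ‖Q.eval θ‖ ^ 2) 0 1 ≤ ∑ j ∈ range N, ‖x j‖ ^ 2 := by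
    rw [pars_eq Q N (fun i hi => by rw [cQ, if_neg (by omega)])]
    refine Finset.sum_le_sum fun j hj => ?_
    rw [mem_range] at hj
    rw [cQ, if_pos hj, norm_mul, norm_pow, Complex.norm_real, Real.norm_of_nonneg hr.le]
    have : r ^ j ≤ 1 := pow_le_one₀ hr.le hr1.le
    have h6 : ‖x j‖ * r ^ j ≤ ‖x j‖ := by
      calc ‖x j‖ * r ^ j ≤ ‖x j‖ * 1 := by gcongr
        _ = _ := mul_one _
    gcongr
  rw [h1]
  calc _ ≤ _ := h2
    _ ≤ _ := h3
    _ = _ := h4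
    _ ≤ _ := by gcongr

/-- Taylor coefficients of a function bounded by `1` define a contraction -/
theorem isCon {ω : ℂ → ℂ} (hd : DifferentiableOn ℂ ω (ball 0 1))
    (hb : ∀ z ∈ ball (0 : ℂ) 1, ‖ω z‖ ≤ 1) : IsCon (cf ω) := by
  intro N x
  have hr : ∀ r : ℝ, 0 < r → r < 1 →
      ∑ i ∈ range N, ‖(r : ℂ) ^ i * ∑ j ∈ range (i + 1), cf ω (i - j) * x j‖ ^ 2
        ≤ ∑ j ∈ range N, ‖x j‖ ^ 2 := by
    intro r h0 h1
    have ht : Tendsto (fun K : ℕ => (1 + r ^ K * (1 - r)⁻¹) ^ 2 * ∑ j ∈ range N, ‖x j‖ ^ 2) atTop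
        (𝓝 ((1 + 0 * (1 - r)⁻¹) ^ 2 * ∑ j ∈ range N, ‖x j‖ ^ 2)) := by
      refine Tendsto.mul_const _ ?_
      refine Tendsto.pow ?_ 2
      refine tendsto_const_nhds.add ?_
      exact (tendsto_pow_atTop_nhds_zero_of_lt_one h0.le h1).mul_const _
    rw [zero_mul, add_zero, one_pow, one_mul] at ht
    refine ge_of_tendsto ht ?_
    filter_upwards [eventually_ge_atTop N] with K hK
    exact con_r hd hb h0 h1 N x K hK
  have ht : Tendsto (fun r : ℝ => ∑ i ∈ range N,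
      ‖(r : ℂ) ^ i * ∑ j ∈ range (i + 1), cf ω (i - j) * x j‖ ^ 2) (𝓝[<] 1)
      (𝓝 (∑ i ∈ range N, ‖((1 : ℝ) : ℂ) ^ i * ∑ j ∈ range (i + 1), cf ω (i - j) * x j‖ ^ 2)) := by
    have hc : Continuous (fun r : ℝ => ∑ i ∈ range N,
      ‖(r : ℂ) ^ i * ∑ j ∈ range (i + 1), cf ω (i - j) * x j‖ ^ 2) := by
      fun_prop
    exact (hc.tendsto 1).mono_left nhdsWithin_le_nhds
  have h2 : ∑ i ∈ range N, ‖((1 : ℝ) : ℂ) ^ i * ∑ j ∈ range (i + 1), cf ω (i - j) * x j‖ ^ 2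
      ≤ ∑ j ∈ range N, ‖x j‖ ^ 2 := by
    refine le_of_tendsto ht ?_
    have h1 : ∀ᶠ r : ℝ in 𝓝[<] 1, r ∈ Set.Ioo (0 : ℝ) 1 := Ioo_mem_nhdsLT (by norm_num)
    filter_upwards [h1] with r hr'
    exact hr r hr'.1 hr'.2
  simpa using h2

end

end Pool.Agent.R285.SchurE
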