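import Pool.Agent.R285.SchurD
import Pool.Agent.R285.SchurE

/-!
# Coefficients of `ω + cosh ω`
-/

set_option autoImplicit false

namespace Pool.Agent.R285.SchurF

open Finset Metric Filter Topology
open Pool.Agent.R285.SchurB Pool.Agent.R285.SchurD Pool.Agent.R285.SchurE

noncomputable section

lemma cda {f : ℂ → ℂ} (hf : DifferentiableOn ℂ f (ball 0 1)) (n : ℕ) : ContDiffAt ℂ n f 0 := by
  have h1 : AnalyticAt ℂ f 0 := hf.analyticAt (isOpen_ball.mem_nhds (by simp))
  exact h1.contDiffAt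

lemma cf_mul {f g : ℂ → ℂ} (hf : DifferentiableOn ℂ f (ball 0 1))
    (hg : DifferentiableOn ℂ g (ball 0 1)) (n : ℕ) :
    cf (f * g) n = ∑ p ∈ antidiagonal n, cf f p.1 * cf g p.2 := by
  unfold cf
  rw [iteratedDeriv_mul (cda hf n) (cda hg n),
    Finset.Nat.sum_antidiagonal_eq_sum_range_succ (fun a b => iteratedDeriv a f 0 / (a.factorial : ℂ) *
      (iteratedDeriv b g 0 / (b.factorial : ℂ))), Finset.sum_div]
  refine Finset.sum_congr rfl fun i hi => ?_
  rw [mem_range] at hi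
  have h1 : ((n.choose i : ℕ) : ℂ) = (n.factorial : ℂ) / ((i.factorial : ℂ) * ((n - i).factorial : ℂ)) :=
    Nat.cast_choose ℂ (by omega)
  have h2 : (n.factorial : ℂ) ≠ 0 := by exact_mod_cast n.factorial_ne_zero
  have h3 : (i.factorial : ℂ) ≠ 0 := by exact_mod_cast i.factorial_ne_zero
  have h4 : ((n - i).factorial : ℂ) ≠ 0 := by exact_mod_cast (n - i).factorial_ne_zero
  rw [h1]
  field_simp

lemma cf_one (n : ℕ) : cf 1 n = if n = 0 then 1 else 0 := by
  unfold cf
  have : (1 : ℂ → ℂ) = fun _ => 1 := rfl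
  rw [this, iteratedDeriv_const]
  split_ifs with h
  · subst h; simp
  · simp

lemma cf_pow {f : ℂ → ℂ} (hf : DifferentiableOn ℂ f (ball 0 1)) (m n : ℕ) :
    cf (f ^ m) n = PowerSeries.coeff n ((PowerSeries.mk (cf f)) ^ m) := by
  induction m generalizing n with
  | zero => rw [pow_zero, pow_zero, cf_one, PowerSeries.coeff_one]
  | succ m ih =>
    rw [pow_succ, cf_mul (hf.pow m) hf, pow_succ, PowerSeries.coeff_mul]
    refine Finset.sum_congr rfl fun p _ => ?_
    rw [ih, PowerSeries.coeff_mk]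

/-- coefficients of `w + cosh w` -/
def Acoef (m : ℕ) : ℝ := (1 + (-1) ^ m) / (2 * m.factorial) + if m = 1 then 1 else 0

lemma bound_S (w : ℂ) (hw : ‖w‖ ≤ 1) (M : ℕ) (hM : 2 ≤ M) :
    ‖(w + Complex.cosh w) - ∑ m ∈ range M, (Acoef m : ℂ) * w ^ m‖ ≤ 2 / M := by
  have h1 := Complex.exp_bound hw (n := M) (by omega)
  have h2 := Complex.exp_bound (x := -w) (by rwa [norm_neg]) (n := M) (by omega)
  have e : (w + Complex.cosh w) - ∑ m ∈ range M, (Acoef m : ℂ) * w ^ m
      = (1 / 2 : ℂ) * (Complex.exp w - ∑ m ∈ range M, w ^ m / m.factorial)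
        + (1 / 2 : ℂ) * (Complex.exp (-w) - ∑ m ∈ range M, (-w) ^ m / m.factorial) := by
    have e1 : ∑ m ∈ range M, (Acoef m : ℂ) * w ^ m = (1 / 2 : ℂ) * ∑ m ∈ range M, w ^ m / m.factorial
        + (1 / 2 : ℂ) * ∑ m ∈ range M, (-w) ^ m / m.factorial + w := by
      have e2 : ∑ m ∈ range M, (if m = 1 then w else 0) = w := by
        rw [Finset.sum_ite_eq' (range M) 1, if_pos (by rw [mem_range]; omega)]
      nth_rewrite 4 [← e2]
      rw [Finset.mul_sum, Finset.mul_sum, ← Finset.sum_add_distrib, ← Finset.sum_add_distrib]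
      refine Finset.sum_congr rfl fun m _ => ?_
      unfold Acoef
      have h3 : (m.factorial : ℂ) ≠ 0 := by exact_mod_cast m.factorial_ne_zero
      by_cases hm : m = 1
      · subst hm
        simp
      · rw [if_neg hm, if_neg hm, neg_pow w m]
        push_cast
        field_simp
        ring
    rw [e1, Complex.cosh]
    ring
  rw [e]
  have h3 : ‖w‖ ^ M * ((M.succ : ℝ) * ((M.factorial : ℝ) * M)⁻¹) ≤ 2 / M := by
    have hM0 : (0 : ℝ) < M := by exact_mod_cast (by omega : 0 < M)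
    have hf : (M : ℝ) ≤ M.factorial := by exact_mod_cast M.self_le_factorial
    have hf0 : (0 : ℝ) < M.factorial := by exact_mod_cast M.factorial_pos
    have hp : ‖w‖ ^ M ≤ 1 := pow_le_one₀ (norm_nonneg _) hw
    have hq : (M.succ : ℝ) * ((M.factorial : ℝ) * M)⁻¹ ≤ 2 / M := by
      rw [← div_eq_mul_inv, div_le_div_iff₀ (by positivity) hM0]
      push_cast
      have : (2 : ℝ) ≤ M := by exact_mod_cast hM
      nlinarith
    calc ‖w‖ ^ M * ((M.succ : ℝ) * ((M.factorial : ℝ) * M)⁻¹)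
        ≤ 1 * ((M.succ : ℝ) * ((M.factorial : ℝ) * M)⁻¹) := by gcongr
      _ ≤ _ := by rw [one_mul]; exact hq
  rw [norm_neg] at h2
  calc _ ≤ ‖(1 / 2 : ℂ) * (Complex.exp w - ∑ m ∈ range M, w ^ m / m.factorial)‖
        + ‖(1 / 2 : ℂ) * (Complex.exp (-w) - ∑ m ∈ range M, (-w) ^ m / m.factorial)‖ := norm_add_le _ _
    _ ≤ 1 / 2 * (2 / M) + 1 / 2 * (2 / M) := by
        rw [norm_mul, norm_mul]
        have : ‖(1 / 2 : ℂ)‖ = 1 / 2 := by norm_num
        rw [this]
        gcongr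
        · exact h1.trans h3
        · exact h2.trans h3
    _ = 2 / M := by ring

end

end Pool.Agent.R285.SchurF
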