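import Mathlib
import Pool.Agent.R124.PalT

/-!
# Sturmian words: right special factors, recurrence, closure under reversal, palindromes
-/

set_option autoImplicit false

namespace Pool.Agent.R285.Sturm

open Pool.Agent.R124.PalT

/-- A Sturmian word: exactly `n + 1` factors of each length `n`. -/
def Sturmian (u : ℕ → Bool) : Prop := ∀ n, Cx u n = n + 1

section basic

variable {A : Type} {u : ℕ → A}

theorem fac_succ (u : ℕ → A) (i n : ℕ) : fac u i (n + 1) = fac u i n ++ [u (i + n)] := by
  simp [fac, List.range_succ]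

theorem fac_mono {i j m n : ℕ} (h : m ≤ n) (he : fac u i n = fac u j n) :
    fac u i m = fac u j m := by
  rw [fac_eq_iff] at *
  intro x hx
  exact he x (by omega)

theorem fac_succ_iff {i j n : ℕ} :
    fac u i (n + 1) = fac u j (n + 1) ↔ fac u i n = fac u j n ∧ u (i + n) = u (j + n) := by
  rw [fac_eq_iff, fac_eq_iff]
  constructor
  · intro h
    exact ⟨fun x hx => h x (by omega), h n (by omega)⟩
  · rintro ⟨h1, h2⟩ x hx
    rcases Nat.lt_succ_iff_lt_or_eq.mp hx with hx | rfl
    · exact h1 x hx
    · exact h2

theorem fac_tail {i j n : ℕ} (h : fac u i (n + 1) = fac u j (n + 1)) :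
    fac u (i + 1) n = fac u (j + 1) n := by
  rw [fac_eq_iff] at *
  intro x hx
  have := h (x + 1) (by omega)
  rw [show i + 1 + x = i + (x + 1) by omega, show j + 1 + x = j + (x + 1) by omega]
  exact this

theorem fac_sub {i j n t m : ℕ} (h : fac u i n = fac u j n) (htm : t + m ≤ n) :
    fac u (i + t) m = fac u (j + t) m := by
  rw [fac_eq_iff] at *
  intro x hx
  have := h (t + x) (by omega)
  rw [show i + t + x = i + (t + x) by omega, show j + t + x = j + (t + x) by omega]
  exact this

theorem set_eq (u : ℕ → A) (n : ℕ) :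
    {w : List A | w ∈ Lang u ∧ w.length = n} = Set.range (fun i => fac u i n) := by
  ext w
  constructor
  · rintro ⟨⟨i, hi⟩, hw⟩
    refine ⟨i, ?_⟩
    rw [← hw]
    exact hi.symm
  · rintro ⟨i, rfl⟩
    exact ⟨fac_mem u i n, fac_length u i n⟩

theorem Cx_eq (u : ℕ → A) (n : ℕ) : Cx u n = (Set.range (fun i => fac u i n)).ncard := by
  rw [← set_eq]; rfl

/-- The factor of length `n` at position `i` is right special. -/
def RS (u : ℕ → A) (n i : ℕ) : Prop := ∃ j, fac u j n = fac u i n ∧ u (j + n) ≠ u (i + n)

theorem RS.congr {n i j : ℕ} (h : RS u n i) (hij : fac u i n = fac u j n) : RS u n j := by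
  obtain ⟨k, hk, hk'⟩ := h
  by_cases hc : u (k + n) = u (j + n)
  · exact ⟨i, hij, fun h => hk' (hc.trans h.symm)⟩
  · exact ⟨k, hk.trans hij, hc⟩

theorem RS.tail {n i : ℕ} (h : RS u (n + 1) i) : RS u n (i + 1) := by
  obtain ⟨j, hj, hj'⟩ := h
  refine ⟨j + 1, fac_tail hj, ?_⟩
  rw [show j + 1 + n = j + (n + 1) by omega, show i + 1 + n = i + (n + 1) by omega]
  exact hj'

end basic

variable {u : ℕ → Bool}

theorem fin_range (u : ℕ → Bool) (n : ℕ) : (Set.range (fun i => fac u i n)).Finite := by
  rw [← set_eq]; exact factors_finite u n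

theorem special (hu : Sturmian u) (n : ℕ) :
    ∃ R : List Bool, {v | ∃ i j, v = fac u i n ∧ v = fac u j n ∧ u (i + n) = false ∧
      u (j + n) = true} = {R} := by
  set F : Bool → Set (List Bool) := fun a => {v | ∃ i, v = fac u i n ∧ u (i + n) = a} with hF
  have hsub : ∀ a, F a ⊆ Set.range (fun i => fac u i n) := by
    rintro a v ⟨i, rfl, _⟩
    exact ⟨i, rfl⟩
  have hfin : ∀ a, (F a).Finite := fun a => (fin_range u n).subset (hsub a)
  have hun : F false ∪ F true = Set.range (fun i => fac u i n) := by
    apply Set.Subset.antisymm (Set.union_subset (hsub _) (hsub _))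
    rintro v ⟨i, rfl⟩
    cases h : u (i + n)
    · left; exact ⟨i, rfl, h⟩
    · right; exact ⟨i, rfl, h⟩
  have hinj : ∀ a : Bool, Function.Injective (fun v : List Bool => v ++ [a]) := by
    intro a v w h
    exact List.append_cancel_right h
  have hun2 : (fun v : List Bool => v ++ [false]) '' F false ∪
      (fun v : List Bool => v ++ [true]) '' F true = Set.range (fun i => fac u i (n + 1)) := by
    apply Set.Subset.antisymm
    · apply Set.union_subset
      · rintro w ⟨v, ⟨i, rfl, h⟩, rfl⟩
        exact ⟨i, by simp only [fac_succ, h]⟩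
      · rintro w ⟨v, ⟨i, rfl, h⟩, rfl⟩
        exact ⟨i, by simp only [fac_succ, h]⟩
    · rintro w ⟨i, rfl⟩
      cases h : u (i + n)
      · left; exact ⟨_, ⟨i, rfl, h⟩, by simp only [fac_succ, h]⟩
      · right; exact ⟨_, ⟨i, rfl, h⟩, by simp only [fac_succ, h]⟩
  have hdis : Disjoint ((fun v : List Bool => v ++ [false]) '' F false)
      ((fun v : List Bool => v ++ [true]) '' F true) := by
    rw [Set.disjoint_left]
    rintro w ⟨v, _, rfl⟩ ⟨v', _, h⟩
    have := congrArg List.getLast? h
    simp at this
  have e1 := Set.ncard_union_eq hdis ((hfin false).image _) ((hfin true).image _)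
  rw [hun2, Set.ncard_image_of_injective _ (hinj _), Set.ncard_image_of_injective _ (hinj _),
    ← Cx_eq, hu] at e1
  have e2 := Set.ncard_union_add_ncard_inter (F false) (F true) (hfin _) (hfin _)
  rw [hun, ← Cx_eq, hu] at e2
  have e3 : (F false ∩ F true).ncard = 1 := by omega
  rw [Set.ncard_eq_one] at e3
  obtain ⟨R, hR⟩ := e3
  refine ⟨R, ?_⟩
  rw [← hR]
  ext v
  constructor
  · rintro ⟨i, j, h1, h2, h3, h4⟩
    exact ⟨⟨i, h1, h3⟩, ⟨j, h2, h4⟩⟩
  · rintro ⟨⟨i, h1, h3⟩, ⟨j, h2, h4⟩⟩
    exact ⟨i, j, h1, h2, h3, h4⟩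

theorem rs_mem {n i : ℕ} (h : RS u n i) : fac u i n ∈
    {v | ∃ i j, v = fac u i n ∧ v = fac u j n ∧ u (i + n) = false ∧ u (j + n) = true} := by
  obtain ⟨j, hj, hj'⟩ := h
  cases h : u (i + n)
  · refine ⟨i, j, rfl, hj.symm, h, ?_⟩
    cases h' : u (j + n)
    · rw [h, h'] at hj'; exact absurd rfl hj'
    · rfl
  · refine ⟨j, i, hj.symm, rfl, ?_, h⟩
    cases h' : u (j + n)
    · rfl
    · rw [h, h'] at hj'; exact absurd rfl hj'

theorem rs_unique (hu : Sturmian u) {n i j : ℕ} (hi : RS u n i) (hj : RS u n j) :
    fac u i n = fac u j n := by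
  obtain ⟨R, hR⟩ := special hu n
  have h1 := rs_mem hi
  have h2 := rs_mem hj
  rw [hR] at h1 h2
  rw [Set.mem_singleton_iff] at h1 h2
  rw [h1, h2]

theorem rs_exists (hu : Sturmian u) (n : ℕ) : ∃ i, RS u n i := by
  obtain ⟨R, hR⟩ := special hu n
  have : R ∈ ({R} : Set (List Bool)) := rfl
  rw [← hR] at this
  obtain ⟨i, j, h1, h2, h3, h4⟩ := this
  exact ⟨i, j, h2.symm.trans h1, by rw [h3, h4]; simp⟩

/-- Both extensions of the right special factor occur. -/
theorem rs_ext {n i : ℕ} (hi : RS u n i) (a : Bool) :
    ∃ j, fac u j n = fac u i n ∧ u (j + n) = a := by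
  by_cases h : u (i + n) = a
  · exact ⟨i, rfl, h⟩
  · obtain ⟨j, hj, hj'⟩ := hi
    refine ⟨j, hj, ?_⟩
    cases h1 : u (i + n) <;> cases h2 : u (j + n) <;> cases a <;> simp_all

theorem not_ev_periodic (hu : Sturmian u) (N p : ℕ) (hp : 0 < p) :
    ¬ ∀ i, N ≤ i → u (i + p) = u i := by
  intro h
  have hpos : ∀ m i, ∃ j, j < N + p ∧ fac u j m = fac u i m := by
    intro m i
    induction i using Nat.strong_induction_on with
    | _ i ih =>
      by_cases hi : i < N + p
      · exact ⟨i, hi, rfl⟩
      · obtain ⟨j, hj, hj'⟩ := ih (i - p) (by omega)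
        refine ⟨j, hj, hj'.trans ?_⟩
        rw [fac_eq_iff]
        intro x hx
        rw [← h (i - p + x) (by omega)]
        congr 1
        omega
  have hle : Cx u (N + p) ≤ N + p := by
    rw [Cx_eq]
    have hs : Set.range (fun i => fac u i (N + p)) ⊆
        (fun i => fac u i (N + p)) '' (Set.Iio (N + p)) := by
      rintro w ⟨i, rfl⟩
      obtain ⟨j, hj, hj'⟩ := hpos (N + p) i
      exact ⟨j, hj, hj'⟩
    have h1 := Set.ncard_le_ncard hs ((Set.finite_Iio _).image _)
    have h2 := Set.ncard_image_le (f := fun i => fac u i (N + p)) (Set.finite_Iio (N + p))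
    rw [show (Set.Iio (N + p)).ncard = N + p by
      rw [← Finset.coe_Iio, Set.ncard_coe_finset, Nat.card_Iio]] at h2
    omega
  rw [hu] at hle
  omega

/-- Right special factors occur arbitrarily late. -/
theorem rs_late (hu : Sturmian u) (n N : ℕ) :
    ∃ i j, N ≤ i ∧ N ≤ j ∧ fac u i n = fac u j n ∧ u (i + n) ≠ u (j + n) := by
  by_contra hcon
  push Not at hcon
  obtain ⟨i, hi, j, hj, hij, he⟩ : ∃ i ∈ Set.Ici N, ∃ j ∈ Set.Ici N, i < j ∧
      fac u i n = fac u j n := by
    obtain ⟨i, hi, j, hj, hne, he⟩ := Set.Infinite.exists_ne_map_eq_of_mapsTo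
      (Set.Ici_infinite N) (f := fun i => fac u i n) (t := Set.range (fun i => fac u i n))
      (fun i _ => ⟨i, rfl⟩) (fin_range u n)
    rcases lt_or_gt_of_ne hne with h | h
    · exact ⟨i, hi, j, hj, h, he⟩
    · exact ⟨j, hj, i, hi, h, he.symm⟩
  have key : ∀ t, fac u (i + t) n = fac u (j + t) n := by
    intro t
    induction t with
    | zero => exact he
    | succ t ih =>
      have h1 := hcon (i + t) (j + t) (by simp at hi; omega) (by simp at hj; omega) ih
      exact fac_tail (fac_succ_iff.mpr ⟨ih, h1⟩)
  apply not_ev_periodic hu (i + n) (j - i) (by omega)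
  intro k hk
  have h1 := hcon (i + (k - i - n)) (j + (k - i - n)) (by simp at hi; omega)
    (by simp at hj; omega) (key _)
  rw [show i + (k - i - n) + n = k by omega] at h1
  rw [h1]
  congr 1
  omega

/-- Every factor recurs. -/
theorem recur (hu : Sturmian u) (n i N : ℕ) : ∃ j, N ≤ j ∧ fac u j n = fac u i n := by
  induction n with
  | zero => exact ⟨N, le_rfl, by simp [fac]⟩
  | succ n ih =>
    obtain ⟨j, hj, hj'⟩ := ih
    by_cases h : u (j + n) = u (i + n)
    · exact ⟨j, hj, fac_succ_iff.mpr ⟨hj', h⟩⟩
    · obtain ⟨a, b, ha, hb, hab, hne⟩ := rs_late hu n N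
      have hi : RS u n i := ⟨j, hj', h⟩
      have hra : RS u n a := ⟨b, hab.symm, hne.symm⟩
      have e := rs_unique hu hra hi
      by_cases h' : u (a + n) = u (i + n)
      · exact ⟨a, ha, fac_succ_iff.mpr ⟨e, h'⟩⟩
      · refine ⟨b, hb, fac_succ_iff.mpr ⟨hab.symm.trans e, ?_⟩⟩
        cases h1 : u (a + n) <;> cases h2 : u (b + n) <;> cases h3 : u (i + n) <;> simp_all

/-- The window lemma: the right special factor of length `m` occurs in each window. -/
theorem window (hu : Sturmian u) (m j : ℕ) : ∃ t, t ≤ m ∧ RS u m (j + t) := by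
  by_contra hcon
  push Not at hcon
  obtain ⟨r, hr⟩ := rs_exists hu m
  have hne : ∀ t, t ≤ m → fac u (j + t) m ≠ fac u r m := fun t ht h =>
    hcon t ht (hr.congr h.symm)
  set S : Set (List Bool) := Set.range (fun i => fac u i m) \ {fac u r m} with hS
  have hSfin : S.Finite := (fin_range u m).subset Set.sdiff_subset
  have hScard : S.ncard = m := by
    rw [hS, Set.ncard_sdiff_singleton_of_mem (Set.mem_range_self r), ← Cx_eq, hu]
    omega
  obtain ⟨t1, ht1, t2, ht2, hlt, he⟩ : ∃ t1 ∈ Finset.range (m + 1), ∃ t2 ∈ Finset.range (m + 1),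
      t1 < t2 ∧ fac u (j + t1) m = fac u (j + t2) m := by
    have hc : hSfin.toFinset.card < (Finset.range (m + 1)).card := by
      rw [Finset.card_range, ← Set.ncard_eq_toFinset_card S hSfin, hScard]
      omega
    obtain ⟨x, hx, y, hy, hxy, he⟩ := Finset.exists_ne_map_eq_of_card_lt_of_maps_to hc
      (f := fun t => fac u (j + t) m) (by
        intro t ht
        simp only [Finset.coe_range, Set.mem_Iio] at ht
        simp only [Set.Finite.coe_toFinset]
        exact ⟨⟨j + t, rfl⟩, hne t (by omega)⟩)
    rcases lt_or_gt_of_ne hxy with h | h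
    · exact ⟨x, hx, y, hy, h, he⟩
    · exact ⟨y, hy, x, hx, h, he.symm⟩
  rw [Finset.mem_range] at ht1 ht2
  have key : ∀ s, fac u (j + t1 + s) m = fac u (j + t2 + s) m ∧
      ∀ t, t ≤ t2 + s → ¬ RS u m (j + t) := by
    intro s
    induction s with
    | zero => exact ⟨he, fun t ht => hcon t (by omega)⟩
    | succ s ih =>
      obtain ⟨ih1, ih2⟩ := ih
      have hnr : ¬ RS u m (j + t1 + s) := by
        have := ih2 (t1 + s) (by omega)
        rw [show j + t1 + s = j + (t1 + s) by omega]
        exact this
      have hnext : u (j + t2 + s + m) = u (j + t1 + s + m) := by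
        by_contra hc
        exact hnr ⟨j + t2 + s, ih1.symm, hc⟩
      have h1 : fac u (j + t1 + (s + 1)) m = fac u (j + t2 + (s + 1)) m :=
        fac_tail (fac_succ_iff.mpr ⟨ih1, hnext.symm⟩)
      refine ⟨h1, ?_⟩
      intro t ht
      by_cases hts : t ≤ t2 + s
      · exact ih2 t hts
      · have hte : t = t2 + (s + 1) := by omega
        intro hc
        have hc' : RS u m (j + t1 + (s + 1)) := by
          apply hc.congr
          rw [hte, h1]
          congr 1
          omega
        refine ih2 (t1 + (s + 1)) (by omega) ?_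
        rw [show j + (t1 + (s + 1)) = j + t1 + (s + 1) by omega]
        exact hc'
  have key2 : ∀ s, u (j + t2 + s + m) = u (j + t1 + s + m) := by
    intro s
    obtain ⟨h1, h2⟩ := key s
    by_contra hc
    refine h2 (t1 + s) (by omega) ⟨j + t2 + s, ?_, ?_⟩
    · rw [← h1]; congr 1; omega
    · rw [show j + (t1 + s) + m = j + t1 + s + m by omega]; exact hc
  apply not_ev_periodic hu (j + t1 + m) (t2 - t1) (by omega)
  intro i hi
  have := key2 (i - (j + t1 + m))
  rw [show j + t1 + (i - (j + t1 + m)) + m = i by omega,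
    show j + t2 + (i - (j + t1 + m)) + m = i + (t2 - t1) by omega] at this
  exact this

/-- Every factor is a prefix of a right special factor. -/
theorem prefix_rs (hu : Sturmian u) (n i : ℕ) : ∃ m, n ≤ m ∧ ∃ j, RS u m j ∧
    fac u j n = fac u i n := by
  obtain ⟨j, hj, hj'⟩ := recur hu n i (i + 1)
  have hex : ∃ m, u (i + m) ≠ u (j + m) := by
    by_contra hc
    push Not at hc
    apply not_ev_periodic hu i (j - i) (by omega)
    intro k hk
    have := hc (k - i)
    rw [show i + (k - i) = k by omega] at this
    rw [this]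
    congr 1
    omega
  classical
  have h1 := Nat.find_spec hex
  have h2 : ∀ x, x < Nat.find hex → u (i + x) = u (j + x) := fun x hx => by
    have := Nat.find_min hex hx
    push Not at this
    exact this
  have h3 : n ≤ Nat.find hex := by
    by_contra hc
    push Not at hc
    rw [fac_eq_iff] at hj'
    exact h1 (hj' _ hc).symm
  exact ⟨Nat.find hex, h3, i, ⟨j, by rw [eq_comm, fac_eq_iff]; exact h2, fun h => h1 h.symm⟩, rfl⟩

/-- Uniform recurrence. -/
theorem unif_recur (hu : Sturmian u) (n i : ℕ) : ∃ K, ∀ j, ∃ t, t ≤ K ∧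
    fac u (j + t) n = fac u i n := by
  obtain ⟨m, hm, r, hr, hr'⟩ := prefix_rs hu n i
  refine ⟨m, fun j => ?_⟩
  obtain ⟨t, ht, h⟩ := window hu m j
  exact ⟨t, ht, (fac_mono hm (rs_unique hu h hr)).trans hr'⟩

/-- Closure under reversal, positional form. -/
theorem reversal (hu : Sturmian u) (n : ℕ) :
    ∀ i, ∃ j, fac u j n = (fac u i n).reverse := by
  induction n using Nat.strong_induction_on with
  | _ n ih =>
    rcases n with _ | _ | m
    · intro i; exact ⟨0, by simp [fac]⟩
    · intro i; exact ⟨i, by simp [fac]⟩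
    · intro i
      by_contra hcon
      push Not at hcon
      -- `v = a w b` at position `i`
      obtain ⟨j, hj⟩ := ih (m + 1) (by omega) (i + 1)
      obtain ⟨j', hj'⟩ := ih (m + 1) (by omega) i
      rw [fac_eq_reverse_iff] at hj hj'
      -- at `j` : `b w~`, followed by something different from `a`
      have hj0 : u j = u (i + (m + 1)) := by
        have := hj 0 (by omega)
        rw [show i + 1 + (m + 1 - 1 - 0) = i + (m + 1) by omega] at this
        simpa using this
      have hjn : u (j + (m + 1)) ≠ u i := by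
        intro h
        apply hcon j
        rw [fac_eq_reverse_iff]
        intro x hx
        by_cases hx' : x < m + 1
        · rw [hj x hx']
          congr 1
          omega
        · have : x = m + 1 := by omega
          subst this
          rw [h]
          congr 1
          omega
      -- at `j'`, moved to the right: `w~ a`
      obtain ⟨k, hk, hk'⟩ := recur hu (m + 1) j' 1
      have hkw : ∀ x, x < m + 1 → u (k + x) = u (i + (m + 1 - 1 - x)) := by
        intro x hx
        rw [fac_eq_iff] at hk'
        rw [hk' x hx, hj' x hx]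
      have hkp : u (k - 1) ≠ u (i + (m + 1)) := by
        intro h
        apply hcon (k - 1)
        rw [fac_eq_reverse_iff]
        intro x hx
        rcases x with _ | x
        · simp only [Nat.add_zero]
          rw [h]
          congr 1
        · rw [show k - 1 + (x + 1) = k + x by omega, hkw x (by omega)]
          congr 1
          omega
      -- `w~` is right special
      have hwr : fac u (j + 1) m = fac u k m := by
        rw [fac_eq_iff]
        intro x hx
        rw [hkw x (by omega), show j + 1 + x = j + (x + 1) by omega, hj (x + 1) (by omega)]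
        congr 1
        omega
      have hkm : u (k + m) = u i := by
        rw [hkw m (by omega)]
        congr 1
        omega
      have hrs1 : RS u m k := by
        refine ⟨j + 1, hwr, ?_⟩
        rw [show j + 1 + m = j + (m + 1) by omega, hkm]
        exact hjn
      -- `w` is right special
      obtain ⟨l, hl⟩ := ih (m + 1) (by omega) j
      obtain ⟨l', hl'⟩ := ih (m + 1) (by omega) (k - 1)
      rw [fac_eq_reverse_iff] at hl hl'
      have hlw : ∀ x, x < m → u (l + x) = u (i + 1 + x) := by
        intro x hx
        rw [hl x (by omega), hj _ (by omega)]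
        congr 1
        omega
      have hlw' : ∀ x, x < m → u (l' + x) = u (i + 1 + x) := by
        intro x hx
        rw [hl' x (by omega), show k - 1 + (m + 1 - 1 - x) = k + (m - 1 - x) by omega,
          hkw _ (by omega)]
        congr 1
        omega
      have hlm : u (l + m) = u (i + (m + 1)) := by
        rw [hl m (by omega), show j + (m + 1 - 1 - m) = j by omega, hj0]
      have hlm' : u (l' + m) ≠ u (i + (m + 1)) := by
        rw [hl' m (by omega), show k - 1 + (m + 1 - 1 - m) = k - 1 by omega]
        exact hkp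
      have hrs2 : RS u m l := by
        refine ⟨l', ?_, ?_⟩
        · rw [fac_eq_iff]
          intro x hx
          rw [hlw' x hx, hlw x hx]
        · rw [hlm]; exact hlm'
      -- hence `w = w~`
      have hpal := rs_unique hu hrs1 hrs2
      rw [fac_eq_iff] at hpal
      have hw : ∀ x, x < m → u (i + 1 + (m - 1 - x)) = u (i + 1 + x) := by
        intro x hx
        rw [← hlw x hx, ← hpal x hx, hkw x (by omega)]
        congr 1
        omega
      -- `a ≠ b`
      have hab : u i ≠ u (i + (m + 1)) := by
        intro h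
        apply hcon i
        rw [fac_eq_reverse_iff]
        intro x hx
        rcases x with _ | x
        · simp only [Nat.add_zero]
          rw [h]
          congr 1
        · by_cases hx' : x < m
          · rw [show i + (x + 1) = i + 1 + x by omega, ← hw x hx']
            congr 1
            omega
          · have : x = m := by omega
            subst this
            rw [← h]
            congr 1
            omega
      -- `a w` is right special
      have hk1 : u (k - 1) = u i := by
        cases h1 : u (k - 1) <;> cases h2 : u i <;> cases h3 : u (i + (m + 1)) <;> simp_all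
      have haw : fac u (k - 1) (m + 1) = fac u i (m + 1) := by
        rw [fac_eq_iff]
        intro x hx
        rcases x with _ | x
        · simpa using hk1
        · rw [show k - 1 + (x + 1) = k + x by omega, hkw x (by omega),
            show i + (x + 1) = i + 1 + x by omega, ← hw x (by omega)]
          congr 1
          omega
      have hraw : RS u (m + 1) i := by
        refine ⟨k - 1, haw, ?_⟩
        rw [show k - 1 + (m + 1) = k + m by omega, hkm]
        exact hab
      obtain ⟨t, ht, hrt⟩ := window hu (m + 1) j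
      have he := rs_unique hu hrt hraw
      rw [fac_eq_iff] at he
      have he0 : u (j + t) = u i := by
        have := he 0 (by omega)
        simpa using this
      rcases Nat.eq_zero_or_pos t with h0 | h0
      · subst h0
        apply hab
        rw [← he0, ← hj0]
        simp
      · rcases Nat.lt_or_ge m t with h1 | h1
        · have : t = m + 1 := by omega
          subst this
          exact hjn he0
        · -- `1 ≤ t ≤ m`
          have e1 : u (i + 1 + (t - 1)) = u i := by
            have h2 := hj t (by omega)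
            rw [he0] at h2
            rw [← hw (t - 1) (by omega), h2]
            congr 1
            omega
          have e2 : u (i + 1 + (m - 1 - (t - 1))) = u (j + (m + 1)) := by
            have h2 := he (m + 1 - t) (by omega)
            rw [show j + t + (m + 1 - t) = j + (m + 1) by omega] at h2
            rw [h2]
            congr 1
            omega
          rw [hw (t - 1) (by omega)] at e2
          apply hjn
          rw [← e2, e1]

/-- The factor of length `n` at position `i` is a palindrome. -/
def IsPal (u : ℕ → Bool) (n i : ℕ) : Prop := (fac u i n).reverse = fac u i n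

/-- A palindrome cannot be extended to a palindrome in two ways. -/
theorem pal_ext_unique (hu : Sturmian u) {n i j : ℕ} (hij : fac u (i + 1) n = fac u (j + 1) n)
    (hp : IsPal u n (i + 1)) (hi : u i = u (i + 1 + n)) (hj : u j = u (j + 1 + n)) : u i = u j := by
  by_contra hne
  have hrs : RS u n (i + 1) := ⟨j + 1, hij.symm, by rw [← hj, ← hi]; exact fun h => hne h.symm⟩
  obtain ⟨r, hr⟩ := rs_exists hu (n + 1)
  have hr1 := rs_unique hu hr.tail hrs
  -- one of the two words has the letter different from `u r`
  obtain ⟨s, hs1, hs2, hs3⟩ : ∃ s, fac u (s + 1) n = fac u (i + 1) n ∧ u s ≠ u r ∧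
      u s = u (s + 1 + n) := by
    by_cases h : u i = u r
    · exact ⟨j, hij.symm, fun h' => hne (h.trans h'.symm), hj⟩
    · exact ⟨i, rfl, h, hi⟩
  obtain ⟨r', hr', hr''⟩ := rs_ext hr (u s)
  obtain ⟨q, hq⟩ := reversal hu (n + 2) r'
  rw [fac_eq_reverse_iff] at hq
  -- `c̄ w` at positions `s` and `q`
  have hr0 : u r' = u r := by
    rw [fac_eq_iff] at hr'
    have := hr' 0 (by omega)
    simpa using this
  have hrw : fac u (r' + 1) n = fac u (i + 1) n := (fac_tail hr').trans hr1
  unfold IsPal at hp
  rw [fac_pal_iff] at hp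
  rw [fac_eq_iff] at hrw hs1
  have hqs : fac u q (n + 1) = fac u s (n + 1) := by
    rw [fac_eq_iff]
    intro x hx
    rw [hq x (by omega)]
    rcases x with _ | x
    · rw [show r' + (n + 2 - 1 - 0) = r' + (n + 1) by omega, hr'']
      simp
    · rw [show r' + (n + 2 - 1 - (x + 1)) = r' + 1 + (n - 1 - x) by omega, hrw _ (by omega),
        show s + (x + 1) = s + 1 + x by omega, hs1 x (by omega), hp x (by omega)]
  have hqn : u (q + (n + 1)) = u r := by
    rw [hq (n + 1) (by omega), show r' + (n + 2 - 1 - (n + 1)) = r' by omega, hr0]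
  have hrss : RS u (n + 1) s := by
    refine ⟨q, hqs, ?_⟩
    rw [hqn, show s + (n + 1) = s + 1 + n by omega, ← hs3]
    exact fun h => hs2 h.symm
  have hfin := rs_unique hu hrss hr
  rw [fac_eq_iff] at hfin
  have := hfin 0 (by omega)
  simp only [Nat.add_zero] at this
  exact hs2 this

/-- Each palindrome can be extended to a palindrome. -/
theorem pal_ext_exists (hu : Sturmian u) {n i : ℕ} (hp : IsPal u n i) :
    ∃ j, fac u (j + 1) n = fac u i n ∧ u j = u (j + 1 + n) := by
  obtain ⟨k, hk, hk'⟩ := recur hu n i 1
  by_cases h : u (k - 1) = u (k + n)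
  · refine ⟨k - 1, ?_, ?_⟩
    · rw [show k - 1 + 1 = k by omega]; exact hk'
    · rw [show k - 1 + 1 + n = k + n by omega]; exact h
  · obtain ⟨q, hq⟩ := reversal hu (n + 2) (k - 1)
    rw [fac_eq_reverse_iff] at hq
    unfold IsPal at hp
    rw [← hk', fac_pal_iff] at hp
    have hqw : fac u (q + 1) n = fac u k n := by
      rw [fac_eq_iff]
      intro x hx
      rw [show q + 1 + x = q + (x + 1) by omega, hq (x + 1) (by omega),
        show k - 1 + (n + 2 - 1 - (x + 1)) = k + (n - 1 - x) by omega, hp x hx]
    have hqn : u (q + 1 + n) = u (k - 1) := by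
      rw [show q + 1 + n = q + (n + 1) by omega, hq (n + 1) (by omega)]
      congr 1
      omega
    have hrs : RS u n k := ⟨q + 1, hqw, by rw [hqn]; exact h⟩
    obtain ⟨r, hr⟩ := rs_exists hu (n + 1)
    have hr1 := rs_unique hu hr.tail hrs
    obtain ⟨r', hr', hr''⟩ := rs_ext hr (u r)
    refine ⟨r', ((fac_tail hr').trans hr1).trans hk', ?_⟩
    rw [show r' + 1 + n = r' + (n + 1) by omega, hr'']
    rw [fac_eq_iff] at hr'
    have := hr' 0 (by omega)
    simpa using this

theorem isPal_add_two {n i : ℕ} : IsPal u (n + 2) i ↔ IsPal u n (i + 1) ∧ u i = u (i + 1 + n) := by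
  unfold IsPal
  rw [fac_pal_iff, fac_pal_iff]
  constructor
  · intro h
    constructor
    · intro x hx
      have := h (x + 1) (by omega)
      rw [show i + 1 + x = i + (x + 1) by omega, this]
      congr 1
      omega
    · have := h 0 (by omega)
      simp only [Nat.add_zero] at this
      rw [this]
      congr 1
      omega
  · rintro ⟨h1, h2⟩ x hx
    rcases x with _ | x
    · simp only [Nat.add_zero]
      rw [h2]
      congr 1
      omega
    · by_cases hx' : x < n
      · rw [show i + (x + 1) = i + 1 + x by omega, h1 x hx']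
        congr 1
        omega
      · have : x = n := by omega
        subst this
        rw [show i + (x + 1) = i + 1 + x by omega, ← h2]
        congr 1
        omega

theorem pal_step (hu : Sturmian u) (n : ℕ) (C : ℕ → Prop)
    (hC : ∀ i j, fac u i n = fac u j n → C i → C j)
    (h1 : ∃ i, IsPal u n i ∧ C i)
    (h2 : ∀ i j, IsPal u n i → C i → IsPal u n j → C j → fac u i n = fac u j n) :
    (∃ i, IsPal u (n + 2) i ∧ C (i + 1)) ∧
    ∀ i j, IsPal u (n + 2) i → C (i + 1) → IsPal u (n + 2) j → C (j + 1) →
      fac u i (n + 2) = fac u j (n + 2) := by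
  constructor
  · obtain ⟨i, hi, hi'⟩ := h1
    obtain ⟨j, hj, hj'⟩ := pal_ext_exists hu hi
    refine ⟨j, isPal_add_two.mpr ⟨?_, hj'⟩, hC _ _ hj.symm hi'⟩
    unfold IsPal at *
    rw [hj, hi]
  · intro i j hi hi' hj hj'
    rw [isPal_add_two] at hi hj
    have e := h2 _ _ hi.1 hi' hj.1 hj'
    have e2 := pal_ext_unique hu e hi.1 hi.2 hj.2
    rw [fac_eq_iff]
    rw [fac_eq_iff] at e
    intro x hx
    rcases x with _ | x
    · simpa using e2
    · by_cases hx' : x < n
      · rw [show i + (x + 1) = i + 1 + x by omega, e x hx']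
        congr 1
        omega
      · have : x = n := by omega
        subst this
        rw [show i + (x + 1) = i + 1 + x by omega, ← hi.2, e2, hj.2]
        congr 1
        omega

theorem pal_even (hu : Sturmian u) (m : ℕ) :
    (∃ i, IsPal u (2 * m) i ∧ True) ∧
    ∀ i j, IsPal u (2 * m) i → True → IsPal u (2 * m) j → True →
      fac u i (2 * m) = fac u j (2 * m) := by
  induction m with
  | zero =>
    refine ⟨⟨0, ?_, trivial⟩, ?_⟩
    · simp [IsPal, fac]
    · intro i j _ _ _ _
      simp [fac]
  | succ m ih =>
    have := pal_step hu (2 * m) (fun _ => True) (fun _ _ _ h => h) ih.1 ih.2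
    rw [show 2 * (m + 1) = 2 * m + 2 by ring]
    exact this

theorem letters (hu : Sturmian u) (c : Bool) : ∃ i, u i = c := by
  obtain ⟨i, hi⟩ := rs_exists hu 0
  obtain ⟨j, _, hj⟩ := rs_ext hi c
  exact ⟨j, by simpa using hj⟩

theorem pal_odd (hu : Sturmian u) (c : Bool) (m : ℕ) :
    (∃ i, IsPal u (2 * m + 1) i ∧ u (i + m) = c) ∧
    ∀ i j, IsPal u (2 * m + 1) i → u (i + m) = c → IsPal u (2 * m + 1) j → u (j + m) = c →
      fac u i (2 * m + 1) = fac u j (2 * m + 1) := by
  induction m with
  | zero =>
    obtain ⟨i, hi⟩ := letters hu c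
    refine ⟨⟨i, ?_, ?_⟩, ?_⟩
    · simp [IsPal, fac]
    · simpa using hi
    · intro i j _ h1 _ h2
      simp [fac]
      simp at h1 h2
      rw [h1, h2]
  | succ m ih =>
    have := pal_step hu (2 * m + 1) (fun i => u (i + m) = c) (fun i j h h' => by
      rw [fac_eq_iff] at h
      rw [← h m (by omega)]
      exact h') ih.1 ih.2
    rw [show 2 * (m + 1) + 1 = 2 * m + 1 + 2 by ring]
    refine ⟨?_, ?_⟩
    · obtain ⟨i, hi, hi'⟩ := this.1
      refine ⟨i, hi, ?_⟩
      rw [show i + (m + 1) = i + 1 + m by omega]
      exact hi'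
    · intro i j hi hi' hj hj'
      refine this.2 i j hi ?_ hj ?_
      · show u (i + 1 + m) = c
        rw [show i + 1 + m = i + (m + 1) by omega]; exact hi'
      · show u (j + 1 + m) = c
        rw [show j + 1 + m = j + (m + 1) by omega]; exact hj'

end Pool.Agent.R285.Sturm
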