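import Mathlib
import Pool.Agent.R285.SturmA

/-!
# Finite state machines driven by a Sturmian word
-/

set_option autoImplicit false

namespace Pool.Agent.R285.Sturm

open Pool.Agent.R124.PalT

section states

variable {Q : Type} [Finite Q] {u : ℕ → Bool} (T : Bool → Q → Q) (q : ℕ → Q)

/-- States that occur arbitrarily late at occurrences of the factor of length `n` at `i`. -/
def QQ (u : ℕ → Bool) (q : ℕ → Q) (n i : ℕ) : Set Q :=
  {s | ∀ N, ∃ j, N ≤ j ∧ fac u j n = fac u i n ∧ q j = s}

theorem QQ_congr {n i j : ℕ} (h : fac u i n = fac u j n) : QQ u q n i = QQ u q n j := by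
  unfold QQ
  rw [h]

theorem QQ_mono {n n' i : ℕ} (h : n ≤ n') : QQ u q n' i ⊆ QQ u q n i := by
  intro s hs N
  obtain ⟨j, h1, h2, h3⟩ := hs N
  exact ⟨j, h1, fac_mono h h2, h3⟩

theorem QQ_step (hq : ∀ i, q (i + 1) = T (u i) (q i)) (n i : ℕ) :
    T (u i) '' QQ u q (n + 1) i ⊆ QQ u q n (i + 1) := by
  rintro _ ⟨s, hs, rfl⟩ N
  obtain ⟨j, h1, h2, h3⟩ := hs N
  refine ⟨j + 1, by omega, fac_tail h2, ?_⟩
  rw [hq, h3]
  rw [fac_eq_iff] at h2
  have := h2 0 (by omega)
  simp only [Nat.add_zero] at this
  rw [this]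

theorem QQ_nonempty (hu : Sturmian u) (n i : ℕ) : (QQ u q n i).Nonempty := by
  by_contra hcon
  rw [Set.not_nonempty_iff_eq_empty, Set.eq_empty_iff_forall_notMem] at hcon
  have h1 : ∀ s : Q, ∃ N, ∀ j, N ≤ j → fac u j n = fac u i n → q j ≠ s := by
    intro s
    have := hcon s
    unfold QQ at this
    simp only [Set.mem_setOf_eq] at this
    push Not at this
    exact this
  choose N hN using h1
  have hfin : (Set.range N).Finite := Set.finite_range N
  obtain ⟨M, hM⟩ := hfin.bddAbove
  obtain ⟨j, hj, hj'⟩ := recur hu n i M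
  refine hN (q j) j ?_ hj' rfl
  exact (hM ⟨q j, rfl⟩).trans hj

theorem QQ_card_step (hT : ∀ a, Function.Injective (T a)) (hq : ∀ i, q (i + 1) = T (u i) (q i))
    (t n i : ℕ) : (QQ u q (t + n) i).ncard ≤ (QQ u q n (i + t)).ncard := by
  induction t generalizing n with
  | zero => simp
  | succ t ih =>
    have h1 := ih (n + 1)
    have h2 := Set.ncard_le_ncard (QQ_step T q hq n (i + t)) (Set.toFinite _)
    rw [Set.ncard_image_of_injective _ (hT _)] at h2
    rw [show t + 1 + n = t + (n + 1) by omega, show i + (t + 1) = i + t + 1 by omega]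
    exact h1.trans h2

theorem states (hu : Sturmian u) (hT : ∀ a, Function.Injective (T a))
    (hq : ∀ i, q (i + 1) = T (u i) (q i))
    (htr : ∀ L : Set Q, L.Nonempty → (∀ a, T a '' L = L) → L = Set.univ) (n i : ℕ) :
    QQ u q n i = Set.univ := by
  classical
  -- the minimal cardinality
  have hex : ∃ d, ∃ n i, (QQ u q n i).ncard = d := ⟨_, 0, 0, rfl⟩
  obtain ⟨n0, i0, h0⟩ := Nat.find_spec hex
  have hmin : ∀ n i, Nat.find hex ≤ (QQ u q n i).ncard := fun n i =>
    Nat.find_min' hex ⟨n, i, rfl⟩
  set d := Nat.find hex with hd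
  obtain ⟨K, hK⟩ := unif_recur hu n0 i0
  have hd1 : ∀ n, K + n0 ≤ n → ∀ i, (QQ u q n i).ncard = d := by
    intro n hn i
    apply le_antisymm _ (hmin n i)
    obtain ⟨t, ht, ht'⟩ := hK i
    calc (QQ u q n i).ncard ≤ (QQ u q (t + n0) i).ncard :=
          Set.ncard_le_ncard (QQ_mono q (by omega)) (Set.toFinite _)
      _ ≤ (QQ u q n0 (i + t)).ncard := QQ_card_step T q hT hq t n0 i
      _ = (QQ u q n0 i0).ncard := by rw [QQ_congr q ht']
      _ = d := h0
  set N := K + n0 with hN
  set L : ℕ → Set Q := fun i => QQ u q N i with hL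
  have hstep : ∀ i, T (u i) '' L i = L (i + 1) := by
    intro i
    have e1 : QQ u q (N + 1) i = QQ u q N i :=
      Set.eq_of_subset_of_ncard_le (QQ_mono q (by omega)) (by
        rw [hd1 N le_rfl, hd1 (N + 1) (by omega)]) (Set.toFinite _)
    have e2 := QQ_step T q hq N i
    rw [e1] at e2
    refine Set.eq_of_subset_of_ncard_le e2 ?_ (Set.toFinite _)
    rw [Set.ncard_image_of_injective _ (hT _), hd1 N le_rfl, hd1 N le_rfl]
  have hdep : ∀ k, k ≤ N → ∀ i j, fac u i (N - k) = fac u j (N - k) → L i = L j := by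
    intro k
    induction k with
    | zero => intro _ i j h; exact QQ_congr q h
    | succ k ih =>
      intro hk i j h
      have ih' := ih (by omega)
      set m := N - (k + 1) with hm
      rw [show N - k = m + 1 by omega] at ih'
      by_cases hnext : u (i + m) = u (j + m)
      · exact ih' i j (fac_succ_iff.mpr ⟨h, hnext⟩)
      · have hi : RS u m i := ⟨j, h.symm, fun h' => hnext h'.symm⟩
        obtain ⟨r, hr⟩ := rs_exists hu (m + 1)
        obtain ⟨a, ha, ha'⟩ := rs_ext hr (u (i + m))
        obtain ⟨b, hb, hb'⟩ := rs_ext hr (u (j + m))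
        have hri := rs_unique hu hr.tail hi
        have e1 : L (a + 1) = L i := by
          apply ih'
          apply fac_succ_iff.mpr
          refine ⟨(fac_tail ha).trans hri, ?_⟩
          rw [show a + 1 + m = a + (m + 1) by omega, ha']
        have e2 : L (b + 1) = L j := by
          apply ih'
          apply fac_succ_iff.mpr
          refine ⟨((fac_tail hb).trans hri).trans h, ?_⟩
          rw [show b + 1 + m = b + (m + 1) by omega, hb']
        have e3 : L a = L b := ih' a b (ha.trans hb.symm)
        rw [← e1, ← e2, ← hstep, ← hstep, e3]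
        have e4 : u a = u b := by
          have h1 := ha.trans hb.symm
          rw [fac_eq_iff] at h1
          simpa using h1 0 (by omega)
        rw [e4]
  have hconst : ∀ i, L i = L 0 := by
    intro i
    apply hdep N le_rfl
    rw [Nat.sub_self]
    simp [fac]
  have hLu : L 0 = Set.univ := by
    apply htr _ (QQ_nonempty q hu N 0)
    intro a
    obtain ⟨i, hi⟩ := letters hu a
    have := hstep i
    rw [hconst i, hconst (i + 1), hi] at this
    exact this
  have hdc : d = (Set.univ : Set Q).ncard := by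
    rw [← hLu, ← hd1 N le_rfl 0]
  apply Set.eq_of_subset_of_ncard_le (Set.subset_univ _) _ (Set.toFinite _)
  rw [← hdc]
  exact hmin n i

end states

end Pool.Agent.R285.Sturm
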