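import Mathlib
import Pool.Agent.R285.SturmB

/-!
# Iterated preimages of Sturmian words under the difference map: counting factors and palindromes
-/

set_option autoImplicit false

namespace Pool.Agent.R285.Sturm

open Pool.Agent.R124.PalT

/-- The difference map: `S(x)_i = x_i + x_{i+1} mod 2`. -/
def S (x : ℕ → Bool) : ℕ → Bool := fun i => xor (x i) (x (i + 1))

/-- The antimorphism `E`: reversal and exchange of letters. -/
def E (w : List Bool) : List Bool := (w.map not).reverse

/-- The number of factors of length `n` fixed by `E`. -/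
noncomputable def PE (x : ℕ → Bool) (n : ℕ) : ℕ :=
  Set.ncard {w : List Bool | w ∈ Lang x ∧ w.length = n ∧ E w = w}

theorem S_next (x : ℕ → Bool) (i : ℕ) : x (i + 1) = xor (x i) (S x i) := by
  unfold S
  cases x i <;> cases x (i + 1) <;> rfl

/-- The language is closed under the exchange of letters. -/
def CompClosed (x : ℕ → Bool) : Prop := ∀ i n, ∃ j, ∀ k, k < n → x (j + k) = !(x (i + k))

section three

variable {u z : ℕ → Bool}

/-- The state machine of a third preimage. -/
def T3 (a : Bool) (s : Bool × Bool × Bool) : Bool × Bool × Bool :=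
  (xor s.1 s.2.1, xor s.2.1 s.2.2, xor s.2.2 a)

theorem T3_inj (a : Bool) : Function.Injective (T3 a) := by
  revert a
  decide

theorem T3_trans (L : Set (Bool × Bool × Bool)) (hne : L.Nonempty)
    (h : ∀ a, T3 a '' L = L) : L = Set.univ := by
  have hpre : ∀ a s, s ∈ L → ∃ s', s' ∈ L ∧ T3 a s' = s := by
    intro a s hs
    rw [← h a] at hs
    exact hs
  have him : ∀ a s, s ∈ L → T3 a s ∈ L := by
    intro a s hs
    rw [← h a]
    exact ⟨s, hs, rfl⟩
  have h3 : ∀ p q r, (p, q, r) ∈ L → (p, q, !r) ∈ L := by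
    intro p q r hs
    obtain ⟨s', hs', he⟩ := hpre false _ hs
    have := him true _ hs'
    have e : T3 true s' = (p, q, !r) := by
      simp only [T3, Prod.mk.injEq] at he ⊢
      obtain ⟨e1, e2, e3⟩ := he
      refine ⟨e1, e2, ?_⟩
      rw [← e3]
      cases s'.2.2 <;> rfl
    rwa [e] at this
  have h2 : ∀ p q r, (p, q, r) ∈ L → (p, !q, r) ∈ L := by
    intro p q r hs
    obtain ⟨⟨a, b, c⟩, hs', he⟩ := hpre false _ hs
    have := him false _ (h3 a b c hs')
    have e : T3 false (a, b, !c) = (p, !q, !r) := by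
      simp only [T3, Prod.mk.injEq] at he ⊢
      obtain ⟨e1, e2, e3⟩ := he
      refine ⟨e1, ?_, ?_⟩
      · rw [← e2]; cases b <;> cases c <;> rfl
      · rw [← e3]; cases c <;> rfl
    rw [e] at this
    have h' := h3 _ _ _ this
    rwa [Bool.not_not] at h'
  have h1 : ∀ p q r, (p, q, r) ∈ L → (!p, q, r) ∈ L := by
    intro p q r hs
    obtain ⟨⟨a, b, c⟩, hs', he⟩ := hpre false _ hs
    have := him false _ (h2 a b c hs')
    have e : T3 false (a, !b, c) = (!p, !q, r) := by
      simp only [T3, Prod.mk.injEq] at he ⊢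
      obtain ⟨e1, e2, e3⟩ := he
      refine ⟨?_, ?_, e3⟩
      · rw [← e1]; cases a <;> cases b <;> rfl
      · rw [← e2]; cases b <;> cases c <;> rfl
    rw [e] at this
    have h' := h2 _ _ _ this
    rwa [Bool.not_not] at h'
  obtain ⟨⟨a, b, c⟩, ha⟩ := hne
  rw [Set.eq_univ_iff_forall]
  rintro ⟨p, q, r⟩
  have k1 : (p, b, c) ∈ L := by
    by_cases hc : a = p
    · rw [← hc]; exact ha
    · have := h1 _ _ _ ha
      have hp : p = !a := by cases a <;> cases p <;> simp_all
      rw [hp]; exact this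
  have k2 : (p, q, c) ∈ L := by
    by_cases hc : b = q
    · rw [← hc]; exact k1
    · have := h2 _ _ _ k1
      have hp : q = !b := by cases b <;> cases q <;> simp_all
      rw [hp]; exact this
  by_cases hc : c = r
  · rw [← hc]; exact k2
  · have := h3 _ _ _ k2
    have hp : r = !c := by cases c <;> cases r <;> simp_all
    rw [hp]; exact this

theorem all_states (hu : Sturmian u) (hz : S (S (S z)) = u) (n i : ℕ) (s : Bool × Bool × Bool) :
    ∃ j, fac u j n = fac u i n ∧ (z j, S z j, S (S z) j) = s := by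
  have := states T3 (fun i => (z i, S z i, S (S z) i)) hu T3_inj (fun i => by
    simp only [T3, Prod.mk.injEq]
    refine ⟨S_next z i, S_next (S z) i, ?_⟩
    rw [← hz]
    exact S_next (S (S z)) i) T3_trans n i
  have hs : s ∈ QQ u (fun i => (z i, S z i, S (S z) i)) n i := by rw [this]; trivial
  obtain ⟨j, _, h1, h2⟩ := hs 0
  exact ⟨j, h1, h2⟩

theorem cc_of (x : ℕ → Bool) (i j n : ℕ) (h0 : x j = !(x i))
    (h : ∀ k, k < n → S x (j + k) = S x (i + k)) : ∀ k, k ≤ n → x (j + k) = !(x (i + k)) := by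
  intro k
  induction k with
  | zero => intro _; simpa using h0
  | succ k ih =>
    intro hk
    rw [← Nat.add_assoc, ← Nat.add_assoc, S_next x, S_next x (i + k), ih (by omega),
      h k (by omega)]
    cases x (i + k) <;> cases S x (i + k) <;> rfl

theorem eq_of (x : ℕ → Bool) (i j n : ℕ) (h0 : x j = x i)
    (h : ∀ k, k < n → S x (j + k) = S x (i + k)) : ∀ k, k ≤ n → x (j + k) = x (i + k) := by
  intro k
  induction k with
  | zero => intro _; simpa using h0
  | succ k ih =>
    intro hk
    rw [← Nat.add_assoc, ← Nat.add_assoc, S_next x, S_next x (i + k), ih (by omega),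
      h k (by omega)]

theorem comp3 (hu : Sturmian u) (hz : S (S (S z)) = u) : CompClosed (S (S z)) := by
  intro i n
  obtain ⟨j, hj, hs⟩ := all_states hu hz n i (z i, S z i, !(S (S z) i))
  simp only [Prod.mk.injEq] at hs
  refine ⟨j, fun k hk => ?_⟩
  refine cc_of (S (S z)) i j n hs.2.2 (fun k hk => ?_) k (by omega)
  rw [hz]
  rw [fac_eq_iff] at hj
  exact hj k hk

theorem comp2 (hu : Sturmian u) (hz : S (S (S z)) = u) : CompClosed (S z) := by
  intro i n
  obtain ⟨j, hj, hs⟩ := all_states hu hz n i (z i, !(S z i), S (S z) i)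
  simp only [Prod.mk.injEq] at hs
  refine ⟨j, fun k hk => ?_⟩
  refine cc_of (S z) i j n hs.2.1 (fun k hk => ?_) k (by omega)
  refine eq_of (S (S z)) i j n hs.2.2 (fun k hk => ?_) k (by omega)
  rw [hz]
  rw [fac_eq_iff] at hj
  exact hj k hk

theorem comp1 (hu : Sturmian u) (hz : S (S (S z)) = u) : CompClosed z := by
  intro i n
  obtain ⟨j, hj, hs⟩ := all_states hu hz n i (!(z i), S z i, S (S z) i)
  simp only [Prod.mk.injEq] at hs
  refine ⟨j, fun k hk => ?_⟩
  refine cc_of z i j n hs.1 (fun k hk => ?_) k (by omega)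
  refine eq_of (S z) i j n hs.2.1 (fun k hk => ?_) k (by omega)
  refine eq_of (S (S z)) i j n hs.2.2 (fun k hk => ?_) k (by omega)
  rw [hz]
  rw [fac_eq_iff] at hj
  exact hj k hk

/-- A primitive of `x`. -/
def integ (x : ℕ → Bool) : ℕ → Bool
  | 0 => false
  | n + 1 => xor (integ x n) (x n)

theorem exists_preimage (x : ℕ → Bool) : ∃ z, S z = x := by
  refine ⟨integ x, ?_⟩
  funext n
  show xor (integ x n) (xor (integ x n) (x n)) = x n
  cases integ x n <;> cases x n <;> rfl

end three

/-! ### Counting -/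

/-- The number of factors of length `n` with the property `P`. -/
noncomputable def cnt (x : ℕ → Bool) (n : ℕ) (P : List Bool → Prop) : ℕ :=
  Set.ncard {w : List Bool | w ∈ Lang x ∧ w.length = n ∧ P w}

theorem cnt_set (x : ℕ → Bool) (n : ℕ) (P : List Bool → Prop) :
    {w : List Bool | w ∈ Lang x ∧ w.length = n ∧ P w} = {w | ∃ i, w = fac x i n ∧ P w} := by
  ext w
  constructor
  · rintro ⟨⟨i, hi⟩, hw, hP⟩
    rw [hw] at hi
    exact ⟨i, hi, hP⟩
  · rintro ⟨i, rfl, hP⟩
    exact ⟨fac_mem x i n, fac_length x i n, hP⟩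

theorem cnt_congr (x : ℕ → Bool) (n : ℕ) (P P' : List Bool → Prop)
    (h : ∀ i, P (fac x i n) ↔ P' (fac x i n)) : cnt x n P = cnt x n P' := by
  unfold cnt
  rw [cnt_set, cnt_set]
  congr 1
  ext w
  constructor
  · rintro ⟨i, rfl, hP⟩; exact ⟨i, rfl, (h i).mp hP⟩
  · rintro ⟨i, rfl, hP⟩; exact ⟨i, rfl, (h i).mpr hP⟩

theorem cnt_one (x : ℕ → Bool) (n : ℕ) (P : List Bool → Prop)
    (h1 : ∃ i, P (fac x i n))
    (h2 : ∀ i j, P (fac x i n) → P (fac x j n) → fac x i n = fac x j n) : cnt x n P = 1 := by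
  unfold cnt
  rw [cnt_set, Set.ncard_eq_one]
  obtain ⟨i, hi⟩ := h1
  refine ⟨fac x i n, ?_⟩
  ext w
  constructor
  · rintro ⟨j, rfl, hP⟩
    exact h2 _ _ hP hi
  · rintro rfl
    exact ⟨i, rfl, hi⟩

theorem cnt_zero (x : ℕ → Bool) (n : ℕ) (P : List Bool → Prop)
    (h : ∀ i, ¬ P (fac x i n)) : cnt x n P = 0 := by
  unfold cnt
  rw [cnt_set, Set.ncard_eq_zero ?_]
  · rw [Set.eq_empty_iff_forall_notMem]
    rintro w ⟨i, rfl, hP⟩
    exact h i hP
  · apply (fin_range x n).subset
    rintro w ⟨i, rfl, hP⟩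
    exact ⟨i, rfl⟩

theorem cnt_add (x : ℕ → Bool) (n : ℕ) (P P1 P2 : List Bool → Prop)
    (h : ∀ i, P (fac x i n) ↔ P1 (fac x i n) ∨ P2 (fac x i n))
    (hd : ∀ i, ¬ (P1 (fac x i n) ∧ P2 (fac x i n))) : cnt x n P = cnt x n P1 + cnt x n P2 := by
  unfold cnt
  rw [cnt_set, cnt_set, cnt_set]
  have hf : ∀ P : List Bool → Prop, {w | ∃ i, w = fac x i n ∧ P w}.Finite := by
    intro P
    apply (fin_range x n).subset
    rintro w ⟨i, rfl, hP⟩
    exact ⟨i, rfl⟩
  rw [← Set.ncard_union_eq _ (hf P1) (hf P2)]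
  · congr 1
    ext w
    constructor
    · rintro ⟨i, rfl, hP⟩
      rcases (h i).mp hP with h1 | h1
      · left; exact ⟨i, rfl, h1⟩
      · right; exact ⟨i, rfl, h1⟩
    · rintro (⟨i, rfl, hP⟩ | ⟨i, rfl, hP⟩)
      · exact ⟨i, rfl, (h i).mpr (Or.inl hP)⟩
      · exact ⟨i, rfl, (h i).mpr (Or.inr hP)⟩
  · rw [Set.disjoint_left]
    rintro w ⟨i, rfl, h1⟩ ⟨j, hj, h2⟩
    exact hd i ⟨h1, h2⟩

/-- The difference word. -/
def Dl (w : List Bool) : List Bool :=
  (List.range (w.length - 1)).map fun j => xor (w.getD j false) (w.getD (j + 1) false)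

theorem Dl_fac (x : ℕ → Bool) (i n : ℕ) : Dl (fac x i (n + 1)) = fac (S x) i n := by
  unfold Dl
  rw [fac_length]
  unfold fac S
  apply List.map_congr_left
  intro j hj
  rw [List.mem_range] at hj
  have h1 : ((List.range (n + 1)).map fun j => x (i + j)).getD j false = x (i + j) := by
    simp [List.getD, show j < n + 1 by omega]
  have h2 : ((List.range (n + 1)).map fun j => x (i + j)).getD (j + 1) false = x (i + (j + 1)) := by
    simp only [List.getD, List.getElem?_map, List.getElem?_range (show j + 1 < n + 1 by omega),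
      Option.map_some, Option.getD_some]
  rw [h1, h2]
  rfl

theorem count2 (x : ℕ → Bool) (n : ℕ) (hc : CompClosed x) (P P' : List Bool → Prop)
    (h : ∀ i, P (fac x i (n + 1)) ↔ P' (fac (S x) i n)) :
    cnt x (n + 1) P = 2 * cnt (S x) n P' := by
  unfold cnt
  rw [cnt_set, cnt_set]
  set F : Set (List Bool) := {v | ∃ i, v = fac (S x) i n ∧ P' v} with hF
  set G : Bool → Set (List Bool) := fun a => {w | ∃ i, w = fac x i (n + 1) ∧ P w ∧ x i = a} with hG
  have hGf : ∀ a, (G a).Finite := by
    intro a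
    apply (fin_range x (n + 1)).subset
    rintro w ⟨i, rfl, hP⟩
    exact ⟨i, rfl⟩
  have hGF : ∀ a, (G a).ncard = F.ncard := by
    intro a
    have hinj : Set.InjOn Dl (G a) := by
      rintro _ ⟨i, rfl, _, hi⟩ _ ⟨j, rfl, _, hj⟩ he
      rw [Dl_fac, Dl_fac, fac_eq_iff] at he
      rw [fac_eq_iff]
      intro k hk
      exact (eq_of x j i n (by rw [hi, hj]) he) k (by omega)
    have him : Dl '' G a = F := by
      apply Set.Subset.antisymm
      · rintro _ ⟨_, ⟨i, rfl, hP, _⟩, rfl⟩
        rw [Dl_fac]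
        exact ⟨i, rfl, (h i).mp hP⟩
      · rintro _ ⟨i, rfl, hP⟩
        by_cases hi : x i = a
        · exact ⟨fac x i (n + 1), ⟨i, rfl, (h i).mpr hP, hi⟩, Dl_fac x i n⟩
        · obtain ⟨j, hj⟩ := hc i (n + 1)
          have hS : fac (S x) j n = fac (S x) i n := by
            rw [fac_eq_iff]
            intro k hk
            unfold S
            have e1 := hj k (by omega)
            have e2 := hj (k + 1) (by omega)
            rw [← Nat.add_assoc, ← Nat.add_assoc] at e2
            rw [e1, e2]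
            cases x (i + k) <;> cases x (i + k + 1) <;> rfl
          refine ⟨fac x j (n + 1), ⟨j, rfl, ?_, ?_⟩, ?_⟩
          · rw [h j, hS]; exact hP
          · have e1 := hj 0 (by omega)
            simp only [Nat.add_zero] at e1
            rw [e1]
            cases h1 : x i <;> cases a <;> simp_all
          · rw [Dl_fac, hS]
    rw [← him, hinj.ncard_image]
  have hun : {w | ∃ i, w = fac x i (n + 1) ∧ P w} = G false ∪ G true := by
    ext w
    constructor
    · rintro ⟨i, rfl, hP⟩
      cases hi : x i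
      · left; exact ⟨i, rfl, hP, hi⟩
      · right; exact ⟨i, rfl, hP, hi⟩
    · rintro (⟨i, rfl, hP, _⟩ | ⟨i, rfl, hP, _⟩) <;> exact ⟨i, rfl, hP⟩
  rw [hun, Set.ncard_union_eq _ (hGf _) (hGf _), hGF, hGF]
  · ring
  · rw [Set.disjoint_left]
    rintro w ⟨i, rfl, _, hi⟩ ⟨j, he, _, hj⟩
    rw [fac_eq_iff] at he
    have := he 0 (by omega)
    simp only [Nat.add_zero] at this
    rw [hi, hj] at this
    exact Bool.noConfusion this

/-! ### Palindromes and `E`-palindromes -/

theorem E_fac_iff (x : ℕ → Bool) (i n : ℕ) :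
    E (fac x i n) = fac x i n ↔ ∀ k < n, x (i + k) = !(x (i + (n - 1 - k))) := by
  have hm : (fac x i n).map not = fac (fun k => !(x k)) i n := by
    simp [fac, List.map_map, Function.comp_def]
  unfold E
  rw [hm]
  constructor
  · intro h k hk
    have := congrArg (fun l => l[k]?) h
    rw [List.getElem?_reverse (by simpa using hk), fac_length, fac_get _ _ _ _ (by omega),
      fac_get _ _ _ _ hk, Option.some.injEq] at this
    exact this.symm
  · intro h
    apply List.ext_getElem?
    intro k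
    by_cases hk : k < n
    · rw [List.getElem?_reverse (by simpa using hk), fac_length, fac_get _ _ _ _ (by omega),
        fac_get _ _ _ _ hk, h k hk]
    · rw [List.getElem?_eq_none (by simp; omega), List.getElem?_eq_none (by simp; omega)]

theorem e_const (x : ℕ → Bool) (i n : ℕ) (h : (fac (S x) i n).reverse = fac (S x) i n) :
    ∀ k, k ≤ n → xor (x (i + k)) (x (i + (n - k))) = xor (x i) (x (i + n)) := by
  rw [fac_pal_iff] at h
  intro k
  induction k with
  | zero => intro _; simp
  | succ k ih =>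
    intro hk
    rw [← ih (by omega)]
    have h1 := h k (by omega)
    have h2 := S_next x (i + k)
    have h3 := S_next x (i + (n - 1 - k))
    rw [show i + (n - 1 - k) + 1 = i + (n - k) by omega] at h3
    rw [show i + (k + 1) = i + k + 1 by omega, show n - (k + 1) = n - 1 - k by omega, h2, h3, h1]
    cases x (i + k) <;> cases x (i + (n - 1 - k)) <;> cases S x (i + (n - 1 - k)) <;> rfl

theorem S_pal_of (x : ℕ → Bool) (i n : ℕ) (b : Bool)
    (h : ∀ k, k ≤ n → xor (x (i + k)) (x (i + (n - k))) = b) :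
    (fac (S x) i n).reverse = fac (S x) i n := by
  rw [fac_pal_iff]
  intro k hk
  have h1 := h k (by omega)
  have h2 := h (k + 1) (by omega)
  have h3 := S_next x (i + k)
  have h4 := S_next x (i + (n - 1 - k))
  rw [show i + (n - 1 - k) + 1 = i + (n - k) by omega] at h4
  rw [show i + (k + 1) = i + k + 1 by omega, show n - (k + 1) = n - 1 - k by omega] at h2
  rw [h3] at h2
  rw [h4] at h1
  rw [← h2] at h1
  revert h1
  cases x (i + k) <;> cases x (i + (n - 1 - k)) <;> cases S x (i + (n - 1 - k)) <;>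
    cases S x (i + k) <;> simp

theorem pal_odd_iff (x : ℕ → Bool) (i m : ℕ) :
    (fac x i (2 * m + 1)).reverse = fac x i (2 * m + 1) ↔
      (fac (S x) i (2 * m)).reverse = fac (S x) i (2 * m) := by
  constructor
  · intro h
    apply S_pal_of x i (2 * m) false
    intro k hk
    rw [fac_pal_iff] at h
    rw [h k (by omega), show 2 * m + 1 - 1 - k = 2 * m - k by omega]
    cases x (i + (2 * m - k)) <;> rfl
  · intro h
    have hc := e_const x i (2 * m) h
    have h0 := hc m (by omega)
    rw [show 2 * m - m = m by omega, Bool.xor_self] at h0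
    rw [fac_pal_iff]
    intro k hk
    have h1 := hc k (by omega)
    rw [← h0] at h1
    rw [show 2 * m + 1 - 1 - k = 2 * m - k by omega]
    revert h1
    cases x (i + k) <;> cases x (i + (2 * m - k)) <;> simp

theorem pal_even_iff (x : ℕ → Bool) (i m : ℕ) :
    (fac x i (2 * m + 2)).reverse = fac x i (2 * m + 2) ↔
      (fac (S x) i (2 * m + 1)).reverse = fac (S x) i (2 * m + 1) ∧ S x (i + m) = false := by
  constructor
  · intro h
    have hk : ∀ k, k ≤ 2 * m + 1 → xor (x (i + k)) (x (i + (2 * m + 1 - k))) = false := by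
      intro k hk
      rw [fac_pal_iff] at h
      rw [h k (by omega), show 2 * m + 2 - 1 - k = 2 * m + 1 - k by omega]
      cases x (i + (2 * m + 1 - k)) <;> rfl
    refine ⟨S_pal_of x i (2 * m + 1) false hk, ?_⟩
    have := hk m (by omega)
    rw [show i + (2 * m + 1 - m) = i + m + 1 by omega] at this
    exact this
  · rintro ⟨h, hS⟩
    have hc := e_const x i (2 * m + 1) h
    have h0 := hc m (by omega)
    rw [show i + (2 * m + 1 - m) = i + m + 1 by omega] at h0
    unfold S at hS
    rw [hS] at h0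
    rw [fac_pal_iff]
    intro k hk
    have h1 := hc k (by omega)
    rw [← h0] at h1
    rw [show 2 * m + 2 - 1 - k = 2 * m + 1 - k by omega]
    revert h1
    cases x (i + k) <;> cases x (i + (2 * m + 1 - k)) <;> simp

theorem epal_even_iff (x : ℕ → Bool) (i m : ℕ) :
    E (fac x i (2 * m + 2)) = fac x i (2 * m + 2) ↔
      (fac (S x) i (2 * m + 1)).reverse = fac (S x) i (2 * m + 1) ∧ S x (i + m) = true := by
  constructor
  · intro h
    have hk : ∀ k, k ≤ 2 * m + 1 → xor (x (i + k)) (x (i + (2 * m + 1 - k))) = true := by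
      intro k hk
      rw [E_fac_iff] at h
      rw [h k (by omega), show 2 * m + 2 - 1 - k = 2 * m + 1 - k by omega]
      cases x (i + (2 * m + 1 - k)) <;> rfl
    refine ⟨S_pal_of x i (2 * m + 1) true hk, ?_⟩
    have := hk m (by omega)
    rw [show i + (2 * m + 1 - m) = i + m + 1 by omega] at this
    exact this
  · rintro ⟨h, hS⟩
    have hc := e_const x i (2 * m + 1) h
    have h0 := hc m (by omega)
    rw [show i + (2 * m + 1 - m) = i + m + 1 by omega] at h0
    unfold S at hS
    rw [hS] at h0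
    rw [E_fac_iff]
    intro k hk
    have h1 := hc k (by omega)
    rw [← h0] at h1
    rw [show 2 * m + 2 - 1 - k = 2 * m + 1 - k by omega]
    revert h1
    cases x (i + k) <;> cases x (i + (2 * m + 1 - k)) <;> simp

theorem epal_odd (x : ℕ → Bool) (i m : ℕ) : ¬ E (fac x i (2 * m + 1)) = fac x i (2 * m + 1) := by
  rw [E_fac_iff]
  intro h
  have := h m (by omega)
  rw [show 2 * m + 1 - 1 - m = m by omega] at this
  revert this
  cases x (i + m) <;> simp

/-- The number of palindromic factors of length `2m+1` with centre `c`. -/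
noncomputable def PC (y : ℕ → Bool) (m : ℕ) (c : Bool) : ℕ :=
  cnt y (2 * m + 1) fun w => w.reverse = w ∧ w[m]? = some c

theorem centre (y : ℕ → Bool) (i m : ℕ) (c : Bool) :
    (fac y i (2 * m + 1))[m]? = some c ↔ y (i + m) = c := by
  rw [fac_get y i _ m (by omega), Option.some.injEq]

theorem C_succ {x : ℕ → Bool} (hc : CompClosed x) (n : ℕ) : Cx x (n + 1) = 2 * Cx (S x) n := by
  have h := count2 x n hc (fun _ => True) (fun _ => True) (fun _ => Iff.rfl)
  unfold cnt at h
  simp only [and_true] at h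
  exact h

theorem P_odd {x : ℕ → Bool} (hc : CompClosed x) (m : ℕ) :
    Px x (2 * m + 1) = 2 * Px (S x) (2 * m) :=
  count2 x (2 * m) hc (fun w => w.reverse = w) (fun w => w.reverse = w)
    (fun i => pal_odd_iff x i m)

theorem P_even {x : ℕ → Bool} (hc : CompClosed x) (m : ℕ) :
    Px x (2 * m + 2) = 2 * PC (S x) m false :=
  count2 x (2 * m + 1) hc (fun w => w.reverse = w) (fun w => w.reverse = w ∧ w[m]? = some false)
    (fun i => by rw [centre]; exact pal_even_iff x i m)

theorem PE_even {x : ℕ → Bool} (hc : CompClosed x) (m : ℕ) :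
    PE x (2 * m + 2) = 2 * PC (S x) m true :=
  count2 x (2 * m + 1) hc (fun w => E w = w) (fun w => w.reverse = w ∧ w[m]? = some true)
    (fun i => by rw [centre]; exact epal_even_iff x i m)

theorem PE_odd (x : ℕ → Bool) (m : ℕ) : PE x (2 * m + 1) = 0 :=
  cnt_zero x (2 * m + 1) (fun w => E w = w) (fun i => epal_odd x i m)

theorem PC_add (y : ℕ → Bool) (m : ℕ) : Px y (2 * m + 1) = PC y m false + PC y m true := by
  refine cnt_add y (2 * m + 1) (fun w => w.reverse = w) _ _ (fun i => ?_) (fun i => ?_)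
  · constructor
    · intro h
      cases hi : y (i + m)
      · left; exact ⟨h, (centre y i m _).mpr hi⟩
      · right; exact ⟨h, (centre y i m _).mpr hi⟩
    · rintro (h | h) <;> exact h.1
  · rintro ⟨⟨_, h1⟩, ⟨_, h2⟩⟩
    rw [h1] at h2
    simp at h2

theorem comp_fac {y : ℕ → Bool} {i j n : ℕ} (h : ∀ k, k < n → y (j + k) = !(y (i + k))) :
    fac y j n = (fac y i n).map not := by
  unfold fac
  rw [List.map_map]
  apply List.map_congr_left
  intro k hk
  rw [List.mem_range] at hk
  exact h k hk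

theorem PC_comp {y : ℕ → Bool} (hc : CompClosed y) (m : ℕ) : PC y m false = PC y m true := by
  have hle : ∀ c, PC y m c ≤ PC y m (!c) := by
    intro c
    unfold PC cnt
    rw [cnt_set, cnt_set]
    have hinj : Function.Injective (List.map not) := List.map_injective_iff.mpr Bool.not_injective
    rw [← Set.ncard_image_of_injective _ hinj]
    apply Set.ncard_le_ncard
    · rintro _ ⟨_, ⟨i, rfl, hp, hm⟩, rfl⟩
      obtain ⟨j, hj⟩ := hc i (2 * m + 1)
      refine ⟨j, (comp_fac hj).symm, ?_, ?_⟩
      · rw [← List.map_reverse, hp]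
      · rw [List.getElem?_map, hm]; rfl
    · apply (fin_range y (2 * m + 1)).subset
      rintro w ⟨i, rfl, hP⟩
      exact ⟨i, rfl⟩
  exact le_antisymm (hle false) (hle true)

theorem Cx_zero (x : ℕ → Bool) : Cx x 0 = 1 := by
  rw [Cx_eq, Set.ncard_eq_one]
  refine ⟨[], ?_⟩
  ext w
  simp [fac]

theorem Px_zero (x : ℕ → Bool) : Px x 0 = 1 := by
  refine cnt_one x 0 (fun w => w.reverse = w) ⟨0, by simp [fac]⟩ (fun i j _ _ => by simp [fac])

theorem Px_sturm {u : ℕ → Bool} (hu : Sturmian u) (m : ℕ) : Px u (2 * m) = 1 := by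
  obtain ⟨⟨i, hi, _⟩, h2⟩ := pal_even hu m
  exact cnt_one u (2 * m) (fun w => w.reverse = w) ⟨i, hi⟩
    (fun i j hi hj => h2 i j hi trivial hj trivial)

theorem PC_sturm {u : ℕ → Bool} (hu : Sturmian u) (m : ℕ) (c : Bool) : PC u m c = 1 := by
  obtain ⟨⟨i, hi, hi'⟩, h2⟩ := pal_odd hu c m
  refine cnt_one u (2 * m + 1) (fun w => w.reverse = w ∧ w[m]? = some c)
    ⟨i, hi, (centre u i m c).mpr hi'⟩ (fun i j hi hj => ?_)
  exact h2 i j hi.1 ((centre u i m c).mp hi.2) hj.1 ((centre u j m c).mp hj.2)

/-! ### Closure under reversal -/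

theorem rev_pos {x : ℕ → Bool} (hc : CompClosed x)
    (hr : ∀ n i, ∃ j, fac (S x) j n = (fac (S x) i n).reverse) :
    ∀ n i, ∃ j, fac x j n = (fac x i n).reverse := by
  intro n i
  rcases n with _ | n
  · exact ⟨0, by simp [fac]⟩
  · obtain ⟨j, hj⟩ := hr n i
    rw [fac_eq_reverse_iff] at hj
    have key : ∀ k, k ≤ n → xor (x (j + k)) (x (i + (n - k))) = xor (x j) (x (i + n)) := by
      intro k
      induction k with
      | zero => intro _; simp
      | succ k ih =>
        intro hk
        rw [← ih (by omega)]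
        have h1 := hj k (by omega)
        have h2 := S_next x (j + k)
        have h3 := S_next x (i + (n - 1 - k))
        rw [show i + (n - 1 - k) + 1 = i + (n - k) by omega] at h3
        rw [show j + (k + 1) = j + k + 1 by omega, show n - (k + 1) = n - 1 - k by omega, h2, h3,
          h1]
        cases x (j + k) <;> cases x (i + (n - 1 - k)) <;> cases S x (i + (n - 1 - k)) <;> rfl
    cases hb : xor (x j) (x (i + n))
    · refine ⟨j, ?_⟩
      rw [fac_eq_reverse_iff]
      intro k hk
      have := key k (by omega)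
      rw [hb] at this
      rw [show n + 1 - 1 - k = n - k by omega]
      revert this
      cases x (j + k) <;> cases x (i + (n - k)) <;> simp
    · obtain ⟨j', hj'⟩ := hc j (n + 1)
      refine ⟨j', ?_⟩
      rw [fac_eq_reverse_iff]
      intro k hk
      have := key k (by omega)
      rw [hb] at this
      rw [show n + 1 - 1 - k = n - k by omega, hj' k hk]
      revert this
      cases x (j + k) <;> cases x (i + (n - k)) <;> simp

theorem rev_closed {x : ℕ → Bool} (hr : ∀ n i, ∃ j, fac x j n = (fac x i n).reverse) :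
    ClosedUnderReversal x := by
  rintro w ⟨i, hi⟩
  obtain ⟨j, hj⟩ := hr w.length i
  refine ⟨j, ?_⟩
  rw [List.length_reverse, hj, ← hi]

theorem E_closed {x : ℕ → Bool} (hc : CompClosed x)
    (hr : ∀ n i, ∃ j, fac x j n = (fac x i n).reverse) : ∀ w ∈ Lang x, E w ∈ Lang x := by
  rintro w ⟨i, hi⟩
  obtain ⟨j, hj⟩ := hc i w.length
  obtain ⟨k, hk⟩ := hr w.length j
  refine ⟨k, ?_⟩
  unfold E
  rw [List.length_reverse, List.length_map, hk, comp_fac hj, ← hi]

end Pool.Agent.R285.Sturm
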