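import Mathlib
import Pool.Agent.R285.SturmC

/-!
# Rich words: counting palindromic factors
-/

set_option autoImplicit false

namespace Pool.Agent.R285.Sturm

open Pool.Agent.R124.PalT

/-- The palindromic factors of a finite word (the empty word included). -/
def Pals (w : List Bool) : Set (List Bool) := {v | v <:+: w ∧ v.reverse = v}

theorem pals_finite (w : List Bool) : (Pals w).Finite :=
  (List.finite_length_le Bool w.length).subset fun _ h => h.1.length_le

theorem pal_prefix_infix {a : Bool} {w v1 v2 : List Bool} (h1 : v1 <+: a :: w) (h2 : v2 <+: a :: w)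
    (p1 : v1.reverse = v1) (p2 : v2.reverse = v2) (hlt : v1.length < v2.length) : v1 <:+: w := by
  have h3 : v1 <+: v2 := List.prefix_of_prefix_length_le h1 h2 hlt.le
  have h4 : v1 <:+ v2 := by
    have := List.reverse_suffix.mpr h3
    rwa [p1, p2] at this
  cases v2 with
  | nil => simp at hlt
  | cons c t =>
    rw [List.suffix_cons_iff] at h4
    rcases h4 with h4 | h4
    · rw [h4] at hlt
      exact absurd hlt (lt_irrefl _)
    · rw [List.cons_prefix_cons] at h2
      exact h4.isInfix.trans h2.2.isInfix

theorem pals_cons_le (a : Bool) (w : List Bool) : (Pals (a :: w)).ncard ≤ (Pals w).ncard + 1 := by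
  set N : Set (List Bool) := {v | v <+: a :: w ∧ v.reverse = v ∧ ¬ v <:+: w} with hN
  have hsub : Pals (a :: w) ⊆ Pals w ∪ N := by
    rintro v ⟨h1, h2⟩
    by_cases h : v <:+: w
    · left; exact ⟨h, h2⟩
    · right
      rw [List.infix_cons_iff] at h1
      rcases h1 with h1 | h1
      · exact ⟨h1, h2, h⟩
      · exact absurd h1 h
  have hNs : N.Subsingleton := by
    rintro v ⟨h1, h2, h3⟩ v' ⟨h1', h2', h3'⟩
    rcases lt_trichotomy v.length v'.length with h | h | h
    · exact absurd (pal_prefix_infix h1 h1' h2 h2' h) h3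
    · exact (List.prefix_of_prefix_length_le h1 h1' h.le).eq_of_length h
    · exact absurd (pal_prefix_infix h1' h1 h2' h2 h) h3'
  have hN1 : N.ncard ≤ 1 := by
    rw [Set.ncard_le_one hNs.finite]
    exact fun a ha b hb => hNs ha hb
  calc (Pals (a :: w)).ncard ≤ (Pals w ∪ N).ncard :=
        Set.ncard_le_ncard hsub ((pals_finite w).union hNs.finite)
    _ ≤ (Pals w).ncard + N.ncard := Set.ncard_union_le _ _
    _ ≤ (Pals w).ncard + 1 := by omega

theorem pals_append_le (p w : List Bool) :
    (Pals (p ++ w)).ncard ≤ (Pals w).ncard + p.length := by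
  induction p with
  | nil => simp
  | cons a p ih =>
    have := pals_cons_le a (p ++ w)
    rw [List.cons_append, List.length_cons]
    omega

theorem pals_le (w : List Bool) : (Pals w).ncard ≤ w.length + 1 := by
  have h := pals_append_le w []
  have h0 : (Pals []).ncard = 1 := by
    rw [Set.ncard_eq_one]
    refine ⟨[], ?_⟩
    ext v
    simp only [Pals, Set.mem_ofPred_eq, List.infix_nil, Set.mem_singleton_iff]
    constructor
    · exact fun h => h.1
    · rintro rfl; simp
  rw [List.append_nil, h0] at h
  omega

theorem fac_add (x : ℕ → Bool) (i a b : ℕ) : fac x i (a + b) = fac x i a ++ fac x (i + a) b := by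
  unfold fac
  rw [List.range_add, List.map_append, List.map_map]
  congr 1
  apply List.map_congr_left
  intro k _
  simp [Nat.add_assoc]

theorem infix_fac_iff (x : ℕ → Bool) (i n : ℕ) (v : List Bool) :
    v <:+: fac x i n ↔ ∃ t, t + v.length ≤ n ∧ v = fac x (i + t) v.length := by
  constructor
  · rintro ⟨s, t, h⟩
    have hl := congrArg List.length h
    simp only [List.length_append, fac_length] at hl
    refine ⟨s.length, by omega, ?_⟩
    apply List.ext_getElem?
    intro k
    by_cases hk : k < v.length
    · rw [fac_get _ _ _ _ hk]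
      have h2 := congrArg (fun l => l[s.length + k]?) h
      rw [fac_get _ _ _ _ (by omega), List.getElem?_append_left (by simp; omega),
        List.getElem?_append_right (by omega)] at h2
      rw [show s.length + k - s.length = k by omega] at h2
      rw [h2, Nat.add_assoc]
    · rw [List.getElem?_eq_none (by omega), List.getElem?_eq_none (by simp; omega)]
  · rintro ⟨t, ht, hv⟩
    refine ⟨fac x i t, fac x (i + t + v.length) (n - t - v.length), ?_⟩
    rw [hv, fac_length, ← fac_add, Nat.add_assoc, ← fac_add]
    congr 1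
    omega

theorem pals_grow (x : ℕ → Bool) (m : ℕ) (h : Uni x (m + 1)) :
    (Pals (fac x 0 m)).ncard + 1 ≤ (Pals (fac x 0 (m + 1))).ncard := by
  obtain ⟨s, hs, hp, hu⟩ := h
  have hsub : Pals (fac x 0 m) ⊆ Pals (fac x 0 (m + 1)) := by
    rintro v ⟨h1, h2⟩
    refine ⟨h1.trans ?_, h2⟩
    rw [fac_succ]
    exact (List.prefix_append _ _).isInfix
  have hmem : fac x s (m + 1 - s) ∈ Pals (fac x 0 (m + 1)) := by
    refine ⟨?_, ?_⟩
    · rw [infix_fac_iff]
      refine ⟨s, by rw [fac_length]; omega, by rw [fac_length, Nat.zero_add]⟩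
    · rw [← palSeg_iff, show s + (m + 1 - s) = m + 1 by omega]
      exact hp
  have hnm : fac x s (m + 1 - s) ∉ Pals (fac x 0 m) := by
    rintro ⟨h1, _⟩
    rw [infix_fac_iff] at h1
    obtain ⟨t, ht, he⟩ := h1
    rw [fac_length] at ht he
    rw [Nat.zero_add, fac_eq_iff] at he
    obtain ⟨k, hk, hk'⟩ := hu t (by omega)
    exact hk' (he k hk).symm
  have h1 : (insert (fac x s (m + 1 - s)) (Pals (fac x 0 m))).ncard = (Pals (fac x 0 m)).ncard + 1 :=
    Set.ncard_insert_of_notMem hnm (pals_finite _)
  rw [← h1]
  exact Set.ncard_le_ncard (Set.insert_subset hmem hsub) (pals_finite _)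

/-- Rich: every factor of length `n` contains exactly `n + 1` palindromes. -/
def RRich (x : ℕ → Bool) : Prop :=
  ∀ w ∈ Lang x, Set.ncard {v : List Bool | v <:+: w ∧ v.reverse = v} = w.length + 1

theorem rich_of_uni (x : ℕ → Bool) (h : ∀ m, 1 ≤ m → Uni x m) : RRich x := by
  have h1 : ∀ m, m + 1 ≤ (Pals (fac x 0 m)).ncard := by
    intro m
    induction m with
    | zero =>
      have : ([] : List Bool) ∈ Pals (fac x 0 0) := ⟨by simp, rfl⟩
      have h2 : 0 < (Pals (fac x 0 0)).ncard := (Set.ncard_pos (pals_finite _)).mpr ⟨_, this⟩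
      omega
    | succ m ih =>
      have := pals_grow x m (h (m + 1) (by omega))
      omega
  rintro w ⟨i, hi⟩
  have h2 := h1 (i + w.length)
  rw [fac_add, Nat.zero_add, ← hi] at h2
  have h3 := pals_append_le (fac x 0 i) w
  rw [fac_length] at h3
  have h4 := pals_le w
  show (Pals w).ncard = w.length + 1
  omega

theorem uni_of_rich (x : ℕ → Bool) (h : RRich x) : ∀ m, 1 ≤ m → Uni x m := by
  intro m hm
  have h1 : (Pals (fac x 0 m)).ncard = m + 1 := by
    have := h _ (fac_mem x 0 m)
    rw [fac_length] at this
    exact this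
  have h2 : (Pals (fac x 0 (m - 1))).ncard = m := by
    have := h _ (fac_mem x 0 (m - 1))
    rw [fac_length, show m - 1 + 1 = m by omega] at this
    exact this
  obtain ⟨v, hv, hv'⟩ : ∃ v, v ∈ Pals (fac x 0 m) ∧ v ∉ Pals (fac x 0 (m - 1)) := by
    by_contra hcon
    push Not at hcon
    have := Set.ncard_le_ncard hcon (pals_finite _)
    omega
  obtain ⟨hv1, hv2⟩ := hv
  rw [infix_fac_iff] at hv1
  obtain ⟨t, ht, he⟩ := hv1
  rw [Nat.zero_add] at he
  have hni : ∀ t', t' + v.length ≤ m - 1 → v ≠ fac x t' v.length := by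
    intro t' ht' he'
    apply hv'
    refine ⟨?_, hv2⟩
    rw [infix_fac_iff]
    exact ⟨t', ht', by rw [Nat.zero_add]; exact he'⟩
  have htm : t + v.length = m := by
    by_contra hc
    exact hni t (by omega) he
  have hl : 0 < v.length := by
    rcases Nat.eq_zero_or_pos v.length with h0 | h0
    · exfalso
      apply hni 0 (by omega)
      rw [List.length_eq_zero_iff] at h0
      subst h0
      simp [fac]
    · exact h0
  refine ⟨t, by omega, ?_, ?_⟩
  · rw [← htm, palSeg_iff, ← he]
    exact hv2
  · intro t' ht'
    by_contra hc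
    push Not at hc
    apply hni t' (by omega)
    conv_lhs => rw [he]
    rw [fac_eq_iff]
    intro k hk
    exact (hc k (by omega)).symm

theorem new_forward (u : ℕ → Bool) (n i : ℕ) (h : i + 1 ∈ New u n) :
    i ∈ New u (n + 1) ∧ ¬ (fac u i (n + 1)).reverse = fac u i (n + 1) := by
  constructor
  · intro j hj
    constructor
    · intro he
      exact (h (j + 1) (by omega)).1 (fac_tail he)
    · intro he
      rw [fac_eq_reverse_iff] at he
      refine (h j (by omega)).2 ?_
      rw [fac_eq_reverse_iff]
      intro x hx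
      rw [he x (by omega)]
      congr 1
      omega
  · intro hp
    rw [fac_pal_iff] at hp
    refine (h i (by omega)).2 ?_
    rw [fac_eq_reverse_iff]
    intro x hx
    rw [hp x (by omega)]
    congr 1
    omega

theorem new_backward (u : ℕ → Bool) (hrev : ClosedUnderReversal u) (n : ℕ) (hT : T u n = 0)
    (i : ℕ) (h1 : i ∈ New u (n + 1)) (h2 : ¬ (fac u i (n + 1)).reverse = fac u i (n + 1)) :
    i + 1 ∈ New u n := by
  have e1 := count_classes u hrev n
  have e2 := count_classes u hrev (n + 1)
  have e3 := count_pal u (n + 1)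
  set D := New u (n + 1) \ {i | i ∈ New u (n + 1) ∧ (fac u i (n + 1)).reverse = fac u i (n + 1)}
    with hD
  have h0 : New u n ⊆ {0} ∪ Nat.succ '' D := by
    rintro (_ | i) hi
    · left; rfl
    · right
      have := new_forward u n i hi
      exact ⟨i, ⟨this.1, fun h => this.2 h.2⟩, rfl⟩
  have hfin := new_finite u (n + 1)
  have hDfin : D.Finite := hfin.subset Set.sdiff_subset
  have hsub : {i | i ∈ New u (n + 1) ∧ (fac u i (n + 1)).reverse = fac u i (n + 1)} ⊆
      New u (n + 1) := fun i hi => hi.1
  have hDc : D.ncard + Px u (n + 1) = (New u (n + 1)).ncard := by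
    rw [← e3]
    exact Set.ncard_sdiff_add_ncard_of_subset hsub hfin
  have hc : ({0} ∪ Nat.succ '' D).ncard ≤ (New u n).ncard := by
    have h1 := Set.ncard_union_le {0} (Nat.succ '' D)
    rw [Set.ncard_singleton, Set.ncard_image_of_injective _ Nat.succ_injective] at h1
    unfold T at hT
    omega
  have heq := Set.eq_of_subset_of_ncard_le h0 hc ((Set.finite_singleton _).union (hDfin.image _))
  rw [heq]
  right
  exact ⟨i, ⟨h1, fun h => h2 h.2⟩, rfl⟩

theorem uni_of_T (x : ℕ → Bool) (hrev : ClosedUnderReversal x) (hT : ∀ n, T x n = 0) (m : ℕ)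
    (hm : 1 ≤ m) : Uni x m := by
  have key : ∀ i, i ≤ m → (∃ s, s < i ∧ s ∈ New x (m - s) ∧
      (fac x s (m - s)).reverse = fac x s (m - s)) ∨ i ∈ New x (m - i) := by
    intro i
    induction i with
    | zero =>
      intro _
      right
      intro j hj
      omega
    | succ i ih =>
      intro hi
      rcases ih (by omega) with ⟨s, hs, h⟩ | h
      · left; exact ⟨s, by omega, h⟩
      · by_cases hp : (fac x i (m - i)).reverse = fac x i (m - i)
        · left; exact ⟨i, by omega, h, hp⟩
        · right
          apply new_backward x hrev (m - (i + 1)) (hT _)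
          · rw [show m - (i + 1) + 1 = m - i by omega]; exact h
          · rw [show m - (i + 1) + 1 = m - i by omega]; exact hp
  rcases key m le_rfl with ⟨s, hs, h1, h2⟩ | h
  · refine ⟨s, hs, ?_, ?_⟩
    · rw [show m = s + (m - s) by omega, palSeg_iff]
      exact h2
    · intro t ht
      have := (h1 t ht).1
      by_contra hc
      push Not at hc
      apply this
      rw [fac_eq_iff]
      exact hc
  · exfalso
    have := (h 0 (by omega)).1
    apply this
    simp [fac]

end Pool.Agent.R285.Sturm
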