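import Mathlib
import Pool.Agent.R285.ExpDet
import Pool.Agent.TH809.TP.Basic

/-!
# Kernels `∑ e^{α_i x} C_{ij} e^{β_j y}` with a totally nonnegative matrix `C`
-/

set_option autoImplicit false

namespace Pool.Agent.R285.TNExt

open Matrix Pool.Agent.R285.ExpDet Pool.Agent.TH809.TP

/-- totally nonnegative matrices -/
def TNmat {p q : ℕ} (C : Matrix (Fin p) (Fin q) ℝ) : Prop :=
  ∀ (n : ℕ) (f : Fin n → Fin p) (g : Fin n → Fin q), StrictMono f → StrictMono g →
    0 ≤ (C.submatrix f g).det

/-- extension by a corner entry -/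
def ext {p q : ℕ} (C : Matrix (Fin p) (Fin q) ℝ) (δ : ℝ) :
    Matrix (Fin (p + 1)) (Fin (q + 1)) ℝ :=
  Matrix.of fun i j => Fin.lastCases (motive := fun _ => ℝ)
    (Fin.lastCases (motive := fun _ => ℝ) δ (fun _ => 0) j)
    (fun i' => Fin.lastCases (motive := fun _ => ℝ) 0 (fun j' => C i' j') j) i

variable {p q : ℕ} (C : Matrix (Fin p) (Fin q) ℝ) (δ : ℝ)

@[simp] lemma ext_last_last : ext C δ (Fin.last p) (Fin.last q) = δ := by simp [ext]
@[simp] lemma ext_last_cast (j : Fin q) : ext C δ (Fin.last p) j.castSucc = 0 := by simp [ext]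
@[simp] lemma ext_cast_last (i : Fin p) : ext C δ i.castSucc (Fin.last q) = 0 := by simp [ext]
@[simp] lemma ext_cast_cast (i : Fin p) (j : Fin q) :
    ext C δ i.castSucc j.castSucc = C i j := by simp [ext]

lemma strictMono_lt_last {n p : ℕ} {f : Fin (n + 1) → Fin (p + 1)} (hf : StrictMono f)
    (h : f (Fin.last n) ≠ Fin.last p) (i : Fin (n + 1)) : f i ≠ Fin.last p := by
  intro hi
  have h1 : f i ≤ f (Fin.last n) := hf.monotone (Fin.le_last i)
  rw [hi] at h1
  exact h (le_antisymm (Fin.le_last _) h1)

lemma exists_castSucc {n p : ℕ} {f : Fin n → Fin (p + 1)} (hf : StrictMono f)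
    (h : ∀ i, f i ≠ Fin.last p) :
    ∃ f' : Fin n → Fin p, StrictMono f' ∧ ∀ i, f i = (f' i).castSucc := by
  refine ⟨fun i => (f i).castPred (h i), ?_, fun i => by simp⟩
  intro i j hij
  exact hf hij

lemma TNmat.ext' {C : Matrix (Fin p) (Fin q) ℝ} (hC : TNmat C) {δ : ℝ} (hδ : 0 ≤ δ) :
    TNmat (ext C δ) := by
  intro n f g hf hg
  cases n with
  | zero => simp
  | succ n =>
    by_cases h1 : f (Fin.last n) = Fin.last p
    · by_cases h2 : g (Fin.last n) = Fin.last q
      · -- both use the corner
        have hf1 : ∀ i : Fin n, f i.castSucc ≠ Fin.last p := by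
          intro i hi
          have := hf (Fin.castSucc_lt_last i)
          rw [hi, h1] at this
          exact lt_irrefl _ this
        have hg1 : ∀ i : Fin n, g i.castSucc ≠ Fin.last q := by
          intro i hi
          have := hg (Fin.castSucc_lt_last i)
          rw [hi, h2] at this
          exact lt_irrefl _ this
        obtain ⟨f', hf', hff⟩ := exists_castSucc (f := fun i : Fin n => f i.castSucc)
          (fun i j hij => hf (Fin.castSucc_lt_castSucc_iff.2 hij)) hf1
        obtain ⟨g', hg', hgg⟩ := exists_castSucc (f := fun i : Fin n => g i.castSucc)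
          (fun i j hij => hg (Fin.castSucc_lt_castSucc_iff.2 hij)) hg1
        rw [Matrix.det_succ_row _ (Fin.last n), Fin.sum_univ_castSucc]
        have hz : ∑ j : Fin n, (-1) ^ (((Fin.last n : Fin (n + 1)) : ℕ) + (j.castSucc : ℕ)) *
            ((ext C δ).submatrix f g) (Fin.last n) j.castSucc *
            (((ext C δ).submatrix f g).submatrix (Fin.last n).succAbove
              j.castSucc.succAbove).det = 0 := by
          refine Finset.sum_eq_zero fun j _ => ?_
          rw [Matrix.submatrix_apply, h1, hgg j, ext_last_cast]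
          ring
        rw [hz, zero_add, Matrix.submatrix_apply, h1, h2, ext_last_last]
        have hsub : ((ext C δ).submatrix f g).submatrix (Fin.last n).succAbove
            (Fin.last n).succAbove = C.submatrix f' g' := by
          ext i j
          simp only [Matrix.submatrix_apply, Fin.succAbove_last]
          rw [hff i, hgg j, ext_cast_cast]
        rw [hsub, ← two_mul, pow_mul]
        have := hC n f' g' hf' hg'
        positivity
      · -- the last row vanishes
        have h3 := strictMono_lt_last hg h2
        have : ((ext C δ).submatrix f g).det = 0 := by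
          refine Matrix.det_eq_zero_of_row_eq_zero (Fin.last n) fun j => ?_
          rw [Matrix.submatrix_apply, h1]
          obtain ⟨g', _, hgg⟩ := exists_castSucc hg h3
          rw [hgg j, ext_last_cast]
        rw [this]
    · have h3 := strictMono_lt_last hf h1
      obtain ⟨f', hf', hff⟩ := exists_castSucc hf h3
      by_cases h2 : g (Fin.last n) = Fin.last q
      · have : ((ext C δ).submatrix f g).det = 0 := by
          refine Matrix.det_eq_zero_of_column_eq_zero (Fin.last n) fun i => ?_
          rw [Matrix.submatrix_apply, h2, hff i, ext_cast_last]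
        rw [this]
      · obtain ⟨g', hg', hgg⟩ := exists_castSucc hg (strictMono_lt_last hg h2)
        have : (ext C δ).submatrix f g = C.submatrix f' g' := by
          ext i j
          rw [Matrix.submatrix_apply, Matrix.submatrix_apply, hff i, hgg j, ext_cast_cast]
        rw [this]
        exact hC _ f' g' hf' hg'

/-- repeated extension -/
def extM {p q : ℕ} (C : Matrix (Fin p) (Fin q) ℝ) (δ : ℕ → ℝ) :
    (M : ℕ) → Matrix (Fin (p + M)) (Fin (q + M)) ℝ
  | 0 => C
  | M + 1 => ext (extM C δ M) (δ M)

/-- the exponents -/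
def expo {p : ℕ} (α : Fin p → ℝ) (R : ℝ) : (M : ℕ) → Fin (p + M) → ℝ
  | 0 => α
  | M + 1 => Fin.snoc (α := fun _ => ℝ) (expo α R M) (R + M)

lemma TNmat.extM {C : Matrix (Fin p) (Fin q) ℝ} (hC : TNmat C) {δ : ℕ → ℝ} (hδ : ∀ k, 0 ≤ δ k)
    (M : ℕ) : TNmat (extM C δ M) := by
  induction M with
  | zero => exact hC
  | succ M ih => exact ih.ext' (hδ M)

lemma expo_lt {α : Fin p → ℝ} {R : ℝ} (hR : ∀ i, α i < R) (M : ℕ) (i : Fin (p + M)) :
    expo α R M i < R + M := by
  induction M with
  | zero => simpa [expo] using hR i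
  | succ M ih =>
    refine Fin.lastCases ?_ (fun j => ?_) i
    · rw [expo]
      simp
    · rw [expo, Fin.snoc_castSucc]
      have := ih j
      push_cast
      linarith

lemma expo_strictMono {α : Fin p → ℝ} {R : ℝ} (hα : StrictMono α) (hR : ∀ i, α i < R) (M : ℕ) :
    StrictMono (expo α R M) := by
  induction M with
  | zero => exact hα
  | succ M ih =>
    intro i j hij
    refine Fin.lastCases (motive := fun j => i < j → expo α R (M + 1) i < expo α R (M + 1) j)
      (fun h => ?_) (fun j' h => ?_) j hij
    · obtain ⟨i', rfl⟩ : ∃ i' : Fin (p + M), i = i'.castSucc :=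
        ⟨i.castPred (ne_of_lt h), by simp⟩
      rw [expo, Fin.snoc_castSucc, Fin.snoc_last]
      exact expo_lt hR M i'
    · have hne : i ≠ Fin.last (p + M) := ne_of_lt (h.trans (Fin.castSucc_lt_last j'))
      obtain ⟨i', rfl⟩ : ∃ i' : Fin (p + M), i = i'.castSucc :=
        ⟨i.castPred hne, (Fin.castSucc_castPred i hne).symm⟩
      rw [expo, Fin.snoc_castSucc, Fin.snoc_castSucc]
      exact ih (Fin.castSucc_lt_castSucc_iff.1 h)

lemma expo_last (α : Fin p → ℝ) (R : ℝ) (M : ℕ) :
    expo α R (M + 1) (Fin.last (p + M)) = R + M := by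
  rw [expo]
  simp

lemma expo_cast (α : Fin p → ℝ) (R : ℝ) (M : ℕ) (i : Fin (p + M)) :
    expo α R (M + 1) (Fin.castSucc i) = expo α R M i := by
  rw [expo, Fin.snoc_castSucc]

lemma expo_natAdd {α : Fin p → ℝ} {R : ℝ} (M : ℕ) (k : Fin M) :
    expo α R M (Fin.natAdd p k) = R + k := by
  induction M with
  | zero => exact k.elim0
  | succ M ih =>
    refine Fin.lastCases ?_ (fun j => ?_) k
    · rw [Fin.val_last]
      exact expo_last α R M
    · rw [Fin.val_castSucc]
      exact (expo_cast α R M (Fin.natAdd p j)).trans (ih j)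

lemma extM_natAdd (δ : ℕ → ℝ) (M : ℕ) (k l : Fin M) :
    extM C δ M (Fin.natAdd p k) (Fin.natAdd q l) = if k = l then δ k else 0 := by
  induction M with
  | zero => exact k.elim0
  | succ M ih =>
    refine Fin.lastCases ?_ (fun k' => ?_) k
    · refine Fin.lastCases ?_ (fun l' => ?_) l
      · rw [if_pos rfl, Fin.val_last]
        exact ext_last_last (extM C δ M) (δ M)
      · rw [if_neg (Fin.castSucc_lt_last l').ne']
        exact ext_last_cast (extM C δ M) (δ M) (Fin.natAdd q l')
    · refine Fin.lastCases ?_ (fun l' => ?_) l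
      · rw [if_neg (Fin.castSucc_lt_last k').ne]
        exact ext_cast_last (extM C δ M) (δ M) (Fin.natAdd p k')
      · have h : (k'.castSucc = l'.castSucc) ↔ k' = l' := Fin.castSucc_inj
        rw [if_congr h rfl rfl, Fin.val_castSucc]
        exact (ext_cast_cast (extM C δ M) (δ M) (Fin.natAdd p k') (Fin.natAdd q l')).trans
          (ih k' l')

/-- the kernel -/
noncomputable def ker {p q : ℕ} (α : Fin p → ℝ) (β : Fin q → ℝ) (C : Matrix (Fin p) (Fin q) ℝ)
    (x y : ℝ) : ℝ :=
  ∑ i, ∑ j, Real.exp (x * α i) * C i j * Real.exp (y * β j)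

lemma ker_succ (α : Fin (p + 1) → ℝ) (β : Fin (q + 1) → ℝ) (C : Matrix (Fin p) (Fin q) ℝ)
    (δ x y : ℝ) : ker α β (ext C δ) x y =
      ker (fun i => α i.castSucc) (fun j => β j.castSucc) C x y +
        δ * Real.exp (x * α (Fin.last p) + y * β (Fin.last q)) := by
  unfold ker
  rw [Fin.sum_univ_castSucc, Fin.sum_univ_castSucc]
  congr 1
  · refine Finset.sum_congr rfl fun i _ => ?_
    rw [Fin.sum_univ_castSucc, ext_cast_last]
    simp only [ext_cast_cast]
    ring
  · rw [Finset.sum_eq_zero fun j _ => by rw [ext_last_cast]; ring, zero_add, ext_last_last,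
      Real.exp_add]
    ring

lemma ker_ext (α : Fin p → ℝ) (β : Fin q → ℝ) (δ : ℕ → ℝ) (R : ℝ) (M : ℕ) (x y : ℝ) :
    ker (expo α R M) (expo β R M) (extM C δ M) x y =
      ker α β C x y + ∑ k ∈ Finset.range M, δ k * Real.exp ((R + k) * (x + y)) := by
  induction M with
  | zero => simp [expo, extM]
  | succ M ih =>
    have h1 : ker (expo α R (M + 1)) (expo β R (M + 1)) (extM C δ (M + 1)) x y =
        ker (expo α R M) (expo β R M) (extM C δ M) x y + δ M * Real.exp ((R + M) * (x + y)) := by
      refine (ker_succ (expo α R (M + 1)) (expo β R (M + 1)) (extM C δ M) (δ M) x y).trans ?_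
      have e1 : (fun i : Fin (p + M) => expo α R (M + 1) (Fin.castSucc i)) = expo α R M :=
        funext fun i => expo_cast α R M i
      have e2 : (fun i : Fin (q + M) => expo β R (M + 1) (Fin.castSucc i)) = expo β R M :=
        funext fun i => expo_cast β R M i
      have e3 : x * expo α R (M + 1) (Fin.last (p + M)) + y * expo β R (M + 1) (Fin.last (q + M)) =
          (R + M) * (x + y) := by
        rw [expo_last, expo_last]; ring
      exact congrArg₂ (· + ·) (congrArg₂ (fun a b => ker a b (extM C δ M) x y) e1 e2)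
        (congrArg (fun z => δ M * Real.exp z) e3)
    rw [h1, ih, Finset.sum_range_succ]
    exact add_assoc _ _ _

/-- the determinant of the kernel is bounded below, uniformly in `M` -/
lemma det_lower {α : Fin p → ℝ} {β : Fin q → ℝ} {C : Matrix (Fin p) (Fin q) ℝ} (hC : TNmat C)
    (hα : StrictMono α) (hβ : StrictMono β) {δ : ℕ → ℝ} (hδ : ∀ k, 0 < δ k) {R : ℝ}
    (hRα : ∀ i, α i < R) (hRβ : ∀ j, β j < R) {n : ℕ} (x y : Fin n → ℝ) (hx : StrictMono x)
    (hy : StrictMono y) : ∃ c : ℝ, 0 < c ∧ ∀ M, n ≤ M →
    c ≤ (Matrix.of fun a b => ker (expo α R M) (expo β R M) (extM C δ M) (x a) (y b)).det := by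
  set dx := (Matrix.of fun (a b : Fin n) => Real.exp (x a * (R + b))).det with hdx
  set dy := (Matrix.of fun (a b : Fin n) => Real.exp (y b * (R + a))).det with hdy
  have hR1 : StrictMono fun b : Fin n => R + (b : ℝ) := by
    intro a b h
    have : (a : ℝ) < b := by exact_mod_cast h
    simpa using this
  have hdx0 : 0 < dx := expDet_pos n x _ hx hR1
  have hdy0 : 0 < dy := by
    have := expDet_pos n y _ hy hR1
    rw [← Matrix.det_transpose] at this
    exact this
  refine ⟨(n.factorial : ℝ)⁻¹ * (dx * ((n.factorial : ℝ)⁻¹ * ((∏ k : Fin n, δ k) * dy))), ?_, ?_⟩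
  · have : 0 < ∏ k : Fin n, δ k := Finset.prod_pos fun k _ => hδ k
    positivity
  · intro M hM
    set U : Matrix (Fin n) (Fin (p + M)) ℝ :=
      Matrix.of fun a i => Real.exp (x a * expo α R M i) with hU
    set V : Matrix (Fin (q + M)) (Fin n) ℝ :=
      Matrix.of fun j b => Real.exp (y b * expo β R M j) with hV
    have hprod : (Matrix.of fun a b => ker (expo α R M) (expo β R M) (extM C δ M) (x a) (y b)) =
        U * (extM C δ M * V) := by
      ext a b
      simp only [Matrix.mul_apply, Matrix.of_apply, ker, hU, hV, Finset.mul_sum]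
      exact Finset.sum_congr rfl fun i _ => Finset.sum_congr rfl fun j _ => by ring
    have hUpos : ∀ t : Fin n → Fin (p + M), StrictMono t → 0 ≤ (U.submatrix id t).det := by
      intro t ht
      exact (expDet_pos n x (fun b => expo α R M (t b)) hx
        ((expo_strictMono hα hRα M).comp ht)).le
    have hVpos : ∀ t : Fin n → Fin (q + M), StrictMono t → 0 ≤ (V.submatrix t id).det := by
      intro t ht
      have := (expDet_pos n y (fun b => expo β R M (t b)) hy
        ((expo_strictMono hβ hRβ M).comp ht)).le
      rw [← Matrix.det_transpose] at this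
      exact this
    have hCV : ∀ t : Fin n → Fin (p + M), StrictMono t →
        ∀ s : Fin n → Fin (q + M), 0 ≤ ((extM C δ M).submatrix t s).det * (V.submatrix s id).det := by
      intro t ht s
      exact term_nonneg ((extM C δ M).submatrix t id) V
        (fun s hs => hC.extM (fun k => (hδ k).le) M n t s ht hs) hVpos s
    have hCVsum : ∀ t : Fin n → Fin (p + M), ((extM C δ M * V).submatrix t id).det =
        (n.factorial : ℝ)⁻¹ * ∑ s : Fin n → Fin (q + M),
          ((extM C δ M).submatrix t s).det * (V.submatrix s id).det := by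
      intro t
      have e : (extM C δ M * V).submatrix t id = (extM C δ M).submatrix t id * V := by
        rw [Matrix.submatrix_mul _ _ t id id Function.bijective_id]
        simp
      rw [e, Pool.Agent.H801R3.SB.cauchyBinet]
      rfl
    have hCVpos : ∀ t : Fin n → Fin (p + M), StrictMono t →
        0 ≤ ((extM C δ M * V).submatrix t id).det := by
      intro t ht
      rw [hCVsum]
      exact mul_nonneg (by positivity) (Finset.sum_nonneg fun s _ => hCV t ht s)
    rw [hprod, Pool.Agent.H801R3.SB.cauchyBinet]
    refine mul_le_mul_of_nonneg_left ?_ (by positivity)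
    set t0 : Fin n → Fin (p + M) := fun k => Fin.natAdd p (Fin.castLE hM k) with ht0
    set s0 : Fin n → Fin (q + M) := fun k => Fin.natAdd q (Fin.castLE hM k) with hs0
    have ht0m : StrictMono t0 := fun a b h => by
      simp only [ht0, Fin.lt_def, Fin.val_natAdd, Fin.val_castLE]
      have : (a : ℕ) < b := h
      omega
    have hs0m : StrictMono s0 := fun a b h => by
      simp only [hs0, Fin.lt_def, Fin.val_natAdd, Fin.val_castLE]
      have : (a : ℕ) < b := h
      omega
    refine le_trans ?_ (Finset.single_le_sum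
      (f := fun t => (U.submatrix id t).det * ((extM C δ M * V).submatrix t id).det)
      (fun t _ => term_nonneg U (extM C δ M * V) hUpos hCVpos t) (Finset.mem_univ t0))
    have e1 : (U.submatrix id t0).det = dx := by
      rw [hdx]
      congr 1
      ext a b
      simp only [Matrix.submatrix_apply, id, hU, Matrix.of_apply, ht0]
      rw [expo_natAdd]
      simp
    have e2 : (n.factorial : ℝ)⁻¹ * ((∏ k : Fin n, δ k) * dy) ≤
        ((extM C δ M * V).submatrix t0 id).det := by
      rw [hCVsum]
      refine mul_le_mul_of_nonneg_left ?_ (by positivity)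
      refine le_trans ?_ (Finset.single_le_sum
        (f := fun s => ((extM C δ M).submatrix t0 s).det * (V.submatrix s id).det)
        (fun s _ => hCV t0 ht0m s) (Finset.mem_univ s0))
      have e3 : ((extM C δ M).submatrix t0 s0).det = ∏ k : Fin n, δ k := by
        have : (extM C δ M).submatrix t0 s0 = Matrix.diagonal fun k : Fin n => δ k := by
          ext a b
          simp only [Matrix.submatrix_apply, ht0, hs0]
          rw [extM_natAdd, Matrix.diagonal_apply]
          by_cases h : a = b
          · subst h; simp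
          · rw [if_neg h, if_neg]
            intro hc
            exact h (Fin.castLE_injective hM hc)
        rw [this, Matrix.det_diagonal]
      have e4 : (V.submatrix s0 id).det = dy := by
        rw [hdy]
        congr 1
        ext a b
        simp only [Matrix.submatrix_apply, id, hV, Matrix.of_apply, hs0]
        rw [expo_natAdd]
        simp
      rw [e3, e4]
    rw [e1]
    exact mul_le_mul_of_nonneg_left e2 hdx0.le

/-- strict total positivity of the perturbed kernel -/
theorem det_pos {α : Fin p → ℝ} {β : Fin q → ℝ} {C : Matrix (Fin p) (Fin q) ℝ} (hC : TNmat C)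
    (hα : StrictMono α) (hβ : StrictMono β) {δ : ℝ} (hδ : 0 < δ) {R : ℝ}
    (hRα : ∀ i, α i < R) (hRβ : ∀ j, β j < R) {n : ℕ} (x y : Fin n → ℝ) (hx : StrictMono x)
    (hy : StrictMono y) :
    0 < (Matrix.of fun a b => ker α β C (x a) (y b) +
      δ * Real.exp (R * (x a + y b)) * Real.exp (Real.exp (x a + y b))).det := by
  obtain ⟨c, hc, hle⟩ := det_lower (δ := fun k => δ / k.factorial) hC hα hβ
    (fun k => by positivity) hRα hRβ x y hx hy
  refine hc.trans_le ?_
  have hlim : ∀ s : ℝ, Filter.Tendsto (fun M : ℕ => ∑ k ∈ Finset.range M,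
      δ / k.factorial * Real.exp ((R + k) * s)) Filter.atTop
      (nhds (δ * Real.exp (R * s) * Real.exp (Real.exp s))) := by
    intro s
    have h1 := (NormedSpace.expSeries_div_hasSum_exp (𝔸 := ℝ) (Real.exp s)).tendsto_sum_nat
    rw [← Real.exp_eq_exp_ℝ] at h1
    have h2 := h1.const_mul (δ * Real.exp (R * s))
    refine h2.congr fun M => ?_
    rw [Finset.mul_sum]
    refine Finset.sum_congr rfl fun k _ => ?_
    have : (R + k) * s = R * s + k * s := by ring
    rw [this, Real.exp_add, Real.exp_nat_mul]
    ring
  have hcont : Filter.Tendsto (fun M : ℕ => (Matrix.of fun a b =>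
      ker (expo α R M) (expo β R M) (extM C (fun k => δ / k.factorial) M) (x a) (y b)).det)
      Filter.atTop (nhds (Matrix.of fun a b => ker α β C (x a) (y b) +
      δ * Real.exp (R * (x a + y b)) * Real.exp (Real.exp (x a + y b))).det) := by
    refine ((Continuous.matrix_det continuous_id).tendsto _).comp ?_
    refine tendsto_pi_nhds.2 fun a => tendsto_pi_nhds.2 fun b => ?_
    simp only [Matrix.of_apply, ker_ext]
    exact (hlim (x a + y b)).const_add _
  refine ge_of_tendsto hcont ?_
  filter_upwards [Filter.eventually_ge_atTop n] with M hM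
  exact hle M hM

end Pool.Agent.R285.TNExt
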