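import Mathlib
import Pool.Agent.R285.RPCPot

/-!
# A Schur product implication for `3 × 3` matrices
-/

set_option autoImplicit false

namespace Pool.Agent.R285.ThreeByThree

open Matrix Pool.Agent.R285.RPCK
open scoped ComplexOrder

/-- If `B ⪰ 0` and `(γ J - B) ∘ (4 I - J) ⪰ 0` then `(γ J - B) ∘ (I + J) ⪰ 0`. -/
theorem three (γ : ℝ) (B : Matrix (Fin 3) (Fin 3) ℂ) (hB : B.PosSemidef)
    (hX : (Matrix.of fun i j => ((γ : ℂ) - B i j) * (if i = j then 3 else -1) :
      Matrix (Fin 3) (Fin 3) ℂ).PosSemidef) :
    (Matrix.of fun i j => ((γ : ℂ) - B i j) * (if i = j then 2 else 1) :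
      Matrix (Fin 3) (Fin 3) ℂ).PosSemidef := by
  set X : Matrix (Fin 3) (Fin 3) ℂ :=
    Matrix.of fun i j => ((γ : ℂ) - B i j) * (if i = j then 3 else -1) with hXdef
  set D : Fin 3 → ℝ := fun i => γ - (B i i).re with hD
  have hBii : ∀ i, B i i = ((B i i).re : ℂ) := fun i => diag_coe hB i
  have hXii : ∀ i, X i i = ((3 * D i : ℝ) : ℂ) := by
    intro i
    simp only [hXdef, Matrix.of_apply, if_true, hD]
    rw [hBii i]
    simp
    ring
  have hDnn : ∀ i, 0 ≤ D i := by
    intro i
    have h1 := diag_re hX i
    rw [hXii i] at h1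
    have h2 : (0 : ℝ) ≤ 3 * D i := by simpa using h1
    linarith
  by_cases hz : ∃ i, D i = 0
  · -- degenerate case
    obtain ⟨i, hi⟩ := hz
    have hrow : ∀ a, B i a = γ := by
      intro a
      have h1 : X i a = 0 := by
        refine row_zero' hX (j := i) ?_ a
        rw [hXii i, hi]; simp
      simp only [hXdef, Matrix.of_apply] at h1
      rcases mul_eq_zero.1 h1 with h | h
      · exact (sub_eq_zero.1 h).symm
      · split_ifs at h <;> norm_num at h
    have hDz : ∀ a, D a = 0 := by
      intro a
      refine le_antisymm ?_ (hDnn a)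
      by_cases hia : i = a
      · rw [← hia, hi]
      have h1 := hB.re_dotProduct_nonneg (Pi.single i 1 - Pi.single a 1)
      have h2 : star (Pi.single i (1 : ℂ) - Pi.single a 1) ⬝ᵥ (B *ᵥ (Pi.single i 1 - Pi.single a 1)) =
          B i i - B i a - B a i + B a a := by
        rw [star_sub, ← Pi.single_star, ← Pi.single_star, star_one, Matrix.mulVec_sub,
          Matrix.mulVec_single_one, Matrix.mulVec_single_one, sub_dotProduct,
          single_one_dotProduct, single_one_dotProduct]
        simp only [Pi.sub_apply, Matrix.col_apply]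
        ring
      have h3 : B a i = γ := by
        rw [← herm hB i a, hrow a]; simp
      rw [h2, hrow a, hrow i, h3, hBii a] at h1
      simp at h1
      simp only [hD]
      linarith
    have hXz : X = 0 := by
      rw [← hX.trace_eq_zero_iff, Matrix.trace]
      refine Finset.sum_eq_zero fun a _ => ?_
      rw [Matrix.diag_apply, hXii a, hDz a]; simp
    have hY : (Matrix.of fun i j => ((γ : ℂ) - B i j) * (if i = j then 2 else 1) :
      Matrix (Fin 3) (Fin 3) ℂ) = 0 := by
      ext a b
      have h1 : X a b = 0 := by rw [hXz]; rfl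
      simp only [hXdef, Matrix.of_apply] at h1
      rcases mul_eq_zero.1 h1 with h | h
      · simp only [Matrix.of_apply, h, zero_mul, Matrix.zero_apply]
      · split_ifs at h <;> norm_num at h
    rw [hY]
    exact PosSemidef.zero
  · push Not at hz
    have hDpos : ∀ i, 0 < D i := fun i => lt_of_le_of_ne (hDnn i) (Ne.symm (hz i))
    set s : Fin 3 → ℝ := fun i => Real.sqrt (D i) with hs
    have hs0 : ∀ i, 0 < s i := fun i => Real.sqrt_pos.2 (hDpos i)
    have hss : ∀ i, s i * s i = D i := fun i => Real.mul_self_sqrt (hDnn i)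
    set G : Matrix (Fin 3) (Fin 3) ℂ := diagonal fun i => (((s i)⁻¹ : ℝ) : ℂ) with hG
    have hGher : Gᴴ = G := by
      rw [hG, Matrix.diagonal_conjTranspose]
      congr 1
      funext i
      simp
    set C : Matrix (Fin 3) (Fin 3) ℂ := Matrix.of fun i j => (γ : ℂ) - B i j with hC
    have hCher : Cᴴ = C := by
      ext i j
      simp only [hC, Matrix.conjTranspose_apply, Matrix.of_apply, star_sub, herm hB j i]
      simp
    set C' := G * C * G with hC'
    have hC'her : C'.IsHermitian := by
      have : C'ᴴ = C' := by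
        rw [hC', Matrix.conjTranspose_mul (G * C) G, Matrix.conjTranspose_mul G C, hGher, hCher]
        exact (Matrix.mul_assoc G C G).symm
      exact this
    have hC'ii : ∀ i, C' i i = 1 := by
      intro i
      have : C' i i = (((s i)⁻¹ * (γ - (B i i).re) * (s i)⁻¹ : ℝ) : ℂ) := by
        simp only [hC', hG, hC, Matrix.mul_diagonal, Matrix.diagonal_mul, Matrix.of_apply]
        rw [hBii i]
        push_cast
        rfl
      rw [this]
      have h2 : (s i)⁻¹ * (γ - (B i i).re) * (s i)⁻¹ = 1 := by
        have h3 : γ - (B i i).re = s i * s i := (hss i).symm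
        rw [h3]
        have := (hs0 i).ne'
        field_simp
      rw [h2]; simp
    -- eigenvalues of `C'`
    set U := UA hC'her with hU
    set lam := hC'her.eigenvalues with hlam
    have hUU : Uᴴ * U = 1 := UA_unit hC'her
    have htrace : lam 0 + lam 1 + lam 2 = 3 := by
      have h1 := sum_eigenvalues hC'her
      rw [Fin.sum_univ_three] at h1
      rw [hlam, h1, tr, Fin.sum_univ_three, hC'ii, hC'ii, hC'ii]
      norm_num
    have hle4 : ∀ i, lam i ≤ 4 := by
      intro i
      have h1 : G * X * G = (4 : ℂ) • (1 : Matrix (Fin 3) (Fin 3) ℂ) - C' := by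
        ext a b
        have hne := (hs0 a).ne'
        simp only [hC', hG, hC, hXdef, Matrix.mul_diagonal, Matrix.diagonal_mul, Matrix.of_apply,
          Matrix.sub_apply, Matrix.smul_apply, smul_eq_mul]
        by_cases hab : a = b
        · subst hab
          have h2 := hC'ii a
          simp only [hC', hG, hC, Matrix.mul_diagonal, Matrix.diagonal_mul, Matrix.of_apply] at h2
          rw [if_pos rfl, Matrix.one_apply_eq]
          linear_combination 4 * h2
        · rw [if_neg hab, Matrix.one_apply_ne hab]
          ring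
      have h2 : (G * X * G).PosSemidef := by
        have := hX.mul_mul_conjTranspose_same G
        rwa [hGher] at this
      rw [h1] at h2
      have h3 := dg_nonneg U h2 i
      have e4 : (4 : ℂ) = ((4 : ℝ) : ℂ) := by norm_num
      rw [dg_sub, e4] at h3
      have h5 := dg_smul U (1 : Matrix (Fin 3) (Fin 3) ℂ) 4 i
      have h6 : dg U (((4 : ℝ) : ℂ) • (1 : Matrix (Fin 3) (Fin 3) ℂ)) i = 4 * dg U 1 i := h5
      rw [h6, dg_one hUU, hU, dg_eig] at h3
      linarith
    -- at most one positive eigenvalue
    have hone : ∀ j k, j ≠ k → 0 < lam j → 0 < lam k → False := by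
      intro j k hjk hj hk
      set d : Fin 3 → ℂ := fun i => (((s i)⁻¹ : ℝ) : ℂ) with hd
      set e : Fin 3 → ℂ := d ᵥ* U with he
      set B' := Uᴴ * (G * B * G) * U with hB'
      have hB'psd : B'.PosSemidef := by
        have h1 : (G * B * G).PosSemidef := by
          have := hB.mul_mul_conjTranspose_same G
          rwa [hGher] at this
        exact h1.conjTranspose_mul_mul_same U
      have hCeq : C' = (γ : ℂ) • vecMulVec d d - G * B * G := by
        ext a b
        simp only [hC', hG, hC, Matrix.mul_diagonal, Matrix.diagonal_mul, Matrix.of_apply,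
          Matrix.sub_apply, Matrix.smul_apply, smul_eq_mul, vecMulVec_apply, hd]
        ring
      have hdiag : diagonal (fun i => ((lam i : ℝ) : ℂ)) =
          (γ : ℂ) • vecMulVec (Uᴴ *ᵥ d) e - B' := by
        have h1 : Uᴴ * C' * U = diagonal (fun i => ((lam i : ℝ) : ℂ)) := UA_conj hC'her
        have h2 : Uᴴ * C' * U = Uᴴ * ((γ : ℂ) • vecMulVec d d - G * B * G) * U := by
          rw [← hCeq]
        rw [← h1, h2, Matrix.mul_sub, Matrix.sub_mul, Matrix.mul_smul, Matrix.smul_mul,
          Matrix.mul_vecMulVec, Matrix.vecMulVec_mul]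
      have hval : ∀ y : Fin 3 → ℂ, e ⬝ᵥ y = 0 →
          ∑ i, lam i * ‖y i‖ ^ 2 ≤ 0 := by
        intro y hy
        have h1 := hB'psd.re_dotProduct_nonneg y
        have h2 : star y ⬝ᵥ (diagonal (fun i => ((lam i : ℝ) : ℂ)) *ᵥ y) =
            -(star y ⬝ᵥ (B' *ᵥ y)) := by
          rw [hdiag, Matrix.sub_mulVec, dotProduct_sub, Matrix.smul_mulVec, dotProduct_smul,
            Matrix.vecMulVec_mulVec, hy]
          simp
        have h3 : star y ⬝ᵥ (diagonal (fun i => ((lam i : ℝ) : ℂ)) *ᵥ y) =
            ((∑ i, lam i * ‖y i‖ ^ 2 : ℝ) : ℂ) := by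
          rw [dotProduct, Complex.ofReal_sum]
          refine Finset.sum_congr rfl fun i _ => ?_
          rw [Matrix.mulVec_diagonal, Pi.star_apply, Complex.ofReal_mul]
          have h4 : star (y i) * y i = ((‖y i‖ ^ 2 : ℝ) : ℂ) := by
            rw [RCLike.star_def, RCLike.conj_mul]; norm_cast
          rw [← h4]; ring
        rw [h3] at h2
        have h5 := congrArg Complex.re h2
        rw [Complex.ofReal_re, Complex.neg_re] at h5
        rw [h5]
        have h6 : 0 ≤ (star y ⬝ᵥ (B' *ᵥ y)).re := h1
        linarith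
      by_cases hej : e j = 0 ∧ e k = 0
      · have h1 := hval (Pi.single j 1) (by rw [dotProduct_single_one]; exact hej.1)
        have h2 : ∑ i, lam i * ‖(Pi.single j 1 : Fin 3 → ℂ) i‖ ^ 2 = lam j := by
          rw [Finset.sum_eq_single j]
          · simp
          · intro i _ hi
            rw [Pi.single_eq_of_ne hi]; simp
          · intro h; exact absurd (Finset.mem_univ j) h
        linarith
      · set y : Fin 3 → ℂ := Pi.single j (e k) - Pi.single k (e j) with hy
        have hey : e ⬝ᵥ y = 0 := by
          rw [hy, dotProduct_sub, dotProduct_single, dotProduct_single]; ring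
        have h1 := hval y hey
        have hyj : y j = e k := by
          rw [hy, Pi.sub_apply, Pi.single_eq_same, Pi.single_eq_of_ne hjk, sub_zero]
        have hyk : y k = -e j := by
          rw [hy, Pi.sub_apply, Pi.single_eq_same, Pi.single_eq_of_ne hjk.symm, zero_sub]
        have h2 : lam j * ‖e k‖ ^ 2 + lam k * ‖e j‖ ^ 2 = ∑ i, lam i * ‖y i‖ ^ 2 := by
          have h3 : ∑ i, lam i * ‖y i‖ ^ 2 = ∑ i ∈ {j, k}, lam i * ‖y i‖ ^ 2 := by
            symm
            refine Finset.sum_subset (Finset.subset_univ _) fun i _ hi => ?_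
            rw [Finset.mem_insert, Finset.mem_singleton, not_or] at hi
            have : y i = 0 := by
              rw [hy, Pi.sub_apply, Pi.single_eq_of_ne hi.1, Pi.single_eq_of_ne hi.2, sub_zero]
            rw [this]; simp
          rw [h3, Finset.sum_pair hjk, hyj, hyk, norm_neg]
        have h3 : 0 < lam j * ‖e k‖ ^ 2 + lam k * ‖e j‖ ^ 2 := by
          rw [not_and_or] at hej
          rcases hej with h | h
          · have : 0 < ‖e j‖ := norm_pos_iff.2 h
            have h4 : 0 ≤ lam j * ‖e k‖ ^ 2 := by positivity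
            have h5 : 0 < lam k * ‖e j‖ ^ 2 := by positivity
            linarith
          · have : 0 < ‖e k‖ := norm_pos_iff.2 h
            have h4 : 0 < lam j * ‖e k‖ ^ 2 := by positivity
            have h5 : 0 ≤ lam k * ‖e j‖ ^ 2 := by positivity
            linarith
        linarith
    have hge : ∀ i, -1 ≤ lam i := by
      have a4 := hle4 0
      have b4 := hle4 1
      have c4 := hle4 2
      have h01 : ¬ (0 < lam 0 ∧ 0 < lam 1) := fun h => hone 0 1 (by decide) h.1 h.2
      have h02 : ¬ (0 < lam 0 ∧ 0 < lam 2) := fun h => hone 0 2 (by decide) h.1 h.2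
      have h12 : ¬ (0 < lam 1 ∧ 0 < lam 2) := fun h => hone 1 2 (by decide) h.1 h.2
      rw [not_and_or, not_lt, not_lt] at h01 h02 h12
      intro i
      fin_cases i
      · change -1 ≤ lam 0
        rcases h12 with h | h <;> linarith
      · change -1 ≤ lam 1
        rcases h02 with h | h <;> linarith
      · change -1 ≤ lam 2
        rcases h01 with h | h <;> linarith
    -- conclusion
    have h1C : (1 + C').PosSemidef := by
      have h1 : 1 + C' = U * diagonal (fun i => ((1 + lam i : ℝ) : ℂ)) * Uᴴ := by
        have h2 : diagonal (fun i => ((1 + lam i : ℝ) : ℂ)) =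
            1 + diagonal (fun i => ((lam i : ℝ) : ℂ)) := by
          rw [← Matrix.diagonal_one, Matrix.diagonal_add]
          congr 1
          funext i
          simp
        have h3 : C' = U * diagonal (fun i => ((lam i : ℝ) : ℂ)) * Uᴴ := spectral hC'her
        rw [h2, Matrix.mul_add, Matrix.add_mul, ← h3, Matrix.mul_one, UA_unit']
      rw [h1]
      refine PosSemidef.mul_mul_conjTranspose_same ?_ _
      refine PosSemidef.diagonal fun i => ?_
      have := hge i
      have h4 : (0 : ℂ) ≤ ((1 + lam i : ℝ) : ℂ) := by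
        rw [Complex.zero_le_real]; linarith
      exact h4
    set E : Matrix (Fin 3) (Fin 3) ℂ := diagonal fun i => ((s i : ℝ) : ℂ) with hE
    have hEher : Eᴴ = E := by
      rw [hE, Matrix.diagonal_conjTranspose]
      congr 1
      funext i
      simp
    have hY : (Matrix.of fun i j => ((γ : ℂ) - B i j) * (if i = j then 2 else 1) :
        Matrix (Fin 3) (Fin 3) ℂ) = E * (1 + C') * E := by
      ext a b
      have hne := (hs0 a).ne'
      have hneb := (hs0 b).ne'
      simp only [hC', hG, hC, hE, Matrix.mul_diagonal, Matrix.diagonal_mul, Matrix.of_apply,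
        Matrix.add_apply]
      have hsa : ((s a : ℝ) : ℂ) ≠ 0 := by exact_mod_cast hne
      have hsb : ((s b : ℝ) : ℂ) ≠ 0 := by exact_mod_cast hneb
      by_cases hab : a = b
      · subst hab
        rw [if_pos rfl, Matrix.one_apply_eq]
        have h3 : (γ : ℂ) - B a a = ((s a : ℝ) : ℂ) * ((s a : ℝ) : ℂ) := by
          rw [hBii a, ← Complex.ofReal_sub, ← Complex.ofReal_mul, hss a]
        rw [h3, Complex.ofReal_inv]
        field_simp
        norm_num
      · rw [if_neg hab, Matrix.one_apply_ne hab, Complex.ofReal_inv, Complex.ofReal_inv]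
        field_simp
        ring
    rw [hY]
    have := h1C.mul_mul_conjTranspose_same E
    rwa [hEher] at this

end Pool.Agent.R285.ThreeByThree
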